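import Pool.Agent.P.MP_708877_co.Full.Defs

/-!
Exact linear algebra over the ring of numbers `a + b √5`.
-/

namespace Pool.Agent.P.MP_708877_co

abbrev Z5 : Type := ℤ × ℤ

def zm : Z5 → Z5 → Z5
  | (a, b), (c, d) =>
    (Int.add (Int.mul a c) (Int.mul (Int.ofNat (nat_lit 5)) (Int.mul b d)),
      Int.add (Int.mul a d) (Int.mul b c))
def za : Z5 → Z5 → Z5
  | (a, b), (c, d) => (Int.add a c, Int.add b d)
def zs : Z5 → Z5 → Z5
  | (a, b), (c, d) => (Int.sub a c, Int.sub b d)
def iz : ℤ → Bool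
  | .ofNat n => Nat.beq n (nat_lit 0)
  | .negSucc _ => false
def zz : Z5 → Bool
  | (a, b) => bif iz a then iz b else false
def inn : ℤ → Bool
  | .ofNat _ => true
  | .negSucc _ => false
/-- A sufficient test for positivity. -/
def zpos : Z5 → Bool
  | (a, b) => inn a && inn b && !zz (a, b)

theorem s5 : √5 * √5 = (5 : ℝ) := Real.mul_self_sqrt (by norm_num)

@[simp] theorem num_zm (a b : Z5) : num (zm a b) = num a * num b := by
  obtain ⟨c, d⟩ := b
  obtain ⟨a, b⟩ := a
  simp only [zm, num, Int.add_def, Int.mul_def, Int.ofNat_eq_natCast]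
  push_cast
  linear_combination (-(b * d) : ℝ) * s5
@[simp] theorem num_za (a b : Z5) : num (za a b) = num a + num b := by
  obtain ⟨c, d⟩ := b
  obtain ⟨a, b⟩ := a
  simp only [za, num, Int.add_def]
  push_cast
  ring
@[simp] theorem num_zs (a b : Z5) : num (zs a b) = num a - num b := by
  obtain ⟨c, d⟩ := b
  obtain ⟨a, b⟩ := a
  change num (a - c, b - d) = _
  simp only [num]
  push_cast
  ring
@[simp] theorem num_zero : num (0, 0) = 0 := by simp [num]
@[simp] theorem num_one : num (1, 0) = 1 := by simp [num]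
@[simp] theorem num_int (a : ℤ) : num (a, 0) = a := by simp [num]

theorem iz_iff {a : ℤ} : iz a = true ↔ a = 0 := by
  cases a with
  | ofNat n => simp [iz]
  | negSucc n => simp [iz, Int.negSucc_ne_zero]

theorem zz_iff {a : Z5} : zz a = true ↔ a = (0, 0) := by
  obtain ⟨a, b⟩ := a
  simp only [zz, Prod.mk.injEq, ← iz_iff]
  cases iz a <;> simp

theorem num_eq_zero {a : Z5} (h : num a = 0) : a = (0, 0) := by
  obtain ⟨a, b⟩ := a
  have ir : Irrational √5 := by simpa using Nat.Prime.irrational_sqrt (p := 5) (by norm_num)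
  simp only [num] at h
  by_cases hb : b = 0
  · subst hb
    simpa using h
  · exfalso
    have := (ir.intCast_mul hb).intCast_add a
    rw [h] at this
    exact this ⟨0, by simp⟩

theorem num_ne_zero {a : Z5} (h : zz a = false) : num a ≠ 0 := fun e => by
  rw [zz_iff.2 (num_eq_zero e)] at h
  exact absurd h (by simp)

theorem num_of_zz {a : Z5} (h : zz a = true) : num a = 0 := by rw [zz_iff.1 h, num_zero]

theorem num_pos {a : Z5} (h : zpos a = true) : 0 < num a := by
  obtain ⟨a, b⟩ := a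
  simp only [zpos, Bool.and_eq_true, Bool.not_eq_eq_eq_not, Bool.not_true] at h
  have k : ∀ a : ℤ, inn a = true → (0 : ℝ) ≤ a := fun a h => by
    cases a with
    | ofNat n => simp
    | negSucc n => simp [inn] at h
  have := k a h.1.1
  have := k b h.1.2
  exact lt_of_le_of_ne (by simp only [num]; positivity) (num_ne_zero h.2).symm

/-- Six coefficients. -/
structure Q6 where
  X : Z5
  Y : Z5
  Z : Z5
  U : Z5
  V : Z5
  T : Z5

/-- Six real values. -/
structure R6 where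
  X : ℝ
  Y : ℝ
  Z : ℝ
  U : ℝ
  V : ℝ
  T : ℝ

noncomputable def Q6.ev (q : Q6) (m : R6) : ℝ :=
  num q.X * m.X + num q.Y * m.Y + num q.Z * m.Z + num q.U * m.U + num q.V * m.V + num q.T * m.T

def Q6.get : Q6 → ℕ → Z5
  | ⟨a, _, _, _, _, _⟩, 0 => a
  | ⟨_, a, _, _, _, _⟩, 1 => a
  | ⟨_, _, a, _, _, _⟩, 2 => a
  | ⟨_, _, _, a, _, _⟩, 3 => a
  | ⟨_, _, _, _, a, _⟩, 4 => a
  | ⟨_, _, _, _, _, a⟩, _ => a

def zl (a x b y : Z5) : Z5 := zs (zm a x) (zm b y)

def Q6.lin (a : Z5) : Q6 → Z5 → Q6 → Q6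
  | ⟨x1, x2, x3, x4, x5, x6⟩, b, ⟨y1, y2, y3, y4, y5, y6⟩ =>
    ⟨zl a x1 b y1, zl a x2 b y2, zl a x3 b y3, zl a x4 b y4, zl a x5 b y5, zl a x6 b y6⟩
def Q6.sub : Q6 → Q6 → Q6
  | ⟨x1, x2, x3, x4, x5, x6⟩, ⟨y1, y2, y3, y4, y5, y6⟩ =>
    ⟨zs x1 y1, zs x2 y2, zs x3 y3, zs x4 y4, zs x5 y5, zs x6 y6⟩
def Q6.add : Q6 → Q6 → Q6
  | ⟨x1, x2, x3, x4, x5, x6⟩, ⟨y1, y2, y3, y4, y5, y6⟩ =>
    ⟨za x1 y1, za x2 y2, za x3 y3, za x4 y4, za x5 y5, za x6 y6⟩
def Q6.sm (a : Z5) : Q6 → Q6
  | ⟨x1, x2, x3, x4, x5, x6⟩ => ⟨zm a x1, zm a x2, zm a x3, zm a x4, zm a x5, zm a x6⟩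
def Q6.zero : Q6 := ⟨(0, 0), (0, 0), (0, 0), (0, 0), (0, 0), (0, 0)⟩

@[simp] theorem ev_lin (a b : Z5) (p q : Q6) (m : R6) :
    (Q6.lin a p b q).ev m = num a * p.ev m - num b * q.ev m := by
  simp only [Q6.lin, Q6.ev, zl, num_zs, num_zm]; ring
@[simp] theorem ev_sub (p q : Q6) (m : R6) : (p.sub q).ev m = p.ev m - q.ev m := by
  simp only [Q6.sub, Q6.ev, num_zs]; ring
@[simp] theorem ev_add (p q : Q6) (m : R6) : (p.add q).ev m = p.ev m + q.ev m := by
  simp only [Q6.add, Q6.ev, num_za]; ring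
@[simp] theorem ev_sm (a : Z5) (q : Q6) (m : R6) : (q.sm a).ev m = num a * q.ev m := by
  simp only [Q6.sm, Q6.ev, num_zm]; ring
@[simp] theorem ev_zero (m : R6) : Q6.zero.ev m = 0 := by simp [Q6.zero, Q6.ev]

/-- The index of the first non-zero coefficient, or six. -/
def Q6.lead : Q6 → ℕ
  | ⟨a, b, c, d, e, f⟩ => bif zz a then bif zz b then bif zz c then bif zz d then bif zz e then
      bif zz f then 6 else 5 else 4 else 3 else 2 else 1 else 0

theorem lead_spec (q : Q6) (m : R6) :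
    (q.lead = 6 ∧ q.ev m = 0) ∨ (q.lead ≠ 6 ∧ zz (q.get q.lead) = false) := by
  obtain ⟨a, b, c, d, e, f⟩ := q
  cases ha : zz a <;> cases hb : zz b <;> cases hc : zz c <;> cases hd : zz d <;>
    cases he : zz e <;> cases hf : zz f <;>
    simp [Q6.lead, Q6.get, Q6.ev, num_of_zz, *]

/-- Rows with pivot positions. -/
abbrev Ech : Type := List (ℕ × Q6)

def red1 (j : ℕ) (r q : Q6) (b : Z5) : Q6 := bif zz b then q else Q6.lin (r.get j) q b r

def red1' (j : ℕ) (r q : Q6) : Q6 := red1 j r q (q.get j)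

def red (W : Ech) (q : Q6) : Q6 :=
  match W with
  | [] => q
  | (j, r) :: W => red1' j r (red W q)

def ins1 (W : Ech) (q : Q6) (j : ℕ) : Ech := bif Nat.beq j 6 then W else (j, q) :: W

def ins1' (W : Ech) (q : Q6) : Ech := ins1 W q q.lead

def ins (W : Ech) (q : Q6) : Ech := ins1' W (red W q)

def mem (W : Ech) (q : Q6) : Bool := Nat.beq (red W q).lead 6

def insL (W : Ech) : List Q6 → Ech
  | [] => W
  | q :: l => ins (insL W l) q

/-- All rows vanish at `m` and have non-zero pivots. -/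
def Van (W : Ech) (m : R6) : Prop := ∀ r ∈ W, r.2.ev m = 0 ∧ zz (r.2.get r.1) = false

theorem van_nil (m : R6) : Van [] m := fun _ h => nomatch h

theorem Van.red {W : Ech} {m : R6} (h : Van W m) (q : Q6) : (red W q).ev m = 0 ↔ q.ev m = 0 := by
  induction W with
  | nil => rfl
  | cons r W ih =>
    obtain ⟨j, r⟩ := r
    have h1 := h _ List.mem_cons_self
    rw [← ih fun r hr => h r (List.mem_cons_of_mem _ hr)]
    simp only [MP_708877_co.red, red1', red1]
    cases zz ((MP_708877_co.red W q).get j)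
    · simp [h1.1, num_ne_zero h1.2]
    · rfl

theorem Van.mem {W : Ech} {m : R6} (h : Van W m) {q : Q6} (k : mem W q = true) : q.ev m = 0 := by
  rw [← h.red]
  rcases lead_spec (MP_708877_co.red W q) m with e | e
  · exact e.2
  · exact absurd (Nat.eq_of_beq_eq_true k) e.1

theorem Van.ins {W : Ech} {m : R6} (h : Van W m) {q : Q6} (k : q.ev m = 0) : Van (ins W q) m := by
  simp only [MP_708877_co.ins, ins1', ins1]
  cases e : Nat.beq (MP_708877_co.red W q).lead 6
  · intro r hr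
    rcases List.mem_cons.1 hr with rfl | hr
    · refine ⟨(h.red q).2 k, ?_⟩
      rcases lead_spec (MP_708877_co.red W q) m with e' | e'
      · simp [e'.1] at e
      · exact e'.2
    · exact h r hr
  · exact h

theorem Van.insL {W : Ech} {m : R6} (h : Van W m) {l : List Q6} (k : ∀ q ∈ l, q.ev m = 0) :
    Van (insL W l) m := by
  induction l with
  | nil => exact h
  | cons q l ih =>
    exact (ih fun q hq => k q (List.mem_cons_of_mem _ hq)).ins (k q List.mem_cons_self)

/-- A linear form. -/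
structure L3 where
  x : Z5
  y : Z5
  z : Z5

noncomputable def L3.ev (l : L3) (v : E3) : ℝ := num l.x * v 0 + num l.y * v 1 + num l.z * v 2

/-- The quadratic monomials. -/
noncomputable def mon (v : E3) : R6 :=
  ⟨v 0 * v 0, v 1 * v 1, v 2 * v 2, v 0 * v 1, v 0 * v 2, v 1 * v 2⟩

def lmul : L3 → L3 → Q6
  | ⟨a, b, c⟩, ⟨d, e, f⟩ =>
    ⟨zm a d, zm b e, zm c f, za (zm a e) (zm b d), za (zm a f) (zm c d), za (zm b f) (zm c e)⟩

@[simp] theorem ev_lmul (l k : L3) (v : E3) : (lmul l k).ev (mon v) = l.ev v * k.ev v := by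
  simp only [lmul, Q6.ev, L3.ev, mon, num_za, num_zm]; ring

/-- The products of a linear form with the coordinates. -/
def lR1 : L3 → List Q6
  | ⟨a, b, c⟩ => [⟨a, (0, 0), (0, 0), b, c, (0, 0)⟩, ⟨(0, 0), b, (0, 0), a, (0, 0), c⟩,
      ⟨(0, 0), (0, 0), c, (0, 0), a, b⟩]

theorem ev_lR1 {l : L3} {v : E3} (h : l.ev v = 0) : ∀ q ∈ lR1 l, q.ev (mon v) = 0 := by
  simp only [L3.ev] at h
  simp only [lR1, List.mem_cons, List.not_mem_nil, or_false, forall_eq_or_imp, forall_eq, Q6.ev,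
    mon, num_zero]
  exact ⟨by linear_combination v 0 * h, by linear_combination v 1 * h,
    by linear_combination v 2 * h⟩

def insF (W : Ech) : List L3 → Ech
  | [] => W
  | l :: r => insL (insF W r) (lR1 l)

theorem Van.insF {W : Ech} {v : E3} (h : Van W (mon v)) {l : List L3} (k : ∀ q ∈ l, q.ev v = 0) :
    Van (insF W l) (mon v) := by
  induction l with
  | nil => exact h
  | cons q l ih =>
    exact (ih fun q hq => k q (List.mem_cons_of_mem _ hq)).insL (ev_lR1 (k q List.mem_cons_self))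

/-- A weighted sum of squares. -/
def sos : List (Z5 × L3) → Q6
  | [] => Q6.zero
  | (a, l) :: r => ((lmul l l).sm a).add (sos r)

theorem sos_zero {s : List (Z5 × L3)} {v : E3} (hp : ∀ p ∈ s, zpos p.1 = true) :
    0 ≤ (sos s).ev (mon v) ∧ ((sos s).ev (mon v) = 0 → ∀ l ∈ s.map Prod.snd, l.ev v = 0) := by
  induction s with
  | nil => simp [sos]
  | cons p s ih =>
    obtain ⟨a, l⟩ := p
    have ih := ih fun q hq => hp q (List.mem_cons_of_mem _ hq)
    have ha := num_pos (hp _ List.mem_cons_self)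
    have h1 : 0 ≤ num a * (l.ev v * l.ev v) := mul_nonneg ha.le (mul_self_nonneg _)
    simp only [sos, ev_add, ev_sm, ev_lmul]
    refine ⟨add_nonneg h1 ih.1, fun e k hk => ?_⟩
    rcases List.mem_cons.1 hk with rfl | hk
    · have : num a * (k.ev v * k.ev v) = 0 := by linarith [ih.1]
      simpa [ha.ne'] using this
    · exact ih.2 (by linarith [ih.1]) k hk

end Pool.Agent.P.MP_708877_co
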