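import Pool.Agent.P.MP_708877_co.Full.AuxT

/-!
Checking the sites.
-/

namespace Pool.Agent.P.MP_708877_co

theorem cosets_ok : cosets.all Ctx.okc = true := by decide +kernel

theorem full1 : fullOk cosets row1 ax1 = true := by decide +kernel

theorem full4 : fullOk cosets row4 ax4 = true := by decide +kernel

theorem full9 : fullOk cosets row9 ax9 = true := by decide +kernel

theorem full12 : fullOk cosets row12 ax12 = true := by decide +kernel

theorem full16 : fullOk cosets row16 ax16 = true := by decide +kernel

theorem full19 : fullOk cosets row19 ax19 = true := by decide +kernel

theorem full22 : fullOk cosets row22 ax22 = true := by decide +kernel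

theorem full27 : fullOk cosets row27 ax27 = true := by decide +kernel

theorem full29 : fullOk cosets row29 ax29 = true := by decide +kernel

theorem full32 : fullOk cosets row32 ax32 = true := by decide +kernel

end Pool.Agent.P.MP_708877_co
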