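import Pool.Agent.P.MP_708877_co.Full.AuxT

/-!
Checking the sites.
-/

namespace Pool.Agent.P.MP_708877_co

theorem full2 : fullOk cosets row2 ax2 = true := by decide +kernel

theorem full5 : fullOk cosets row5 ax5 = true := by decide +kernel

theorem full8 : fullOk cosets row8 ax8 = true := by decide +kernel

theorem full11 : fullOk cosets row11 ax11 = true := by decide +kernel

theorem full14 : fullOk cosets row14 ax14 = true := by decide +kernel

theorem full17 : fullOk cosets row17 ax17 = true := by decide +kernel

theorem full20 : fullOk cosets row20 ax20 = true := by decide +kernel

theorem full23 : fullOk cosets row23 ax23 = true := by decide +kernel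

theorem full25 : fullOk cosets row25 ax25 = true := by decide +kernel

theorem full28 : fullOk cosets row28 ax28 = true := by decide +kernel

theorem full30 : fullOk cosets row30 ax30 = true := by decide +kernel

theorem full33 : fullOk cosets row33 ax33 = true := by decide +kernel

end Pool.Agent.P.MP_708877_co
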