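import Pool.Agent.P.MP_708877_co.Full.AuxT

/-!
Checking the sites.
-/

namespace Pool.Agent.P.MP_708877_co

theorem full3 : fullOk cosets row3 ax3 = true := by decide +kernel

theorem full6 : fullOk cosets row6 ax6 = true := by decide +kernel

theorem full7 : fullOk cosets row7 ax7 = true := by decide +kernel

theorem full10 : fullOk cosets row10 ax10 = true := by decide +kernel

theorem full13 : fullOk cosets row13 ax13 = true := by decide +kernel

theorem full15 : fullOk cosets row15 ax15 = true := by decide +kernel

theorem full18 : fullOk cosets row18 ax18 = true := by decide +kernel

theorem full21 : fullOk cosets row21 ax21 = true := by decide +kernel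

theorem full24 : fullOk cosets row24 ax24 = true := by decide +kernel

theorem full26 : fullOk cosets row26 ax26 = true := by decide +kernel

theorem full31 : fullOk cosets row31 ax31 = true := by decide +kernel

theorem full34 : fullOk cosets row34 ax34 = true := by decide +kernel

end Pool.Agent.P.MP_708877_co
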