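import Pool.Agent.P.MP_708877_co.Full.Top

/-!
Tables for one search.
-/

namespace Pool.Agent.P.MP_708877_co

def cT3 : Ctx where
  o := true
  G := gT
  H := nat_lit 0x10101
  HL := [0, 8, 16]
  N := nat_lit 0x818181000000000000000000000000818181
  h0 := 8
  rpT := nat_lit 0x503000600000000030600050000000006050003000000
  clT := nat_lit 0x0
  wtT := nat_lit 0x100008000000000000000000000000000000000000000000000000000000000000000000000000000000000000000000000000000000000000000000000000000000000000000000000000000000000000000000000000000000000000000000000000000000000000000000000000000000000000000000000000000000000000000000000000000000000000000010000000000000000000000000000000000000000000000000000000000000000000000000000000000000000000000000000000000000000000000000000000000000000000000000000000000000000000000000000000000000000000000000000000000000000000000000000000000000000000000000000000000000000000000000000000000000000000000000000000000000000000000000000000000000000000000000000000000000000000000000000000000000000000000000000000000000000000000000000000000000000000000000000000000000000000000000000000000000000000000000000000000000000000000000000000000000000000000000000000000000000000000000000000000000000000000008000000000000000000000000000000000000000000000000000000000000000000000000000000000000000000000000000000000000000000000000000000000000000000000000000000000000000000000000000000000000000000000000000000000000000000000000000000000000000000000000000000000000000000000000000000000000000000000000000000000000000000000000000000000000000000000000000000000000000000000000000000000000000000000000000000000000000000000000000000000000000000000000000000000000000000000000000000000000000000000000000000000000000000000000000000000000000000000000000000000000000000000000000000000000000000000000000000000000000000000000000000000000000000000000000000000000000000000000000000000000000000000000000000000000000000000000000000000000000000000000000000000000000000000000000000000000000000000000000000000000000000000000000000000000000000000000000000000000000000000000000000000000000000000000000000000000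
  mxT := nat_lit 0x0
  raT := nat_lit 0x3
  rbT := nat_lit 0x5
  n := 1

theorem cT3_ok : cT3.Ok :=
  Ctx.ok_of (by decide +kernel) (by decide +kernel) (by decide +kernel) (by decide +kernel)

end Pool.Agent.P.MP_708877_co
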