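import Pool.Agent.P.MP_708877_co.Full.AuxT
import Pool.Agent.P.MP_708877_co.Full.CO1
import Pool.Agent.P.MP_708877_co.Full.CT1
import Pool.Agent.P.MP_708877_co.Full.CT2
import Pool.Agent.P.MP_708877_co.Full.CT3
import Pool.Agent.P.MP_708877_co.Full.CTd
import Pool.Agent.P.MP_708877_co.Full.CTh1
import Pool.Agent.P.MP_708877_co.Full.CTh3

/-!
Certificates.
-/

namespace Pool.Agent.P.MP_708877_co

set_option maxRecDepth 100000

theorem dT1_0 : Seg cT1 tabE 0 5 :=
  seg_of [(.step false 8 3 (.cons 5 (.cut 141289400139903 [141289400139905] (.dead 11) (.cut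
    141293695041665 [141293695041663] (.dead 13) (.dead 14))) (.cons 6 (.cut 141293695041665
    [141293695041663] (.cut 141289400139905 [141289400139903] (.dead 13) (.dead 11)) (.dead 14))
    (.cons 11 (.cut 141293695041664 [141289400139905] (.cut 141289416786050 [141289400205185]
    (.filter (.step true 8 3 (.cons 8 (.step true 11 3 (.cons 11 (.step true 3 8 (.cons 21 (.step
    true 3 11 (.cons 16 (.step false 21 16 (.cons 8 (.step true 8 16 (.cons 16 (.step false 3 11
    (.cons 21 (.step true 11 21 (.cons 21 (.leaf 19 130 [0, 1]) .nil)) .nil)) .nil)) (.cons 11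
    (.step true 11 16 (.cons 21 (.step true 8 21 (.cons 16 (.leaf 24 130 [0, 1, 24, 25, 26, 27, 28,
    29, 30, 31]) .nil)) .nil)) .nil))) .nil)) .nil)) .nil)) (.cons 11 (.step true 3 8 (.cons 11
    (.step true 3 11 (.cons 8 (.step true 16 11 (.cons 16 (.step true 21 8 (.cons 21 (.leaf 22 130
    [0, 1, 24, 25, 26, 27, 28, 29, 30, 31]) .nil)) .nil)) .nil)) .nil)) .nil)))) (.filter (.step
    true 8 3 (.cons 8 (.step true 11 3 (.cons 11 (.step true 3 8 (.cons 21 (.step true 3 11 (.cons
    16 (.step false 21 16 (.cons 8 (.step true 8 16 (.cons 16 (.step false 3 11 (.cons 21 (.step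
    true 11 21 (.cons 21 (.leaf 18 16 [0, 1]) .nil)) .nil)) .nil)) (.cons 11 (.step true 11 16
    (.cons 21 (.step true 8 21 (.cons 16 (.leaf 25 16 [0, 1, 24, 25, 26, 27, 28, 29, 30, 31]) .nil))
    .nil)) .nil))) .nil)) .nil)) .nil)) (.cons 11 (.step true 3 8 (.cons 11 (.step true 3 11 (.cons
    8 (.step true 16 11 (.cons 16 (.step true 21 8 (.cons 21 (.leaf 23 16 [0, 1, 24, 25, 26, 27, 28,
    29, 30, 31]) .nil)) .nil)) .nil)) .nil)) .nil))))) (.cut 141293695041665 [141293695041663]
    (.dead 13) (.dead 14))) (.cons 13 (.cut 141289400074369 [141293695107200] (.dead 11) (.cut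
    141289400139903 [141289400139905, 141293695041663] (.dead 11) (.dead 14))) (.cons 14 (.cut
    141289400139904 [141293695041665] (.cut 142384616734850 [141297990008705] (.filter (.step true 8
    3 (.cons 8 (.step true 14 3 (.cons 14 (.step true 3 8 (.cons 8 (.step true 3 14 (.cons 14 (.step
    true 16 8 (.cons 19 (.step true 16 19 (.cons 19 (.leaf 26 1 [0, 1, 24, 25, 26, 27, 28, 29, 30,
    31]) .nil)) .nil)) .nil)) .nil)) .nil)) (.cons 14 (.step true 3 8 (.cons 19 (.step true 3 14
    (.cons 16 (.step false 19 16 (.cons 8 (.step true 8 16 (.cons 16 (.step false 3 14 (.cons 19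
    (.step true 14 19 (.cons 19 (.leaf 20 1 [0, 1, 24, 25, 26, 27, 28, 29, 30, 31]) .nil)) .nil))
    .nil)) (.cons 14 (.step true 14 16 (.cons 19 (.step true 8 19 (.cons 16 (.leaf 16 1 [0, 1])
    .nil)) .nil)) .nil))) .nil)) .nil)) .nil)))) (.filter (.step true 8 3 (.cons 8 (.step true 14 3
    (.cons 14 (.step true 3 8 (.cons 8 (.step true 3 14 (.cons 14 (.step true 16 8 (.cons 19 (.step
    true 16 19 (.cons 19 (.leaf 27 136 [0, 1, 24, 25, 26, 27, 28, 29, 30, 31]) .nil)) .nil)) .nil))
    .nil)) .nil)) (.cons 14 (.step true 3 8 (.cons 19 (.step true 3 14 (.cons 16 (.step false 19 16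
    (.cons 8 (.step true 8 16 (.cons 16 (.step false 3 14 (.cons 19 (.step true 14 19 (.cons 19
    (.leaf 21 136 [0, 1, 24, 25, 26, 27, 28, 29, 30, 31]) .nil)) .nil)) .nil)) (.cons 14 (.step true
    14 16 (.cons 19 (.step true 8 19 (.cons 16 (.leaf 17 136 [0, 1]) .nil)) .nil)) .nil))) .nil))
    .nil)) .nil))))) (.cut 141289400139905 [141289400139903] (.dead 13) (.dead 11))) (.cons 16
    (.step true 8 3 (.cons 8 (.step true 16 3 (.cons 16 (.step true 3 8 (.cons 6 (.cut
    141293695041665 [141293695041663] (.cut 141289400139905 [141289400139903] (.dead 13) (.dead 11))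
    (.dead 14)) (.cons 8 (.cut 141289400139904 [141289400139905, 141293695041665] (.cut
    142384616734850 [141297990008705] (.step true 3 16 .nil) (.step true 3 16 .nil)) (.dead 13))
    (.cons 11 (.cut 141289400139905 [141293695041664] (.dead 14) (.dead 3)) (.cons 14 (.cut
    141289400139903 [141289400139904, 141293695041664] (.dead 11) (.dead 3)) (.cons 21 (.cut
    141293695041664 [141289400139905, 141293695041665] (.cut 141289416786050 [141289400205185]
    (.step true 3 16 .nil) (.step true 3 16 .nil)) (.dead 13)) (.cons 22 (.cut 141289400139903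
    [141289400139904, 141293695041665] (.dead 11) (.dead 3)) .nil))))))) .nil)) (.cons 16 (.cut
    141289400074369 [141293694976128] (.dead 11) (.cut 141289400139905 [141289400270975,
    141302284976255] (.dead 13) (.filter (.step false 3 8 (.cons 16 (.step true 3 8 (.cons 3 (.step
    true 8 16 (.cons 16 (.leaf 12 16 [0, 120]) .nil)) .nil)) .nil))))) .nil))) (.cons 19 (.cut
    141289400139904 [141293695041665] (.cut 142384616734850 [141297990008705] (.filter (.step true 8
    3 (.cons 8 (.step true 19 3 (.cons 19 (.step true 3 8 (.cons 8 (.step true 3 19 .nil) .nil))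
    .nil)) .nil))) (.filter (.step true 8 3 (.cons 8 (.step true 19 3 (.cons 19 (.step true 3 8
    (.cons 8 (.step true 3 19 .nil) .nil)) .nil)) .nil)))) (.cut 141289400139905 [141289400139903]
    (.dead 13) (.dead 11))) (.cons 21 (.cut 141293695041664 [141289400139905] (.cut 141289416786050
    [141289400205185] (.filter (.step true 8 3 (.cons 8 (.step true 21 3 (.cons 21 (.step true 3 8
    (.cons 21 (.step true 3 21 .nil) .nil)) .nil)) .nil))) (.filter (.step true 8 3 (.cons 8 (.step
    true 21 3 (.cons 21 (.step true 3 8 (.cons 21 (.step true 3 21 .nil) .nil)) .nil)) .nil))))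
    (.cut 141293695041665 [141293695041663] (.dead 13) (.dead 14))) (.cons 22 (.cut 141289400074369
    [141293695107200] (.dead 11) (.cut 141289400139903 [141289400139905, 141293695041663] (.dead 11)
    (.dead 14))) .nil)))))))))), (.cut 141289400139905 [141289400139903] (.step false 5 3 (.cons 6
    (.cut 141293695041665 [141293695041663] (.dead 13) (.dead 14)) .nil)) (.step false 5 3 (.cons 6
    (.cut 141293695041665 [141293695041663] (.dead 11) (.dead 8)) .nil))), (.cut 141293695041664
    [141289400139905] (.step true 8 11 (.cons 8 (.cut 141289416786046 [141289400205695] (.step true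
    21 8 .nil) (.step true 21 8 .nil)) (.cons 11 (.cut 141289416786050 [141289400205185] (.step true
    21 11 .nil) (.step true 21 11 .nil)) (.cons 16 (.cut 141289400139905 [141289400139903] (.filter
    (.step true 11 8 (.cons 21 (.step false 11 8 (.cons 16 (.step true 8 16 (.cons 16 (.step false 8
    11 (.cons 21 (.step true 11 21 (.cons 21 (.leaf 0 10 [0, 120]) .nil)) .nil)) .nil)) (.cons 21
    (.step true 8 21 (.cons 16 (.step true 11 16 (.cons 21 (.leaf 11 10 [0, 1, 120, 121]) .nil))
    .nil)) .nil))) .nil))) (.filter (.step true 11 8 (.cons 21 (.step false 11 8 (.cons 16 (.step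
    true 8 16 (.cons 16 (.step false 8 11 (.cons 21 (.step true 11 21 (.cons 21 (.leaf 9 8 [0, 1,
    120, 121]) .nil)) .nil)) .nil)) (.cons 21 (.step true 8 21 (.cons 16 (.step true 11 16 (.cons 21
    (.leaf 10 8 [0, 1, 120, 121]) .nil)) .nil)) .nil))) .nil)))) (.cons 19 (.dead 5) (.cons 22 (.cut
    141289400074369 [141289400139904] (.dead 5) (.dead 3)) .nil)))))) (.step false 11 8 (.cons 13
    (.cut 141289400074369 [141293695041663] (.dead 6) (.dead 14)) (.cons 14 (.cut 141289400074369
    [141293695041665] (.dead 6) (.dead 13)) (.cons 16 (.step true 8 16 (.cons 11 (.cut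
    141293695041665 [141293695041663] (.dead 13) (.dead 14)) (.cons 16 (.step true 8 11 (.cons 11
    (.cut 141293695041665 [141293695041663] (.dead 13) (.dead 14)) (.cons 14 (.dead 13) (.cons 16
    (.step true 11 8 (.cons 21 (.step false 8 11 (.cons 13 (.cut 141289400074369 [141293695041663]
    (.dead 6) (.dead 14)) (.cons 14 (.cut 141289400074369 [141293695041665] (.dead 6) (.dead 13))
    (.cons 19 (.cut 141289400074369 [141293695041665] (.dead 6) (.dead 13)) (.cons 21 (.step true 11
    21 (.cons 21 (.leaf 0 10 [0, 120]) .nil)) (.cons 22 (.cut 141289400074369 [141293695041663]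
    (.dead 6) (.dead 14)) .nil)))))) .nil)) (.cons 19 (.dead 13) (.cons 22 (.cut 141289400074369
    [141293695041663] (.dead 6) (.dead 14)) .nil)))))) .nil))) (.cons 19 (.cut 141289400074369
    [141293695041665] (.dead 6) (.dead 13)) (.cons 21 (.step true 11 8 (.cons 11 (.dead 13) (.cons
    13 (.dead 14) (.cons 19 (.cut 141289400074369 [141293695041665] (.dead 6) (.dead 13)) (.cons 21
    (.step true 8 11 (.cons 16 (.step true 8 21 (.cons 13 (.dead 14) (.cons 16 (.cut 141289400074369
    [141293695041664] (.dead 6) (.step true 11 16 (.cons 21 (.leaf 11 10 [0, 1, 120, 121]) .nil)))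
    (.cons 19 (.cut 141289400074369 [141293695041665] (.dead 6) (.dead 13)) (.cons 22 (.cut
    141289400074369 [141293695041663] (.dead 6) (.dead 14)) .nil))))) .nil)) (.cons 22 (.dead 14)
    .nil)))))) (.cons 22 (.cut 141289400074369 [141293695041663] (.dead 6) (.dead 14)) .nil)))))))),
    (.cut 141289400139904 [141293695041665] (.step false 19 8 (.cons 16 (.step true 8 16 (.cons 16
    (.step true 19 8 (.cons 11 (.cut 141289400074369 [141293695041664] (.dead 6) (.dead 3)) (.cons
    13 (.cut 141289400074369 [141293695041664] (.dead 6) (.dead 3)) (.cons 14 (.step false 16 14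
    (.cons 19 (.step true 8 19 (.cons 16 (.step true 14 19 (.cons 19 (.leaf 1 8 [0, 1]) .nil))
    (.cons 19 (.dead 3) .nil))) (.cons 21 (.cut 141289400074369 [141293695041664] (.dead 6) (.dead
    3)) (.cons 22 (.cut 141289400074369 [141293695041664] (.dead 6) (.dead 3)) .nil)))) .nil))))
    (.cons 19 (.cut 141289400074369 [141293695041664] (.dead 6) (.dead 3)) .nil))) (.cons 21 (.cut
    141289400074369 [141293695041664] (.dead 6) (.dead 3)) (.cons 22 (.cut 141289400074369
    [141293695041664] (.dead 6) (.dead 3)) .nil)))) (.step false 19 8 (.cons 16 (.step true 8 16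
    (.cons 16 (.step true 19 8 (.cons 11 (.cut 141289400074369 [141289400139905] (.dead 5) (.dead
    13)) (.cons 13 (.cut 141289400074369 [141289400139903] (.dead 5) (.dead 11)) (.cons 14 (.cut
    141289400074369 [141289400139904] (.dead 5) (.filter (.step false 16 14 (.cons 19 (.step true 8
    19 (.cons 16 (.step true 14 19 (.cons 19 (.leaf 1 8 [0, 1]) .nil)) .nil)) .nil)))) .nil))))
    (.cons 19 (.cut 141289400074369 [141289400139905] (.dead 5) (.dead 13)) .nil))) (.cons 21 (.cut
    141289400074369 [141289400139905] (.dead 5) (.dead 13)) (.cons 22 (.cut 141289400074369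
    [141289400139903] (.dead 5) (.dead 11)) .nil))))), (.step false 16 8 .nil)]
    (by decide +kernel)

theorem dT2_0 : Seg cT2 tabE 0 3 :=
  seg_of [(.dead 3), (.step true 8 11 (.cons 16 (.step false 11 8 (.cons 16 (.step true 8 16 (.cons
    16 (.leaf 42 0 [0, 120]) .nil)) (.cons 19 (.step true 8 19 (.cons 19 (.leaf 42 2 [0, 120])
    .nil)) .nil))) .nil)), (.step false 16 8 (.cons 19 (.step true 8 16 (.cons 16 (.step true 8 19
    (.cons 19 (.leaf 43 0 [0, 1, 120, 121]) .nil)) (.cons 19 (.step true 8 19 (.cons 16 (.leaf 44 0
    [0, 1, 120, 121]) .nil)) .nil))) .nil))]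
    (by decide +kernel)

theorem dT3_0 : Seg cT3 tabE 0 1 :=
  seg_of [(.step true 3 5 (.cons 3 (.step true 3 6 (.cons 3 (.leaf 29 0 [0, 120]) .nil)) (.cons 6
    (.leaf 28 0 [0, 120]) .nil)))]
    (by decide +kernel)

theorem dTd_0 : Seg cTd tabE 0 11 :=
  seg_of [(.sat 120 141289400139903 [141289400139905] (.dead 126)), (.step true 133 3 (.cons 5 (.sat
    120 141289400139903 [141289400139905] (.dead 126)) (.cons 6 (.sat 120 141289400139903
    [141289400139905] (.dead 126)) (.cons 8 (.sat 141 141293695041665 [141289400074369] .qd) (.cons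
    11 (.sat 136 141293695041663 [141289400074369] .qd) (.cons 13 (.sat 136 141293695041663
    [141289400074369] .qd) (.cons 14 (.sat 141 141293695041665 [141289400074369] .qd) (.cons 16
    (.sat 126 141289400139905 [141289400074369] .qd) (.cons 19 (.sat 120 141289400139903
    [141289400074369] .qd) (.cons 21 (.sat 126 141289400139905 [141289400074369] .qd) (.cons 22
    (.sat 120 141289400139903 [141289400074369] .qd) (.cons 120 (.dead 126) (.cons 126 (.dead 120)
    (.cons 133 (.step true 3 133 (.cons 3 (.step true 134 3 (.cons 134 (.step false 3 133 (.cons 8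
    (.sat 126 141289400139905 [141293695041665] (.dead 141)) (.cons 11 (.sat 126 141289400139905
    [141293695041663] (.dead 136)) (.cons 13 (.sat 120 141289400139903 [141293695041663] (.dead
    136)) (.cons 14 (.sat 120 141289400139903 [141293695041665] (.dead 141)) (.cons 16 (.sat 126
    141289400139905 [141293695041665] (.dead 141)) (.cons 19 (.sat 120 141289400139903
    [141293695041665] (.dead 141)) (.cons 21 (.sat 126 141289400139905 [141293695041663] (.dead
    136)) (.cons 22 (.sat 120 141289400139903 [141293695041663] (.dead 136)) (.cons 120 (.sat 126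
    141289400139905 [141289400139901] (.pos [((7, 0), 141289400139904), ((9, 0), 141293695041664)]
    (.dead 3))) (.cons 123 (.sat 120 141289400139903 [141289400139905] (.dead 126)) (.cons 125 (.sat
    120 141289400139903 [141289400139905] (.dead 126)) (.cons 126 (.sat 120 141289400139903
    [141289400139907] (.pos [((7, 0), 141289400139904), ((9, 0), 141293695041664)] (.dead 3)))
    (.cons 128 (.dead 131) (.cons 131 (.dead 128) (.cons 134 (.disc [3, 133, 134]
    32667107224410092492483962313449748299785 5) (.cons 136 (.sat 141 141293695041665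
    [141293695041661] (.pos [((9, 0), 141289400139904), ((7, 0), 141293695041664)] (.dead 3)))
    (.cons 139 (.sat 120 141289400139903 [141289400139905] (.dead 126)) (.cons 141 (.sat 136
    141293695041663 [141293695041667] (.pos [((9, 0), 141289400139904), ((7, 0), 141293695041664)]
    (.dead 3))) (.cons 142 (.sat 120 141289400139903 [141289400139905] (.dead 126))
    .nil)))))))))))))))))))) .nil)) (.cons 8 (.dead 14) (.cons 11 (.dead 13) (.cons 13 (.dead 11)
    (.cons 14 (.dead 8) (.cons 16 (.dead 11) (.cons 19 (.dead 13) (.cons 21 (.dead 8) (.cons 22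
    (.dead 14) (.cons 123 (.dead 126) (.cons 125 (.dead 120) (.cons 128 (.dead 131) (.cons 131
    (.dead 128) (.cons 133 (.dead 3) (.cons 139 (.dead 141) (.cons 142 (.dead 136)
    .nil))))))))))))))))) (.cons 134 (.step true 3 133 (.cons 3 (.dead 3) (.cons 8 (.dead 141)
    (.cons 13 (.dead 136) (.cons 19 (.dead 120) (.cons 21 (.dead 126) (.cons 120 (.dead 13) (.cons
    123 (.dead 11) (.cons 125 (.dead 14) (.cons 126 (.dead 8) (.cons 133 (.disc [3, 133, 134]
    32667107224410092492483962313449748299785 5) (.cons 136 (.dead 11) (.cons 139 (.dead 8) (.cons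
    141 (.dead 14) (.cons 142 (.dead 13) .nil))))))))))))))) (.cons 136 (.dead 141) (.cons 141
    (.dead 136) .nil))))))))))))))))), (.step true 120 3 (.cons 5 (.dead 126) (.cons 6 (.dead 126)
    (.cons 8 (.sat 128 141293694976128 [141289400074369] .qd) (.cons 11 (.sat 131 141293695107200
    [141289400074369] .qd) (.cons 13 (.sat 131 141293695107200 [141289400074369] .qd) (.cons 14
    (.sat 128 141293694976128 [141289400074369] .qd) (.cons 16 (.sat 126 141289400139905
    [141297990074495] (.sat 126 141289400139905 [141289400270975, 141302284976255] (.dead 128)))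
    (.cons 21 (.sat 126 141289400139905 [141297989943425] (.sat 126 141289400139905
    [141289400270975, 141302284976257] (.dead 131))) (.cons 120 (.step true 3 120 (.cons 3 (.pos
    [((1, 0), 141293695041664)] (.step false 120 3 .nil)) (.cons 5 (.sat 120 141289400139903
    [141289400139905] (.dead 126)) (.cons 13 (.dead 14) (.cons 14 (.dead 13) (.cons 16 (.sat 126
    141289400139905 [141289400402045] .qd) (.cons 21 (.sat 126 141289400139905 [141289400402045]
    .qd) (.cons 123 (.dead 3) (.cons 125 (.dead 126) (.cons 126 (.sat 120 141289400139903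
    [141289400139904] (.step false 120 3 (.cons 126 (.disc [3, 120, 126]
    139568939557416166654899741329436180585 8) .nil))) (.cons 133 (.dead 131) (.cons 134 (.dead 128)
    (.cons 136 (.dead 128) (.cons 141 (.dead 131) .nil)))))))))))))) (.cons 126 (.cut
    141289400139904 [141289400074369] (.step false 3 120 (.cons 126 (.disc [3, 120, 126]
    139568939557416166654899741329436180585 8) .nil)) (.dead 123)) (.cons 136 (.sat 128
    141293694976128 [141289400074369] .qd) (.cons 141 (.sat 131 141293695107200 [141289400074369]
    .qd) .nil))))))))))))), (.dead 131), (.step false 8 3 (.cons 5 (.sat 120 141289400139903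
    [141289400139905] (.dead 126)) (.cons 6 (.sat 126 141289400139905 [141293695107200] (.dead 131))
    (.cons 11 (.sat 126 141289400139905 [141293695041664] (.cut 141289416786050 [141289400205185]
    (.filter (.step true 8 3 (.cons 8 (.step true 11 3 (.cons 11 (.step true 3 8 (.cons 21 (.step
    true 3 11 (.cons 16 (.step false 21 16 (.cons 8 (.step true 8 16 (.cons 16 (.step false 3 11
    (.cons 21 (.disc [3, 8, 11, 16, 21] 6908265 120) .nil)) .nil)) (.cons 11 (.step true 11 16
    (.cons 21 (.disc [3, 8, 11, 16, 21] 6908265 120) .nil)) .nil))) .nil)) .nil)) .nil)) (.cons 11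
    (.step true 3 8 (.cons 11 (.step true 3 11 (.cons 8 (.step true 16 11 (.cons 16 (.disc [3, 8,
    11, 16, 21] 6908265 120) .nil)) .nil)) .nil)) .nil)))) (.filter (.step true 8 3 (.cons 8 (.step
    true 11 3 (.cons 11 (.step true 3 8 (.cons 21 (.step true 3 11 (.cons 16 (.step false 21 16
    (.cons 8 (.step true 8 16 (.cons 16 (.step false 3 11 (.cons 21 (.disc [3, 8, 11, 16, 21]
    6908265 120) .nil)) .nil)) (.cons 11 (.step true 11 16 (.cons 21 (.disc [3, 8, 11, 16, 21]
    6908265 120) .nil)) .nil))) .nil)) .nil)) .nil)) (.cons 11 (.step true 3 8 (.cons 11 (.step true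
    3 11 (.cons 8 (.step true 16 11 (.cons 16 (.disc [3, 8, 11, 16, 21] 6908265 120) .nil)) .nil))
    .nil)) .nil)))))) (.cons 13 (.sat 131 141293695107200 [141289400074369] (.dead 11)) (.cons 14
    (.sat 141 141293695041665 [141289400139904] (.cut 142384616734850 [141297990008705] (.filter
    (.step true 8 3 (.cons 8 (.step true 14 3 (.cons 14 (.step true 3 8 (.cons 8 (.step true 3 14
    (.cons 14 (.step true 16 8 (.cons 19 (.disc [3, 8, 14, 16, 19] 6908265 120) .nil)) .nil)) .nil))
    .nil)) (.cons 14 (.step true 3 8 (.cons 19 (.step true 3 14 (.cons 16 (.step false 19 16 (.cons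
    8 (.step true 8 16 (.cons 16 (.step false 3 14 (.cons 19 (.disc [3, 8, 14, 16, 19] 6908265 120)
    .nil)) .nil)) (.cons 14 (.step true 14 16 (.cons 19 (.disc [3, 8, 14, 16, 19] 6908265 120)
    .nil)) .nil))) .nil)) .nil)) .nil)))) (.filter (.step true 8 3 (.cons 8 (.step true 14 3 (.cons
    14 (.step true 3 8 (.cons 8 (.step true 3 14 (.cons 14 (.step true 16 8 (.cons 19 (.disc [3, 8,
    14, 16, 19] 6908265 120) .nil)) .nil)) .nil)) .nil)) (.cons 14 (.step true 3 8 (.cons 19 (.step
    true 3 14 (.cons 16 (.step false 19 16 (.cons 8 (.step true 8 16 (.cons 16 (.step false 3 14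
    (.cons 19 (.disc [3, 8, 14, 16, 19] 6908265 120) .nil)) .nil)) (.cons 14 (.step true 14 16
    (.cons 19 (.disc [3, 8, 14, 16, 19] 6908265 120) .nil)) .nil))) .nil)) .nil)) .nil)))))) (.cons
    16 (.step true 8 3 (.cons 8 (.step true 16 3 (.cons 16 (.step true 3 8 (.cons 6 (.sat 126
    141289400139905 [141293695107200] (.dead 131)) (.cons 8 (.sat 126 141289400139905
    [141289400139904] (.cut 142384616734850 [141297990008705] (.disc [3, 8, 16] 6908265 120) (.disc
    [3, 8, 16] 6908265 120))) (.cons 11 (.sat 126 141289400139905 [141293695041664] .qd) (.cons 14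
    (.sat 120 141289400139903 [141289400139904] .qd) (.cons 21 (.sat 126 141289400139905
    [141293695041664] (.cut 141289416786050 [141289400205185] (.step true 3 16 .nil) (.step true 3
    16 .nil))) (.cons 22 (.sat 120 141289400139903 [141289400139904] .qd) (.cons 120 (.dead 126)
    (.cons 126 (.dead 120) (.cons 133 (.dead 13) (.cons 134 (.dead 131) (.cons 139 (.dead 14) (.cons
    142 (.dead 141) .nil))))))))))))) .nil)) (.cons 16 (.sat 128 141293694976128 [141289400074369]
    (.dead 11)) .nil))) (.cons 19 (.sat 141 141293695041665 [141289400139904] (.cut 142384616734850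
    [141297990008705] (.filter (.step true 8 3 (.cons 8 (.step true 19 3 (.cons 19 (.step true 3 8
    (.cons 8 (.step true 3 19 .nil) .nil)) .nil)) .nil))) (.filter (.step true 8 3 (.cons 8 (.step
    true 19 3 (.cons 19 (.step true 3 8 (.cons 8 (.step true 3 19 .nil) .nil)) .nil)) .nil)))))
    (.cons 21 (.sat 126 141289400139905 [141293695041664] (.cut 141289416786050 [141289400205185]
    (.filter (.step true 8 3 (.cons 8 (.step true 21 3 (.cons 21 (.step true 3 8 (.cons 21 (.step
    true 3 21 .nil) .nil)) .nil)) .nil))) (.filter (.step true 8 3 (.cons 8 (.step true 21 3 (.cons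
    21 (.step true 3 8 (.cons 21 (.step true 3 21 .nil) .nil)) .nil)) .nil))))) (.cons 22 (.sat 131
    141293695107200 [141289400074369] (.dead 11)) .nil)))))))))), (.sat 120 141289400139903
    [141289400139905] (.dead 126)), (.sat 131 141293695107200 [141293695041665] (.dead 141)), (.sat
    131 141293695107200 [141293695041665] (.dead 141)), (.sat 128 141293694976128 [141293695041663]
    (.dead 136)), (.step false 126 8 (.cons 11 (.sat 126 141289400139905 [141293695041664] (.sat 128
    141293694976128 [141289400074369] (.dead 5))) (.cons 13 (.sat 128 141293694976128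
    [141293695041665] (.dead 141)) (.cons 14 (.sat 131 141293695107200 [141293695041663] (.dead
    136)) (.cons 16 (.step true 8 16 (.cons 16 (.step true 126 8 (.cons 11 (.sat 136 141293695041663
    [141293695172737] .qd) (.cons 13 (.sat 136 141293695041663 [141289400139905] .qd) (.cons 14
    (.sat 136 141293695041663 [141289400139903, 141293695041665] (.dead 11)) (.cons 19 (.sat 120
    141289400139903 [141293694976126] .qd) (.cons 21 (.sat 126 141289400139905 [141293695041664]
    (.dead 3)) (.cons 22 (.sat 128 141293694976128 [141289400139903, 141293695041665] (.dead 11))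
    (.cons 126 (.sat 120 141289400139903 [141289400139905] (.dead 8)) (.cons 131 (.sat 136
    141293695041663 [141289400139904, 141293695041665] (.dead 3)) (.cons 141 (.sat 128
    141293694976128 [141293695107202] (.dead 133)) .nil)))))))))) (.cons 126 (.sat 126
    141289400139905 [141293695041665] (.dead 141)) .nil))) (.cons 19 (.sat 131 141293695107200
    [141293695041663] (.dead 136)) (.cons 21 (.sat 126 141289400139905 [141293695041664] (.sat 128
    141293694976128 [141289400074369] (.dead 5))) (.cons 22 (.sat 128 141293694976128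
    [141293695041665] (.dead 141)) (.cons 131 (.sat 136 141293695041663 [141293695172737] (.dead
    139)) (.cons 141 (.sat 128 141293694976128 [141293695107202] (.dead 133)) .nil)))))))))), (.sat
    126 141289400139905 [141293695041664] (.step true 8 11 (.cons 8 (.cut 141289416786046
    [141289400205695] (.step true 21 8 .nil) (.step true 21 8 .nil)) (.cons 11 (.cut 141289416786050
    [141289400205185] (.step true 21 11 .nil) (.step true 21 11 .nil)) (.cons 16 (.sat 120
    141289400139903 [141289400139905] (.dead 126)) (.cons 19 (.dead 5) (.cons 22 (.sat 128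
    141293694976128 [141289400074369] (.dead 5)) .nil)))))))]
    (by decide +kernel)

theorem dTd_11 : Seg cTd tabE 11 19 :=
  seg_of [(.sat 141 141293695041665 [141289400139904] (.step false 19 8 (.cons 16 (.step true 8 16
    (.cons 16 (.step true 19 8 (.cons 11 (.sat 120 141289400139903 [141293695041664] (.dead 3))
    (.cons 13 (.sat 120 141289400139903 [141293695041664] (.dead 3)) (.cons 14 (.step false 16 14
    (.cons 19 (.disc [8, 14, 16, 19] 6908265 120) (.cons 21 (.sat 120 141289400139903
    [141293695041664] (.dead 3)) (.cons 22 (.sat 120 141289400139903 [141293695041664] (.dead 3))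
    .nil)))) .nil)))) (.cons 19 (.sat 120 141289400139903 [141293695041664] (.dead 3)) .nil)))
    (.cons 21 (.sat 120 141289400139903 [141293695041664] (.dead 3)) (.cons 22 (.sat 120
    141289400139903 [141293695041664] (.dead 3)) .nil))))), (.step false 16 8 .nil), (.step true 133
    120 (.cons 123 (.dead 14) (.cons 125 (.sat 126 141289400139905 [141289400074369] .qd) (.cons 128
    (.dead 136) (.cons 131 (.sat 136 141293695041663 [141289400139904] .qd) (.cons 133 (.step true
    120 133 (.cons 123 (.dead 136) (.cons 125 (.sat 126 141289400139905 [141289400074369] .qd)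
    (.cons 126 (.dead 5) (.cons 128 (.dead 126) (.cons 133 (.step true 134 133 .nil) (.cons 136
    (.sat 128 141293694976128 [141293695107198] (.pos [((1, 0), 141302285303936), ((16, 0),
    141293695041664)] (.dead 3))) (.cons 142 (.dead 131) .nil)))))))) (.cons 134 (.sat 120
    141289400139903 [141293695041664] (.sat 136 141293695041663 [141289400205441] (.filter (.step
    false 120 133 (.cons 134 (.step true 120 133 (.cons 120 (.step true 133 134 (.cons 134 (.leaf 15
    138 [0, 1]) .nil)) .nil)) .nil))))) (.cons 139 (.sat 120 141289400139903 [141289400139905] .qd)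
    (.cons 141 (.sat 126 141289400139905 [141297989943423] .qd) (.cons 142 (.sat 120 141289400139903
    [141289400139905] (.dead 126)) .nil)))))))))), (.step false 123 120 (.cons 125 (.step true 123
    120 (.cons 123 (.step true 125 120 (.cons 125 (.step true 120 123 (.cons 123 (.sat 126
    141289400139905 [141289400074369] (.dead 5)) (.cons 126 (.pos [((1, 0), 141293695041664)] (.sat
    128 141293694976128 [141289400074369] (.dead 5))) (.cons 139 (.sat 126 141289400139905
    [141289400139904] .qd) (.cons 142 (.sat 126 141289400139905 [141289400139904] .qd) .nil)))))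
    .nil)) (.cons 125 (.sat 120 141289400139903 [141289400139905] (.dead 126)) .nil))) (.cons 126
    (.pos [((1, 0), 141293695041664)] (.sat 128 141293694976128 [141289400074369] (.dead 5))) (.cons
    128 (.sat 136 141293695041663 [141293694910593] (.pos [((1, 0), 141293694779520), ((7, 0),
    141293695041664)] (.dead 3))) (.cons 131 (.sat 141 141293695041665 [141293695172735] (.pos [((1,
    0), 141293695303808), ((7, 0), 141293695041664)] (.dead 3))) (.cons 136 (.sat 128
    141293694976128 [141293695107198] (.pos [((1, 0), 141293695172736), ((7, 0), 141293695041664)]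
    (.dead 3))) (.cons 141 (.sat 131 141293695107200 [141293694976130] (.pos [((1, 0),
    141293694910592), ((7, 0), 141293695041664)] (.dead 3))) .nil))))))), (.sat 136 141293695041663
    [141293694910593] (.step false 128 120 (.cons 126 (.sat 141 141293695041665 [141289400074369,
    141293694910592] (.filter (.step false 120 126 (.cons 128 (.step true 120 126 (.cons 120 (.step
    true 128 126 (.cons 128 (.step true 126 120 (.cons 126 (.step true 128 120 (.cons 128 (.step
    true 120 128 (.cons 120 (.step true 126 128 (.cons 126 (.leaf 14 0 [0, 1]) .nil)) .nil)) .nil))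
    .nil)) .nil)) .nil)) .nil)))) (.cons 131 (.sat 141 141293695041665 [141289400205439,
    141293695041664] (.filter (.step false 120 128 (.cons 131 (.step true 120 128 (.cons 120 (.step
    true 131 128 (.cons 131 (.step true 120 131 (.cons 120 (.step true 128 131 (.cons 128 (.step
    true 128 120 (.cons 128 (.step true 131 120 (.cons 131 (.leaf 14 136 [0, 1]) .nil)) .nil))
    .nil)) .nil)) .nil)) .nil)) .nil)))) (.cons 136 (.dead 8) (.cons 141 (.sat 126 141289400139905
    [141289400270975, 141302284976257] (.dead 131)) .nil)))))), (.cut 141289400139904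
    [141289400074369] (.step false 126 120 .nil) (.step false 126 120 .nil)), (.sat 136
    141293695041663 [141293695041665] (.dead 141)), (.step false 125 123 .nil)]
    (by decide +kernel)

theorem dTh1_0 : Seg cTh1 tabE 0 16 :=
  seg_of [(.step true 1 9 (.cons 1 (.sat 1 141293695041664 [141289400139905] (.cut 141293695041665
    [141293695041661] (.dead 13) (.filter (.step false 1 9 (.cons 20 (.step true 9 20 (.cons 20
    (.step true 9 1 (.cons 20 (.leaf 13 2 [0, 120]) .nil)) .nil)) .nil))))) (.cons 2 (.cut
    141293694976128 [141293695107200] (.cut 141289400139903 [141289400139905, 141293695041665]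
    (.dead 8) (.dead 13)) (.dead 11)) (.cons 4 (.sat 2 141289400139904 [141293695041663] (.dead 8))
    (.cons 9 (.sat 4 141289400074369 [141293694976128] (.cut 141289400139903 [141289400139905,
    141293695041665] (.dead 8) (.dead 13))) (.cons 10 (.sat 1 141293695041664 [141289400074369] .qd)
    (.cons 11 (.sat 1 141293695041664 [141289400074369] .qd) (.cons 12 (.sat 1 141293695041664
    [141289400139903] (.dead 8)) (.cons 13 (.sat 2 141289400139904 [141289400074369] (.dead 4))
    (.cons 15 (.sat 2 141289400139904 [141293695041665] (.cut 141289400139905 [141289400139903]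
    (.dead 13) (.dead 11))) (.cons 17 (.sat 1 141293695041664 [141289400139903] (.dead 8)) (.cons 18
    (.sat 4 141289400074369 [141293694976128] (.cut 141289400139903 [141289400139905,
    141293695041665] (.dead 8) (.dead 13))) (.cons 21 (.sat 1 141293695041664 [141289400139904]
    (.dead 2)) (.cons 22 (.sat 4 141289400074369 [141289400139904] .qd) (.cons 23 (.sat 2
    141289400139904 [141289400139905, 141293695041665] (.dead 13)) .nil))))))))))))))), (.step true
    8 1 (.cons 2 (.sat 1 141293695041664 [141293694976128] (.step true 1 8 .nil)) (.cons 7 (.dead 6)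
    (.cons 8 (.step true 1 8 (.cons 1 (.sat 1 141293695041664 [141289400139903] (.filter (.step true
    16 1 (.cons 16 (.step false 1 8 (.cons 16 (.step true 8 16 (.cons 16 (.leaf 136 9 [0, 120])
    .nil)) .nil)) .nil)))) (.cons 2 (.cut 141293694976128 [141293695107200] (.filter (.step true 16
    2 (.cons 16 (.step false 8 1 (.cons 2 (.step true 1 2 (.cons 1 (.step true 2 1 (.cons 2 (.step
    false 1 8 (.cons 16 (.step true 8 16 (.cons 16 (.leaf 140 0 [0, 120]) .nil)) .nil)) .nil))
    .nil)) (.cons 16 (.step true 1 16 (.cons 2 (.step true 8 2 (.cons 8 (.step true 16 1 (.cons 16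
    (.leaf 137 0 [0, 120]) .nil)) .nil)) .nil)) .nil))) .nil))) (.dead 5)) (.cons 4 (.filter (.step
    true 16 4 (.cons 16 (.step false 8 1 (.cons 4 (.step true 1 4 (.cons 1 (.step true 4 1 (.cons 4
    (.step false 1 8 (.cons 16 (.step true 8 16 (.cons 16 (.leaf 141 16 [0, 120]) .nil)) .nil))
    .nil)) .nil)) (.cons 16 (.step true 1 16 (.cons 4 (.step true 8 4 (.cons 8 (.step true 16 1
    (.cons 16 (.leaf 137 16 [0, 120]) .nil)) .nil)) .nil)) .nil))) .nil))) (.cons 7 (.dead 5) (.cons
    9 (.sat 4 141289400074369 [141289400139903] .qd) (.cons 13 (.dead 4) (.cons 17 (.dead 2) (.cons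
    19 (.sat 2 141289400139904 [141289400139905] .qd) (.cons 22 (.dead 5) .nil)))))))))) (.cons 11
    (.sat 1 141293695041664 [141289400074369] .qd) (.cons 13 (.sat 4 141289400074369
    [141293695107200] (.dead 5)) (.cons 14 (.sat 2 141289400139904 [141289400074369] .qd) (.cons 16
    (.sat 1 141293695041664 [141289400139903] (.step true 1 8 .nil)) (.cons 21 (.sat 1
    141293695041664 [141289400139905] (.step true 1 8 .nil)) .nil))))))))), (.dead 6), (.dead 2),
    (.step false 6 1 (.cons 2 (.dead 4) (.cons 4 (.dead 2) .nil))), (.cut 141293695107200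
    [141293694976128] (.step false 2 1 (.cons 4 (.cut 141289400139903 [141289400139905,
    141293695041663] (.dead 11) (.dead 14)) .nil)) (.step false 2 1 (.cons 4 (.cut 141289400139903
    [141289400139905, 141293695041665] (.dead 8) (.dead 13)) .nil))), (.step true 3 9 (.cons 3 (.sat
    4 141289400074369 [141293695107200] (.filter (.step false 3 9 (.cons 20 (.step true 9 20 (.cons
    20 (.step true 9 3 (.cons 9 (.step true 20 3 (.cons 20 (.leaf 139 1 [0, 120]) .nil)) .nil))
    .nil)) .nil)))) (.cons 5 (.sat 1 141293695041664 [141289400139905] (.filter (.step true 9 3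
    (.cons 9 (.step true 20 5 (.cons 20 (.step false 9 3 (.cons 5 (.step true 3 5 (.cons 3 (.step
    true 5 3 (.cons 5 (.step false 3 9 (.cons 20 (.step true 9 20 (.cons 20 (.leaf 143 10 [0, 120])
    .nil)) .nil)) .nil)) .nil)) (.cons 20 (.step true 3 20 (.cons 5 (.step true 9 5 (.cons 9 (.step
    true 20 3 (.cons 20 (.leaf 138 10 [0, 120]) .nil)) .nil)) .nil)) .nil))) .nil)) .nil)))) (.cons
    6 (.cut 141293695041665 [141293695041663] (.dead 3) (.filter (.step true 9 3 (.cons 9 (.step
    true 20 6 (.cons 20 (.step false 9 3 (.cons 6 (.step true 3 6 (.cons 3 (.step true 6 3 (.cons 6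
    (.step false 3 9 (.cons 20 (.step true 9 20 (.cons 20 (.leaf 142 18 [0, 120]) .nil)) .nil))
    .nil)) .nil)) (.cons 20 (.step true 3 20 (.cons 6 (.step true 9 6 (.cons 9 (.step true 20 3
    (.cons 20 (.leaf 138 18 [0, 120]) .nil)) .nil)) .nil)) .nil))) .nil)) .nil)))) (.cons 7 (.dead
    4) (.cons 8 (.sat 1 141293695041664 [141289400074369] .qd) (.cons 9 (.sat 1 141293695041664
    [141289400074369] (.dead 4)) (.cons 13 (.sat 2 141289400139904 [141289400074369] (.dead 4))
    (.cons 15 (.sat 2 141289400139904 [141289400074369] .qd) (.cons 16 (.sat 1 141293695041664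
    [141289400074369] (.dead 4)) (.cons 17 (.sat 1 141293695041664 [141289400139903] .qd) (.cons 21
    (.sat 2 141289400139904 [141289400139905] .qd) (.cons 23 (.sat 2 141289400139904
    [141293695041665] (.dead 3)) .nil))))))))))))), (.step false 8 3 (.cons 5 (.cut 141289400139903
    [141289400139905] (.dead 11) (.cut 141293695041665 [141293695041663] (.dead 13) (.dead 14)))
    (.cons 6 (.cut 141293695041665 [141293695041663] (.cut 141289400139905 [141289400139903] (.dead
    13) (.dead 11)) (.dead 14)) (.cons 7 (.dead 4) (.cons 11 (.sat 1 141293695041664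
    [141289400139905] (.cut 141293695041665 [141293695041663] (.dead 13) (.dead 14))) (.cons 13
    (.sat 4 141289400074369 [141293695107200] (.cut 141289400139903 [141289400139905,
    141293695041663] (.dead 11) (.dead 14))) (.cons 14 (.sat 2 141289400139904 [141293695041665]
    (.cut 141289400139905 [141289400139903] (.dead 13) (.dead 11))) (.cons 16 (.step true 8 3 (.cons
    8 (.step true 16 3 (.cons 16 (.step true 3 8 (.cons 6 (.cut 141293695041665 [141293695041663]
    (.cut 141289400139905 [141289400139903] (.dead 13) (.dead 11)) (.dead 14)) (.cons 8 (.sat 2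
    141289400139904 [141289400139905, 141293695041665] (.dead 13)) (.cons 10 (.dead 2) (.cons 11
    (.sat 1 141293695041664 [141289400139905] (.dead 14)) (.cons 14 (.sat 1 141293695041664
    [141289400139903] (.dead 11)) (.cons 20 (.dead 1) (.cons 21 (.sat 1 141293695041664
    [141289400139905, 141293695041665] (.dead 13)) (.cons 22 (.sat 1 141293695041664
    [141293695041665] (.dead 11)) .nil))))))))) .nil)) (.cons 16 (.sat 4 141289400074369
    [141293694976128] (.cut 141289400139905 [141289400270975, 141302284976255] (.dead 13) (.step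
    false 3 8 (.cons 16 (.disc [3, 8, 16] 6908265 1) .nil)))) .nil))) (.cons 19 (.sat 2
    141289400139904 [141293695041665] (.cut 141289400139905 [141289400139903] (.dead 13) (.dead
    11))) (.cons 21 (.sat 1 141293695041664 [141289400139905] (.cut 141293695041665
    [141293695041663] (.dead 13) (.dead 14))) (.cons 22 (.sat 4 141289400074369 [141293695107200]
    (.cut 141289400139903 [141289400139905, 141293695041663] (.dead 11) (.dead 14)))
    .nil))))))))))), (.dead 4), (.cut 141289400139905 [141289400139903] (.step false 5 3 (.cons 6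
    (.cut 141293695041665 [141293695041663] (.dead 13) (.dead 14)) .nil)) (.step false 5 3 (.cons 6
    (.cut 141293695041665 [141293695041663] (.dead 11) (.dead 8)) .nil))), (.dead 14), (.dead 15),
    (.sat 1 141293695041664 [141289400074369] (.dead 4)), (.sat 1 141293695041664 [141289400139904]
    (.dead 2)), (.step true 8 15 (.cons 8 (.dead 7) (.cons 15 (.dead 7) (.cons 16 (.step true 15 8
    (.cons 8 (.dead 7) (.cons 15 (.dead 7) (.cons 19 (.dead 4) (.cons 21 (.dead 2) (.cons 22 (.dead
    1) (.cons 23 (.step false 15 8 (.cons 11 (.sat 1 141293695041664 [141289400139905] (.dead 2))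
    (.cons 13 (.sat 1 141293695041664 [141289400139904] (.dead 2)) (.cons 14 (.sat 1 141293695041664
    [141289400074369] (.dead 4)) (.cons 16 (.step true 8 16 (.cons 16 (.step false 8 15 (.cons 9
    (.sat 1 141293695041664 [141289400074369] (.dead 4)) (.cons 10 (.sat 1 141293695041664
    [141289400139904] (.dead 2)) (.cons 12 (.sat 1 141293695041664 [141289400139905] (.dead 2))
    (.cons 17 (.sat 1 141293695041664 [141289400139904] (.dead 2)) (.cons 18 (.sat 1 141293695041664
    [141289400139905] (.dead 2)) (.cons 20 (.sat 1 141293695041664 [141289400074369] (.dead 4))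
    (.cons 23 (.disc [8, 15, 16, 23] 8487297 1) .nil)))))))) .nil)) (.cons 19 (.sat 1
    141293695041664 [141289400074369] (.dead 4)) (.cons 21 (.sat 1 141293695041664 [141289400139905]
    (.dead 2)) (.cons 22 (.sat 1 141293695041664 [141289400139904] (.dead 2)) (.cons 23 (.step true
    8 23 (.cons 16 (.disc [8, 15, 16, 23] 8487297 1) (.cons 17 (.sat 1 141293695041664
    [141289400074369, 141289400139904] (.dead 2)) (.cons 18 (.sat 1 141293695041664
    [141289400074369, 141289400139904] (.dead 2)) (.cons 20 (.sat 1 141293695041664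
    [141289400074369, 141289400139904] (.dead 2)) .nil))))) .nil))))))))) .nil))))))) (.cons 17
    (.dead 1) (.cons 18 (.dead 2) (.cons 20 (.dead 4) .nil))))))), (.step true 8 23 (.cons 16 (.step
    true 15 16 (.cons 16 (.step true 8 16 (.cons 23 (.step false 16 15 (.cons 9 (.sat 1
    141293695041664 [141289400074369] (.dead 4)) (.cons 10 (.sat 1 141293695041664 [141289400139904]
    (.dead 2)) (.cons 12 (.sat 1 141293695041664 [141289400139905] (.dead 2)) (.cons 17 (.sat 1
    141293695041664 [141289400139904] (.dead 2)) (.cons 18 (.sat 1 141293695041664 [141289400139905]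
    (.dead 2)) (.cons 20 (.sat 1 141293695041664 [141289400074369] (.dead 4)) (.cons 23 (.disc [8,
    15, 16, 23] 8487297 1) .nil)))))))) .nil)) (.cons 19 (.dead 3) (.cons 21 (.dead 5) (.cons 22
    (.dead 6) (.cons 23 (.dead 7) .nil)))))) (.cons 17 (.sat 1 141293695041664 [141289400074369,
    141289400139904] (.dead 2)) (.cons 18 (.sat 1 141293695041664 [141289400074369, 141289400139904]
    (.dead 2)) (.cons 20 (.sat 1 141293695041664 [141289400074369, 141289400139904] (.dead 2))
    (.cons 23 (.step true 15 23 (.cons 16 (.step true 15 16 (.cons 16 (.dead 7) (.cons 19 (.dead 4)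
    (.cons 21 (.dead 2) (.cons 22 (.dead 1) (.cons 23 (.step false 23 8 (.cons 11 (.sat 1
    141293695041664 [141289400139905] (.dead 2)) (.cons 13 (.sat 1 141293695041664 [141289400139904]
    (.dead 2)) (.cons 14 (.sat 1 141293695041664 [141289400074369] (.dead 4)) (.cons 16 (.disc [8,
    15, 16, 23] 8487297 1) (.cons 19 (.sat 1 141293695041664 [141289400074369] (.dead 4)) (.cons 21
    (.sat 1 141293695041664 [141289400139905] (.dead 2)) (.cons 22 (.sat 1 141293695041664
    [141289400139904] (.dead 2)) .nil)))))))) .nil)))))) (.cons 17 (.dead 1) (.cons 18 (.dead 2)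
    (.cons 20 (.dead 4) .nil))))) .nil))))))]
    (by decide +kernel)

theorem dTh1_16 : Seg cTh1 tabE 16 22 :=
  seg_of [(.sat 1 141293695041664 [141289400139905] (.step false 11 8 (.cons 13 (.sat 2
    141289400139904 [141293695041663] (.dead 14)) (.cons 14 (.sat 2 141289400139904
    [141293695041665] (.dead 13)) (.cons 16 (.step true 8 16 (.cons 11 (.cut 141293695041665
    [141293695041663] (.dead 13) (.dead 14)) (.cons 16 (.step true 8 11 (.cons 11 (.cut
    141293695041665 [141293695041663] (.dead 13) (.dead 14)) (.cons 14 (.dead 13) (.cons 16 (.step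
    true 11 8 (.cons 21 (.step false 8 11 (.cons 13 (.sat 2 141289400139904 [141293695041663] (.dead
    14)) (.cons 14 (.sat 2 141289400139904 [141293695041665] (.dead 13)) (.cons 19 (.sat 2
    141289400139904 [141293695041665] (.dead 13)) (.cons 21 (.disc [8, 11, 16, 21] 6908265 1) (.cons
    22 (.sat 2 141289400139904 [141293695041663] (.dead 14)) .nil)))))) .nil)) (.cons 19 (.dead 13)
    (.cons 22 (.sat 2 141289400139904 [141293695041663] (.dead 14)) .nil)))))) .nil))) (.cons 19
    (.sat 2 141289400139904 [141293695041665] (.dead 13)) (.cons 21 (.step true 11 8 (.cons 11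
    (.dead 13) (.cons 13 (.dead 14) (.cons 19 (.sat 2 141289400139904 [141293695041665] (.dead 13))
    (.cons 21 (.step true 8 11 (.cons 16 (.step true 8 21 (.cons 13 (.dead 14) (.cons 16 (.sat 1
    141293695041664 [141289400074369, 141289400139904] (.dead 2)) (.cons 19 (.sat 2 141289400139904
    [141293695041665] (.dead 13)) (.cons 22 (.sat 2 141289400139904 [141293695041663] (.dead 14))
    .nil))))) .nil)) (.cons 22 (.dead 14) .nil)))))) (.cons 22 (.sat 2 141289400139904
    [141293695041663] (.dead 14)) .nil)))))))), (.sat 2 141289400139904 [141293695041665] (.step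
    false 19 8 (.cons 16 (.step true 8 16 (.cons 16 (.step true 19 8 (.cons 11 (.sat 1
    141293695041664 [141289400139905] (.dead 13)) (.cons 13 (.sat 1 141293695041664
    [141289400139903] (.dead 11)) (.cons 14 (.sat 1 141293695041664 [141289400139904] (.dead 2))
    .nil)))) (.cons 19 (.sat 1 141293695041664 [141289400139905] (.dead 13)) .nil))) (.cons 21 (.sat
    1 141293695041664 [141289400139905] (.dead 13)) (.cons 22 (.sat 1 141293695041664
    [141289400139903] (.dead 11)) .nil))))), (.step false 16 8 .nil), (.sat 1 141293695041664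
    [141289400139903] (.step false 10 9 (.cons 12 (.sat 2 141289400139904 [141293695041663] (.dead
    8)) (.cons 15 (.sat 2 141289400139904 [141293695041665] (.dead 11)) (.cons 17 (.step true 10 9
    (.cons 10 (.dead 11) (.cons 12 (.dead 8) (.cons 17 (.step true 9 10 (.cons 20 (.step true 9 17
    (.cons 12 (.dead 8) (.cons 18 (.sat 2 141289400139904 [141293695041663] (.dead 8)) (.cons 20
    (.sat 1 141293695041664 [141289400074369, 141289400139904] (.dead 2)) (.cons 23 (.sat 2
    141289400139904 [141293695041665] (.dead 11)) .nil))))) .nil)) (.cons 18 (.dead 8) (.cons 23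
    (.sat 2 141289400139904 [141293695041665] (.dead 11)) .nil)))))) (.cons 18 (.sat 2
    141289400139904 [141293695041663] (.dead 8)) (.cons 20 (.step true 9 20 (.cons 10 (.cut
    141293695041665 [141293695041663] (.dead 11) (.dead 8)) (.cons 20 (.step true 9 10 (.cons 10
    (.cut 141293695041665 [141293695041663] (.dead 11) (.dead 8)) (.cons 15 (.dead 11) (.cons 18
    (.sat 2 141289400139904 [141293695041663] (.dead 8)) (.cons 20 (.step true 10 9 (.cons 17 (.step
    false 9 10 (.cons 12 (.sat 2 141289400139904 [141293695041663] (.dead 8)) (.cons 15 (.sat 2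
    141289400139904 [141293695041665] (.dead 11)) (.cons 17 (.step true 10 17 (.cons 17 (.leaf 2 8
    [0, 120]) .nil)) (.cons 18 (.sat 2 141289400139904 [141293695041663] (.dead 8)) (.cons 23 (.sat
    2 141289400139904 [141293695041665] (.dead 11)) .nil)))))) .nil)) (.cons 23 (.dead 11)
    .nil)))))) .nil))) (.cons 23 (.sat 2 141289400139904 [141293695041665] (.dead 11)) .nil)))))))),
    (.sat 1 141293695041664 [141289400139903] (.step false 17 9 (.cons 18 (.sat 2 141289400139904
    [141293695041663] (.dead 8)) (.cons 20 (.step true 9 20 (.cons 17 (.sat 2 141289400139904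
    [141293695041663] (.dead 8)) (.cons 20 (.step true 17 9 (.cons 10 (.sat 1 141293695041664
    [141289400074369, 141289400139904] (.dead 2)) (.cons 12 (.sat 2 141289400139904
    [141293695041663] (.dead 8)) (.cons 15 (.sat 2 141289400139904 [141293695041665] (.dead 11))
    .nil)))) .nil))) (.cons 23 (.sat 2 141289400139904 [141293695041665] (.dead 11)) .nil))))),
    (.step false 20 9 .nil)]
    (by decide +kernel)

theorem dTh3_0 : Seg cTh3 tabE 0 6 :=
  seg_of [(.three 7 1), (.dead 1), (.dead 1), (.filter (.step true 1 2 (.cons 1 (.step true 1 4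
    (.cons 1 (.leaf 30 0 [0, 120]) .nil)) (.cons 4 (.leaf 31 0 [0, 120]) .nil)))), (.three 7 3),
    (.disc [3, 5, 6] 6908265 1)]
    (by decide +kernel)

theorem dO1_0 : Seg cO1 tabE 0 3 :=
  seg_of [(.step true 3 122 (.cons 3 (.cut 141289400139904 [141289400074369] (.step false 3 122
    (.cons 124 (.disc [3, 122, 124] 199384199367737380935571059042051686505 8) .nil)) (.dead 121))
    (.cons 5 (.pos [((1, 0), 141293695041664)] (.cut 141289400139905 [141289400139903] (.dead 127)
    (.dead 121))) (.cons 121 (.step true 122 3 .nil) (.cons 122 (.cut 141289400139904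
    [141289400139903] (.step true 124 122 (.cons 3 (.disc [3, 122, 124]
    199384199367737380935571059042051686505 8) .nil)) (.dead 121)) (.cons 127 (.filter (.step true
    122 3 (.cons 127 (.step false 3 122 (.cons 124 (.disc [3, 122, 124, 127]
    199384199367737380935571059042051686505 8) .nil)) .nil))) .nil)))))), (.dead 3), (.step true 3
    121 (.cons 3 (.step true 121 3 (.cons 5 (.dead 6) (.cons 121 (.step false 121 3 (.cons 5 (.cut
    141289400074369 [141289400139904] (.dead 6) (.dead 6)) (.cons 6 (.cut 141293695041663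
    [141293695041665] (.filter (.step true 6 3 (.cons 6 (.step true 3 6 (.cons 3 (.step false 3 6
    (.cons 121 (.disc [3, 6, 121] 199384199367737380935571059042051686505 8) (.cons 132 (.step true
    132 6 (.cons 132 (.step false 3 121 (.cons 132 (.step true 132 121 (.cons 132 (.step true 6 132
    (.cons 6 (.step true 121 132 (.cons 121 (.leaf 143 18 [0, 1]) .nil)) .nil)) .nil)) .nil)) .nil))
    .nil))) .nil)) .nil))) (.filter (.step true 6 3 (.cons 6 (.step true 3 6 (.cons 3 (.step false 3
    6 (.cons 121 (.disc [3, 6, 121] 199384199367737380935571059042051686505 8) (.cons 135 (.step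
    true 135 6 (.cons 135 (.step false 3 121 (.cons 135 (.step true 135 121 (.cons 135 (.step true 6
    135 (.cons 6 (.step true 121 135 (.cons 121 (.leaf 143 19 [0, 1]) .nil)) .nil)) .nil)) .nil))
    .nil)) .nil))) .nil)) .nil)))) (.cons 8 (.step true 3 8 .nil) (.cons 11 (.step true 3 11 .nil)
    (.cons 13 (.step true 3 13 .nil) (.cons 14 (.step true 3 14 .nil) (.cons 16 (.step true 3 16
    .nil) (.cons 19 (.step true 3 19 .nil) (.cons 21 (.step true 3 21 .nil) (.cons 22 (.step true 3
    22 .nil) (.cons 127 (.cut 141289400074369 [141289400139904] (.dead 6) (.dead 6)) (.cons 132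
    (.cut 141293695041663 [141293695172737] (.filter (.step true 132 3 (.cons 132 (.step true 3 132
    (.cons 3 (.step false 3 121 (.cons 6 (.step true 6 121 (.cons 6 (.step false 121 6 (.cons 132
    (.step true 6 132 (.cons 6 (.step true 121 6 (.cons 121 (.step true 132 6 (.cons 132 (.leaf 138
    18 [0, 1]) .nil)) .nil)) .nil)) .nil)) .nil)) (.cons 132 (.step true 121 132 (.cons 121 (.step
    true 132 121 (.cons 132 (.leaf 135 122 [0]) .nil)) .nil)) .nil))) .nil)) .nil))) (.filter (.step
    true 132 3 (.cons 132 (.step false 3 121 (.cons 132 (.step true 132 121 (.cons 132 (.step true 3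
    132 (.cons 3 (.step true 121 132 (.cons 121 (.leaf 144 129 [0]) .nil)) .nil)) .nil)) .nil))
    .nil)))) (.cons 135 (.cut 141293695041665 [141293694910591] (.filter (.step true 135 3 (.cons
    135 (.step true 3 135 (.cons 3 (.step false 3 121 (.cons 6 (.step true 6 121 (.cons 6 (.step
    false 121 6 (.cons 135 (.step true 6 135 (.cons 6 (.step true 121 6 (.cons 121 (.step true 135 6
    (.cons 135 (.leaf 138 19 [0, 1]) .nil)) .nil)) .nil)) .nil)) .nil)) (.cons 135 (.step true 121
    135 (.cons 121 (.step true 135 121 (.cons 135 (.leaf 135 123 [0]) .nil)) .nil)) .nil))) .nil))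
    .nil))) (.filter (.step true 135 3 (.cons 135 (.step false 3 121 (.cons 135 (.step true 135 121
    (.cons 135 (.step true 3 135 (.cons 3 (.step true 121 135 (.cons 121 (.leaf 144 128 [0]) .nil))
    .nil)) .nil)) .nil)) .nil)))) (.cons 138 (.cut 141293694976128 [141293695107202] (.filter (.step
    true 138 3 (.cons 138 (.step false 3 121 (.cons 138 (.step true 138 121 (.cons 138 (.step true 3
    138 (.cons 3 (.step true 121 138 (.cons 121 (.leaf 139 0 [0, 1]) .nil)) .nil)) .nil)) .nil))
    .nil))) (.filter (.step true 138 3 (.cons 138 (.step false 3 121 (.cons 138 (.step true 138 121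
    (.cons 138 (.step true 3 138 (.cons 3 (.step true 121 138 (.cons 121 (.leaf 146 2 [0]) .nil))
    .nil)) .nil)) .nil)) .nil)))) (.cons 143 (.cut 141293695107200 [141293694976126] (.filter (.step
    true 143 3 (.cons 143 (.step false 3 121 (.cons 143 (.step true 143 121 (.cons 143 (.step true 3
    143 (.cons 3 (.step true 121 143 (.cons 121 (.leaf 139 1 [0, 1]) .nil)) .nil)) .nil)) .nil))
    .nil))) (.filter (.step true 143 3 (.cons 143 (.step false 3 121 (.cons 143 (.step true 143 121
    (.cons 143 (.step true 3 143 (.cons 3 (.step true 121 143 (.cons 121 (.leaf 146 3 [0]) .nil))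
    .nil)) .nil)) .nil)) .nil)))) .nil)))))))))))))))) (.cons 127 (.cut 141289400074369
    [141289400139904] (.dead 6) (.dead 6)) .nil)))) (.cons 5 (.cut 141289400074369 [141289400139904]
    (.dead 6) (.dead 6)) (.cons 122 (.step false 121 3 .nil) (.cons 127 (.dead 6) .nil)))))]
    (by decide +kernel)

theorem dO1_3 : Seg cO1 tabE 3 6 :=
  seg_of [(.step true 3 132 (.cons 3 (.step true 132 3 (.cons 132 (.step false 132 3 (.cons 5 (.cut
    141289400139905 [141289400139903] (.filter (.step true 5 3 (.cons 5 (.step false 3 5 (.cons 143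
    (.step false 3 132 (.cons 143 (.step true 143 132 (.cons 143 (.step true 3 5 (.cons 3 (.step
    true 143 5 (.cons 143 (.step true 5 143 (.cons 5 (.step true 132 143 (.cons 132 (.leaf 142 10
    [0, 1]) .nil)) .nil)) .nil)) .nil)) .nil)) .nil)) .nil)) .nil))) (.filter (.step true 5 3 (.cons
    5 (.step false 3 5 (.cons 138 (.step false 3 132 (.cons 138 (.step true 138 132 (.cons 138
    (.step true 3 5 (.cons 3 (.step true 138 5 (.cons 138 (.step true 5 138 (.cons 5 (.step true 132
    138 (.cons 132 (.leaf 142 9 [0, 1]) .nil)) .nil)) .nil)) .nil)) .nil)) .nil)) .nil)) .nil))))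
    (.cons 6 (.cut 141293695041663 [141293695041665] (.filter (.step true 6 3 (.cons 6 (.step false
    3 6 (.cons 121 (.step false 6 121 (.cons 132 (.step true 121 132 (.cons 121 (.step true 3 6
    (.cons 3 (.step true 121 6 (.cons 121 (.step true 6 121 (.cons 6 (.step true 132 121 (.cons 132
    (.leaf 142 18 [0, 1]) .nil)) .nil)) .nil)) .nil)) .nil)) .nil)) .nil)) .nil))) (.filter (.step
    true 6 3 (.cons 6 (.step false 3 6 (.cons 127 (.step false 6 127 (.cons 132 (.step true 127 132
    (.cons 127 (.step true 3 6 (.cons 3 (.step true 127 6 (.cons 127 (.step true 6 127 (.cons 6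
    (.step true 132 127 (.cons 132 (.leaf 142 17 [0, 1]) .nil)) .nil)) .nil)) .nil)) .nil)) .nil))
    .nil)) .nil)))) (.cons 8 (.step true 3 8 .nil) (.cons 11 (.cut 143471226617729 [142393173376897]
    (.step true 3 11 .nil) (.step true 3 11 .nil)) (.cons 13 (.step true 3 13 .nil) (.cons 14 (.cut
    142393173377407 [143471226618239] (.step true 3 14 .nil) (.step true 3 14 .nil)) (.cons 16
    (.step true 3 16 .nil) (.cons 19 (.cut 142393173377407 [143471226618239] (.step true 3 19 .nil)
    (.step true 3 19 .nil)) (.cons 21 (.cut 143471226617729 [142393173376897] (.step true 3 21 .nil)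
    (.step true 3 21 .nil)) (.cons 22 (.step true 3 22 .nil) (.cons 135 (.cut 141289400139904
    [141293695041664] (.filter (.step true 135 3 (.cons 135 (.step false 3 132 (.cons 135 (.disc [3,
    132, 135] 49000660836615138738725943470174622449673 5) .nil)) .nil))) (.filter (.step true 135 3
    (.cons 135 (.step false 3 132 (.cons 135 (.disc [3, 132, 135]
    49000660836615138738725943470174622449673 5) .nil)) .nil)))) .nil)))))))))))) .nil)) (.cons 135
    (.cut 141289400139904 [141293695041664] (.step false 132 3 (.cons 135 (.disc [3, 132, 135]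
    49000660836615138738725943470174622449673 5) .nil)) (.step false 132 3 (.cons 135 (.disc [3,
    132, 135] 49000660836615138738725943470174622449673 5) .nil))) .nil))), (.step false 8 3 (.cons
    5 (.cut 141289400139903 [141289400139905] (.dead 11) (.cut 141293695041665 [141293695041663]
    (.dead 13) (.dead 14))) (.cons 6 (.cut 141293695041665 [141293695041663] (.cut 141289400139905
    [141289400139903] (.dead 13) (.dead 11)) (.dead 14)) (.cons 11 (.cut 141293695041664
    [141289400139905] (.cut 141289416786050 [141289400205185] (.filter (.step true 8 3 (.cons 8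
    (.step true 11 3 (.cons 11 (.step true 3 8 (.cons 21 (.step true 3 11 (.cons 16 (.step false 21
    16 (.cons 8 (.step true 8 16 (.cons 16 (.step false 3 11 (.cons 21 (.disc [3, 8, 11, 16, 21]
    6908265 121) .nil)) .nil)) (.cons 11 (.step true 11 16 (.cons 21 (.disc [3, 8, 11, 16, 21]
    6908265 121) .nil)) .nil))) .nil)) .nil)) .nil)) (.cons 11 (.step true 3 8 (.cons 11 (.step true
    3 11 (.cons 8 (.step true 16 11 (.cons 16 (.disc [3, 8, 11, 16, 21] 6908265 121) .nil)) .nil))
    .nil)) .nil)))) (.filter (.step true 8 3 (.cons 8 (.step true 11 3 (.cons 11 (.step true 3 8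
    (.cons 21 (.step true 3 11 (.cons 16 (.step false 21 16 (.cons 8 (.step true 8 16 (.cons 16
    (.step false 3 11 (.cons 21 (.disc [3, 8, 11, 16, 21] 6908265 121) .nil)) .nil)) (.cons 11
    (.step true 11 16 (.cons 21 (.disc [3, 8, 11, 16, 21] 6908265 121) .nil)) .nil))) .nil)) .nil))
    .nil)) (.cons 11 (.step true 3 8 (.cons 11 (.step true 3 11 (.cons 8 (.step true 16 11 (.cons 16
    (.disc [3, 8, 11, 16, 21] 6908265 121) .nil)) .nil)) .nil)) .nil))))) (.cut 141293695041665
    [141293695041663] (.dead 13) (.dead 14))) (.cons 13 (.cut 141289400074369 [141293695107200]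
    (.dead 11) (.cut 141289400139903 [141289400139905, 141293695041663] (.dead 11) (.dead 14)))
    (.cons 14 (.cut 141289400139904 [141293695041665] (.cut 142384616734850 [141297990008705]
    (.filter (.step true 8 3 (.cons 8 (.step true 14 3 (.cons 14 (.step true 3 8 (.cons 8 (.step
    true 3 14 (.cons 14 (.step true 16 8 (.cons 19 (.disc [3, 8, 14, 16, 19] 6908265 121) .nil))
    .nil)) .nil)) .nil)) (.cons 14 (.step true 3 8 (.cons 19 (.step true 3 14 (.cons 16 (.step false
    19 16 (.cons 8 (.step true 8 16 (.cons 16 (.step false 3 14 (.cons 19 (.disc [3, 8, 14, 16, 19]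
    6908265 121) .nil)) .nil)) (.cons 14 (.step true 14 16 (.cons 19 (.disc [3, 8, 14, 16, 19]
    6908265 121) .nil)) .nil))) .nil)) .nil)) .nil)))) (.filter (.step true 8 3 (.cons 8 (.step true
    14 3 (.cons 14 (.step true 3 8 (.cons 8 (.step true 3 14 (.cons 14 (.step true 16 8 (.cons 19
    (.disc [3, 8, 14, 16, 19] 6908265 121) .nil)) .nil)) .nil)) .nil)) (.cons 14 (.step true 3 8
    (.cons 19 (.step true 3 14 (.cons 16 (.step false 19 16 (.cons 8 (.step true 8 16 (.cons 16
    (.step false 3 14 (.cons 19 (.disc [3, 8, 14, 16, 19] 6908265 121) .nil)) .nil)) (.cons 14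
    (.step true 14 16 (.cons 19 (.disc [3, 8, 14, 16, 19] 6908265 121) .nil)) .nil))) .nil)) .nil))
    .nil))))) (.cut 141289400139905 [141289400139903] (.dead 13) (.dead 11))) (.cons 16 (.step true
    8 3 (.cons 8 (.step true 16 3 (.cons 16 (.step true 3 8 (.cons 6 (.cut 141293695041665
    [141293695041663] (.cut 141289400139905 [141289400139903] (.dead 13) (.dead 11)) (.dead 14))
    (.cons 8 (.cut 141289400139904 [141289400139905, 141293695041665] (.cut 142384616734850
    [141297990008705] (.disc [3, 8, 16] 6908265 121) (.disc [3, 8, 16] 6908265 121)) (.dead 13))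
    (.cons 11 (.cut 141289400139905 [141293695041664] (.dead 14) (.dead 3)) (.cons 14 (.cut
    141289400139903 [141289400139904, 141293695041664] (.dead 11) (.dead 3)) (.cons 21 (.cut
    141293695041664 [141289400139905, 141293695041665] (.cut 141289416786050 [141289400205185]
    (.step true 3 16 .nil) (.step true 3 16 .nil)) (.dead 13)) (.cons 22 (.cut 141289400139903
    [141289400139904, 141293695041665] (.dead 11) (.dead 3)) .nil))))))) .nil)) (.cons 16 (.cut
    141289400074369 [141293694976128] (.dead 11) (.cut 141289400139905 [141289400270975,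
    141302284976255] (.dead 13) (.step false 3 8 (.cons 16 (.disc [3, 8, 16] 6908265 121) .nil))))
    .nil))) (.cons 19 (.cut 141289400139904 [141293695041665] (.cut 142384616734850
    [141297990008705] (.filter (.step true 8 3 (.cons 8 (.step true 19 3 (.cons 19 (.step true 3 8
    (.cons 8 (.step true 3 19 .nil) .nil)) .nil)) .nil))) (.filter (.step true 8 3 (.cons 8 (.step
    true 19 3 (.cons 19 (.step true 3 8 (.cons 8 (.step true 3 19 .nil) .nil)) .nil)) .nil)))) (.cut
    141289400139905 [141289400139903] (.dead 13) (.dead 11))) (.cons 21 (.cut 141293695041664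
    [141289400139905] (.cut 141289416786050 [141289400205185] (.filter (.step true 8 3 (.cons 8
    (.step true 21 3 (.cons 21 (.step true 3 8 (.cons 21 (.step true 3 21 .nil) .nil)) .nil))
    .nil))) (.filter (.step true 8 3 (.cons 8 (.step true 21 3 (.cons 21 (.step true 3 8 (.cons 21
    (.step true 3 21 .nil) .nil)) .nil)) .nil)))) (.cut 141293695041665 [141293695041663] (.dead 13)
    (.dead 14))) (.cons 22 (.cut 141289400074369 [141293695107200] (.dead 11) (.cut 141289400139903
    [141289400139905, 141293695041663] (.dead 11) (.dead 14))) .nil)))))))))), (.cut 141289400139905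
    [141289400139903] (.step false 5 3 (.cons 6 (.cut 141293695041665 [141293695041663] (.dead 13)
    (.dead 14)) .nil)) (.step false 5 3 (.cons 6 (.cut 141293695041665 [141293695041663] (.dead 11)
    (.dead 8)) .nil)))]
    (by decide +kernel)

end Pool.Agent.P.MP_708877_co
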