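import Pool.Agent.P.MP_708877_co.Full.AuxT
import Pool.Agent.P.MP_708877_co.Full.CO1
import Pool.Agent.P.MP_708877_co.Full.CO3
import Pool.Agent.P.MP_708877_co.Full.COh

/-!
Certificates.
-/

namespace Pool.Agent.P.MP_708877_co

set_option maxRecDepth 100000

theorem dO1_6 : Seg cO1 tabE 6 13 :=
  seg_of [(.step true 8 122 (.cons 8 (.res 141289400074369 141293695041664 141285105041536
    141293694976128 141289400074367 141289400139904 (.dead 5) (.step true 124 8 .nil)) (.cons 11
    (.cut 141293695041664 [141289400139905] (.dead 5) (.dead 3)) (.cons 13 (.cut 141289400074369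
    [141293695107200] (.cut 141293695041664 [141293694976128] (.dead 5) (.dead 132)) (.dead 3))
    (.cons 14 (.cut 141289400139904 [141293695041665] (.cut 141293695041664 [141293695041663] (.dead
    3) (.dead 138)) (.dead 5)) (.cons 16 (.cut 141289400139903 [141289400139905] (.filter (.step
    true 122 8 (.cons 124 (.step false 122 8 (.cons 16 (.step true 8 16 (.cons 16 (.step false 8 122
    (.cons 124 (.step true 122 124 (.cons 124 (.leaf 141 8 [0, 1]) .nil)) .nil)) .nil)) (.cons 124
    (.step true 8 124 (.cons 16 (.step true 122 16 (.cons 124 (.leaf 137 8 [0, 1]) .nil)) .nil))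
    .nil))) .nil))) (.dead 3)) (.cons 21 (.cut 141289400139905 [141289400139903, 141293695041664]
    (.dead 3) (.dead 3)) (.cons 121 (.cut 141289400139905 [141289400139902, 141293695041664] (.dead
    3) (.dead 3)) (.cons 122 (.res 141289400074369 141293694976128 141285105041536 141293695041664
    141293695107198 141289400139904 (.dead 132) (.step true 122 8 .nil)) (.cons 127 (.dead 3) (.cons
    129 (.cut 141293695041663 [141293695041665] (.cut 141289400139904 [141289400074369,
    141293695041664] (.dead 138) (.dead 5)) (.dead 5)) (.cons 130 (.cut 141289400074369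
    [141289400139903] (.dead 5) .qd) (.cons 132 (.res 141289400074369 141293695041664
    141285105041536 141293694976128 141285105041535 141289400139904 (.dead 5) (.step true 122 8
    .nil)) (.cons 135 (.cut 141289400074369 [141297989943423] (.dead 5) (.dead 6))
    .nil)))))))))))))), (.step true 8 124 (.cons 13 (.cut 141289400074369 [141293695107200] (.cut
    141293695041664 [141293694976128] (.dead 5) (.dead 132)) (.dead 3)) (.cons 14 (.cut
    141289400074369 [141289400139904] (.dead 5) (.cut 141293695041664 [141293695041663] (.dead 3)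
    (.dead 138))) (.cons 16 (.cut 141289400139903 [141297990074497] (.filter (.step false 124 8
    (.cons 16 (.step false 16 122 (.cons 124 (.step true 122 124 (.cons 124 (.step true 8 16 (.cons
    16 (.step true 122 16 (.cons 124 (.leaf 140 8 [0, 1]) .nil)) .nil)) .nil)) .nil)) .nil))) (.dead
    132)) (.cons 21 (.cut 141289400139905 [141289400139903, 141293695041664] (.dead 3) (.dead 3))
    (.cons 124 (.cut 141293695107200 [141289400139903] (.dead 3) (.step true 124 8 .nil)) (.cons 127
    (.cut 141289400139904 [141297989943423] (.dead 3) (.step true 124 8 .nil)) (.cons 129 (.cut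
    141293695041663 [141293695041665] (.cut 141289400139904 [141289400074369, 141293695041664]
    (.dead 138) (.dead 5)) (.dead 5)) (.cons 130 (.cut 141289400074369 [141297990074495] (.dead 5)
    (.dead 5)) (.cons 132 (.res 141289400074369 141293695041664 141285105041536 141293694976128
    141285105041535 141289400139904 (.dead 5) (.filter (.step true 124 8 (.cons 132 (.step false 124
    8 (.cons 16 (.step true 8 16 (.cons 16 (.step false 132 122 (.cons 124 (.step true 122 124
    (.cons 124 (.step true 16 132 (.cons 122 (.leaf 164 0 [0]) .nil)) .nil)) .nil)) .nil)) .nil))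
    .nil)))) (.cons 135 (.cut 141289400074369 [141289400139905] (.dead 5) (.dead 3))
    .nil))))))))))), (.step true 121 8 (.cons 8 (.res 141289400074369 141293695041664
    141293694976128 141293695107200 141293695107199 141289400139904 (.dead 5) (.step true 16 8
    .nil)) (.cons 11 (.cut 141289400074369 [141297989943423] (.dead 5) (.dead 6)) (.cons 13 (.cut
    141289400074369 [141293695107200] (.dead 5) .qd) (.cons 14 (.pos [((1, 0), 141293695041665)]
    (.cut 141289400074369 [141289400139904] (.dead 5) (.dead 143))) (.cons 19 (.dead 3) (.cons 21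
    (.cut 141289400139905 [141289400139902, 141293695041664] (.dead 3) (.dead 3)) (.cons 22 (.cut
    141293695107201 [141302284910718] (.dead 135) (.dead 8)) (.cons 121 (.cut 141289400139903
    [141289400139905] (.filter (.step false 121 8 (.cons 16 (.step true 8 16 (.cons 16 (.step true 8
    121 (.cons 16 (.leaf 136 9 [0, 1]) .nil)) .nil)) .nil))) (.dead 3)) (.cons 132 (.pos [((1, 0),
    141293695041665)] (.cut 141289400074369 [141289400139904] (.dead 5) (.dead 143))) (.cons 135
    (.cut 141289400074369 [141293694713982] (.dead 5) (.dead 5)) (.cons 138 (.pos [((1, 0),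
    141293695107200)] (.cut 141289400074369 [141289400139904, 141293695041664] (.dead 135) (.dead
    3))) .nil)))))))))))), (.step false 127 8 (.cons 11 (.cut 141293695041664 [141289400139905]
    (.cut 141289400074369 [141289400139904] (.dead 5) (.dead 3)) (.step true 127 8 .nil)) (.cons 13
    (.cut 141293695041664 [141293695107198] (.cut 141289400074369 [141289400139904] (.dead 5) (.dead
    3)) (.dead 135)) (.cons 14 (.cut 141293695041664 [141293694910593] (.cut 141289400074369
    [141289400139904] (.dead 5) (.dead 3)) (.dead 143)) (.cons 16 (.step true 8 16 (.cons 16 (.step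
    true 127 8 (.cons 11 (.cut 141289400074369 [141289400139903] (.dead 5) (.dead 13)) (.cons 13
    (.cut 141289400074369 [141293695107200] (.dead 5) .qd) (.cons 14 (.cut 141289400074369
    [141293695303807] (.dead 5) .qd) (.cons 21 (.cut 141289400139904 [141297990074499] (.dead 3)
    (.dead 3)) (.cons 22 (.cut 141289400139904 [141293694976126] (.dead 3) .qd) (.cons 127 (.cut
    141289400139903 [141297989943423] (.dead 135) (.disc [8, 16, 127]
    11194098883414652163322902773379162968228097 3)) (.cons 135 (.cut 141293695041663
    [141293694910593] (.cut 141289400074369 [141289400205441] (.dead 5) (.step false 8 127 (.cons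
    135 (.disc [8, 16, 127, 135] 11194098883414652163322902773379162968228097 3) .nil))) (.dead
    143)) (.cons 143 (.cut 141293694976128 [141293695107198] (.cut 141289400139904 [141289400139906,
    141293695041666] (.dead 3) (.step false 8 127 (.cons 143 (.disc [8, 16, 127, 143]
    11194098883414652163322902773379162968228097 3) .nil))) (.dead 135)) .nil))))))))) (.cons 127
    (.cut 141293695041663 [141293694910593] (.cut 141289400074369 [141289400205441] (.dead 5)
    (.filter (.step true 16 8 (.cons 135 (.step false 8 127 (.cons 135 (.disc [8, 16, 127, 135]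
    11194098883414652163322902773379162968228097 3) .nil)) .nil)))) (.dead 143)) .nil))) (.cons 19
    (.cut 141293695041664 [141293694910593] (.cut 141289400074369 [141289400139904] (.dead 5) (.dead
    3)) (.dead 143)) (.cons 21 (.cut 141293695041664 [141289400139905] (.cut 141289400074369
    [141289400139904] (.dead 5) (.dead 3)) (.step true 8 21 .nil)) (.cons 22 (.cut 141293695041664
    [141293695107198] (.cut 141289400074369 [141289400139904] (.dead 5) (.dead 3)) (.dead 135))
    (.cons 135 (.cut 141293695041663 [141293694910593] (.cut 141289400074369 [141289400205441]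
    (.dead 5) (.filter (.step true 127 8 (.cons 135 (.step true 8 127 .nil) .nil)))) (.dead 143))
    (.cons 143 (.cut 141293694976128 [141293695107198] (.cut 141289400139904 [141289400139906,
    141293695041666] (.dead 3) (.filter (.step true 127 8 (.cons 143 (.step true 143 8 (.cons 127
    (.disc [8, 16, 127, 143] 11194098883414652163322902773379162968228097 3) .nil)) .nil)))) (.dead
    135)) .nil)))))))))), (.cut 141293695041664 [141289400139905] (.step true 8 11 (.cons 8 (.cut
    141289416786046 [141289400205695] (.step true 21 8 .nil) (.step true 21 8 .nil)) (.cons 11 (.cut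
    141289416786050 [141289400205185] (.step true 21 11 .nil) (.step true 21 11 .nil)) (.cons 16
    (.cut 141289400139905 [141289400139903] (.dead 127) (.dead 121)) (.cons 19 (.dead 5) (.cons 22
    (.cut 141289400074369 [141289400139904] (.dead 5) (.dead 3)) .nil)))))) (.step false 11 8 (.cons
    13 (.cut 141289400074369 [141293695041663] (.dead 6) (.dead 14)) (.cons 14 (.cut 141289400074369
    [141293695041665] (.dead 6) (.dead 13)) (.cons 16 (.step true 8 16 (.cons 11 (.cut
    141293695041665 [141293695041663] (.dead 13) (.dead 14)) (.cons 16 (.step true 8 11 (.cons 11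
    (.cut 141293695041665 [141293695041663] (.dead 13) (.dead 14)) (.cons 14 (.dead 13) (.cons 16
    (.step true 11 8 (.cons 21 (.step false 8 11 (.cons 13 (.cut 141289400074369 [141293695041663]
    (.dead 6) (.dead 14)) (.cons 14 (.cut 141289400074369 [141293695041665] (.dead 6) (.dead 13))
    (.cons 19 (.cut 141289400074369 [141293695041665] (.dead 6) (.dead 13)) (.cons 21 (.disc [8, 11,
    16, 21] 6908265 121) (.cons 22 (.cut 141289400074369 [141293695041663] (.dead 6) (.dead 14))
    .nil)))))) .nil)) (.cons 19 (.dead 13) (.cons 22 (.cut 141289400074369 [141293695041663] (.dead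
    6) (.dead 14)) .nil)))))) .nil))) (.cons 19 (.cut 141289400074369 [141293695041665] (.dead 6)
    (.dead 13)) (.cons 21 (.step true 11 8 (.cons 11 (.dead 13) (.cons 13 (.dead 14) (.cons 19 (.cut
    141289400074369 [141293695041665] (.dead 6) (.dead 13)) (.cons 21 (.step true 8 11 (.cons 16
    (.step true 8 21 (.cons 13 (.dead 14) (.cons 16 (.cut 141289400074369 [141293695041664] (.dead
    6) (.dead 127)) (.cons 19 (.cut 141289400074369 [141293695041665] (.dead 6) (.dead 13)) (.cons
    22 (.cut 141289400074369 [141293695041663] (.dead 6) (.dead 14)) .nil))))) .nil)) (.cons 22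
    (.dead 14) .nil)))))) (.cons 22 (.cut 141289400074369 [141293695041663] (.dead 6) (.dead 14))
    .nil)))))))), (.cut 141289400139904 [141293695041665] (.step false 19 8 (.cons 16 (.step true 8
    16 (.cons 16 (.step true 19 8 (.cons 11 (.cut 141289400074369 [141293695041664] (.dead 6) (.dead
    3)) (.cons 13 (.cut 141289400074369 [141293695041664] (.dead 6) (.dead 3)) (.cons 14 (.step
    false 16 14 (.cons 19 (.disc [8, 14, 16, 19] 6908265 121) (.cons 21 (.cut 141289400074369
    [141293695041664] (.dead 6) (.dead 3)) (.cons 22 (.cut 141289400074369 [141293695041664] (.dead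
    6) (.dead 3)) .nil)))) .nil)))) (.cons 19 (.cut 141289400074369 [141293695041664] (.dead 6)
    (.dead 3)) .nil))) (.cons 21 (.cut 141289400074369 [141293695041664] (.dead 6) (.dead 3)) (.cons
    22 (.cut 141289400074369 [141293695041664] (.dead 6) (.dead 3)) .nil)))) (.step false 19 8
    (.cons 16 (.step true 8 16 (.cons 16 (.step true 19 8 (.cons 11 (.cut 141289400074369
    [141289400139905] (.dead 5) (.dead 13)) (.cons 13 (.cut 141289400074369 [141289400139903] (.dead
    5) (.dead 11)) (.cons 14 (.cut 141289400074369 [141289400139904] (.dead 5) (.dead 143)) .nil))))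
    (.cons 19 (.cut 141289400074369 [141289400139905] (.dead 5) (.dead 13)) .nil))) (.cons 21 (.cut
    141289400074369 [141289400139905] (.dead 5) (.dead 13)) (.cons 22 (.cut 141289400074369
    [141289400139903] (.dead 5) (.dead 11)) .nil))))), (.step false 16 8 .nil)]
    (by decide +kernel)

theorem dO1_13 : Seg cO1 tabE 13 19 :=
  seg_of [(.step true 129 121 (.cons 122 (.dead 8) (.cons 124 (.cut 141289400139903
    [141289400074369] (.dead 8) (.dead 5)) (.cons 129 (.step true 121 129 (.cons 122 (.pos [((1, 0),
    141293695041663)] (.cut 141289400074369 [141289400139903] (.dead 5) (.dead 8))) (.cons 124 (.cut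
    141289400139903 [141289400074369] (.dead 11) (.dead 3)) (.cons 127 (.dead 5) (.cons 129 (.step
    true 130 129 .nil) (.cons 132 (.pos [((1, 0), 141289400139903)] (.dead 8)) (.cons 137 (.pos
    [((1, 0), 141293695041663)] (.dead 8)) (.cons 143 (.cut 141293695107200 [141293694976126] (.dead
    11) (.pos [((1, 0), 141302284648576), ((16, 0), 141293695041664)] (.dead 3))) .nil))))))))
    (.cons 130 (.cut 141293695041664 [141289400139905] (.cut 141289400074369 [141289400205439]
    (.dead 5) (.filter (.step false 121 129 (.cons 130 (.step true 121 129 (.cons 121 (.step true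
    129 130 (.cons 130 (.leaf 14 136 [0, 1]) .nil)) .nil)) .nil)))) (.dead 8)) (.cons 132 (.pos
    [((1, 0), 141293695041663)] (.cut 141289400074369 [141289400139903] (.dead 5) (.dead 8))) (.cons
    135 (.cut 141289400074369 [141289400139905] (.dead 5) (.dead 8)) (.cons 137 (.cut
    141289400139903 [141289400139905] (.cut 141293695041665 [141293695041663] (.dead 11) (.dead 8))
    (.dead 8)) (.cons 138 (.cut 141289400139903 [141297990074495] (.dead 8) .qd) (.cons 140 (.cut
    141289400139905 [141289400139903, 141293695041664] (.dead 8) (.dead 3)) .nil)))))))))), (.step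
    false 122 121 (.cons 124 (.step true 122 121 (.cons 122 (.step true 124 121 (.cons 124 (.step
    true 121 122 (.cons 122 (.cut 141289400074369 [141289400139903] (.dead 5) (.cut 141293695041665
    [141293695041663] (.dead 11) (.dead 8))) (.cons 127 (.pos [((1, 0), 141293695041664)] (.cut
    141289400074369 [141289400139904] (.dead 5) (.dead 3))) (.cons 137 (.cut 141289400139903
    [141289400139904, 141293695041663] (.dead 8) (.dead 3)) (.cons 140 (.cut 141289400139903
    [141289400139904, 141293695041665] (.dead 11) (.dead 3)) .nil))))) .nil)) (.cons 124 (.cut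
    141289400139903 [141289400139905] (.cut 141293695041665 [141293695041663] (.dead 11) (.dead 8))
    (.dead 3)) .nil))) (.cons 127 (.pos [((1, 0), 141293695041664)] (.cut 141289400074369
    [141289400139904] (.dead 5) (.dead 3))) (.cons 132 (.cut 141293695041663 [141293695172737] (.cut
    141289400074369 [141289400139903] (.dead 5) (.dead 8)) (.pos [((1, 0), 141293695303808), ((7,
    0), 141293695041664)] (.dead 3))) (.cons 135 (.cut 141293695041665 [141293694910591] (.cut
    141289400074369 [141289400139903] (.dead 5) (.dead 11)) (.pos [((1, 0), 141293694779520), ((7,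
    0), 141293695041664)] (.dead 3))) (.cons 138 (.cut 141293694976128 [141293695107202] (.cut
    141289400139904 [141289400139903, 141293695041663] (.dead 3) (.dead 8)) (.pos [((1, 0),
    141293695172736), ((7, 0), 141293695041664)] (.dead 3))) (.cons 143 (.cut 141293695107200
    [141293694976126] (.cut 141289400139904 [141289400139903, 141293695041665] (.dead 3) (.dead 11))
    (.pos [((1, 0), 141293694910592), ((7, 0), 141293695041664)] (.dead 3))) .nil))))))), (.cut
    141293695041663 [141293695172737] (.step false 132 121 (.cons 127 (.cut 141289400139904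
    [141289400074369, 141293695041664] (.dead 138) (.dead 5)) (.cons 135 (.cut 141289400139904
    [141289400074369, 141293695041664] (.dead 138) (.dead 5)) (.cons 138 (.cut 141289400139903
    [141289400139907] (.dead 8) (.filter (.step false 121 132 (.cons 138 (.step true 121 132 (.cons
    121 (.step true 138 132 (.cons 138 (.step true 132 121 (.cons 132 (.step true 138 121 (.cons 138
    (.step true 121 138 (.cons 121 (.step true 132 138 (.cons 132 (.leaf 13 10 [0, 1]) .nil)) .nil))
    .nil)) .nil)) .nil)) .nil)) .nil)))) (.cons 143 (.dead 14) .nil))))) (.step false 132 121 (.cons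
    127 (.cut 141289400074369 [141289400139904, 141293695041665] (.filter (.step false 121 127
    (.cons 132 (.step true 121 127 (.cons 121 (.step true 132 127 (.cons 132 (.step true 127 121
    (.cons 127 (.step true 132 121 (.cons 132 (.step true 121 132 (.cons 121 (.step true 127 132
    (.cons 127 (.leaf 15 1 [0, 1]) .nil)) .nil)) .nil)) .nil)) .nil)) .nil)) .nil))) (.dead 143))
    (.cons 135 (.cut 141293695041664 [141289400139904, 141293695041665] (.filter (.step false 121
    132 (.cons 135 (.step true 121 132 (.cons 121 (.step true 135 132 (.cons 135 (.step true 121 135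
    (.cons 121 (.step true 132 135 (.cons 132 (.step true 132 121 (.cons 132 (.step true 135 121
    (.cons 135 (.leaf 15 138 [0, 1]) .nil)) .nil)) .nil)) .nil)) .nil)) .nil)) .nil))) (.dead 143))
    (.cons 138 (.cut 141289400139903 [141289400270977, 141302284976257] (.filter (.step false 121
    132 (.cons 138 (.step true 121 132 (.cons 121 (.step true 138 132 (.cons 138 (.step true 121 138
    (.cons 121 (.step true 132 138 (.cons 132 (.step true 132 121 (.cons 132 (.step true 138 121
    (.cons 138 (.leaf 13 1 [0, 1]) .nil)) .nil)) .nil)) .nil)) .nil)) .nil)) .nil))) (.filter (.step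
    false 121 132 (.cons 138 (.step true 121 138 (.cons 121 (.step true 132 138 (.cons 132 (.step
    true 132 121 (.cons 132 (.step true 138 121 (.cons 138 (.step true 121 132 (.cons 121 (.step
    true 138 132 (.cons 138 (.leaf 13 19 [0, 1]) .nil)) .nil)) .nil)) .nil)) .nil)) .nil)) .nil))))
    (.cons 143 (.dead 14) .nil)))))), (.cut 141289400139904 [141289400074369] (.step false 127 121
    .nil) (.step false 127 121 .nil)), (.cut 141293695041665 [141293695041663] (.step false 129 122
    (.cons 124 (.step true 122 124 (.cons 124 (.step true 122 129 (.cons 124 (.cut 141289400074369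
    [141289400139904] (.dead 5) (.dead 143)) (.cons 129 (.dead 11) (.cons 137 (.cut 141289400139905
    [141289400139903] (.dead 13) (.dead 11)) (.cons 140 (.dead 11) .nil))))) (.cons 129 (.dead 11)
    .nil))) (.cons 130 (.step true 129 122 (.cons 129 (.cut 141289400074369 [141289400139903] (.dead
    5) (.dead 11)) (.cons 130 (.cut 141289400074369 [141289400139904] (.dead 5) (.dead 143)) (.cons
    137 (.dead 11) (.cons 140 (.cut 141289400139905 [141289400139903] (.dead 13) (.dead 11))
    .nil))))) (.cons 137 (.cut 141289400139905 [141289400139903] (.dead 13) (.dead 11)) (.cons 140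
    (.cut 141289400139905 [141289400139903] (.dead 13) (.dead 11)) .nil))))) (.step false 129 122
    (.cons 124 (.step true 122 124 (.cons 124 (.step true 122 129 (.cons 124 (.step true 129 122
    (.cons 130 (.step false 122 129 (.cons 130 (.step true 129 130 (.cons 130 (.leaf 2 16 [0, 1])
    .nil)) (.cons 137 (.cut 141289400139905 [141289400139903] (.dead 14) (.dead 8)) (.cons 140 (.cut
    141289400139905 [141289400139903] (.dead 14) (.dead 8)) .nil)))) .nil)) (.cons 129 (.cut
    141289400139905 [141289400139903] (.dead 14) (.dead 8)) (.cons 137 (.cut 141289400139905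
    [141289400139903] (.dead 14) (.dead 8)) (.cons 140 (.dead 14) .nil))))) (.cons 129 (.cut
    141289400139905 [141289400139903] (.dead 14) (.dead 8)) .nil))) (.cons 130 (.step true 129 122
    (.cons 129 (.cut 141289400074369 [141289400139905] (.dead 5) (.dead 14)) (.cons 130 (.step true
    122 129 (.cons 124 (.step true 122 130 (.cons 124 (.cut 141289400139904 [141289400074369,
    141293695041664] (.dead 138) (.dead 5)) (.cons 137 (.dead 8) (.cons 140 (.cut 141289400139905
    [141289400139903] (.dead 14) (.dead 8)) .nil)))) .nil)) (.cons 137 (.dead 8) (.cons 140 (.cut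
    141289400139905 [141289400139903] (.dead 14) (.dead 8)) .nil))))) (.cons 137 (.cut
    141289400139905 [141289400139903] (.dead 14) (.dead 8)) (.cons 140 (.cut 141289400139905
    [141289400139903] (.dead 14) (.dead 8)) .nil)))))), (.step false 124 122 .nil)]
    (by decide +kernel)

theorem dO3_0 : Seg cO3 tabE 0 6 :=
  seg_of [(.three 127 3), (.dead 3), (.dead 3), (.disc [3, 5, 6] 6908265 121), (.three 127 121),
    (.step true 121 122 (.cons 121 (.leaf 30 0 [0, 1]) (.cons 122 (.step true 121 124 (.cons 124
    (.leaf 31 0 [0, 1]) .nil)) .nil)))]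
    (by decide +kernel)

theorem dOh_0 : Seg cOh tabE 0 4 :=
  seg_of [(.step true 1 133 (.cons 1 (.sat 1 141293695041664 [141289400139904] (.dead 2)) (.cons 2
    (.dead 4) (.cons 3 (.dead 2) (.cons 6 (.dead 4) (.cons 128 (.filter (.step true 133 1 (.cons 128
    (.step false 1 133 (.cons 134 (.disc [1, 128, 133, 134]
    86772003564839308183160524895100893921535 8) .nil)) .nil))) (.cons 129 (.dead 4) (.cons 130
    (.dead 4) (.cons 131 (.step true 133 1 .nil) (.cons 133 (.sat 2 141289400139904
    [141293694976128] (.dead 4)) (.cons 135 (.sat 1 141293695041664 [141289400139904] (.dead 2))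
    .nil))))))))))), (.dead 6), (.sat 128 141293694976128 [141293695107200] (.dead 131)), (.step
    true 122 1 (.cons 2 (.sat 120 141289400139903 [141289400139905] (.dead 126)) (.cons 4 (.sat 120
    141289400139903 [141289400139905] (.dead 126)) (.cons 6 (.dead 1) (.cons 7 (.dead 1) (.cons 9
    (.sat 128 141293694976128 [141289400074369] .qd) (.cons 10 (.sat 131 141293695107200
    [141289400074369] .qd) (.cons 12 (.sat 128 141293694976128 [141289400074369] .qd) (.cons 15
    (.sat 131 141293695107200 [141289400074369] .qd) (.cons 17 (.sat 136 141293695041663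
    [141289400139904] .qd) (.cons 18 (.sat 136 141293695041663 [141289400139904] .qd) (.cons 20
    (.sat 141 141293695041665 [141289400139904] .qd) (.cons 23 (.sat 141 141293695041665
    [141289400139904] .qd) (.cons 120 (.sat 2 141289400139904 [141289400074369] (.dead 4)) (.cons
    122 (.step true 1 122 (.cons 1 (.step true 124 1 (.cons 124 (.step false 1 122 (.cons 3 (.dead
    2) (.cons 5 (.dead 4) (.cons 6 (.dead 1) (.cons 7 (.dead 1) (.cons 8 (.cut 142384616669311
    [142393206734977] (.step true 8 122 .nil) (.pos [((1, 1), 141298006720640), ((8, 0),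
    141293695041664)] (.dead 1))) (.cons 9 (.sat 120 141289400139903 [141297989943425] (.dead 13))
    (.cons 10 (.sat 120 141289400139903 [141297990074495] (.dead 14)) (.cons 11 (.cut
    142384616800385 [142393206603903] (.step true 11 122 .nil) (.pos [((1, 1), 141297973297280),
    ((8, 0), 141293695041664)] (.dead 1))) (.cons 12 (.sat 126 141289400139905 [141297989943423]
    (.dead 8)) (.cons 13 (.cut 142384616669313 [142393206734975] (.step true 13 122 .nil) (.pos
    [((1, 1), 141298006720640), ((8, 0), 141293695041664)] (.dead 1))) (.cons 14 (.cut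
    142384616800383 [142393206603905] (.step true 14 122 .nil) (.pos [((1, 1), 141297973297280),
    ((8, 0), 141293695041664)] (.dead 1))) (.cons 15 (.sat 126 141289400139905 [141297990074497]
    (.dead 11)) (.cons 16 (.cut 142384616669311 [142393206734977] (.step true 16 122 .nil) (.pos
    [((1, 1), 141298006720640), ((8, 0), 141293695041664)] (.dead 1))) (.cons 17 (.sat 120
    141289400139903 [141297990074495] (.dead 14)) (.cons 18 (.sat 126 141289400139905
    [141297989943423] (.dead 8)) (.cons 19 (.cut 142384616800383 [142393206603905] (.step true 19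
    122 .nil) (.pos [((1, 1), 141297973297280), ((8, 0), 141293695041664)] (.dead 1))) (.cons 20
    (.sat 120 141289400139903 [141297989943425] (.dead 13)) (.cons 21 (.cut 142384616800385
    [142393206603903] (.step true 21 122 .nil) (.pos [((1, 1), 141297973297280), ((8, 0),
    141293695041664)] (.dead 1))) (.cons 22 (.cut 142384616669313 [142393206734975] (.step true 22
    122 .nil) (.pos [((1, 1), 141298006720640), ((8, 0), 141293695041664)] (.dead 1))) (.cons 23
    (.sat 126 141289400139905 [141297990074497] (.dead 11)) (.cons 120 (.sat 2 141289400139904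
    [141289400074369] (.dead 4)) (.cons 121 (.dead 120) (.cons 123 (.dead 1) (.cons 124 (.disc [1,
    122, 124] 79753679747094952374228423616820674755 2) (.cons 125 (.dead 1) (.cons 126 (.sat 2
    141289400139904 [141289400074369] (.dead 4)) (.cons 127 (.dead 126) (.cons 128 (.step true 128
    122 .nil) (.cons 129 (.sat 120 141289400139903 [141289400139905] (.dead 126)) (.cons 130 (.sat
    120 141289400139903 [141289400139905] (.dead 126)) (.cons 131 (.step true 131 122 .nil) (.cons
    132 (.sat 128 141293694976128 [141302285041792] (.pos [((1, 0), 141289400074369), ((7, 0),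
    141293695041664)] (.dead 1))) (.cons 133 (.dead 5) (.cons 134 (.dead 5) (.cons 135 (.sat 131
    141293695107200 [141302284910720] (.pos [((1, 0), 141289400074369), ((7, 0), 141293695041664)]
    (.dead 1))) (.cons 136 (.step true 136 122 .nil) (.cons 137 (.sat 120 141289400139903
    [141289400139905] (.dead 126)) (.cons 138 (.sat 136 141293695041663 [141302284976257] (.pos
    [((1, 0), 141289400139904), ((7, 0), 141293695041664)] (.dead 1))) (.cons 139 (.dead 3) (.cons
    140 (.sat 120 141289400139903 [141289400139905] (.dead 126)) (.cons 141 (.step true 141 122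
    .nil) (.cons 142 (.dead 3) (.cons 143 (.sat 141 141293695041665 [141302284976255] (.pos [((1,
    0), 141289400139904), ((7, 0), 141293695041664)] (.dead 1)))
    .nil)))))))))))))))))))))))))))))))))))))))))))) .nil)) (.cons 3 (.dead 2) (.cons 5 (.dead 4)
    (.cons 6 (.dead 1) (.cons 7 (.dead 1) (.cons 9 (.dead 11) (.cons 10 (.dead 8) (.cons 12 (.dead
    14) (.cons 15 (.dead 13) (.cons 17 (.dead 11) (.cons 18 (.dead 13) (.cons 20 (.dead 8) (.cons 23
    (.dead 14) (.cons 121 (.dead 120) (.cons 122 (.dead 1) (.cons 123 (.dead 1) (.cons 125 (.dead 1)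
    (.cons 127 (.dead 126) (.cons 129 (.dead 131) (.cons 130 (.dead 128) (.cons 137 (.dead 141)
    (.cons 140 (.dead 136) .nil))))))))))))))))))))))) (.cons 124 (.step true 1 122 (.cons 1 (.dead
    1) (.cons 6 (.dead 1) (.cons 7 (.dead 1) (.cons 9 (.dead 128) (.cons 10 (.dead 131) (.cons 18
    (.dead 136) (.cons 23 (.dead 141) (.cons 120 (.dead 2) (.cons 122 (.disc [1, 122, 124]
    79753679747094952374228423616820674755 2) (.cons 123 (.dead 1) (.cons 125 (.dead 1) (.cons 126
    (.dead 4) (.cons 129 (.dead 13) (.cons 130 (.dead 14) (.cons 132 (.dead 8) (.cons 135 (.dead 11)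
    (.cons 137 (.dead 8) (.cons 138 (.dead 14) (.cons 140 (.dead 11) (.cons 143 (.dead 13)
    .nil))))))))))))))))))))) (.cons 126 (.sat 2 141289400139904 [141289400074369] (.dead 4)) (.cons
    132 (.dead 128) (.cons 135 (.dead 131) (.cons 138 (.dead 136) (.cons 143 (.dead 141)
    .nil)))))))))))))))))))))]
    (by decide +kernel)

theorem dOh_4 : Seg cOh tabE 4 6 :=
  seg_of [(.step true 132 1 (.cons 2 (.dead 128) (.cons 4 (.dead 128) (.cons 7 (.dead 5) (.cons 8
    (.sat 131 141293695107200 [141293694976130] (.step true 1 8 .nil)) (.cons 9 (.sat 126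
    141289400139905 [141293695041663] (.dead 8)) (.cons 12 (.sat 120 141289400139903
    [141293695041665] (.dead 13)) (.cons 13 (.sat 131 141293695107200 [141293694976126] (.step true
    1 13 .nil)) (.cons 17 (.sat 120 141289400139903 [141293695041664] .qd) (.cons 18 (.sat 120
    141289400139903 [141289400074369] .qd) (.cons 20 (.sat 126 141289400139905 [141289400074369]
    .qd) (.cons 23 (.sat 126 141289400139905 [141293695041664] .qd) (.cons 128 (.dead 4) (.cons 132
    (.step true 1 132 (.cons 1 (.dead 4) (.cons 2 (.sat 128 141293694976128 [141293695107200] (.dead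
    5)) (.cons 5 (.dead 4) (.cons 7 (.dead 5) (.cons 9 (.sat 126 141289400139905 [141289400139904]
    .qd) (.cons 12 (.sat 120 141289400139903 [141289400139904] .qd) (.cons 16 (.dead 5) (.cons 17
    (.dead 8) (.cons 22 (.dead 5) (.cons 23 (.dead 13) (.cons 122 (.dead 126) (.cons 124 (.dead 120)
    (.cons 129 (.dead 128) (.cons 130 (.dead 5) (.cons 133 (.dead 2) (.cons 135 (.dead 2) (.cons 138
    (.dead 120) (.cons 139 (.dead 5) (.cons 142 (.dead 5) (.cons 143 (.dead 126)
    .nil))))))))))))))))))))) (.cons 135 (.sat 1 141293695041664 [141289400139904] (.dead 2)) (.cons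
    138 (.sat 120 141289400139903 [141289400139905] .qd) (.cons 143 (.sat 126 141289400139905
    [141289400139903] .qd) .nil))))))))))))))))), (.dead 120)]
    (by decide +kernel)

theorem dOh_6 : Seg cOh tabE 6 7 :=
  seg_of [(.step true 128 1 (.cons 2 (.dead 1) (.cons 3 (.dead 1) (.cons 8 (.sat 120 141289400139903
    [141293695041663] (.dead 136)) (.cons 9 (.step true 1 9 .nil) (.cons 12 (.step true 1 12 .nil)
    (.cons 13 (.sat 126 141289400139905 [141293695041665] (.dead 141)) (.cons 16 (.sat 120
    141289400139903 [141289400074369] .qd) (.cons 22 (.sat 126 141289400139905 [141289400074369]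
    .qd) (.cons 128 (.step true 1 128 (.cons 1 (.step false 128 1 (.cons 2 (.sat 1 141293695041664
    [141289400139904] (.dead 1)) (.cons 3 (.dead 2) (.cons 4 (.sat 136 141293695041663
    [141293695041665] (.dead 141)) (.cons 5 (.dead 4) (.cons 6 (.filter (.step true 6 1 (.cons 6
    (.step true 1 6 (.cons 1 (.step false 1 6 (.cons 128 (.disc [1, 6, 128]
    86772003564839308183160524895100893921535 8) (.cons 135 (.step true 135 6 (.cons 135 (.step
    false 1 128 (.cons 135 (.disc [1, 6, 128, 135] 86772003564839308183160524895100893921535 8)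
    .nil)) .nil)) .nil))) .nil)) .nil))) (.cons 7 (.dead 6) (.cons 8 (.sat 120 141289400139903
    [141293695041663] (.dead 136)) (.cons 9 (.step true 1 9 .nil) (.cons 10 (.step true 1 10 .nil)
    (.cons 11 (.step true 1 11 .nil) (.cons 12 (.step true 1 12 .nil) (.cons 13 (.sat 126
    141289400139905 [141293695041665] (.dead 141)) (.cons 14 (.step true 1 14 .nil) (.cons 15 (.step
    true 1 15 .nil) (.cons 16 (.sat 120 141289400139903 [141293695041663] (.dead 136)) (.cons 17
    (.step true 1 17 .nil) (.cons 18 (.step true 1 18 .nil) (.cons 19 (.step true 1 19 .nil) (.cons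
    20 (.step true 1 20 .nil) (.cons 21 (.step true 1 21 .nil) (.cons 22 (.sat 126 141289400139905
    [141293695041665] (.dead 141)) (.cons 23 (.step true 1 23 .nil) (.cons 120 (.sat 136
    141293695041663 [141293694910593] (.filter (.step true 120 1 (.cons 120 (.step false 1 120
    (.cons 128 (.step true 120 128 (.cons 120 (.step true 1 120 (.cons 1 (.step true 128 120 (.cons
    128 (.leaf 145 9 [0]) .nil)) .nil)) .nil)) .nil)) .nil)))) (.cons 126 (.sat 141 141293695041665
    [141293694910591] (.filter (.step true 126 1 (.cons 126 (.step false 1 126 (.cons 128 (.step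
    true 126 128 (.cons 126 (.step true 1 126 (.cons 1 (.step true 128 126 (.cons 128 (.leaf 145 10
    [0]) .nil)) .nil)) .nil)) .nil)) .nil)))) (.cons 131 (.sat 1 141293695041664 [141289400139904]
    (.dead 1)) (.cons 136 (.sat 120 141289400139903 [141297989943423] (.filter (.step true 136 1
    (.cons 136 (.step false 1 128 (.cons 136 (.step true 136 128 (.cons 136 (.step true 1 136 (.cons
    1 (.step true 128 136 (.cons 128 (.leaf 147 10 [0]) .nil)) .nil)) .nil)) .nil)) .nil)))) (.cons
    141 (.sat 126 141289400139905 [141297989943425] (.filter (.step true 141 1 (.cons 141 (.step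
    false 1 128 (.cons 141 (.step true 141 128 (.cons 141 (.step true 1 141 (.cons 1 (.step true 128
    141 (.cons 128 (.leaf 147 9 [0]) .nil)) .nil)) .nil)) .nil)) .nil))))
    .nil)))))))))))))))))))))))))))) (.cons 2 (.sat 1 141293695041664 [141289400139904] (.dead 1))
    (.cons 3 (.dead 1) (.cons 5 (.dead 4) (.cons 121 (.dead 120) (.cons 127 (.dead 126) (.cons 129
    (.dead 1) (.cons 130 (.dead 1) (.cons 131 (.dead 1) (.cons 137 (.sat 141 141293695041665
    [141289400139903] .qd) (.cons 140 (.sat 136 141293695041663 [141289400139905] .qd)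
    .nil)))))))))))) (.cons 131 (.sat 1 141293695041664 [141289400139904] (.dead 1)) (.cons 136
    (.sat 120 141289400139903 [141289400139905] .qd) (.cons 141 (.sat 126 141289400139905
    [141289400139903] .qd) .nil)))))))))))))]
    (by decide +kernel)

theorem dOh_7 : Seg cOh tabE 7 15 :=
  seg_of [(.step true 120 1 (.cons 2 (.sat 128 141293694976128 [141293695107200] (.dead 131)) (.cons
    4 (.sat 136 141293695041663 [141293695041665] (.dead 141)) (.cons 6 (.dead 126) (.cons 8 (.sat
    128 141293694976128 [141289400074369] .qd) (.cons 11 (.sat 131 141293695107200 [141289400074369]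
    .qd) (.cons 16 (.sat 136 141293695041663 [141289400139904] .qd) (.cons 21 (.sat 141
    141293695041665 [141289400139904] .qd) (.cons 120 (.step true 1 120 (.cons 1 (.step false 120 1
    (.cons 2 (.sat 128 141293694976128 [141293695107200] (.dead 131)) (.cons 3 (.dead 2) (.cons 4
    (.sat 136 141293695041663 [141293695041665] (.dead 141)) (.cons 5 (.dead 4) (.cons 6 (.dead 126)
    (.cons 7 (.dead 6) (.cons 8 (.sat 128 141293694976128 [141293695041663] (.dead 136)) (.cons 9
    (.step true 1 9 .nil) (.cons 10 (.step true 1 10 .nil) (.cons 11 (.sat 131 141293695107200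
    [141293695041665] (.dead 141)) (.cons 12 (.cut 142384583442303 [142384599891588] (.step true 1
    12 .nil) (.step true 1 12 .nil)) (.cons 13 (.step true 1 13 .nil) (.cons 14 (.step true 1 14
    .nil) (.cons 15 (.cut 142384633578108 [142384650027393] (.step true 1 15 .nil) (.step true 1 15
    .nil)) (.cons 16 (.sat 128 141293694976128 [141293695041663] (.dead 136)) (.cons 17 (.step true
    1 17 .nil) (.cons 18 (.cut 142384583442303 [142384599891588] (.step true 1 18 .nil) (.step true
    1 18 .nil)) (.cons 19 (.step true 1 19 .nil) (.cons 20 (.step true 1 20 .nil) (.cons 21 (.sat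
    131 141293695107200 [141293695041665] (.dead 141)) (.cons 22 (.step true 1 22 .nil) (.cons 23
    (.cut 142384633578108 [142384650027393] (.step true 1 23 .nil) (.step true 1 23 .nil)) (.cons
    126 (.sat 2 141289400139904 [141289400074369] (.dead 4)) .nil)))))))))))))))))))))))) (.cons 3
    (.dead 2) (.cons 5 (.dead 4) (.cons 121 (.dead 1) (.cons 127 (.dead 126) (.cons 129 (.dead 131)
    (.cons 130 (.dead 128) (.cons 137 (.dead 141) (.cons 140 (.dead 136) .nil)))))))))) (.cons 126
    (.sat 2 141289400139904 [141289400074369] (.dead 4)) .nil)))))))))), (.step true 9 1 (.cons 2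
    (.dead 128) (.cons 4 (.sat 128 141293694976128 [141293695041664] .qd) (.cons 8 (.sat 1
    141293695041664 [141289400074369] (.dead 4)) (.cons 9 (.step true 1 9 (.cons 2 (.sat 120
    141289400139903 [141293695041665] (.dead 141)) (.cons 9 (.sat 4 141289400074369
    [141289400139905, 141293695041665] (.dead 13)) (.cons 12 (.sat 120 141289400139903
    [141289400074369] .qd) (.cons 13 (.dead 4) (.cons 15 (.sat 120 141289400139903 [141289400074369]
    .qd) (.cons 17 (.sat 120 141289400139903 [141289400139905] .qd) (.cons 21 (.dead 2) (.cons 23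
    (.sat 2 141289400139904 [141289400139905, 141293695041665] (.dead 13)) (.cons 122 (.dead 13)
    (.cons 124 (.dead 120) (.cons 129 (.dead 128) (.cons 130 (.dead 11) (.cons 138 (.dead 120)
    (.cons 143 (.dead 141) .nil))))))))))))))) (.cons 10 (.sat 1 141293695041664 [141289400074369]
    .qd) (.cons 11 (.sat 1 141293695041664 [141289400139904] (.dead 2)) (.cons 12 (.sat 4
    141289400074369 [141293694976128] (.dead 128)) (.cons 13 (.sat 2 141289400139904
    [141289400074369] (.dead 4)) (.cons 15 (.sat 2 141289400139904 [141289400074369] .qd) (.cons 16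
    (.sat 1 141293695041664 [141289400074369] .qd) (.cons 17 (.sat 1 141293695041664
    [141289400139903] (.dead 120)) (.cons 18 (.sat 120 141289400139903 [141293695041664] .qd) (.cons
    20 (.sat 1 141293695041664 [141289400139905] (.dead 126)) (.cons 21 (.sat 1 141293695041664
    [141289400074369] .qd) (.cons 23 (.sat 126 141289400139905 [141293695041664] .qd)
    .nil)))))))))))))))), (.step true 8 1 (.cons 2 (.dead 128) (.cons 7 (.dead 6) (.cons 8 (.step
    false 8 1 (.cons 2 (.sat 128 141293694976128 [141293695107200] (.dead 5)) (.cons 3 (.dead 2)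
    (.cons 4 (.sat 136 141293695041663 [141293695041665] (.dead 3)) (.cons 5 (.dead 4) (.cons 6
    (.step true 1 8 .nil) (.cons 7 (.dead 6) (.cons 11 (.sat 1 141293695041664 [141289400139905]
    (.dead 126)) (.cons 13 (.sat 4 141289400074369 [141293695107200] (.dead 5)) (.cons 14 (.sat 2
    141289400139904 [141293695041665] (.dead 3)) (.cons 16 (.step true 16 1 (.cons 16 (.step true 1
    8 (.cons 1 (.sat 120 141289400139903 [141289400074369] .qd) (.cons 2 (.sat 128 141293694976128
    [141293695107200] (.dead 5)) (.cons 4 (.dead 136) (.cons 7 (.dead 5) (.cons 9 (.sat 4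
    141289400074369 [141289400139903] .qd) (.cons 13 (.dead 4) (.cons 17 (.dead 2) (.cons 19 (.sat 2
    141289400139904 [141289400139905] .qd) (.cons 22 (.dead 5) (.cons 121 (.dead 120) (.cons 129
    (.dead 128) (.cons 130 (.dead 5) (.cons 132 (.dead 5) (.cons 137 (.sat 136 141293695041663
    [141289400139903] .qd) (.cons 139 (.dead 5) (.cons 142 (.dead 5) .nil))))))))))))))))) .nil))
    (.cons 19 (.sat 2 141289400139904 [141293695041665] (.dead 3)) (.cons 21 (.sat 1 141293695041664
    [141289400139905] (.dead 126)) (.cons 22 (.sat 4 141289400074369 [141293695107200] (.dead 5))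
    .nil)))))))))))))) (.cons 11 (.sat 1 141293695041664 [141289400074369] .qd) (.cons 13 (.sat 4
    141289400074369 [141293695107200] (.dead 5)) (.cons 14 (.sat 2 141289400139904 [141289400074369]
    .qd) (.cons 16 (.sat 1 141293695041664 [141289400139903] (.dead 120)) (.cons 21 (.sat 1
    141293695041664 [141289400139905] (.dead 126)) .nil))))))))), (.dead 6), (.dead 2), (.step false
    6 1 (.cons 2 (.dead 4) (.cons 4 (.dead 2) .nil))), (.sat 128 141293694976128 [141293695107200]
    (.dead 131)), (.sat 120 141289400139903 [141289400139905] (.dead 126))]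
    (by decide +kernel)

theorem dOh_15 : Seg cOh tabE 15 18 :=
  seg_of [(.step true 133 3 (.cons 5 (.sat 120 141289400139903 [141289400139905] (.dead 126)) (.cons
    6 (.sat 120 141289400139903 [141289400139905] (.dead 126)) (.cons 7 (.dead 3) (.cons 8 (.sat 141
    141293695041665 [141289400074369] .qd) (.cons 11 (.sat 136 141293695041663 [141289400074369]
    .qd) (.cons 13 (.sat 136 141293695041663 [141289400074369] .qd) (.cons 14 (.sat 141
    141293695041665 [141289400074369] .qd) (.cons 16 (.sat 126 141289400139905 [141289400074369]
    .qd) (.cons 19 (.sat 120 141289400139903 [141289400074369] .qd) (.cons 21 (.sat 126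
    141289400139905 [141289400074369] .qd) (.cons 22 (.sat 120 141289400139903 [141289400074369]
    .qd) (.cons 120 (.dead 126) (.cons 126 (.dead 120) (.cons 129 (.dead 3) (.cons 130 (.dead 3)
    (.cons 132 (.sat 1 141293695041664 [141289400139904] (.dead 2)) (.cons 133 (.step true 3 133
    (.cons 3 (.step true 134 3 (.cons 134 (.step false 3 133 (.cons 7 (.dead 3) (.cons 8 (.sat 126
    141289400139905 [141293695041665] (.dead 141)) (.cons 9 (.cut 141293694975873 [141293694976385]
    (.step true 9 133 .nil) (.pos [((2, 1), 142380321833088), ((4, 0), 141293695041664)] (.dead 1)))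
    (.cons 10 (.cut 141293695107455 [141293695106943] (.step true 10 133 .nil) (.pos [((2, 1),
    142380321702016), ((4, 0), 141293695041664)] (.dead 1))) (.cons 11 (.sat 126 141289400139905
    [141293695041663] (.dead 136)) (.cons 12 (.cut 141293694976383 [141293694975871] (.step true 12
    133 .nil) (.pos [((2, 1), 142380321833088), ((4, 0), 141293695041664)] (.dead 1))) (.cons 13
    (.sat 120 141289400139903 [141293695041663] (.dead 136)) (.cons 14 (.sat 120 141289400139903
    [141293695041665] (.dead 141)) (.cons 15 (.cut 141293695106945 [141293695107457] (.step true 15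
    133 .nil) (.pos [((2, 1), 142380321702016), ((4, 0), 141293695041664)] (.dead 1))) (.cons 16
    (.sat 126 141289400139905 [141293695041665] (.dead 141)) (.cons 17 (.cut 141293695107455
    [141293695106943] (.step true 17 133 .nil) (.pos [((2, 1), 142380321702016), ((4, 0),
    141293695041664)] (.dead 1))) (.cons 18 (.cut 141293694976383 [141293694975871] (.step true 18
    133 .nil) (.pos [((2, 1), 142380321833088), ((4, 0), 141293695041664)] (.dead 1))) (.cons 19
    (.sat 120 141289400139903 [141293695041665] (.dead 141)) (.cons 20 (.cut 141293694975873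
    [141293694976385] (.step true 20 133 .nil) (.pos [((2, 1), 142380321833088), ((4, 0),
    141293695041664)] (.dead 1))) (.cons 21 (.sat 126 141289400139905 [141293695041663] (.dead 136))
    (.cons 22 (.sat 120 141289400139903 [141293695041663] (.dead 136)) (.cons 23 (.cut
    141293695106945 [141293695107457] (.step true 23 133 .nil) (.pos [((2, 1), 142380321702016),
    ((4, 0), 141293695041664)] (.dead 1))) (.cons 120 (.sat 126 141289400139905 [141289400139901]
    (.pos [((7, 0), 141289400139904), ((9, 0), 141293695041664)] (.dead 1))) (.cons 121 (.step true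
    121 133 .nil) (.cons 122 (.dead 5) (.cons 123 (.sat 120 141289400139903 [141289400139905] (.dead
    126)) (.cons 124 (.dead 5) (.cons 125 (.sat 120 141289400139903 [141289400139905] (.dead 126))
    (.cons 126 (.sat 120 141289400139903 [141289400139907] (.pos [((7, 0), 141289400139904), ((9,
    0), 141293695041664)] (.dead 1))) (.cons 127 (.step true 127 133 .nil) (.cons 128 (.dead 131)
    (.cons 129 (.dead 3) (.cons 130 (.dead 3) (.cons 131 (.dead 128) (.cons 132 (.sat 1
    141293695041664 [141289400139904] (.dead 2)) (.cons 134 (.disc [3, 133, 134]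
    32667107224410092492483962313449748299785 1) (.cons 135 (.sat 1 141293695041664
    [141289400139904] (.dead 2)) (.cons 136 (.sat 141 141293695041665 [141293695041661] (.pos [((9,
    0), 141289400139904), ((7, 0), 141293695041664)] (.dead 1))) (.cons 137 (.dead 6) (.cons 138
    (.step true 138 133 .nil) (.cons 139 (.sat 120 141289400139903 [141289400139905] (.dead 126))
    (.cons 140 (.dead 6) (.cons 141 (.sat 136 141293695041663 [141293695041667] (.pos [((9, 0),
    141289400139904), ((7, 0), 141293695041664)] (.dead 1))) (.cons 142 (.sat 120 141289400139903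
    [141289400139905] (.dead 126)) (.cons 143 (.step true 143 133 .nil)
    .nil))))))))))))))))))))))))))))))))))))))))) .nil)) (.cons 7 (.dead 3) (.cons 8 (.dead 14)
    (.cons 11 (.dead 13) (.cons 13 (.dead 11) (.cons 14 (.dead 8) (.cons 16 (.dead 11) (.cons 19
    (.dead 13) (.cons 21 (.dead 8) (.cons 22 (.dead 14) (.cons 123 (.dead 126) (.cons 125 (.dead
    120) (.cons 128 (.dead 131) (.cons 129 (.dead 3) (.cons 130 (.dead 3) (.cons 131 (.dead 128)
    (.cons 133 (.dead 3) (.cons 139 (.dead 141) (.cons 142 (.dead 136) .nil))))))))))))))))))))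
    (.cons 134 (.step true 3 133 (.cons 3 (.dead 3) (.cons 7 (.dead 3) (.cons 8 (.dead 141) (.cons
    13 (.dead 136) (.cons 19 (.dead 120) (.cons 21 (.dead 126) (.cons 120 (.dead 13) (.cons 123
    (.dead 11) (.cons 125 (.dead 14) (.cons 126 (.dead 8) (.cons 129 (.dead 3) (.cons 130 (.dead 3)
    (.cons 132 (.dead 1) (.cons 133 (.disc [3, 133, 134] 32667107224410092492483962313449748299785
    1) (.cons 135 (.dead 2) (.cons 136 (.dead 11) (.cons 139 (.dead 8) (.cons 141 (.dead 14) (.cons
    142 (.dead 13) .nil)))))))))))))))))))) (.cons 135 (.sat 1 141293695041664 [141289400139904]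
    (.dead 2)) (.cons 136 (.dead 141) (.cons 141 (.dead 136) .nil)))))))))))))))))))))), (.step true
    3 122 (.cons 3 (.sat 2 141289400139904 [141289400074369] (.dead 4)) (.cons 5 (.dead 1) (.cons 7
    (.dead 4) (.cons 120 (.sat 2 141289400139904 [141289400074369] (.dead 4)) (.cons 121 (.step true
    122 3 .nil) (.cons 122 (.sat 2 141289400139904 [141289400139903] (.dead 1)) (.cons 123 (.dead 1)
    (.cons 125 (.dead 1) (.cons 127 (.filter (.step true 122 3 (.cons 127 (.step false 3 122 (.cons
    124 (.disc [3, 122, 124, 127] 199384199367737380935571059042051686505 1) .nil)) .nil)))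
    .nil)))))))))), (.dead 3)]
    (by decide +kernel)

end Pool.Agent.P.MP_708877_co
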