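import Pool.Agent.P.MP_708877_co.Full.AuxT
import Pool.Agent.P.MP_708877_co.Full.CI1

/-!
Certificates.
-/

namespace Pool.Agent.P.MP_708877_co

set_option maxRecDepth 100000

theorem dI1_2 : Seg cI1 tabE 2 4 :=
  seg_of [(.step true 46 3 (.cons 11 (.cut 141289400139904 [144575033212544] (.dead 24) .qd) (.cons
    13 (.cut 141289400139904 [144600853675391] (.dead 24) .qd) (.cons 46 (.step true 3 46 (.cons 22
    (.cut 141289400139904 [141289383559041, 142393206669185] (.dead 24) (.dead 3)) (.cons 27 (.cut
    141289400139904 [142393206800767] (.dead 24) (.filter (.step true 117 27 (.cons 53 (.step true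
    61 53 (.cons 61 (.step false 46 3 (.cons 53 (.step true 3 53 (.cons 3 (.step true 53 3 (.cons 53
    (.step false 117 27 (.cons 46 (.step true 27 46 (.cons 61 (.step true 46 27 (.cons 117 (.leaf
    151 83 [0, 1]) .nil)) .nil)) (.cons 61 (.step true 27 61 (.cons 61 (.step false 3 46 (.cons 117
    (.step true 46 117 (.cons 117 (.leaf 150 83 [0, 1]) .nil)) .nil)) .nil)) .nil))) .nil)) .nil))
    (.cons 117 (.step true 117 3 (.cons 117 (.step true 3 117 .nil) .nil)) .nil))) .nil)) .nil))))
    (.cons 32 (.cut 142401813446272 [141298006720897] (.filter (.step true 117 32 (.cons 117 (.step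
    false 46 3 (.cons 32 (.step true 3 32 (.cons 3 (.step true 32 3 (.cons 32 (.step false 3 46
    (.cons 117 (.step true 46 117 (.cons 117 (.leaf 160 67 [0]) .nil)) .nil)) .nil)) .nil)) (.cons
    117 (.step true 3 117 .nil) .nil))) .nil))) (.dead 75)) (.cons 46 (.step true 117 46 .nil)
    (.cons 48 (.cut 141293695041664 [141289400074369, 141289400139904] (.dead 45) (.dead 3)) (.cons
    61 (.cut 141293695041664 [142384599892604] (.dead 75) .qd) (.cons 69 (.pos [((1, 0),
    141289400139904)] (.dead 24)) (.cons 99 (.cut 141293695041664 [141289400139905, 141293695041665]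
    (.dead 45) (.dead 3)) (.cons 107 (.dead 24) .nil)))))))))) (.cons 48 (.cut 141293695041664
    [141289400074369] (.cut 141289416786305 [141289416785791] (.dead 75) (.dead 45)) (.dead 45))
    (.cons 51 (.cut 141289400139904 [141289400074369] (.dead 24) (.dead 3)) (.cons 70 (.cut
    141289400139904 [144600819728261] (.dead 24) .qd) (.cons 72 (.cut 141289400074369
    [141289400139904, 141293695041664] (.dead 45) (.dead 3)) (.cons 75 (.res 141289400139904
    142384616734846 141289399943551 141293695041664 141289400074115 143505603199362 (.dead 24)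
    (.filter (.step true 3 46 (.cons 118 (.step true 3 75 (.cons 117 (.step false 118 117 (.cons 46
    (.step true 46 117 (.cons 117 (.step false 3 75 (.cons 118 (.step true 75 118 (.cons 118 (.leaf
    166 3 [0]) .nil)) .nil)) .nil)) (.cons 75 (.step true 75 117 .nil) .nil))) .nil)) .nil))))
    (.cons 93 (.cut 141293695041664 [141297973297023] (.dead 45) (.dead 24)) (.cons 110 (.cut
    141293695041664 [142384600153728] (.dead 45) .qd) (.cons 117 (.cut 141289400139904
    [141289400074369] (.cut 142384616734846 [144575050055810] (.dead 24) (.filter (.step false 3 46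
    (.cons 117 (.step true 3 46 (.cons 3 (.step true 46 117 (.cons 117 (.leaf 91 17 [0, 1]) .nil))
    .nil)) .nil)))) (.dead 45)) .nil)))))))))))), (.step true 24 3 (.cons 8 (.cut 141293695041664
    [141297973035899] (.dead 27) .qd) (.cons 11 (.cut 141293695041664 [142384633577092] (.dead 27)
    .qd) (.cons 24 (.step true 3 24 (.cons 11 (.cut 141293695041664 [141289400074369,
    142393240223872] (.dead 27) (.dead 3)) (.cons 14 (.dead 38) (.cons 19 (.step true 96 19 .nil)
    (.cons 24 (.cut 141289400139904 [141297973297537] (.dead 67) (.pos [((3, 1), 142380338479232),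
    ((1, 3), 141293695041664)] (.dead 3))) (.cons 40 (.dead 38) (.cons 45 (.cut 141293695041664
    [141289400139904, 142393206669695] (.dead 27) (.dead 3)) (.cons 54 (.cut 141293695107201
    [141289417047680, 142393206668932] (.dead 53) (.dead 3)) (.cons 59 (.cut 142384599892102
    [142384599892094] (.pos [((2, 1), 142380338479232), ((9, 0), 141293695041664)] (.dead 3)) (.dead
    38)) (.cons 62 (.cut 141293695041664 [141289400074369, 141289400139904] (.dead 27) (.dead 3))
    (.cons 70 (.dead 77) (.cons 75 (.cut 141293695041664 [141297973297537] (.dead 38) .qd) (.cons 78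
    (.cut 141293695041664 [142401779761792] (.dead 27) (.dead 77)) (.cons 91 (.pos [((1, 0),
    141289400139904)] (.dead 67)) (.cons 93 (.dead 53) (.cons 101 (.pos [((1, 0), 141293695041664)]
    (.dead 27)) (.cons 112 (.dead 67) (.cons 118 (.step true 96 118 .nil) .nil))))))))))))))))))
    (.cons 37 (.cut 141289400074369 [141289433629055, 141293695041664] (.dead 27) (.dead 3)) (.cons
    43 (.cut 141289400139904 [143488440042375] (.dead 67) .qd) (.cons 45 (.dead 27) (.cons 51 (.pos
    [((1, 0), 141293695041664)] (.dead 27)) (.cons 62 (.cut 141293695041664 [141289400074369] (.cut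
    141289400205695 [141289400205185] (.dead 38) (.dead 27)) (.dead 27)) (.cons 64 (.dead 67) (.cons
    67 (.cut 141289400074369 [141289433629055, 141293695041664] (.dead 27) (.dead 3)) (.cons 77
    (.cut 141293695107201 [144600920523143] (.dead 53) .qd) (.cons 78 (.cut 141293695041664
    [142401779761792] (.dead 27) (.dead 77)) (.cons 80 (.cut 141289400074369 [141289400139904,
    141293695041664] (.dead 27) (.dead 3)) (.cons 85 (.cut 141293695041664 [141297973297280] (.dead
    27) .qd) (.cons 88 (.dead 38) (.cons 91 (.pos [((1, 0), 141289400139904)] (.dead 67)) (.cons 96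
    (.cut 141289400139904 [141289400074369] (.cut 142393206669185 [143488423330177] (.dead 67)
    (.filter (.step false 3 24 (.cons 96 (.step true 3 24 (.cons 3 (.step true 24 96 (.cons 96
    (.leaf 85 17 [0, 1]) .nil)) .nil)) .nil)))) (.dead 27)) (.cons 101 (.cut 141293695041664
    [142393206800767] (.dead 27) (.dead 77)) (.cons 107 (.dead 38) (.cons 112 (.cut 141289400139904
    [144566426828159] (.dead 67) .qd) (.cons 115 (.cut 141293695041664 [142401813447296] (.dead 27)
    (.dead 13)) .nil))))))))))))))))))))))]
    (by decide +kernel)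

theorem dI1_4 : Seg cI1 tabE 4 6 :=
  seg_of [(.step true 38 3 (.cons 16 (.cut 141293695041664 [143471293596543] (.dead 27) .qd) (.cons
    21 (.cut 141293695041664 [142384566206080] (.dead 27) .qd) (.cons 38 (.step true 3 38 (.cons 8
    (.cut 141293695041664 [141289416786305, 142406091571071] (.dead 27) (.dead 3)) (.cons 24 (.cut
    141293695041664 [141297973297537] (.dead 27) (.pos [((3, 1), 142380338479232), ((1, 3),
    141293695041664)] (.dead 3))) (.cons 38 (.step true 64 38 .nil) (.cons 43 (.cut 142384633315968
    [142393206538113] (.pos [((21, 4), 142380355256448), ((100, 105), 141293695041664)] (.dead 3))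
    (.dead 67)) (.cons 51 (.dead 27) (.cons 62 (.cut 141289400139904 [141289400139903,
    141293695041663] (.dead 37) (.dead 3)) (.cons 85 (.dead 27) (.cons 96 (.cut 141289400139904
    [143471226749313] (.dead 67) .qd) (.cons 104 (.cut 141289400139904 [141289400074369,
    141293695041664] (.dead 37) (.dead 3)) (.cons 115 (.pos [((1, 0), 141293695041664)] (.dead 27))
    .nil))))))))))) (.cons 40 (.cut 141293695041664 [143471193325435] (.dead 27) .qd) (.cons 53
    (.cut 141289400139904 [142401779760768] (.dead 37) .qd) (.cons 54 (.cut 141293695041664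
    [142384667263616] (.dead 27) .qd) (.cons 64 (.cut 141293695041664 [141289400074369] (.cut
    141289400205185 [141289400467839] (.dead 27) (.filter (.step false 3 38 (.cons 64 (.step true 3
    38 (.cons 3 (.step true 38 64 (.cons 64 (.leaf 93 112 [0, 1]) .nil)) .nil)) .nil)))) (.dead 37))
    (.cons 77 (.cut 141289400139904 [142393206800257] (.dead 37) (.dead 27)) (.cons 88 (.res
    141289400205185 141293695041664 141289400139904 142384616734846 141289400074369 143479833396099
    (.dead 27) (.filter (.step true 3 38 (.cons 67 (.step true 3 88 (.cons 64 (.step false 67 64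
    (.cons 38 (.step true 38 64 (.cons 64 (.step false 64 67 (.cons 88 (.step true 67 88 (.cons 88
    (.leaf 168 11 [0]) .nil)) .nil)) .nil)) (.cons 88 (.step true 64 88 .nil) .nil))) .nil))
    .nil)))) (.cons 91 (.cut 141289400074369 [141289400139904, 141293695041664] (.dead 37) (.dead
    3)) (.cons 104 (.cut 141289400139904 [141289400074369] (.cut 142393206669185 [142393206669695]
    (.dead 67) (.dead 37)) (.dead 37)) (.cons 107 (.cut 141293695041664 [141289400074369] (.dead 27)
    (.dead 3)) (.cons 112 (.cut 141293695041664 [141298040144261] (.dead 27) .qd)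
    .nil)))))))))))))), (.step true 40 3 (.cons 13 (.cut 141293695041664 [142384600415872] (.dead
    38) .qd) (.cons 14 (.cut 141293695041664 [143471193325435] (.dead 38) (.dead 37)) (.cons 16
    (.cut 141293695041664 [142384600415872] (.dead 27) (.dead 11)) (.cons 21 (.cut 141293695041664
    [143471193325435] (.dead 27) .qd) (.cons 29 (.cut 141293695041664 [142393206538880] (.dead 38)
    .qd) (.cons 40 (.step true 3 40 (.cons 8 (.cut 141293695041664 [141289416851842,
    142388911702404] (.dead 27) (.dead 3)) (.cons 14 (.cut 141293695041664 [141289416851841,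
    143488423329663] (.dead 38) (.dead 3)) (.cons 24 (.cut 141293695041664 [141289400139903,
    141293695041918] (.dead 27) (.dead 3)) (.cons 40 (.cut 142393206538113 [142401779760768] (.cut
    141293695041664 [141289433628545, 142388911701889] (.dead 38) (.filter (.step true 78 40 (.cons
    43 (.step false 40 3 (.cons 43 (.disc [3, 40, 43, 78] 1947111322405678430495393785577481 5)
    .nil)) .nil)))) (.dead 43)) (.cons 51 (.cut 141293695041664 [141289400139904, 142384616734336]
    (.dead 27) (.dead 3)) (.cons 70 (.cut 141297973297023 [142401779761792] (.pos [((1, 0),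
    142384650289280), ((4, 4), 141293695041664)] (.dead 3)) (.dead 77)) (.cons 75 (.cut
    141293695041664 [141289433629059, 142388911702142] (.dead 38) (.dead 3)) (.cons 96 (.cut
    141293695041664 [141289400140160, 141293695041920] (.dead 38) (.dead 3)) (.cons 110 (.dead 43)
    (.cons 115 (.cut 141293695041664 [141289400139904, 144575050055296] (.dead 27) (.dead 3))
    .nil))))))))))) (.cons 54 (.cut 141297990140287 [144575083610491] (.dead 38) (.dead 27)) (.cons
    59 (.cut 141293695041664 [141298006852475] (.dead 38) .qd) (.cons 75 (.cut 141293695041664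
    [141298006720640] (.dead 38) .qd) (.cons 77 (.cut 142384633314944 [142393206538623] (.pos [((2,
    1), 142380338479232), ((5, 0), 141293695041664)] (.dead 3)) (.cut 141293695041664
    [141289433629055, 142388911702399] (.dead 27) (.filter (.step true 3 40 (.cons 77 (.step false 3
    40 (.cons 78 (.disc [3, 40, 77, 78] 1947111322405678430495393785577481 5) .nil)) .nil)))))
    (.cons 78 (.cut 141289400074369 [141297973297280] (.dead 43) (.cut 141289400205441
    [141289400205439, 142393206669439] (.filter (.step true 3 40 (.cons 3 (.step false 3 40 (.cons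
    78 (.disc [3, 40, 78] 1947111322405678430495393785577481 5) (.cons 91 (.step true 91 40 .nil)
    (.cons 104 (.step true 104 40 (.cons 91 (.step true 40 104 (.cons 78 (.step false 78 91 (.cons
    29 (.step true 29 91 (.cons 29 (.step true 91 29 (.cons 104 (.leaf 68 43 [0, 1]) .nil)) .nil))
    (.cons 104 (.step true 91 104 (.cons 104 (.leaf 63 114 [0]) .nil)) .nil))) .nil)) .nil))
    .nil)))) .nil))) (.filter (.step true 3 40 (.cons 3 (.step false 3 40 (.cons 38 (.step true 38
    40 (.cons 64 (.step true 40 38 (.cons 78 (.step false 40 38 (.cons 64 (.step true 38 64 (.cons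
    64 (.leaf 63 113 [0]) .nil)) (.cons 85 (.step true 85 38 (.cons 85 (.step true 38 85 (.cons 64
    (.leaf 68 40 [0, 1]) .nil)) .nil)) .nil))) .nil)) .nil)) (.cons 64 (.step true 64 40 .nil)
    (.cons 78 (.disc [3, 40, 78] 1947111322405678430495393785577481 5) .nil)))) .nil))))) (.cons 88
    (.cut 141293695041664 [142384633315968] (.dead 27) (.dead 3)) (.cons 107 (.cut 141293695041664
    [142384633314944] (.dead 27) .qd) (.cons 110 (.dead 43) (.cons 112 (.cut 141293695041664
    [141289400074369] (.dead 27) (.dead 35)) (.cons 115 (.cut 141289400139904 [141289400074369,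
    141293695041664] (.step true 3 40 .nil) (.dead 3)) (.cons 118 (.cut 141293695041664
    [141298006720897] (.dead 38) (.dead 8)) .nil))))))))))))))))))]
    (by decide +kernel)

theorem dI1_6 : Seg cI1 tabE 6 8 :=
  seg_of [(.step true 8 3 (.cons 5 (.cut 141289400139905 [141289400139903] (.dead 13) (.dead 11))
    (.cons 6 (.pos [((1, 0), 141293695041665)] (.cut 141289400139905 [141289400139903] (.dead 13)
    (.dead 11))) (.cons 8 (.step true 3 8 (.cons 6 (.cut 141293695041665 [141293695041663] (.cut
    141289400139905 [141289400139903] (.dead 13) (.dead 11)) (.dead 14)) (.cons 8 (.cut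
    141289400139904 [141289400139905, 141293695041665] (.cut 142384616734850 [141297990008705]
    (.dead 46) (.filter (.step true 16 8 (.cons 19 (.step true 16 19 (.cons 19 (.step true 14 19
    (.cons 3 (.disc [3, 8, 14, 16, 19] 6908265 24) .nil)) .nil)) .nil)))) (.dead 13)) (.cons 11
    (.cut 141289400139905 [141293695041664] (.dead 14) (.dead 3)) (.cons 14 (.cut 141289400139903
    [141289400139904, 141293695041664] (.dead 11) (.dead 3)) (.cons 21 (.cut 141293695041664
    [141289400139905, 141293695041665] (.cut 141289416786050 [141289400205185] (.filter (.step true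
    16 21 (.cons 3 (.step true 11 3 (.cons 11 (.step false 21 16 (.cons 8 (.step true 8 16 (.cons 16
    (.step false 3 11 (.cons 21 (.disc [3, 8, 11, 16, 21] 6908265 24) .nil)) .nil)) (.cons 11 (.step
    true 11 16 (.cons 21 (.disc [3, 8, 11, 16, 21] 6908265 24) .nil)) .nil))) .nil)) .nil))) (.dead
    27)) (.dead 13)) (.cons 22 (.cut 141289400139903 [141289400139904, 141293695041665] (.dead 11)
    (.dead 3)) (.cons 38 (.cut 141293695041664 [141289450209151, 141302284976001] (.dead 27) (.dead
    3)) (.cons 45 (.cut 141289400139904 [141289416720767, 142384616734850] (.dead 46) (.dead 3))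
    (.cons 48 (.cut 141289400139904 [141289433759873, 143479833395584] (.dead 46) (.dead 3)) (.cons
    54 (.cut 141293695041664 [141289433628031, 142388911701889] (.dead 27) (.dead 3)) (.cons 56
    (.cut 141293695107201 [141289450340229, 144583639989888] (.dead 59) (.dead 3)) (.cons 77 (.cut
    141293695041664 [141289416785277, 142380321767807] (.dead 27) (.dead 3)) (.cons 94 (.cut
    141289400139904 [141289484157313, 143518488100994] (.dead 46) (.dead 3)) (.cons 101 (.dead 59)
    (.cons 107 (.cut 141293695041664 [141289400074369, 141297973297280] (.dead 27) (.dead 3)) (.cons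
    110 (.cut 141289400139904 [141289416916608, 141293695041411] (.dead 46) (.dead 3))
    .nil))))))))))))))))) (.cons 11 (.cut 141297990139777 [142384633446530] (.dead 27) (.filter
    (.step true 3 8 (.cons 11 (.step true 3 11 (.cons 8 (.step true 16 11 (.cons 16 (.disc [3, 8,
    11, 16, 21] 6908265 24) .nil)) .nil)) .nil)))) (.cons 13 (.cut 141289400074369 [141289400139904,
    141293695041664] (.dead 11) (.dead 3)) (.cons 14 (.cut 141289400139904 [141293695041665] (.cut
    142384616734850 [141297990008705] (.dead 46) (.filter (.step true 3 8 (.cons 19 (.step true 3 14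
    (.cons 16 (.step false 19 16 (.cons 8 (.step true 8 16 (.cons 16 (.step false 3 14 (.cons 19
    (.disc [3, 8, 14, 16, 19] 6908265 24) .nil)) .nil)) (.cons 14 (.step true 14 16 (.cons 19 (.disc
    [3, 8, 14, 16, 19] 6908265 24) .nil)) .nil))) .nil)) .nil)))) (.cut 141289400139905
    [141289400139903] (.dead 13) (.dead 11))) (.cons 16 (.cut 141289400074369 [141293694976128]
    (.dead 11) (.cut 141289400139905 [141289400270975, 141302284976255] (.dead 13) (.step false 3 8
    (.cons 16 (.disc [3, 8, 16] 6908265 24) .nil)))) (.cons 19 (.cut 141289400139903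
    [141293695041664] (.dead 11) .qd) (.cons 21 (.cut 141289400139905 [141293695041664] (.dead 13)
    .qd) (.cons 22 (.cut 141289400074369 [141293695107200] (.dead 11) (.cut 141289400139903
    [141289400139905, 141293695041663] (.dead 11) (.dead 14))) (.cons 32 (.cut 141289400139904
    [141297973034369] (.dead 46) .qd) (.cons 45 (.cut 141293695041664 [142393240224131] (.dead 27)
    (.dead 46)) (.cons 51 (.cut 141293695041664 [142384666739328] (.dead 27) .qd) (.cons 53 (.cut
    141293695107201 [143488440041845] (.dead 59) .qd) (.cons 85 (.cut 141293695041664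
    [143488440042363] (.dead 27) .qd) (.cons 101 (.cut 141293695041664 [143488440566655] (.dead 27)
    .qd) (.cons 110 (.cut 141289400139904 [144609426637950] (.dead 46) .qd) (.cons 118 (.cut
    141289400139904 [142384599892604] (.dead 46) .qd) .nil))))))))))))))))))), (.step true 16 3
    (.cons 5 (.pos [((1, 0), 141289400139905)] (.cut 141293695041665 [141293695041663] (.dead 13)
    (.dead 14))) (.cons 6 (.cut 141293695041665 [141293695041663] (.dead 13) (.dead 14)) (.cons 16
    (.step true 3 16 (.cons 13 (.cut 141289400139905 [141289400139904, 141293695041663] (.dead 14)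
    (.dead 3)) (.cons 14 (.cut 141289400139904 [141289400139905, 141293695041665] (.cut
    142384616734850 [141297990008705] (.dead 46) (.filter (.step false 16 3 (.cons 19 (.step true 19
    3 (.cons 19 (.step true 3 19 (.cons 8 (.step false 14 8 (.cons 16 (.step true 8 16 (.cons 16
    (.step false 8 14 (.cons 19 (.disc [3, 8, 14, 16, 19] 6908265 24) .nil)) .nil)) (.cons 19 (.step
    true 8 19 (.cons 16 (.disc [3, 8, 14, 16, 19] 6908265 24) .nil)) .nil))) .nil)) .nil)) .nil))))
    (.dead 13)) (.cons 16 (.cut 141293695041664 [141289400139905, 141293695041665] (.cut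
    141289416786050 [141289400205185] (.filter (.step false 16 3 (.cons 21 (.step true 21 3 (.cons
    21 (.step true 3 21 (.cons 21 (.step true 8 16 (.cons 11 (.disc [3, 8, 11, 16, 21] 6908265 24)
    .nil)) .nil)) .nil)) .nil))) (.dead 27)) (.dead 13)) (.cons 19 (.cut 141289400139903
    [141293694976127] (.dead 11) (.dead 11)) (.cons 21 (.cut 141289400139905 [141289400139903,
    141293695041664] (.dead 14) (.dead 3)) (.cons 32 (.cut 141289400139904 [141289400139651,
    142393206668675] (.dead 46) (.dead 3)) (.cons 40 (.cut 141293695041664 [141289366978690,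
    146774073311615] (.dead 27) (.dead 3)) (.cons 56 (.cut 141293695107201 [141289450471040,
    140219953217152] (.dead 59) (.dead 3)) (.cons 64 (.cut 141293695041664 [141289433760128,
    143479833395327] (.dead 27) (.dead 3)) (.cons 69 (.cut 141289400139904 [141289416851327,
    143488423329153] (.dead 46) (.dead 3)) (.cons 72 (.cut 141289400139904 [141289400271233,
    144600819859329] (.dead 46) (.dead 3)) (.cons 88 (.cut 141293695041664 [141289400205185,
    141293695041411] (.dead 27) (.dead 3)) (.cons 101 (.dead 59) (.cons 112 (.cut 141293695041664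
    [141289416720767, 142384616734336] (.dead 27) (.dead 3)) (.cons 118 (.cut 141289400139904
    [141289400074369, 141298006720640] (.dead 46) (.dead 3)) .nil)))))))))))))))) (.cons 19 (.cut
    142384633446530 [141297990139777] (.dead 46) (.filter (.step true 3 16 (.cons 19 (.step true 3
    19 (.cons 16 (.step true 8 19 (.cons 8 (.disc [3, 8, 14, 16, 19] 6908265 24) .nil)) .nil))
    .nil)))) (.cons 21 (.cut 141293695041664 [141289400139905] (.cut 141289416786050
    [141289400205185] (.filter (.step true 3 16 (.cons 11 (.step true 3 21 (.cons 8 (.step false 11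
    8 (.cons 16 (.step true 8 16 (.cons 16 (.step false 8 11 (.cons 21 (.disc [3, 8, 11, 16, 21]
    6908265 24) .nil)) .nil)) (.cons 21 (.step true 8 21 (.cons 16 (.disc [3, 8, 11, 16, 21] 6908265
    24) .nil)) .nil))) .nil)) .nil))) (.dead 27)) (.cut 141293695041665 [141293695041663] (.dead 13)
    (.dead 14))) (.cons 22 (.cut 141289400074369 [141289400139904, 141293695041664] (.dead 11)
    (.dead 3)) (.cons 29 (.cut 141289400139904 [142384666739328] (.dead 46) .qd) (.cons 67 (.cut
    141289400139904 [143488440042363] (.dead 46) .qd) (.cons 70 (.cut 141293695107201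
    [141297973560701] (.dead 59) .qd) (.cons 77 (.cut 141293695041664 [140202773216639] (.dead 27)
    .qd) (.cons 88 (.cut 141289400139904 [143488440041853] (.dead 46) (.dead 27)) (.cons 101 (.cut
    141289400139904 [140219919662463] (.dead 46) .qd) (.cons 107 (.cut 141293695041664
    [143471226748799] (.dead 27) .qd) (.cons 112 (.cut 141293695041664 [142384666739842] (.dead 27)
    .qd) .nil)))))))))))))))]
    (by decide +kernel)

theorem dI1_8 : Seg cI1 tabE 8 10 :=
  seg_of [(.step true 30 3 (.cons 30 (.step true 3 30 (.cons 5 (.cut 141289400139905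
    [141289400139903, 142380321767808] (.dead 13) (.dead 3)) (.cons 6 (.cut 141289400139903
    [141289416852099, 142388911701629] (.dead 8) (.dead 3)) (.cons 13 (.cut 141289400139903
    [141289400205696, 142393206669184] (.dead 8) (.dead 3)) (.cons 14 (.cut 141289400139905
    [141289433759614, 143479833395582] (.dead 13) (.dead 3)) (.cons 16 (.cut 141289400139905
    [141289400074369, 143488440041600] (.dead 13) (.dead 3)) (.cons 19 (.cut 141289400139903
    [141289416785788, 141297990008702] (.dead 8) (.dead 3)) (.cons 29 (.cut 142384633577602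
    [142384633577594] (.filter (.step true 86 29 (.cons 86 (.step false 30 3 (.cons 29 (.step true 3
    29 (.cons 3 (.step true 29 3 (.cons 29 (.step false 3 30 (.cons 86 (.disc [3, 29, 30, 86]
    116056878683004402382405641 5) .nil)) .nil)) .nil)) (.cons 86 (.step true 3 86 (.cons 29 (.disc
    [3, 29, 30, 86] 116056878683004402382405641 5) .nil)) .nil))) .nil))) (.dead 85)) (.cons 30
    (.cut 142384633577598 [142384633577606] (.filter (.step true 86 30 (.cons 85 (.step false 30 3
    (.cons 85 (.disc [3, 30, 85, 86] 116056878683004402382405641 5) .nil)) .nil))) (.dead 29))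
    (.cons 85 (.dead 29) .nil)))))))))) (.cons 32 (.cut 141289400139905 [141293695041409] (.dead 13)
    .qd) (.cons 37 (.cut 141289400139903 [141298006720897] (.dead 8) (.dead 14)) (.cons 43 (.cut
    141289400139903 [143471243460479] (.dead 8) .qd) (.cons 45 (.cut 141289400139905
    [141298040667521] (.dead 13) .qd) (.cons 56 (.cut 141293695041664 [141289400074369,
    141289400139904] (.step true 3 30 .nil) (.dead 3)) (.cons 85 (.cut 142384633577598
    [142384633577606] (.filter (.step true 3 30 (.cons 85 (.step false 3 30 (.cons 86 (.disc [3, 30,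
    85, 86] 116056878683004402382405641 5) .nil)) .nil))) (.dead 29)) (.cons 86 (.cut
    141289400074369 [142384633577600] (.dead 29) (.cut 141297990140033 [141289416917121,
    142384616734847] (.filter (.step true 3 30 (.cons 3 (.step false 3 30 (.cons 13 (.step true 13
    30 (.cons 22 (.step true 30 13 (.cons 86 (.step false 30 13 (.cons 22 (.step true 13 22 (.cons
    22 (.leaf 95 51 [0]) .nil)) (.cons 101 (.step true 101 13 (.cons 101 (.step true 13 101 (.cons
    22 (.leaf 102 25 [0, 1]) .nil)) .nil)) .nil))) .nil)) .nil)) (.cons 22 (.step true 22 30 .nil)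
    (.cons 86 (.disc [3, 30, 86] 116056878683004402382405641 5) .nil)))) .nil))) (.filter (.step
    true 3 30 (.cons 3 (.step false 3 30 (.cons 8 (.step true 8 30 .nil) (.cons 16 (.step true 16 30
    (.cons 8 (.step true 30 16 (.cons 86 (.step false 86 8 (.cons 16 (.step true 8 16 (.cons 16
    (.leaf 95 48 [0]) .nil)) (.cons 59 (.step true 59 8 (.cons 59 (.step true 8 59 (.cons 16 (.leaf
    102 26 [0, 1]) .nil)) .nil)) .nil))) .nil)) .nil)) (.cons 86 (.disc [3, 30, 86]
    116056878683004402382405641 5) .nil)))) .nil))))) (.cons 102 (.cut 141289400139904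
    [141289400074369, 141293695041664] (.step true 3 30 .nil) (.dead 3)) .nil)))))))))), (.step true
    37 3 (.cons 29 (.cut 141289400139905 [144566460251001] (.dead 14) .qd) (.cons 37 (.step true 3
    37 (.cons 6 (.cut 141289400139905 [141289400139899, 142384616734846] (.dead 14) (.dead 3))
    (.cons 11 (.cut 141289400139904 [141293695041663] (.dead 24) (.cut 141289400139905
    [141289400139903] (.dead 14) (.dead 8))) (.cons 16 (.cut 141289400139905 [141289416785536,
    142384616735105] (.dead 14) (.dead 3)) (.cons 19 (.cut 141293695041664 [141289416916351,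
    142401796604799] (.dead 38) (.dead 3)) (.cons 21 (.dead 27) (.cons 22 (.dead 8) (.cons 37
    (.filter (.step false 37 3 (.cons 107 (.step true 3 107 .nil) .nil))) (.cons 38 (.cut
    141293695041664 [141298006720383] (.dead 27) .qd) (.cons 46 (.dead 24) (.cons 51 (.cut
    141289400139904 [141289400139905, 141293695041665] (.dead 24) (.dead 3)) (.cons 54 (.dead 27)
    (.cons 64 (.step true 107 64 .nil) (.cons 67 (.cut 141293695041664 [141289400074369,
    141289400139904] (.dead 38) (.dead 3)) (.cons 77 (.cut 142384633314944 [142393206538623] (.pos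
    [((2, 1), 142380338479232), ((5, 0), 141293695041664)] (.dead 3)) (.dead 27)) (.cons 91 (.cut
    141293695041664 [141289400074369, 142384599892096] (.dead 38) (.dead 3)) (.cons 109 (.cut
    141289400139904 [141289417244798, 146782663246468] (.dead 24) (.dead 3)) (.cons 115 (.cut
    141293695041664 [142384600153728] (.dead 38) (.pos [((2, 1), 142380305055872), ((5, 0),
    141293695041664)] (.dead 3))) .nil)))))))))))))))))) (.cons 43 (.cut 141293695041664
    [142384599892098] (.dead 38) (.dead 8)) (.cons 45 (.cut 141289400139905 [141289416916865] (.dead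
    14) .qd) (.cons 53 (.cut 141293695041664 [142384633577088] (.dead 38) (.dead 8)) (.cons 59 (.cut
    141289400139904 [143488406356859] (.dead 24) .qd) (.cons 67 (.cut 141293695041664
    [141289400074369] (.cut 141289400205695 [141289400205185] (.dead 38) (.dead 27)) (.dead 27))
    (.cons 85 (.cut 141289400139904 [143488440303495] (.dead 24) .qd) (.cons 88 (.cut
    141289400074369 [141289400139904, 141293695041664] (.dead 27) (.dead 3)) (.cons 107 (.cut
    141289400139904 [141289400074369] (.cut 142384616734846 [143488423329667] (.dead 24) (.filter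
    (.step false 3 37 (.cons 107 (.step true 3 37 (.cons 3 (.step true 37 107 (.cons 107 (.leaf 109
    17 [0, 1]) .nil)) .nil)) .nil)))) (.dead 27)) .nil)))))))))))]
    (by decide +kernel)

theorem dI1_10 : Seg cI1 tabE 10 11 :=
  seg_of [(.step true 45 3 (.cons 29 (.cut 141289400139905 [143488406880127] (.dead 14) .qd) (.cons
    32 (.cut 141289400139904 [142384599892094] (.dead 46) (.dead 13)) (.cons 45 (.step true 3 45
    (.cons 8 (.dead 13) (.cons 11 (.dead 24) (.cons 13 (.cut 141289400139905 [141289416916865,
    142393206668932] (.dead 14) (.dead 3)) (.cons 14 (.cut 141289400139904 [141289383494529,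
    142384616735615] (.dead 46) (.dead 3)) (.cons 21 (.cut 141293695041664 [141289400139905] (.dead
    27) (.cut 141293695041665 [141293695041663] (.dead 13) (.dead 14))) (.cons 38 (.dead 27) (.cons
    45 (.filter (.step false 45 3 (.cons 51 (.step true 3 51 .nil) .nil))) (.cons 46 (.cut
    141289400139904 [142393206538623] (.dead 24) .qd) (.cons 54 (.cut 141293695041664
    [141289484025476, 140215658250370] (.dead 27) (.dead 3)) (.cons 69 (.cut 141289400139904
    [142401779760768] (.dead 46) (.step true 51 69 .nil)) (.cons 72 (.cut 141289400139904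
    [141289400074369, 142384599892096] (.dead 46) (.dead 3)) (.cons 93 (.cut 142401813447296
    [141298006720383] (.filter (.step true 51 93 (.cons 51 (.step false 45 3 (.cons 51 (.step true
    51 3 (.cons 51 (.step false 51 93 (.cons 45 (.step true 3 51 .nil) .nil)) .nil)) (.cons 93
    (.step true 3 93 (.cons 3 (.step true 93 3 (.cons 93 (.step false 3 45 (.cons 35 (.step true 35
    45 .nil) (.cons 51 (.step true 45 51 (.cons 51 (.leaf 162 64 [0]) .nil)) (.cons 94 (.step true
    45 94 .nil) .nil)))) .nil)) .nil)) .nil))) .nil))) (.dead 24)) (.cons 107 (.cut 141293695041664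
    [141289400139903, 141293695041663] (.dead 27) (.dead 3)) (.cons 109 (.dead 24) (.cons 117 (.step
    true 51 117 .nil) (.cons 118 (.cut 141289400139904 [141289400074369, 141293695041664] (.dead 46)
    (.dead 3)) .nil))))))))))))))))) (.cons 51 (.cut 141293695041664 [141289400074369] (.cut
    141289400205185 [141289433629059] (.dead 27) (.filter (.step false 3 45 (.cons 51 (.step true 3
    45 (.cons 3 (.step true 45 51 (.cons 51 (.leaf 119 10 [0, 1]) .nil)) .nil)) .nil)))) (.dead 24))
    (.cons 75 (.cut 141289400074369 [141289400139904, 141293695041664] (.dead 24) (.dead 3)) (.cons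
    85 (.cut 141293695041664 [140202739793785] (.dead 27) .qd) (.cons 101 (.cut 141293695041664
    [140202806902139] (.dead 27) .qd) (.cons 110 (.cut 141289400139904 [142384633578112] (.dead 46)
    (.dead 13)) (.cons 118 (.cut 141289400139904 [141289400074369] (.cut 142384616734850
    [142384616734846] (.dead 46) (.dead 24)) (.dead 24)) .nil))))))))))]
    (by decide +kernel)

theorem dI1_11 : Seg cI1 tabE 11 12 :=
  seg_of [(.cut 142384633577602 [142384633577594] (.step true 3 29 (.cons 3 (.step true 29 3 (.cons
    29 (.step false 29 3 (.cons 5 (.cut 141289400139903 [141289400139905, 141293695041663] (.filter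
    (.step true 5 3 (.cons 5 (.step true 3 5 (.cons 3 (.step false 3 5 (.cons 29 (.step true 5 29
    (.cons 5 (.step true 29 5 (.cons 29 (.leaf 78 58 [0]) .nil)) .nil)) (.cons 112 (.step true 112 5
    (.cons 112 (.step false 3 29 (.cons 112 (.step true 112 29 (.cons 112 (.step true 5 112 (.cons 5
    (.step true 29 112 (.cons 29 (.leaf 89 58 [0, 1]) .nil)) .nil)) .nil)) .nil)) .nil)) .nil)))
    .nil)) .nil))) (.dead 14)) (.cons 6 (.cut 141289400139905 [141289400140158, 141293695041665]
    (.dead 14) (.filter (.step true 6 3 (.cons 6 (.step true 3 6 (.cons 3 (.step false 3 6 (.cons 29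
    (.step true 6 29 (.cons 6 (.step true 29 6 (.cons 29 (.leaf 64 51 [0]) .nil)) .nil)) (.cons 70
    (.step true 70 6 (.cons 70 (.step false 3 29 (.cons 70 (.step true 70 29 (.cons 70 (.step true 6
    70 (.cons 6 (.step true 29 70 (.cons 29 (.leaf 75 51 [0, 1]) .nil)) .nil)) .nil)) .nil)) .nil))
    .nil))) .nil)) .nil)))) (.cons 32 (.cut 141289400139904 [141289400140159, 142384616734846]
    (.dead 46) (.filter (.step true 32 3 (.cons 32 (.step true 3 32 (.cons 3 (.step false 3 29
    (.cons 32 (.step true 29 32 (.cons 29 (.step true 32 29 (.cons 32 (.leaf 107 26 [0]) .nil))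
    .nil)) (.cons 101 (.step true 101 29 (.cons 101 (.step false 3 32 (.cons 101 (.step true 101 32
    (.cons 101 (.step true 29 101 (.cons 29 (.step true 32 101 (.cons 32 (.leaf 116 26 [0, 1])
    .nil)) .nil)) .nil)) .nil)) .nil)) .nil))) .nil)) .nil)))) (.cons 43 (.cut 141293695041664
    [141289400205185, 141293695041921] (.dead 38) (.filter (.step true 43 3 (.cons 43 (.step true 3
    43 (.cons 3 (.step false 3 29 (.cons 43 (.step true 29 43 (.cons 29 (.step true 43 29 (.cons 43
    (.leaf 117 58 [0]) .nil)) .nil)) (.cons 59 (.step true 59 29 (.cons 59 (.step false 3 43 (.cons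
    59 (.step true 59 43 (.cons 59 (.step true 29 59 (.cons 29 (.step true 43 59 (.cons 43 (.leaf
    126 58 [0, 1]) .nil)) .nil)) .nil)) .nil)) .nil)) .nil))) .nil)) .nil)))) (.cons 53 (.cut
    141293695041664 [141289416786305, 142380321767297] (.dead 38) (.filter (.step true 53 3 (.cons
    53 (.step false 3 29 (.cons 53 (.step true 53 29 (.cons 53 (.step true 3 53 (.cons 3 (.step true
    29 53 (.cons 29 (.leaf 112 58 [0, 1]) .nil)) .nil)) .nil)) .nil)) .nil)))) (.cons 59 (.cut
    141293695041664 [141289400205185, 141293695041921] (.dead 38) (.filter (.step true 59 3 (.cons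
    59 (.step true 3 59 (.cons 3 (.step false 3 29 (.cons 43 (.step true 43 29 (.cons 43 (.step
    false 29 43 (.cons 59 (.step true 43 59 (.cons 43 (.step true 29 43 (.cons 29 (.step true 59 43
    (.cons 59 (.leaf 125 58 [0, 1]) .nil)) .nil)) .nil)) .nil)) .nil)) (.cons 59 (.step true 29 59
    (.cons 29 (.step true 59 29 (.cons 59 (.leaf 117 96 [0]) .nil)) .nil)) .nil))) .nil)) .nil))))
    (.cons 70 (.cut 141289400139905 [141289400140158, 141293695041665] (.dead 14) (.filter (.step
    true 70 3 (.cons 70 (.step true 3 70 (.cons 3 (.step false 3 29 (.cons 6 (.step true 6 29 (.cons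
    6 (.step false 29 6 (.cons 70 (.step true 6 70 (.cons 6 (.step true 29 6 (.cons 29 (.step true
    70 6 (.cons 70 (.leaf 76 51 [0, 1]) .nil)) .nil)) .nil)) .nil)) .nil)) (.cons 70 (.step true 29
    70 (.cons 29 (.step true 70 29 (.cons 70 (.leaf 64 73 [0]) .nil)) .nil)) .nil))) .nil)) .nil))))
    (.cons 77 (.cut 141293695107199 [141289416917375, 141297990009215] (.dead 110) (.dead 53))
    (.cons 85 (.dead 30) (.cons 93 (.cut 141293695107199 [141289416917375, 141297990009215] (.dead
    110) (.dead 53)) (.cons 101 (.cut 141289400139904 [141289400140159, 142384616734846] (.dead 46)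
    (.filter (.step true 101 3 (.cons 101 (.step true 3 101 (.cons 3 (.step false 3 29 (.cons 32
    (.step true 32 29 (.cons 32 (.step false 29 32 (.cons 101 (.step true 32 101 (.cons 32 (.step
    true 29 32 (.cons 29 (.step true 101 32 (.cons 101 (.leaf 115 26 [0, 1]) .nil)) .nil)) .nil))
    .nil)) .nil)) (.cons 101 (.step true 29 101 (.cons 29 (.step true 101 29 (.cons 101 (.leaf 107
    81 [0]) .nil)) .nil)) .nil))) .nil)) .nil)))) (.cons 110 (.cut 141289400139904 [141289400139651,
    142393206669185] (.dead 46) (.filter (.step true 110 3 (.cons 110 (.step false 3 29 (.cons 110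
    (.step true 110 29 (.cons 110 (.step true 3 110 (.cons 3 (.step true 29 110 (.cons 29 (.leaf 120
    26 [0, 1]) .nil)) .nil)) .nil)) .nil)) .nil)))) (.cons 112 (.cut 141289400139903
    [141289400139905, 141293695041663] (.filter (.step true 112 3 (.cons 112 (.step true 3 112
    (.cons 3 (.step false 3 29 (.cons 5 (.step true 5 29 (.cons 5 (.step false 29 5 (.cons 112
    (.step true 5 112 (.cons 5 (.step true 29 5 (.cons 29 (.step true 112 5 (.cons 112 (.leaf 90 58
    [0, 1]) .nil)) .nil)) .nil)) .nil)) .nil)) (.cons 112 (.step true 29 112 (.cons 29 (.step true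
    112 29 (.cons 112 (.leaf 78 96 [0]) .nil)) .nil)) .nil))) .nil)) .nil))) (.dead 14))
    .nil)))))))))))))) (.cons 85 (.dead 30) .nil))) (.cons 32 (.dead 46) (.cons 43 (.dead 38) (.cons
    85 (.dead 30) .nil))))) (.step true 3 29 (.cons 3 (.step true 29 3 (.cons 29 (.step false 29 3
    (.cons 5 (.cut 141289400139903 [141289400139905, 141293695041149] (.filter (.step true 5 3
    (.cons 5 (.step true 3 5 (.cons 3 (.step false 3 5 (.cons 29 (.step true 5 29 (.cons 5 (.step
    true 29 5 (.cons 29 (.leaf 96 0 [0]) .nil)) .nil)) (.cons 70 (.step true 70 5 (.cons 70 (.step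
    false 3 29 (.cons 70 (.step true 70 29 (.cons 70 (.step true 5 70 (.cons 5 (.step true 29 70
    (.cons 29 (.leaf 101 0 [0, 1]) .nil)) .nil)) .nil)) .nil)) .nil)) .nil))) .nil)) .nil)))
    (.filter (.step true 5 3 (.cons 5 (.step false 3 5 (.cons 29 (.step true 5 29 (.cons 5 (.step
    true 3 5 (.cons 3 (.step true 29 5 (.cons 29 (.leaf 127 2 [0]) .nil)) .nil)) .nil)) .nil))
    .nil)))) (.cons 6 (.cut 141289400139648 [141289400139395, 141293695041663] (.filter (.step true
    6 3 (.cons 6 (.step true 3 6 (.cons 3 (.step false 3 6 (.cons 29 (.step true 6 29 (.cons 6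
    (.step true 29 6 (.cons 29 (.leaf 97 9 [0]) .nil)) .nil)) (.cons 112 (.step true 112 6 (.cons
    112 (.step false 3 29 (.cons 112 (.step true 112 29 (.cons 112 (.step true 6 112 (.cons 6 (.step
    true 29 112 (.cons 29 (.leaf 101 9 [0, 1]) .nil)) .nil)) .nil)) .nil)) .nil)) .nil))) .nil))
    .nil))) (.filter (.step true 6 3 (.cons 6 (.step false 3 6 (.cons 29 (.step true 6 29 (.cons 6
    (.step true 3 6 (.cons 3 (.step true 29 6 (.cons 29 (.leaf 129 8 [0]) .nil)) .nil)) .nil))
    .nil)) .nil)))) (.cons 32 (.cut 141289400139647 [141289400139902, 142393206669695] (.filter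
    (.step true 32 3 (.cons 32 (.step false 3 29 (.cons 32 (.step true 32 29 (.cons 32 (.step true 3
    32 (.cons 3 (.step true 29 32 (.cons 29 (.leaf 94 1 [0, 1]) .nil)) .nil)) .nil)) .nil)) .nil)))
    (.filter (.step true 32 3 (.cons 32 (.step true 3 32 (.cons 3 (.step false 3 29 (.cons 32 (.step
    true 29 32 (.cons 29 (.step true 32 29 (.cons 32 (.leaf 107 65 [0]) .nil)) .nil)) (.cons 110
    (.step true 110 29 (.cons 110 (.step false 3 32 (.cons 110 (.step true 110 32 (.cons 110 (.step
    true 29 110 (.cons 29 (.step true 32 110 (.cons 32 (.leaf 110 65 [0, 1]) .nil)) .nil)) .nil))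
    .nil)) .nil)) .nil))) .nil)) .nil)))) (.cons 43 (.cut 141293695041666 [141289416916608,
    141293695041409] (.filter (.step true 43 3 (.cons 43 (.step true 3 43 (.cons 3 (.step false 3 29
    (.cons 43 (.step true 29 43 (.cons 29 (.step true 43 29 (.cons 43 (.leaf 117 75 [0]) .nil))
    .nil)) (.cons 53 (.step true 53 29 (.cons 53 (.step false 3 43 (.cons 53 (.step true 53 43
    (.cons 53 (.step true 29 53 (.cons 29 (.step true 43 53 (.cons 43 (.leaf 122 41 [0, 1]) .nil))
    .nil)) .nil)) .nil)) .nil)) .nil))) .nil)) .nil))) (.filter (.step true 43 3 (.cons 43 (.step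
    false 3 29 (.cons 43 (.step true 43 29 (.cons 43 (.step true 3 43 (.cons 3 (.step true 29 43
    (.cons 29 (.leaf 92 40 [0, 1]) .nil)) .nil)) .nil)) .nil)) .nil)))) (.cons 53 (.cut
    141293695041666 [141289400205185, 141293695041407] (.filter (.step true 53 3 (.cons 53 (.step
    true 3 53 (.cons 3 (.step false 3 29 (.cons 43 (.step true 43 29 (.cons 43 (.step false 29 43
    (.cons 53 (.step true 43 53 (.cons 43 (.step true 29 43 (.cons 29 (.step true 53 43 (.cons 53
    (.leaf 125 41 [0, 1]) .nil)) .nil)) .nil)) .nil)) .nil)) (.cons 53 (.step true 29 53 (.cons 29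
    (.step true 53 29 (.cons 53 (.leaf 118 75 [0]) .nil)) .nil)) .nil))) .nil)) .nil))) (.filter
    (.step true 53 3 (.cons 53 (.step true 3 53 (.cons 3 (.step false 3 29 (.cons 53 (.step true 29
    53 (.cons 29 (.step true 53 29 (.cons 53 (.leaf 118 97 [0]) .nil)) .nil)) (.cons 59 (.step true
    59 29 (.cons 59 (.step false 3 53 (.cons 59 (.step true 59 53 (.cons 59 (.step true 29 59 (.cons
    29 (.step true 53 59 (.cons 53 (.leaf 122 59 [0, 1]) .nil)) .nil)) .nil)) .nil)) .nil)) .nil)))
    .nil)) .nil)))) (.cons 59 (.cut 141293695041664 [141289400205185, 141293695041407] (.filter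
    (.step true 59 3 (.cons 59 (.step false 3 29 (.cons 59 (.step true 59 29 (.cons 59 (.step true 3
    59 (.cons 3 (.step true 29 59 (.cons 29 (.leaf 92 8 [0, 1]) .nil)) .nil)) .nil)) .nil)) .nil)))
    (.filter (.step true 59 3 (.cons 59 (.step true 3 59 (.cons 3 (.step false 3 29 (.cons 53 (.step
    true 53 29 (.cons 53 (.step false 29 53 (.cons 59 (.step true 53 59 (.cons 53 (.step true 29 53
    (.cons 29 (.step true 59 53 (.cons 59 (.leaf 125 59 [0, 1]) .nil)) .nil)) .nil)) .nil)) .nil))
    (.cons 59 (.step true 29 59 (.cons 29 (.step true 59 29 (.cons 59 (.leaf 117 97 [0]) .nil))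
    .nil)) .nil))) .nil)) .nil)))) (.cons 70 (.cut 141289400139903 [141289400140156,
    141293695041410] (.filter (.step true 70 3 (.cons 70 (.step true 3 70 (.cons 3 (.step false 3 29
    (.cons 5 (.step true 5 29 (.cons 5 (.step false 29 5 (.cons 70 (.step true 5 70 (.cons 5 (.step
    true 29 5 (.cons 29 (.step true 70 5 (.cons 70 (.leaf 106 0 [0, 1]) .nil)) .nil)) .nil)) .nil))
    .nil)) (.cons 70 (.step true 29 70 (.cons 29 (.step true 70 29 (.cons 70 (.leaf 97 74 [0])
    .nil)) .nil)) .nil))) .nil)) .nil))) (.filter (.step true 70 3 (.cons 70 (.step false 3 29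
    (.cons 70 (.step true 70 29 (.cons 70 (.step true 3 70 (.cons 3 (.step true 29 70 (.cons 29
    (.leaf 129 40 [0]) .nil)) .nil)) .nil)) .nil)) .nil)))) (.cons 77 (.cut 141293695106944
    [141289416916865, 141297990008191] (.dead 85) (.filter (.step true 77 3 (.cons 77 (.step false 3
    29 (.cons 77 (.step true 77 29 (.cons 77 (.step true 3 77 (.cons 3 (.step true 29 77 (.cons 29
    (.leaf 131 32 [0]) .nil)) .nil)) .nil)) .nil)) .nil)))) (.cons 85 (.dead 30) (.cons 93 (.cut
    141293695106944 [141289400204673, 142384616735105] (.dead 85) (.filter (.step true 93 3 (.cons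
    93 (.step false 3 29 (.cons 93 (.step true 93 29 (.cons 93 (.step true 3 93 (.cons 3 (.step true
    29 93 (.cons 29 (.leaf 131 64 [0]) .nil)) .nil)) .nil)) .nil)) .nil)))) (.cons 101 (.cut
    141289400139904 [141289400139649, 142384616734846] (.filter (.step true 101 3 (.cons 101 (.step
    false 3 29 (.cons 101 (.step true 101 29 (.cons 101 (.step true 3 101 (.cons 3 (.step true 29
    101 (.cons 29 (.leaf 94 97 [0, 1]) .nil)) .nil)) .nil)) .nil)) .nil))) (.filter (.step true 101
    3 (.cons 101 (.step true 3 101 (.cons 3 (.step false 3 29 (.cons 101 (.step true 29 101 (.cons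
    29 (.step true 101 29 (.cons 101 (.leaf 107 83 [0]) .nil)) .nil)) (.cons 110 (.step true 110 29
    (.cons 110 (.step false 3 101 (.cons 110 (.step true 110 101 (.cons 110 (.step true 29 110
    (.cons 29 (.step true 101 110 (.cons 101 (.leaf 115 24 [0, 1]) .nil)) .nil)) .nil)) .nil))
    .nil)) .nil))) .nil)) .nil)))) (.cons 110 (.cut 141289400139902 [141289400139649,
    142384616734846] (.filter (.step true 110 3 (.cons 110 (.step true 3 110 (.cons 3 (.step false 3
    29 (.cons 32 (.step true 32 29 (.cons 32 (.step false 29 32 (.cons 110 (.step true 32 110 (.cons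
    32 (.step true 29 32 (.cons 29 (.step true 110 32 (.cons 110 (.leaf 115 65 [0, 1]) .nil)) .nil))
    .nil)) .nil)) .nil)) (.cons 110 (.step true 29 110 (.cons 29 (.step true 110 29 (.cons 110
    (.leaf 108 65 [0]) .nil)) .nil)) .nil))) .nil)) .nil))) (.filter (.step true 110 3 (.cons 110
    (.step true 3 110 (.cons 3 (.step false 3 29 (.cons 101 (.step true 101 29 (.cons 101 (.step
    false 29 101 (.cons 110 (.step true 101 110 (.cons 101 (.step true 29 101 (.cons 29 (.step true
    110 101 (.cons 110 (.leaf 110 24 [0, 1]) .nil)) .nil)) .nil)) .nil)) .nil)) (.cons 110 (.step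
    true 29 110 (.cons 29 (.step true 110 29 (.cons 110 (.leaf 108 83 [0]) .nil)) .nil)) .nil)))
    .nil)) .nil)))) (.cons 112 (.cut 141289400139648 [141289416720511, 142384616735617] (.filter
    (.step true 112 3 (.cons 112 (.step true 3 112 (.cons 3 (.step false 3 29 (.cons 6 (.step true 6
    29 (.cons 6 (.step false 29 6 (.cons 112 (.step true 6 112 (.cons 6 (.step true 29 6 (.cons 29
    (.step true 112 6 (.cons 112 (.leaf 106 9 [0, 1]) .nil)) .nil)) .nil)) .nil)) .nil)) (.cons 112
    (.step true 29 112 (.cons 29 (.step true 112 29 (.cons 112 (.leaf 96 82 [0]) .nil)) .nil))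
    .nil))) .nil)) .nil))) (.filter (.step true 112 3 (.cons 112 (.step false 3 29 (.cons 112 (.step
    true 112 29 (.cons 112 (.step true 3 112 (.cons 3 (.step true 29 112 (.cons 29 (.leaf 127 57
    [0]) .nil)) .nil)) .nil)) .nil)) .nil)))) .nil)))))))))))))) (.cons 85 (.dead 30) .nil))) (.cons
    32 (.step true 29 3 .nil) (.cons 43 (.step true 29 3 .nil) (.cons 85 (.dead 30) .nil))))))]
    (by decide +kernel)

end Pool.Agent.P.MP_708877_co
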