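import Pool.Agent.P.MP_708877_co.Full.AuxT
import Pool.Agent.P.MP_708877_co.Full.CI1

/-!
Certificates.
-/

namespace Pool.Agent.P.MP_708877_co

set_option maxRecDepth 100000

theorem dI1_12 : Seg cI1 tabE 12 13 :=
  seg_of [(.cut 141298006720897 [142401813446272] (.step true 3 32 (.cons 3 (.step true 32 3 (.cons
    32 (.step false 32 3 (.cons 5 (.cut 141289400139905 [141289400139903, 141293695041920] (.dead
    13) (.filter (.step true 5 3 (.cons 5 (.step false 3 5 (.cons 59 (.step false 3 32 (.cons 59
    (.step true 59 32 (.cons 59 (.step true 3 5 (.cons 3 (.step true 59 5 (.cons 59 (.step true 5 59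
    (.cons 5 (.step true 32 59 (.cons 32 (.leaf 104 1 [0, 1]) .nil)) .nil)) .nil)) .nil)) .nil))
    .nil)) .nil)) .nil)))) (.cons 6 (.cut 141293695041663 [141289400139905, 141293695041665]
    (.filter (.step true 6 3 (.cons 6 (.step false 3 6 (.cons 32 (.step true 6 32 (.cons 6 (.step
    true 3 6 (.cons 3 (.step true 32 6 (.cons 32 (.leaf 79 67 [0]) .nil)) .nil)) .nil)) .nil))
    .nil))) (.dead 13)) (.cons 43 (.cut 141293695107201 [141289416786050, 141297990009215] (.dead
    70) (.dead 29)) (.cons 53 (.dead 35) (.cons 70 (.cut 141293695041664 [141289400205695,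
    141293695041919] (.dead 75) (.filter (.step true 70 3 (.cons 70 (.step false 3 32 (.cons 70
    (.step true 70 32 (.cons 70 (.step true 3 70 (.cons 3 (.step true 32 70 (.cons 32 (.leaf 86 35
    [0, 1]) .nil)) .nil)) .nil)) .nil)) .nil)))) (.cons 77 (.cut 141293695041663 [141289400139905,
    141293695041665] (.filter (.step true 77 3 (.cons 77 (.step false 3 77 (.cons 32 (.step true 77
    32 (.cons 77 (.step true 3 77 (.cons 3 (.step true 32 77 (.cons 32 (.leaf 79 104 [0]) .nil))
    .nil)) .nil)) .nil)) .nil))) (.dead 13)) (.cons 93 (.dead 35) (.cons 110 (.cut 141289400139904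
    [141289400139906, 142393206669695] (.dead 46) (.step false 3 110 .nil)) (.cons 112 (.dead 35)
    .nil)))))))))) (.cons 53 (.dead 35) (.cons 93 (.dead 35) (.cons 112 (.dead 35) .nil))))) (.cons
    53 (.dead 35) (.cons 70 (.dead 75) (.cons 93 (.dead 35) (.cons 101 (.dead 46) (.cons 112 (.dead
    35) .nil))))))) (.step true 3 32 (.cons 3 (.step true 32 3 (.cons 32 (.step false 32 3 (.cons 5
    (.cut 141289400139905 [141289400139903, 141293695041410] (.step false 3 5 .nil) (.filter (.step
    true 5 3 (.cons 5 (.step false 3 5 (.cons 77 (.step false 3 32 (.cons 77 (.step true 77 32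
    (.cons 77 (.step true 3 5 (.cons 3 (.step true 77 5 (.cons 77 (.step true 5 77 (.cons 5 (.step
    true 32 77 (.cons 32 (.leaf 69 64 [0, 1]) .nil)) .nil)) .nil)) .nil)) .nil)) .nil)) .nil))
    .nil)))) (.cons 6 (.cut 141293695041665 [141289400140158, 141293695041663] (.filter (.step true
    6 3 (.cons 6 (.step false 3 6 (.cons 32 (.step true 6 32 (.cons 6 (.step true 3 6 (.cons 3
    (.step true 32 6 (.cons 32 (.leaf 133 41 [0]) .nil)) .nil)) .nil)) .nil)) .nil))) (.filter
    (.step true 6 3 (.cons 6 (.step true 3 6 (.cons 3 (.step false 3 6 (.cons 32 (.step true 6 32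
    (.cons 6 (.step true 32 6 (.cons 32 (.leaf 65 50 [0]) .nil)) .nil)) (.cons 59 (.step true 59 6
    (.cons 59 (.step false 3 32 (.cons 59 (.step true 59 32 (.cons 59 (.step true 6 59 (.cons 6
    (.step true 32 59 (.cons 32 (.leaf 69 50 [0, 1]) .nil)) .nil)) .nil)) .nil)) .nil)) .nil)))
    .nil)) .nil)))) (.cons 43 (.cut 141293695107199 [141289416785536, 142393206669952] (.dead 112)
    (.step false 3 32 .nil)) (.cons 53 (.dead 35) (.cons 70 (.cut 141293695041664 [141289400205695,
    141293695041409] (.filter (.step true 70 3 (.cons 70 (.step false 3 32 (.cons 70 (.step true 70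
    32 (.cons 70 (.step true 3 70 (.cons 3 (.step true 32 70 (.cons 32 (.leaf 86 8 [0, 1]) .nil))
    .nil)) .nil)) .nil)) .nil))) (.filter (.step true 70 3 (.cons 70 (.step false 3 32 (.cons 70
    (.step true 70 32 (.cons 70 (.step true 3 70 (.cons 3 (.step true 32 70 (.cons 32 (.leaf 86 34
    [0, 1]) .nil)) .nil)) .nil)) .nil)) .nil)))) (.cons 77 (.cut 141289400140160 [141289400139903,
    141293695041410] (.filter (.step true 77 3 (.cons 77 (.step false 3 32 (.cons 77 (.step true 77
    32 (.cons 77 (.step true 3 77 (.cons 3 (.step true 32 77 (.cons 32 (.leaf 133 2 [0]) .nil))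
    .nil)) .nil)) .nil)) .nil))) (.filter (.step true 77 3 (.cons 77 (.step false 3 32 (.cons 77
    (.step true 77 32 (.cons 77 (.step true 3 77 (.cons 3 (.step true 32 77 (.cons 32 (.leaf 65 89
    [0]) .nil)) .nil)) .nil)) .nil)) .nil)))) (.cons 93 (.dead 35) (.cons 110 (.cut 141289400139904
    [141289400139902, 142393206669695] (.step false 3 32 .nil) (.step false 3 32 .nil)) (.cons 112
    (.dead 35) .nil)))))))))) (.cons 53 (.dead 35) (.cons 93 (.dead 35) (.cons 112 (.dead 35)
    .nil))))) (.cons 53 (.dead 35) (.cons 70 (.step true 32 3 .nil) (.cons 93 (.dead 35) (.cons 101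
    (.step false 32 3 .nil) (.cons 112 (.dead 35) .nil))))))))]
    (by decide +kernel)

theorem dI1_13 : Seg cI1 tabE 13 16 :=
  seg_of [(.cut 142393206538113 [142384633315968] (.step true 3 43 (.cons 3 (.step true 43 3 (.cons
    43 (.step false 43 3 (.cons 5 (.cut 141289400139903 [141289400139905, 141293695041918] (.dead 8)
    (.step false 3 5 .nil)) (.cons 6 (.cut 141289400139903 [141289400140160, 141293695041665] (.dead
    8) (.step false 3 6 .nil)) (.cons 53 (.cut 141293695041664 [141289416785791, 141293695041662]
    (.dead 38) (.step false 3 53 .nil)) (.cons 77 (.dead 40) (.cons 112 (.cut 141289400139904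
    [141289400140161, 142384616734850] (.dead 67) (.filter (.step true 112 3 (.cons 112 (.step false
    3 43 (.cons 112 (.step true 112 43 (.cons 112 (.step true 3 112 (.cons 3 (.step true 43 112
    (.cons 43 (.leaf 72 35 [0, 1]) .nil)) .nil)) .nil)) .nil)) .nil)))) .nil)))))) (.cons 77 (.dead
    40) .nil))) (.cons 59 (.dead 38) (.cons 110 (.dead 40) (.cons 112 (.dead 67) .nil))))) (.step
    true 3 43 (.cons 3 (.step true 43 3 (.cons 43 (.step false 43 3 (.cons 5 (.cut 141289400139903
    [141289400139905, 142380321767553] (.step false 3 5 .nil) (.filter (.step true 5 3 (.cons 5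
    (.step false 3 5 (.cons 101 (.step false 3 43 (.cons 101 (.step true 101 43 (.cons 101 (.step
    true 3 5 (.cons 3 (.step true 101 5 (.cons 101 (.step true 5 101 (.cons 5 (.step true 43 101
    (.cons 43 (.leaf 84 56 [0, 1]) .nil)) .nil)) .nil)) .nil)) .nil)) .nil)) .nil)) .nil)))) (.cons
    6 (.cut 141293695041663 [141289416720511, 141293695041665] (.step false 3 6 .nil) (.filter
    (.step true 6 3 (.cons 6 (.step false 3 6 (.cons 93 (.step false 3 43 (.cons 93 (.step true 93
    43 (.cons 93 (.step true 3 6 (.cons 3 (.step true 93 6 (.cons 93 (.step true 6 93 (.cons 6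
    (.step true 43 93 (.cons 43 (.leaf 84 64 [0, 1]) .nil)) .nil)) .nil)) .nil)) .nil)) .nil))
    .nil)) .nil)))) (.cons 53 (.cut 141293695041664 [141289416785791, 141293695041666] (.step false
    3 43 .nil) (.step false 3 43 .nil)) (.cons 77 (.dead 40) (.cons 112 (.cut 141289400139904
    [141289400139647, 142384616734850] (.filter (.step true 112 3 (.cons 112 (.step false 3 43
    (.cons 112 (.step true 112 43 (.cons 112 (.step true 3 112 (.cons 3 (.step true 43 112 (.cons 43
    (.leaf 72 1 [0, 1]) .nil)) .nil)) .nil)) .nil)) .nil))) (.filter (.step true 112 3 (.cons 112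
    (.step false 3 43 (.cons 112 (.step true 112 43 (.cons 112 (.step true 3 112 (.cons 3 (.step
    true 43 112 (.cons 43 (.leaf 72 33 [0, 1]) .nil)) .nil)) .nil)) .nil)) .nil)))) .nil))))))
    (.cons 77 (.dead 40) .nil))) (.cons 59 (.step false 43 3 .nil) (.cons 110 (.dead 40) (.cons 112
    (.step true 43 3 .nil) .nil)))))), (.cut 141289400139905 [141289400139903] (.step false 5 3
    (.cons 6 (.cut 141293695041665 [141293695041663] (.dead 13) (.dead 14)) .nil)) (.step false 5 3
    (.cons 6 (.cut 141293695041665 [141293695041663] (.dead 11) (.dead 8)) .nil))), (.step true 27 8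
    (.cons 8 (.cut 141298006720897 [142384633577598] (.cut 141289400139904 [141289400074369,
    141298006720640] (.dead 46) (.dead 35)) (.step true 8 27 .nil)) (.cons 11 (.cut 141289400205695
    [142393173377407] (.dead 38) (.dead 45)) (.cons 19 (.cut 141289400139904 [141293695041665]
    (.dead 46) .qd) (.cons 22 (.cut 141289400074369 [141293695107200] (.dead 35) .qd) (.cons 24
    (.cut 141293695041664 [142393206538623] (.dead 45) .qd) (.cons 27 (.res 141289400205695
    141293695041664 141297973297280 141289400074878 144600819859325 143514193134720 (.dead 38)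
    (.step true 8 27 .nil)) (.cons 30 (.cut 141293695041664 [142384633577857] (.dead 38) .qd) (.cons
    35 (.cut 141289400139904 [141297990008705] (.dead 46) (.dead 46)) (.cons 38 (.cut
    141293695041664 [141289416786305] (.dead 45) (.dead 56)) (.cons 45 (.cut 141289400139904
    [142393206538623] (.dead 46) (.step true 8 27 .nil)) (.cons 48 (.cut 141289400139904
    [142393206800767] (.cut 142384616734850 [142393206669185] (.dead 46) (.dead 67)) (.cut
    141293695041664 [141289400074369, 141298006720640] (.dead 38) (.dead 35))) (.cons 56 (.cut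
    141293695041664 [141289416786050] (.dead 38) (.dead 8)) (.cons 61 (.cut 142384599892098
    [142384633578112] (.cut 141289400139904 [141289400140157, 142393206669185] (.dead 46) (.filter
    (.step true 8 27 (.cons 16 (.step false 27 8 (.cons 16 (.step true 8 16 (.cons 16 (.step false 8
    27 (.cons 61 (.step true 27 61 (.cons 61 (.leaf 123 24 [0, 1]) .nil)) .nil)) .nil)) (.cons 61
    (.step true 8 61 (.cons 16 (.step true 27 16 (.cons 61 (.leaf 121 24 [0, 1]) .nil)) .nil))
    .nil))) .nil)))) (.dead 45)) (.cons 69 (.cut 141293695041664 [141298006720897] (.dead 45) (.dead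
    35)) (.cons 75 (.cut 141293695041664 [141289400074369] (.dead 45) (.dead 11)) (.cons 80 (.cut
    142384633578112 [141289433628543, 143488423329665] (.dead 45) (.dead 3)) (.cons 83 (.cut
    141289400074369 [141289400139904] (.dead 35) .qd) (.cons 86 (.cut 141293695041664
    [142393173114749] (.dead 38) (.dead 5)) (.cons 88 (.cut 141298006720897 [142384633577598] (.cut
    141289400139904 [141289400074369, 141298006720640] (.dead 46) (.dead 35)) (.filter (.step true 8
    27 (.cons 67 (.step true 16 88 (.cons 61 (.step false 27 8 (.cons 16 (.step true 8 16 (.cons 16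
    (.step false 67 61 (.cons 27 (.step true 27 61 (.cons 61 (.step false 61 67 (.cons 88 (.step
    true 67 88 (.cons 88 (.leaf 148 90 [0, 1]) .nil)) .nil)) .nil)) (.cons 88 (.step true 61 88
    .nil) .nil))) .nil)) (.cons 61 (.step true 61 8 .nil) (.cons 67 (.step true 8 67 (.cons 27
    (.step true 88 27 .nil) .nil)) (.cons 88 (.step true 8 88 (.cons 16 (.step true 67 16 (.cons 88
    (.step false 8 27 (.cons 61 (.step true 27 61 (.cons 61 (.leaf 149 90 [0, 1]) .nil)) .nil))
    .nil)) .nil)) .nil))))) .nil)) .nil)))) (.cons 94 (.cut 141289400139904 [141293695041664] (.dead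
    46) (.cut 141289400205695 [141289416785791] (.dead 38) (.dead 45))) (.cons 99 (.cut
    141289400074369 [141289400139904] (.dead 35) .qd) (.cons 102 (.cut 141298006720640
    [140211346439294] (.dead 35) .qd) (.cons 109 (.cut 141293695041664 [141298006720897] (.dead 38)
    .qd) (.cons 115 (.res 141289400139904 142393206669185 140185610321536 141293695041664
    143514193134202 142384616735105 (.dead 67) (.step true 8 27 .nil))
    .nil)))))))))))))))))))))))))]
    (by decide +kernel)

theorem dI1_16 : Seg cI1 tabE 16 18 :=
  seg_of [(.step true 8 35 (.cons 8 (.res 141289400205695 141293695041664 144617999597696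
    145704626453632 141297990008703 143497013264002 (.dead 38) (.step true 35 8 .nil)) (.cons 13
    (.cut 141289400074369 [141289400139904, 141293695041664] (.step true 35 8 .nil) (.dead 3))
    (.cons 14 (.cut 141289400139904 [141293695041665] (.dead 46) .qd) (.cons 16 (.cut
    141298006720383 [140202739793793] (.cut 141293695041664 [141289400205695, 141293695041662]
    (.dead 45) (.filter (.step true 35 8 (.cons 94 (.step false 35 8 (.cons 16 (.step true 8 16
    (.cons 16 (.step false 8 35 (.cons 94 (.step true 35 94 (.cons 94 (.leaf 73 26 [0, 1]) .nil))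
    .nil)) .nil)) (.cons 94 (.step true 8 94 (.cons 16 (.step true 35 16 (.cons 94 (.leaf 70 26 [0,
    1]) .nil)) .nil)) .nil))) .nil)))) (.dead 29)) (.cons 24 (.dead 45) (.cons 27 (.cut
    141289400205695 [144600853413757] (.dead 38) .qd) (.cons 35 (.res 141289400139904
    142384616734850 141289400205185 141293695041664 143497013265275 142384616734849 (.dead 46)
    (.step true 35 8 .nil)) (.cons 46 (.cut 142384633577598 [142393206538113] (.step true 35 8 .nil)
    (.cut 141293695041664 [141289416786050, 141297990009215] (.dead 38) (.dead 29))) (.cons 48 (.cut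
    141293695041664 [142384633578108] (.dead 38) .qd) (.cons 61 (.cut 141297973297537
    [142384599892094] (.cut 141289400139904 [141289416785791, 141293695041664] (.dead 46) (.dead
    45)) (.dead 38)) (.cons 69 (.cut 141293695041664 [141289400139904] (.dead 45) (.dead 46)) (.cons
    72 (.cut 141289400139904 [142393206800257] (.dead 46) .qd) (.cons 80 (.cut 141293695041664
    [141289416786050] (.dead 45) (.dead 27)) (.cons 88 (.cut 141289400139904 [142401780023936]
    (.dead 46) (.dead 29)) (.cons 102 (.cut 141297973297023 [142393206800767] (.filter (.step true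
    35 8 (.cons 99 (.step true 16 99 (.cons 56 (.step true 83 56 (.cons 94 (.step false 35 8 (.cons
    16 (.step true 8 16 (.cons 16 (.step false 83 56 (.cons 35 (.step true 35 56 .nil) (.cons 94
    (.step true 56 94 (.cons 99 (.split [8, 16, 35, 99] 56) .nil)) (.cons 99 (.step true 56 99 .nil)
    (.cons 102 (.step true 56 102 (.cons 102 (.step false 8 35 (.cons 83 (.step true 35 83 .nil)
    (.cons 94 (.step true 35 94 (.cons 94 (.step false 56 83 (.cons 99 (.step true 83 99 (.cons 99
    (.leaf 156 41 [0, 1]) .nil)) .nil)) .nil)) (.cons 99 (.split [8, 16, 35, 99] 56) .nil)))) .nil))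
    .nil))))) .nil)) (.cons 56 (.step true 8 56 (.cons 99 (.step true 102 99 .nil) .nil)) (.cons 83
    (.step true 8 83 (.cons 94 (.step true 83 8 .nil) .nil)) (.cons 94 (.step true 94 8 (.cons 83
    (.step true 8 94 .nil) .nil)) (.cons 99 (.step true 99 8 (.cons 35 (.split [8, 16, 35, 99] 56)
    .nil)) (.cons 102 (.step true 8 102 (.cons 16 (.step true 56 16 (.cons 102 (.step false 8 35
    (.cons 83 (.step true 35 83 .nil) (.cons 94 (.split [8, 35, 94, 102] 16) (.cons 99 (.step true
    35 99 (.cons 94 (.step true 83 94 (.cons 99 (.leaf 157 41 [0, 1]) .nil)) .nil)) .nil)))) .nil))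
    .nil)) .nil))))))) .nil)) .nil)) .nil))) (.cut 141293695041664 [141289416916865,
    141297990009215] (.dead 38) (.dead 77))) (.cons 107 (.cut 142393206800257 [141289416786050,
    142384616735105] (.step true 35 8 .nil) (.dead 3)) (.cons 118 (.cut 141289400139904
    [142384599892608] (.dead 46) (.dead 24)) .nil)))))))))))))))))), (.step true 8 46 (.cons 14
    (.cut 141289400139904 [141289400074369, 141293695041664] (.step true 46 8 .nil) (.dead 3))
    (.cons 16 (.cut 141297973297023 [142384599892098] (.dead 35) (.cut 141289400074369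
    [141289400205439, 142393206669441] (.dead 56) (.filter (.step false 46 8 (.cons 16 (.step false
    8 46 (.cons 117 (.step true 46 117 (.cons 117 (.step true 8 16 (.cons 16 (.step true 46 8 (.cons
    117 (.leaf 74 41 [0, 1]) .nil)) .nil)) .nil)) .nil)) .nil))))) (.cons 21 (.dead 38) (.cons 27
    (.cut 141297973297023 [141289416916865, 141297990009215] (.dead 35) (.dead 3)) (.cons 38 (.dead
    56) (.cons 45 (.cut 142393206538623 [142384633577602] (.filter (.step true 46 8 (.cons 8 (.step
    true 16 8 (.cons 83 (.step true 117 45 (.cons 45 (.step true 51 45 (.cons 99 (.step true 16 83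
    (.cons 51 (.step false 8 46 (.cons 83 (.split [8, 16, 46, 83] 45) (.cons 99 (.step true 46 99
    .nil) (.cons 117 (.step true 46 117 (.cons 117 (.step false 16 83 (.cons 99 (.step true 83 99
    (.cons 99 (.leaf 155 26 [0, 1]) .nil)) .nil)) .nil)) .nil)))) .nil)) .nil)) .nil)) .nil))
    .nil))) (.cut 141293695041664 [141289416786050, 142384616734591] (.dead 38) (.dead 110))) (.cons
    46 (.res 141289416786050 141297990009215 141289416786303 141297990008958 141280810140032
    142393206669182 (.dead 29) (.step true 117 46 .nil)) (.cons 48 (.cut 141289400074369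
    [141293695041664] (.dead 35) (.dead 13)) (.cons 56 (.cut 141297973297023 [141289400140158,
    141293695041918] (.dead 35) (.dead 3)) (.cons 69 (.cut 142384599892094 [142393206800257] (.cut
    141289400074369 [141289400205695, 141293695041664] (.dead 56) (.dead 38)) (.dead 35)) (.cons 75
    (.cut 141297973297537 [141289416917375, 141297990008705] (.step true 46 8 .nil) (.dead 3))
    (.cons 83 (.cut 141289400074369 [141289400139904] (.dead 35) .qd) (.cons 88 (.cut
    141298006720897 [142384633577598] (.cut 141289400074369 [141289416786050, 141297990009215]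
    (.dead 35) (.dead 29)) (.step true 46 8 .nil)) (.cons 99 (.cut 141298006720383 [142393206538623]
    (.cut 141289400074369 [141289416786050, 142384616734591] (.dead 35) (.dead 110)) (.filter (.step
    true 46 8 (.cons 83 (.step true 16 83 (.cons 117 (.step false 46 8 (.cons 16 (.step true 8 16
    (.cons 16 (.step false 117 99 (.cons 46 (.step true 46 99 .nil) (.cons 51 (.step true 51 99
    (.cons 46 (.split [8, 16, 46, 83] 51) .nil)) (.cons 83 (.step true 83 99 (.cons 99 (.step false
    8 46 (.cons 51 (.step true 51 46 .nil) (.cons 117 (.step true 46 117 (.cons 117 (.leaf 152 58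
    [0]) .nil)) .nil))) .nil)) .nil)))) .nil)) (.cons 45 (.step true 45 8 (.cons 51 (.step true 8 45
    (.cons 16 (.step false 8 45 (.cons 51 (.step true 45 51 (.cons 51 (.step false 117 99 (.cons 46
    (.step true 46 99 .nil) (.cons 83 (.step true 83 99 (.cons 99 (.step false 8 46 (.cons 117
    (.step true 46 117 (.cons 117 (.leaf 153 58 [0]) .nil)) .nil)) .nil)) .nil))) .nil)) (.cons 83
    (.step true 45 83 .nil) (.cons 117 (.step true 117 45 (.cons 99 (.step true 45 117 (.cons 83
    (.step true 46 83 (.cons 51 (.leaf 154 26 [0, 1]) .nil)) .nil)) .nil)) .nil)))) .nil)) .nil))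
    (.cons 51 (.step true 51 8 .nil) (.cons 99 (.step true 8 99 (.cons 45 (.step true 83 45 .nil)
    .nil)) .nil))))) .nil)) .nil)))) .nil)))))))))))))))]
    (by decide +kernel)

theorem dI1_18 : Seg cI1 tabE 18 22 :=
  seg_of [(.step true 8 48 (.cons 14 (.cut 141289400139904 [141293695041665] (.cut 142384616734850
    [142393206669185] (.dead 46) (.dead 67)) (.pos [((2, 1), 141289400139904), ((0, 1),
    141293695041664)] (.dead 3))) (.cons 16 (.cut 141298006720383 [142393206538623] (.cut
    141289400074369 [141289400205439, 140202773348479] (.dead 35) (.filter (.step false 48 8 (.cons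
    16 (.step false 8 48 (.cons 72 (.step true 48 72 (.cons 72 (.step true 8 16 (.cons 16 (.step
    true 48 8 (.cons 72 (.leaf 124 32 [0, 1]) .nil)) .nil)) .nil)) .nil)) .nil)))) (.dead 38))
    (.cons 27 (.cut 141289400074369 [143488406355839] (.dead 35) (.dead 38)) (.cons 30 (.cut
    141289400074369 [142393206538113] (.dead 56) (.dead 38)) (.cons 35 (.cut 142393206538623
    [141289416786049, 141297990008959] (.dead 38) (.dead 3)) (.cons 48 (.cut 141289400074369
    [141293695041664] (.cut 141298006720640 [142384599892096] (.dead 35) (.dead 56)) (.dead 38))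
    (.cons 56 (.cut 141297973297023 [142393206800767] (.step true 48 8 .nil) (.cut 141293695041664
    [141289400074369, 141298006720640] (.dead 38) (.dead 35))) (.cons 67 (.cut 142384633577598
    [141289416786050, 141297990009215] (.filter (.step true 48 8 (.cons 67 (.step true 16 67 .nil)
    .nil))) (.dead 3)) (.cons 69 (.dead 46) (.cons 78 (.step true 48 8 .nil) (.cons 80 (.res
    141289400139904 142393206669185 140177003413373 141293695041664 139090376818304 141293695041663
    (.dead 67) (.filter (.step true 48 8 (.cons 62 (.step true 16 62 (.cons 72 (.step false 48 8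
    (.cons 16 (.step true 8 16 (.cons 16 (.step false 80 72 (.cons 48 (.step true 48 72 (.cons 72
    (.step false 16 62 (.cons 80 (.step true 62 80 (.cons 80 (.leaf 170 51 [0]) .nil)) .nil)) .nil))
    (.cons 62 (.step true 62 72 .nil) .nil))) .nil)) (.cons 62 (.step true 8 62 .nil) (.cons 80
    (.step true 8 80 .nil) .nil)))) .nil)) .nil)))) (.cons 83 (.cut 141289400074369
    [140202806902657] (.dead 35) (.dead 77)) (.cons 94 (.cut 141293695041664 [142384599892604]
    (.dead 38) (.dead 53)) (.cons 99 (.cut 141289400139904 [141298006720897] (.dead 67) .qd) (.cons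
    104 (.res 141289400074369 142384599892096 143479832608896 142401796735104 140194183283071
    141293695041664 (.dead 56) (.step true 48 8 .nil)) (.cons 109 (.cut 141293695041664
    [142401779761792] (.dead 38) (.dead 77)) (.cons 117 (.dead 35) .nil)))))))))))))))))), (.step
    true 24 8 (.cons 8 (.cut 141298006720897 [142393206538113] (.pos [((2, 0), 141289400139904),
    ((1, 1), 141293695041664)] (.dead 3)) (.cut 141289400074369 [141289416916865, 141297990008705]
    (.dead 40) (.dead 112))) (.cons 21 (.cut 141293695041664 [141289400139905] (.dead 45) .qd)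
    (.cons 24 (.step true 8 24 .nil) (.cons 38 (.cut 141289400074369 [142384616865920] (.dead 40)
    (.dead 40)) (.cons 40 (.cut 142393206800767 [142384599892098] (.pos [((1, 1), 141293695107200),
    ((2, 0), 141293695041664)] (.dead 3)) (.cut 141293695041664 [141289416786046, 142384616734591]
    (.dead 27) (.dead 32))) (.cons 45 (.cut 142384633577602 [141289400139647, 142384616734846]
    (.dead 27) (.dead 3)) (.cons 51 (.cut 141289400074369 [141289400139904] (.dead 40) .qd) (.cons
    54 (.cut 142384633577602 [141289400139647, 142384616734846] (.dead 27) (.dead 3)) (.cons 56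
    (.cut 141289400074369 [143471260172673] (.dead 40) (.dead 38)) (.cons 64 (.dead 27) (.cons 80
    (.cut 141289400074369 [141293695041664] (.dead 40) .qd) (.cons 88 (.dead 27) (.cons 91 (.cut
    141298006720897 [142393206538113] (.pos [((2, 0), 141289400139904), ((1, 1), 141293695041664)]
    (.dead 3)) (.cut 141289400074369 [141289416916865, 141297990008705] (.dead 40) (.dead 112)))
    (.cons 96 (.cut 141298006720383 [142384633577602] (.cut 141293695041664 [141289400205185,
    141293695041409] (.dead 45) (.filter (.step true 8 24 (.cons 16 (.step false 24 8 (.cons 16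
    (.step true 8 16 (.cons 16 (.step false 8 24 (.cons 96 (.step true 24 96 (.cons 96 (.leaf 88 32
    [0, 1]) .nil)) .nil)) .nil)) (.cons 96 (.step true 8 96 (.cons 16 (.step true 24 16 (.cons 96
    (.leaf 83 32 [0, 1]) .nil)) .nil)) .nil))) .nil)))) (.dead 27)) (.cons 102 (.dead 32) (.cons 104
    (.cut 141297973297280 [143488440304511] (.dead 40) .qd) (.cons 118 (.cut 141289400074369
    [143488473727361] (.dead 40) .qd) .nil)))))))))))))))))), (.step true 38 8 (.cons 8 (.res
    141289400074369 142384599892096 139116112674944 142393223381120 140194149859711 141293695041664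
    (.dead 56) (.step true 16 8 .nil)) (.cons 11 (.cut 141293695041664 [141289400139905] (.dead 27)
    .qd) (.cons 13 (.cut 141289400074369 [141293695107200] (.dead 40) .qd) (.cons 21 (.cut
    141293695041664 [141289400139905] (.dead 27) .qd) (.cons 22 (.cut 141289400074369
    [141293695107200] (.dead 40) (.dead 101)) (.cons 24 (.dead 40) (.cons 38 (.res 141289400205185
    141293695041664 142384616800384 142384616734336 142384616734849 141289400074115 (.dead 27)
    (.step true 8 38 .nil)) (.cons 45 (.cut 141293695041664 [141289400139904] (.dead 27) (.dead 11))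
    (.cons 54 (.cut 141289400074369 [142384633577598] (.dead 56) (.dead 27)) (.cons 62 (.cut
    141293695041664 [141297973297023] (.cut 141289400205185 [141289416785791] (.dead 27) (.dead 45))
    (.cut 141289400139904 [141289400074369, 141297973297280] (.dead 24) (.dead 40))) (.cons 64 (.cut
    141298006720897 [142393206538113] (.dead 24) (.cut 141289400074369 [141289416785794,
    141297990008959] (.dead 40) (.filter (.step true 8 38 (.cons 16 (.step false 38 8 (.cons 16
    (.step true 8 16 (.cons 16 (.step false 8 38 (.cons 64 (.step true 38 64 (.cons 64 (.leaf 114 48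
    [0, 1]) .nil)) .nil)) .nil)) (.cons 64 (.step true 8 64 (.cons 16 (.step true 38 16 (.cons 64
    (.leaf 111 48 [0, 1]) .nil)) .nil)) .nil))) .nil))))) (.cons 75 (.cut 141289400074369
    [142401813184128] (.dead 40) .qd) (.cons 78 (.cut 141289400205185 [145678840201601] (.dead 27)
    .qd) (.cons 88 (.cut 141298006720897 [141289416916865, 141297990008705] (.dead 24) (.dead 3))
    (.cons 102 (.cut 141297973297023 [142393206800767] (.cut 141289400139904 [141289400074369,
    141297973297280] (.dead 24) (.dead 40)) (.pos [((3, 1), 142388911833216), ((1, 3),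
    141293695041664)] (.dead 3))) (.cons 107 (.cut 141293695041664 [141289400139906] (.dead 27) .qd)
    (.cons 115 (.cut 141289400074369 [142384633577598] (.dead 40) .qd) (.cons 118 (.cut
    141293695041664 [140202773740927] (.dead 45) .qd) .nil))))))))))))))))))), (.step true 40 8
    (.cons 8 (.res 141289400205185 141293695041664 141297973035136 141289400075906 142376026799997
    143514193132680 (.dead 27) (.step true 16 8 .nil)) (.cons 14 (.cut 142384616734846
    [142401846870142] (.dead 24) (.dead 67)) (.cons 19 (.cut 141289400139904 [141293695041665]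
    (.dead 24) .qd) (.cons 24 (.cut 141293695041664 [142393206276479] (.dead 27) (.dead 32)) (.cons
    30 (.cut 141289400139904 [142384616735105] (.dead 24) (.dead 67)) (.cons 37 (.cut
    141293695041664 [141289400205695] (.dead 27) .qd) (.cons 51 (.cut 141293695041664
    [142393273647487] (.dead 27) .qd) (.cons 56 (.cut 141293694976127 [142393206800767] (.dead 32)
    (.pos [((1, 1), 141293695107200), ((2, 0), 141293695041664)] (.dead 3))) (.cons 67 (.cut
    141293695041664 [142393239961473] (.dead 27) .qd) (.cons 78 (.cut 142393206538113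
    [143488440304001] (.cut 141289400139904 [141289400139902, 142384616734846] (.dead 67) (.filter
    (.step false 40 8 (.cons 16 (.step true 8 16 (.cons 16 (.step false 8 40 (.cons 78 (.step true 8
    40 (.cons 16 (.step true 40 78 (.cons 78 (.leaf 87 40 [0, 1]) .nil)) .nil)) .nil)) .nil))
    .nil)))) (.dead 32)) (.cons 80 (.cut 141289400139904 [141289400205185, 141293695041664] (.cut
    142384616734846 [142393206669185] (.dead 24) (.dead 67)) (.dead 27)) (.cons 88 (.cut
    141289400139904 [143471226749313] (.dead 24) (.dead 8)) (.cons 104 (.cut 142384633577602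
    [141298006720383] (.pos [((1, 1), 142384633577600), ((8, 0), 141293695041664)] (.dead 3)) (.cut
    141289400139904 [141289416786046, 141297990008705] (.dead 24) (.dead 85))) (.cons 107 (.cut
    141289400139904 [142384616865920] (.dead 67) (.dead 14)) (.cons 115 (.cut 141293695041664
    [141289400139904] (.dead 27) .qd) .nil))))))))))))))))]
    (by decide +kernel)

theorem dI1_22 : Seg cI1 tabE 22 24 :=
  seg_of [(.step true 54 8 (.cons 8 (.cut 141297973297023 [142393206800767] (.cut 141289400139904
    [141289400074369, 141297973297280] (.dead 24) (.dead 40)) (.pos [((3, 1), 141293711753344), ((1,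
    3), 141293695041664)] (.dead 3))) (.cons 11 (.cut 141293695041664 [141289400139905] (.dead 27)
    .qd) (.cons 14 (.cut 141289400139904 [141293695041665] (.dead 67) .qd) (.cons 21 (.cut
    141293695041664 [141289400139905] (.dead 27) (.dead 3)) (.cons 38 (.cut 141289400074369
    [142384633577598] (.cut 141297973297280 [142384599892096] (.dead 40) (.dead 56)) (.cut
    141289400139904 [141289400205185, 141293695041664] (.dead 24) (.dead 27))) (.cons 45 (.cut
    141293695041664 [142384599892094] (.dead 27) .qd) (.cons 51 (.cut 141297973297280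
    [143488440302985] (.dead 40) .qd) (.cons 56 (.cut 141297973297023 [142393206800767] (.cut
    141289400139904 [141289400074369, 141297973297280] (.dead 24) (.dead 40)) (.pos [((3, 1),
    141293711753344), ((1, 3), 141293695041664)] (.dead 3))) (.cons 67 (.cut 141289400139904
    [141298006720897] (.dead 24) (.pos [((3, 1), 142380305055872), ((1, 3), 141293695041664)] (.dead
    3))) (.cons 80 (.cut 141289400074369 [142393173376897] (.dead 40) (.dead 67)) (.cons 86 (.cut
    141289400139904 [141315186590081] (.dead 24) .qd) (.cons 107 (.cut 141289400139904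
    [141293695041664] (.dead 67) (.dead 27)) (.cons 115 (.cut 141298006720383 [143488440041857]
    (.cut 141289400139904 [141289400139902, 142393206669185] (.dead 24) (.filter (.step false 54 8
    (.cons 16 (.step true 8 16 (.cons 16 (.step false 8 54 (.cons 115 (.step true 8 54 (.cons 16
    (.step true 54 115 (.cons 115 (.leaf 113 64 [0, 1]) .nil)) .nil)) .nil)) .nil)) .nil)))) (.dead
    56)) (.cons 118 (.cut 141289400074369 [142393223381120] (.dead 40) .qd) .nil))))))))))))))),
    (.cut 141289400139904 [141293695041665] (.step true 8 19 (.cons 8 (.cut 142384616734850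
    [141297990008705] (.dead 46) (.step true 19 8 .nil)) (.cons 16 (.step true 14 16 (.cons 16
    (.dead 3) (.cons 19 (.step false 19 8 (.cons 11 (.cut 141289400074369 [141293695041664] (.dead
    6) (.dead 3)) (.cons 13 (.cut 141289400074369 [141293695041664] (.dead 6) (.dead 3)) (.cons 14
    (.step true 8 14 (.cons 16 (.cut 141293695041665 [141293695041663] (.disc [8, 14, 16, 19]
    6908265 24) (.disc [8, 14, 16, 19] 6908265 24)) (.cons 21 (.cut 141289400074369
    [141293695041664] (.dead 6) (.dead 3)) (.cons 22 (.dead 3) (.cons 30 (.dead 37) (.cons 45 (.dead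
    46) (.cons 51 (.dead 46) (.cons 56 (.dead 24) (.cons 75 (.dead 46) (.cons 86 (.dead 24) (.cons
    88 (.dead 24) (.cons 107 (.dead 67) (.cons 118 (.dead 37) .nil))))))))))))) (.cons 16 (.step
    true 8 16 (.cons 16 (.step false 16 14 (.cons 11 (.cut 141289400074369 [141293695041664] (.dead
    6) (.dead 3)) (.cons 13 (.cut 141289400074369 [141293695041664] (.dead 6) (.dead 3)) (.cons 19
    (.disc [8, 14, 16, 19] 6908265 24) (.cons 21 (.cut 141289400074369 [141293695041664] (.dead 6)
    (.dead 3)) (.cons 22 (.cut 141289400074369 [141293695041664] (.dead 6) (.dead 3)) (.cons 30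
    (.cut 142384616734846 [142393206669695] (.dead 24) (.dead 37)) (.cons 37 (.cut 142393206669185
    [143471243460993] (.dead 67) (.filter (.step true 14 37 (.cons 19 (.step true 37 14 (.cons 107
    (.step false 14 37 (.cons 107 (.step true 37 107 (.cons 107 (.leaf 98 97 [0]) .nil)) .nil))
    .nil)) .nil)))) (.cons 45 (.cut 142384616734850 [142393206669695] (.dead 46) (.dead 37)) (.cons
    51 (.cut 142384616734850 [142393206669695] (.dead 46) (.dead 37)) (.cons 56 (.cut
    142384616734846 [142393206669695] (.dead 24) (.dead 37)) (.cons 67 (.cut 142384616734850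
    [142384616734846] (.dead 46) (.dead 24)) (.cons 75 (.cut 142384616734850 [142393206669695]
    (.dead 46) (.dead 37)) (.cons 86 (.cut 142384616734846 [142393206669695] (.dead 24) (.dead 37))
    (.cons 88 (.cut 142384616734850 [142384616734846] (.dead 46) (.dead 24)) (.cons 102 (.cut
    142384616734846 [142393206669695] (.dead 24) (.dead 37)) (.cons 107 (.cut 142393206669185
    [143471243460993] (.dead 67) (.step true 14 107 .nil)) (.cons 118 (.cut 142384616734850
    [142393206669695] (.dead 46) (.dead 37)) .nil)))))))))))))))))) .nil)) (.cons 21 (.cut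
    141289400074369 [141293695041664] (.dead 6) (.dead 3)) (.cons 22 (.cut 141289400074369
    [141293695041664] (.dead 6) (.dead 3)) (.cons 30 (.cut 142384616734846 [142393206669695] (.dead
    24) (.dead 37)) (.cons 37 (.cut 142393206669185 [143471243460993] (.dead 67) (.step true 37 8
    .nil)) (.cons 45 (.cut 142384616734850 [142393206669695] (.dead 46) (.dead 37)) (.cons 51 (.cut
    142384616734850 [142393206669695] (.dead 46) (.dead 37)) (.cons 56 (.cut 142384616734846
    [142393206669695] (.dead 24) (.dead 37)) (.cons 67 (.cut 142384616734850 [142384616734846]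
    (.dead 46) (.dead 24)) (.cons 75 (.cut 142384616734850 [142393206669695] (.dead 46) (.dead 37))
    (.cons 86 (.cut 142384616734846 [142393206669695] (.dead 24) (.dead 37)) (.cons 88 (.cut
    142384616734850 [142384616734846] (.dead 46) (.dead 24)) (.cons 102 (.cut 142384616734846
    [142393206669695] (.dead 24) (.dead 37)) (.cons 107 (.cut 142393206669185 [143471243460993]
    (.dead 67) (.filter (.step true 107 8 (.cons 37 (.step true 8 107 (.cons 16 (.step false 16 14
    (.cons 19 (.step true 14 19 (.cons 19 (.step false 16 37 (.cons 107 (.step true 37 107 (.cons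
    107 (.leaf 98 99 [0]) .nil)) .nil)) .nil)) (.cons 37 (.split [14, 16, 37] 8) (.cons 107 (.step
    true 14 107 .nil) .nil)))) .nil)) .nil)))) (.cons 118 (.cut 142384616734850 [142393206669695]
    (.dead 46) (.dead 37)) .nil))))))))))))))))))) (.cons 21 (.dead 6) (.cons 30 (.dead 24) (.cons
    51 (.dead 37) (.cons 88 (.dead 46) .nil))))))) (.cons 19 (.cut 141289400074369 [141293695041664]
    (.dead 6) (.dead 3)) (.cons 21 (.cut 141289400074369 [141293695041664] (.dead 6) (.dead 3))
    (.cons 22 (.cut 141289400074369 [141293695041664] (.dead 6) (.dead 3)) (.cons 45 (.dead 46)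
    (.cons 56 (.dead 24) (.cons 67 (.dead 46) (.cons 75 (.dead 37) (.cons 86 (.dead 24) (.cons 102
    (.dead 24) (.cons 107 (.dead 67) .nil))))))))))))) (.step true 8 19 (.cons 8 (.dead 13) (.cons
    11 (.dead 13) (.cons 16 (.cut 141289400074369 [141289400139904] (.dead 5) (.filter (.step true
    14 16 (.cons 19 (.step false 19 8 (.cons 14 (.step true 8 14 (.cons 16 (.disc [8, 14, 16, 19]
    6908265 24) .nil)) (.cons 16 (.step true 8 16 (.cons 16 (.step false 16 14 (.cons 19 (.disc [8,
    14, 16, 19] 6908265 24) .nil)) .nil)) .nil))) .nil)))) (.cons 19 (.cut 141289400074369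
    [141289400139905] (.dead 5) (.dead 13)) (.cons 21 (.cut 141289400074369 [141289400139905] (.dead
    5) (.dead 13)) (.cons 22 (.cut 141289400074369 [141289400139903] (.dead 5) (.dead 11)) (.cons 45
    (.step true 14 45 .nil) (.cons 56 (.step true 14 56 .nil) (.cons 107 (.step true 14 107 .nil)
    .nil)))))))))))]
    (by decide +kernel)

theorem dI1_24 : Seg cI1 tabE 24 26 :=
  seg_of [(.cut 141293695041664 [141289400139905] (.step false 11 8 (.cons 13 (.cut 141289400074369
    [141289400139904] (.dead 5) (.dead 3)) (.cons 14 (.cut 141289400074369 [141289400139904] (.dead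
    5) (.dead 3)) (.cons 16 (.step true 8 16 (.cons 11 (.cut 141289416786050 [141289400205185]
    (.step true 16 8 .nil) (.dead 27)) (.cons 16 (.step true 11 8 (.cons 19 (.cut 141289400074369
    [141289400139904] (.dead 5) (.dead 3)) (.cons 21 (.cut 141289400139905 [141289400139903] (.step
    false 8 11 (.cons 21 (.disc [8, 11, 16, 21] 6908265 24) .nil)) (.step false 8 11 (.cons 21
    (.disc [8, 11, 16, 21] 6908265 24) .nil))) (.cons 22 (.dead 5) (.cons 37 (.dead 27) (.cons 51
    (.dead 27) (.cons 56 (.dead 38) (.cons 67 (.dead 27) (.cons 86 (.dead 38) (.cons 88 (.dead 75)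
    (.cons 102 (.dead 75) (.cons 118 (.dead 45) .nil)))))))))))) .nil))) (.cons 30 (.cut
    141289400205695 [141289416786305] (.dead 38) (.dead 75)) (.cons 45 (.cut 141289400205695
    [141289400205185] (.dead 38) (.dead 27)) (.cons 51 (.cut 141289400205695 [141289400205185]
    (.dead 38) (.dead 27)) (.cons 56 (.cut 141289400205695 [141289416786305] (.dead 38) (.dead 75))
    (.cons 67 (.cut 141289400205185 [141289416786305] (.dead 27) (.dead 75)) (.cons 75 (.cut
    141289416785791 [141289416917628] (.dead 45) (.step true 11 8 .nil)) (.cons 88 (.cut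
    141289400205185 [141289416786305] (.dead 27) (.dead 75)) (.cons 102 (.cut 141289400205695
    [141289416786305] (.dead 38) (.dead 75)) (.cons 107 (.cut 141289400205185 [141289416786305]
    (.dead 27) (.dead 75)) .nil))))))))))))) (.step true 8 11 (.cons 11 (.cut 141293695041665
    [141293695041663] (.dead 13) (.dead 14)) (.cons 16 (.step true 11 8 (.cons 8 (.dead 13) (.cons
    19 (.dead 6) (.cons 21 (.step false 11 8 (.cons 13 (.cut 141289400074369 [141293695041663]
    (.dead 6) (.dead 14)) (.cons 14 (.cut 141289400074369 [141293695041665] (.dead 6) (.dead 13))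
    (.cons 16 (.step true 8 16 (.cons 16 (.step false 8 11 (.cons 13 (.cut 141289400074369
    [141293695041663] (.dead 6) (.dead 14)) (.cons 14 (.cut 141289400074369 [141293695041665] (.dead
    6) (.dead 13)) (.cons 21 (.disc [8, 11, 16, 21] 6908265 24) (.cons 30 (.cut 141293695041665
    [141293695041918] (.dead 13) (.filter (.step true 11 30 (.cons 21 (.step true 30 11 (.cons 86
    (.step false 11 30 (.cons 86 (.step true 30 86 (.cons 86 (.leaf 66 67 [0]) .nil)) .nil)) .nil))
    .nil)))) (.cons 37 (.cut 141293695041663 [142380321767553] (.dead 14) (.step true 11 37 .nil))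
    (.cons 45 (.cut 141293695041665 [141293695041663] (.dead 13) (.dead 14)) (.cons 51 (.cut
    141293695041665 [141293695041663] (.dead 13) (.dead 14)) (.cons 56 (.cut 141293695041663
    [141293695041410] (.dead 14) (.filter (.step true 56 11 (.cons 102 (.step false 11 56 (.cons 102
    (.step true 11 56 (.cons 21 (.step true 56 102 (.cons 102 (.leaf 67 66 [0, 1]) .nil)) .nil))
    .nil)) .nil)))) (.cons 86 (.cut 141293695041665 [141293695041918] (.dead 13) (.step true 11 86
    .nil)) (.cons 88 (.cut 141293695041665 [142380321767551] (.dead 13) (.filter (.step true 88 11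
    (.cons 67 (.step false 21 67 (.cons 88 (.step true 11 88 (.cons 21 (.step true 67 88 (.cons 88
    (.leaf 81 57 [0, 1]) .nil)) .nil)) .nil)) .nil)))) (.cons 107 (.cut 141293695041663
    [142380321767553] (.dead 14) (.filter (.step true 11 107 (.cons 21 (.step true 37 21 (.cons 107
    (.step false 21 37 (.cons 107 (.step true 37 107 (.cons 107 (.leaf 80 56 [0]) .nil)) .nil))
    .nil)) .nil)))) (.cons 118 (.cut 141293695041920 [141293695041408] (.filter (.step true 118 11
    (.cons 75 (.step false 21 75 (.cons 118 (.step true 11 118 (.cons 21 (.step true 75 118 (.cons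
    118 (.leaf 99 3 [0, 1]) .nil)) .nil)) .nil)) .nil))) (.step true 118 11 .nil)) .nil)))))))))))))
    .nil)) (.cons 30 (.cut 141293695041665 [141293695041918] (.dead 13) (.filter (.step true 30 8
    (.cons 86 (.step true 8 30 (.cons 16 (.step false 8 11 (.cons 21 (.step true 11 21 (.cons 21
    (.step false 8 30 (.cons 86 (.step true 30 86 (.cons 86 (.leaf 67 67 [0, 1]) .nil)) .nil))
    .nil)) (.cons 30 (.split [8, 11, 30] 16) (.cons 86 (.step true 11 86 .nil) .nil)))) .nil))
    .nil)))) (.cons 45 (.cut 141293695041665 [141293695041663] (.dead 13) (.dead 14)) (.cons 51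
    (.cut 141293695041665 [141293695041663] (.dead 13) (.dead 14)) (.cons 56 (.cut 141293695041663
    [141293695041410] (.dead 14) (.filter (.step true 56 8 (.cons 102 (.step true 8 56 (.cons 16
    (.step false 8 11 (.cons 21 (.step true 11 21 (.cons 21 (.step false 8 56 (.cons 102 (.step true
    56 102 (.cons 102 (.leaf 66 66 [0]) .nil)) .nil)) .nil)) (.cons 56 (.split [8, 11, 56] 16)
    .nil))) .nil)) .nil)))) (.cons 67 (.cut 141293695041665 [142380321767551] (.dead 13) (.step true
    67 8 .nil)) (.cons 75 (.cut 141293695041920 [141293695041408] (.step true 75 8 .nil) (.filter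
    (.step true 75 8 (.cons 118 (.step true 8 75 (.cons 16 (.step false 8 11 (.cons 21 (.step true
    11 21 (.cons 21 (.step false 8 75 (.cons 118 (.step true 75 118 (.cons 118 (.leaf 99 2 [0, 1])
    .nil)) .nil)) .nil)) (.cons 118 (.step true 11 118 .nil) .nil))) .nil)) .nil)))) (.cons 88 (.cut
    141293695041665 [142380321767551] (.dead 13) (.filter (.step true 88 8 (.cons 67 (.step true 8
    88 (.cons 16 (.step false 8 11 (.cons 21 (.step true 11 21 (.cons 21 (.step false 16 67 (.cons
    88 (.step true 67 88 (.cons 88 (.leaf 80 57 [0]) .nil)) .nil)) .nil)) (.cons 88 (.split [8, 11,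
    88] 16) .nil))) .nil)) .nil)))) (.cons 102 (.cut 141293695041663 [141293695041410] (.dead 14)
    (.step true 102 8 .nil)) (.cons 107 (.cut 141293695041663 [142380321767553] (.dead 14) (.filter
    (.step true 107 8 (.cons 37 (.step true 8 107 (.cons 16 (.step false 8 11 (.cons 21 (.step true
    11 21 (.cons 21 (.step false 16 37 (.cons 107 (.step true 37 107 (.cons 107 (.leaf 81 56 [0, 1])
    .nil)) .nil)) .nil)) (.cons 37 (.step true 11 37 .nil) (.cons 107 (.split [8, 11, 107] 16)
    .nil)))) .nil)) .nil)))) .nil))))))))))))) .nil)))) (.cons 19 (.dead 13) (.cons 22 (.cut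
    141289400074369 [141293695041663] (.dead 6) (.dead 14)) (.cons 67 (.step true 11 8 .nil) (.cons
    75 (.step true 11 8 .nil) (.cons 102 (.step true 11 8 .nil) .nil))))))))), (.cut 142384599892094
    [142393239961983] (.step false 30 8 (.cons 16 (.step true 8 16 (.cons 16 (.step true 30 8 (.cons
    19 (.dead 24) (.cons 21 (.dead 38) (.cons 22 (.dead 56) (.cons 45 (.dead 38) (.cons 51 (.dead
    13) (.cons 67 (.dead 13) (.cons 88 (.dead 24) (.cons 102 (.dead 38) .nil))))))))) (.cons 30
    (.cut 141293695041664 [141289416786046, 140202773347968] (.dead 38) (.step true 16 8 .nil))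
    .nil))) (.cons 45 (.cut 141293695041664 [141289400139905, 141293695041665] (.dead 38) (.dead
    13)) (.cons 51 (.cut 141293695041664 [141289400139905, 141293695041665] (.dead 38) (.dead 13))
    (.cons 56 (.cut 141289400139904 [141289400205695, 141293695041664] (.dead 24) (.dead 38)) (.cons
    67 (.cut 141289400139904 [141289400139905, 141293695041665] (.dead 24) (.dead 13)) (.cons 75
    (.cut 141293694976127 [141289416786050, 142384616735105] (.dead 43) (.dead 93)) (.cons 88 (.cut
    141289400139904 [141289400139905, 141293695041665] (.dead 24) (.dead 13)) (.cons 102 (.cut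
    141289400139904 [141289400205695, 141293695041664] (.dead 24) (.dead 38)) (.cons 107 (.cut
    141293694976127 [141289416786050, 142384616735105] (.dead 43) (.dead 93)) .nil)))))))))) (.step
    true 8 30 (.cons 13 (.step true 30 8 .nil) (.cons 30 (.cut 141289400139904 [141289416786305,
    141293695041664] (.dead 37) (.dead 75)) (.cons 45 (.step true 30 8 .nil) (.cons 67 (.step true
    30 8 .nil) .nil))))))]
    (by decide +kernel)

end Pool.Agent.P.MP_708877_co
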