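import Pool.Agent.P.MP_708877_co.Full.Main
import Pool.Agent.P.MP_708877_co.Full.AuxOk0
import Pool.Agent.P.MP_708877_co.Full.AuxOk1
import Pool.Agent.P.MP_708877_co.Full.AuxOk2
import Pool.Agent.P.MP_708877_co.Full.D0
import Pool.Agent.P.MP_708877_co.Full.D1
import Pool.Agent.P.MP_708877_co.Full.D2
import Pool.Agent.P.MP_708877_co.Full.D3
import Pool.Agent.P.MP_708877_co.Full.D4
import Pool.Agent.P.MP_708877_co.Full.D5
import Pool.Agent.P.MP_708877_co.Full.D6
import Pool.Agent.P.MP_708877_co.Full.D7
import Pool.Agent.P.MP_708877_co.Full.D8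
import Pool.Agent.P.MP_708877_co.Full.D9
import Pool.Agent.P.MP_708877_co.Full.D10

/-!
Assembling the checks.
-/

namespace Pool.Agent.P.MP_708877_co

theorem table_ok : List.Forall₂ (fun s a => fullOk cosets s a = true) sites auxs :=
  .cons full1 (.cons full2 (.cons full3 (.cons full4 (.cons full5 (.cons full6 (.cons full7 (.cons
    full8 (.cons full9 (.cons full10 (.cons full11 (.cons full12 (.cons full13 (.cons full14 (.cons
    full15 (.cons full16 (.cons full17 (.cons full18 (.cons full19 (.cons full20 (.cons full21
    (.cons full22 (.cons full23 (.cons full24 (.cons full25 (.cons full26 (.cons full27 (.cons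
    full28 (.cons full29 (.cons full30 (.cons full31 (.cons full32 (.cons full33 (.cons full34
    (.nil))))))))))))))))))))))))))))))))))

theorem tab_sound : ∀ e ∈ tabE, e.Sound (Listed sites) := (table_spec cosets_ok table_ok).1

theorem allT1 (P : Set (Set (Sym2 E3))) (v : E3) (S : Setting cT1 P v) : Listed sites P :=
  ctx_sound Listed.of_image tab_sound cT1_ok dT1_0 S

theorem allT2 (P : Set (Set (Sym2 E3))) (v : E3) (S : Setting cT2 P v) : Listed sites P :=
  ctx_sound Listed.of_image tab_sound cT2_ok dT2_0 S

theorem allT3 (P : Set (Set (Sym2 E3))) (v : E3) (S : Setting cT3 P v) : Listed sites P :=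
  ctx_sound Listed.of_image tab_sound cT3_ok dT3_0 S

theorem allTd (P : Set (Set (Sym2 E3))) (v : E3) (S : Setting cTd P v) : Listed sites P :=
  ctx_sound Listed.of_image tab_sound cTd_ok (dTd_0.trans dTd_11) S

theorem allTh1 (P : Set (Set (Sym2 E3))) (v : E3) (S : Setting cTh1 P v) : Listed sites P :=
  ctx_sound Listed.of_image tab_sound cTh1_ok (dTh1_0.trans dTh1_16) S

theorem allTh3 (P : Set (Set (Sym2 E3))) (v : E3) (S : Setting cTh3 P v) : Listed sites P :=
  ctx_sound Listed.of_image tab_sound cTh3_ok dTh3_0 S

theorem allO1 (P : Set (Set (Sym2 E3))) (v : E3) (S : Setting cO1 P v) : Listed sites P :=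
  ctx_sound Listed.of_image tab_sound cO1_ok (((dO1_0.trans dO1_3).trans dO1_6).trans dO1_13) S

theorem allO3 (P : Set (Set (Sym2 E3))) (v : E3) (S : Setting cO3 P v) : Listed sites P :=
  ctx_sound Listed.of_image tab_sound cO3_ok dO3_0 S

theorem allOh (P : Set (Set (Sym2 E3))) (v : E3) (S : Setting cOh P v) : Listed sites P :=
  ctx_sound Listed.of_image tab_sound cOh_ok (((((((((dOh_0.trans dOh_4).trans dOh_6).trans
    dOh_7).trans dOh_15).trans dOh_18).trans dOh_19).trans dOh_22).trans dOh_42).trans dOh_54) S

theorem allI1 (P : Set (Set (Sym2 E3))) (v : E3) (S : Setting cI1 P v) : Listed sites P :=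
  ctx_sound Listed.of_image tab_sound cI1_ok (((((((((((((((dI1_0.trans dI1_1).trans dI1_2).trans
    dI1_4).trans dI1_6).trans dI1_8).trans dI1_10).trans dI1_11).trans dI1_12).trans dI1_13).trans
    dI1_16).trans dI1_18).trans dI1_22).trans dI1_24).trans dI1_26).trans dI1_34) S

theorem allI2 (P : Set (Set (Sym2 E3))) (v : E3) (S : Setting cI2 P v) : Listed sites P :=
  ctx_sound Listed.of_image tab_sound cI2_ok dI2_0 S

theorem allI3 (P : Set (Set (Sym2 E3))) (v : E3) (S : Setting cI3 P v) : Listed sites P :=
  ctx_sound Listed.of_image tab_sound cI3_ok dI3_0 S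

theorem allI5 (P : Set (Set (Sym2 E3))) (v : E3) (S : Setting cI5 P v) : Listed sites P :=
  ctx_sound Listed.of_image tab_sound cI5_ok dI5_0 S

theorem allIh (P : Set (Set (Sym2 E3))) (v : E3) (S : Setting cIh P v) : Listed sites P :=
  ctx_sound Listed.of_image tab_sound cIh_ok (((((((((((((((((((((((((((((((dIh_0.trans
    dIh_10).trans dIh_12).trans dIh_18).trans dIh_21).trans dIh_28).trans dIh_29).trans
    dIh_37).trans dIh_38).trans dIh_39).trans dIh_42).trans dIh_47).trans dIh_53).trans
    dIh_54).trans dIh_55).trans dIh_57).trans dIh_58).trans dIh_65).trans dIh_67).trans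
    dIh_69).trans dIh_76).trans dIh_86).trans dIh_89).trans dIh_100).trans dIh_103).trans
    dIh_108).trans dIh_116).trans dIh_117).trans dIh_118).trans dIh_127).trans dIh_140).trans
    dIh_148) S

theorem weakT : ∀ P v, Weak gT P v → Listed sites P :=
  stage (G := gT) cT1_ok.grp (subs := [])
    (fun _ h => absurd h List.not_mem_nil)
    (cs := [cT1, cT2, cT3])
    (List.forall_mem_cons.2 ⟨allT1, List.forall_mem_cons.2 ⟨allT2, List.forall_mem_cons.2 ⟨allT3,
    fun _ h => absurd h List.not_mem_nil⟩⟩⟩)
    (T := nat_lit 0x306000500000000050300060000000000080010000000)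
    (by decide +kernel)

theorem weakTd : ∀ P v, Weak gTd P v → Listed sites P :=
  stage (G := gTd) cTd_ok.grp (subs := [gT])
    (List.forall_mem_cons.2 ⟨weakT, fun _ h => absurd h List.not_mem_nil⟩)
    (cs := [cTd])
    (List.forall_mem_cons.2 ⟨allTd, fun _ h => absurd h List.not_mem_nil⟩)
    (T := nat_lit 0x788d00780000880078780083000080007e780078000078000000000000000000000000000000000000000000000000000000000000000000000000000000000000000000000000000000000000000000000000000000000000000000000000000000000000000000000000000000000000000000000000007e78007e000078007e7e00780000780078880080000000)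
    (by decide +kernel)

theorem weakTh : ∀ P v, Weak gTh P v → Listed sites P :=
  stage (G := gTh) cTh1_ok.grp (subs := [gT])
    (List.forall_mem_cons.2 ⟨weakT, fun _ h => absurd h List.not_mem_nil⟩)
    (cs := [cTh1, cTh3])
    (List.forall_mem_cons.2 ⟨allTh1, List.forall_mem_cons.2 ⟨allTh3, fun _ h => absurd h
    List.not_mem_nil⟩⟩)
    (T := nat_lit 0x10301010201010001020301010101000102010401020100)
    (by decide +kernel)

theorem weakO : ∀ P v, Weak gO P v → Listed sites P :=
  stage (G := gO) cO1_ok.grp (subs := [gT])
    (List.forall_mem_cons.2 ⟨weakT, fun _ h => absurd h List.not_mem_nil⟩)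
    (cs := [cO1, cO3])
    (List.forall_mem_cons.2 ⟨allO1, List.forall_mem_cons.2 ⟨allO3, fun _ h => absurd h
    List.not_mem_nil⟩⟩)
    (T := nat_lit 0x8f000089008a890087000084008181007f00007a007a790000000000000000000000000000000000000000000000000000000000000000000000000000000000000000000000000000000000000000000000000000000000000000000000000000000000000000000000000000000000000000000000000000030600050000000005030006000000007a890081000000)
    (by decide +kernel)

theorem weakOh : ∀ P v, Weak gOh P v → Listed sites P :=
  stage (G := gOh) cOh_ok.grp (subs := [gO, gTd, gTh])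
    (List.forall_mem_cons.2 ⟨weakO, List.forall_mem_cons.2 ⟨weakTd, List.forall_mem_cons.2 ⟨weakTh,
    fun _ h => absurd h List.not_mem_nil⟩⟩⟩)
    (cs := [cOh])
    (List.forall_mem_cons.2 ⟨allOh, fun _ h => absurd h List.not_mem_nil⟩)
    (T := nat_lit 0x2018d01010201880401010483010180017e010201020178000000000000000000000000000000000000000000000000000000000000000000000000000000000000000000000000000000000000000000000000000000000000000000000000000000000000000000000000000000000000000000000000017e78017e010178017e7e01780101780102010401020100)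
    (by decide +kernel)

theorem weakI : ∀ P v, Weak gI P v → Listed sites P :=
  stage (G := gI) cI1_ok.grp (subs := [])
    (fun _ h => absurd h List.not_mem_nil)
    (cs := [cI1, cI2, cI3, cI5])
    (List.forall_mem_cons.2 ⟨allI1, List.forall_mem_cons.2 ⟨allI2, List.forall_mem_cons.2 ⟨allI3,
    List.forall_mem_cons.2 ⟨allI5, fun _ h => absurd h List.not_mem_nil⟩⟩⟩⟩)
    (T := nat_lit 0x2b03000d000028001d08001b0000100020260013000000000d1b0010000018002520001300000300082e002b000000001e0800180000130003100025000020000d2b0028000000000328002d00000800131b000d0000180025230010000000000306000500000000050300060000000000080010000000)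
    (by decide +kernel)

theorem weakIh : ∀ P v, Weak gIh P v → Listed sites P :=
  stage (G := gIh) cIh_ok.grp (subs := [gI])
    (List.forall_mem_cons.2 ⟨weakI, fun _ h => absurd h List.not_mem_nil⟩)
    (cs := [cIh])
    (List.forall_mem_cons.2 ⟨allIh, fun _ h => absurd h List.not_mem_nil⟩)
    (T := nat_lit 0x770102010401011a013204010201690101042c010162010201042c01015a0102010432010152010201042701014a0102011a0401020141010102013c2701010401045201013201020102012c5a010104270102010401013c01044101011a010201621a014a010132014a62011a0101320102010401020100)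
    (by decide +kernel)

theorem full_classification {P : Set (Set (Sym2 E3))} (hfin : (verts P).Finite) :
    IsUniform P ↔ Listed sites P :=
  ⟨listed_of_uniform (List.forall_mem_cons.2 ⟨weakT, List.forall_mem_cons.2 ⟨weakTd,
    List.forall_mem_cons.2 ⟨weakTh, List.forall_mem_cons.2 ⟨weakO, List.forall_mem_cons.2 ⟨weakOh,
    List.forall_mem_cons.2 ⟨weakI, List.forall_mem_cons.2 ⟨weakIh, fun _ h => absurd h
    List.not_mem_nil⟩⟩⟩⟩⟩⟩⟩) hfin, uniform_of_listed (table_spec cosets_ok table_ok).2⟩

end Pool.Agent.P.MP_708877_co
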