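import Pool.Agent.P.MP_708877_co.Full.Leaf

/-!
The certificate checker for the search over vertex figures.
-/

namespace Pool.Agent.P.MP_708877_co

open RealInnerProductSpace

structure St where
  W : Ech
  a0 : ℕ
  L : List ℕ
  co : List (ℕ × ℕ)
  ch : List (ℕ × ℕ × ℕ)
  md : Bool
  nx : Bool
  A : ℕ
  B : ℕ

inductive Cert where
  | nil : Cert
  | cons (u : ℕ) (c r : Cert) : Cert
  | qd : Cert
  | dead (g : ℕ) : Cert
  | three (x y : ℕ) : Cert
  | pos (s : List (Z5 × ℕ)) (c : Cert) : Cert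
  | sat (g l : ℕ) (ls : List ℕ) (c : Cert) : Cert
  | cut (l : ℕ) (ls : List ℕ) (c d : Cert) : Cert
  | res (l1 l2 a1 a2 b1 b2 : ℕ) (c d : Cert) : Cert
  | filter (c : Cert) : Cert
  | step (nx : Bool) (A B : ℕ) (c : Cert) : Cert
  | leaf (e k : ℕ) (T : List ℕ) : Cert
  | disc (N : List ℕ) (U g : ℕ) : Cert
  | split (N : List ℕ) (x : ℕ) : Cert

def w8 (r k : ℕ) : ℤ :=
  Int.subNatNat (Nat.land (Nat.shiftRight r k) (nat_lit 255)) (nat_lit 128)
/-- Unpacking a linear form. -/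
def df (r : ℕ) : L3 :=
  ⟨(w8 r (nat_lit 0), w8 r (nat_lit 8)), (w8 r (nat_lit 16), w8 r (nat_lit 24)),
    (w8 r (nat_lit 32), w8 r (nat_lit 40))⟩

def newco (c : Ctx) (x y : ℕ) : List ℕ → List (ℕ × ℕ) → List (ℕ × ℕ)
  | [], r => r
  | h :: t, r =>
    (c.rep (mt h x), c.rep (mt h y)) :: (c.rep (mt h y), c.rep (mt h x)) :: newco c x y t r

def newch (c : Ctx) (a b d : ℕ) : List ℕ → List (ℕ × ℕ × ℕ) → List (ℕ × ℕ × ℕ)
  | [], r => r
  | h :: t, r => (c.rep (mt h a), c.rep (mt h b), c.rep (mt h d)) ::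
    (c.rep (mt (mt h (iv b)) d), c.rep (mt h (iv b)), c.rep (mt (mt h (iv b)) a)) ::
      newch c a b d t r

def third1 (x y a : ℕ) : List (ℕ × ℕ) → Bool
  | [] => false
  | (p, q) :: r => bif Nat.beq p x && !Nat.beq q y && !Nat.beq q a then true else third1 x y a r
/-- Two further partners of `x`. -/
def third (x y : ℕ) : List (ℕ × ℕ) → Bool
  | [] => false
  | (p, q) :: r => bif Nat.beq p x && !Nat.beq q y then third1 x y q r else third x y r

def clash (a b d : ℕ) : List (ℕ × ℕ × ℕ) → Bool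
  | [] => false
  | (p, q, w) :: r => bif Nat.beq p a && Nat.beq q b && !Nat.beq w d then true else clash a b d r

def back (a b d : ℕ) : List (ℕ × ℕ × ℕ) → List (ℕ × ℕ)
  | [] => []
  | (p, q, w) :: r => bif Nat.beq p b && Nat.beq q a then [(mt (iv w) b, mt (iv a) d)]
      else back a b d r

def cx (c : Ctx) (s : St) : ℕ := bif s.nx then c.rep (iv s.B) else s.B
def cd (c : Ctx) (s : St) (u : ℕ) : ℕ := c.rep (mt s.B u)
def eqs1 (s : St) (u d : ℕ) : List (ℕ × ℕ) :=
  bif s.nx then (u, s.a0) :: (mt (iv s.A) s.B, d) :: back s.A s.B d s.ch else [(u, s.a0)]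
def chs (c : Ctx) (s : St) (d : ℕ) : List (ℕ × ℕ × ℕ) :=
  bif s.nx then newch c s.A s.B d c.HL s.ch else s.ch
def insD (W : Ech) : List (ℕ × ℕ) → Ech
  | [] => W
  | (g, h) :: r => ins (insD W r) (dQ g h)
def pdL (t : T3) : List (ℕ × ℕ) → T3
  | [] => t
  | (g, h) :: r => (pdL t r).pd g h
def child1 (c : Ctx) (s : St) (u d : ℕ) : St :=
  ⟨insD s.W (eqs1 s u d), s.a0, s.L, newco c (cx c s) u c.HL s.co, chs c s d, false, false, 0, 0⟩
def child (c : Ctx) (s : St) (u : ℕ) : St := child1 c s u (cd c s u)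

def kill2 (c : Ctx) (s : St) (u x d : ℕ) (ch : List (ℕ × ℕ × ℕ)) : Bool :=
  bif s.nx then clash s.A s.B d ch || clash u x (c.rep (mt (iv s.B) s.A)) ch else Nat.beq u s.A
def kill1 (c : Ctx) (t : T3) (s : St) (u x d : ℕ) (co : List (ℕ × ℕ)) : Bool :=
  third x u co || third u x co || kill2 c s u x d (chs c s d) || (pdL t (eqs1 s u d)).qd
def kill (c : Ctx) (i : ℕ) (t : T3) (s : St) (x u : ℕ) : Bool :=
  Nat.beq u x || Nat.blt (c.cl x u) i || kill1 c t s u x (cd c s u) (newco c x u c.HL s.co)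

def Cert.has : Cert → ℕ → Bool
  | .cons w _ r, u => bif Nat.beq w u then true else r.has u
  | _, _ => false

def memN (x : ℕ) : List ℕ → Bool
  | [] => false
  | a :: r => bif Nat.beq a x then true else memN x r
def memP (x y : ℕ) : List (ℕ × ℕ) → Bool
  | [] => false
  | (a, b) :: r => bif Nat.beq a x && Nat.beq b y then true else memP x y r

def cover (c : Ctx) (i : ℕ) (k : Cert) (s : St) (t : T3) (x : ℕ) : Bool :=
  s.L.all fun u => k.has u || kill c i t s x u

def closedN (co : List (ℕ × ℕ)) (N : List ℕ) : Bool :=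
  !N.isEmpty && N.all fun n => N.any fun a => memP a n co && N.any fun b =>
    !Nat.beq a b && memP b n co

def nf (c : Ctx) (g : ℕ) : Bool := Nat.beq g 7 || (tb c.G g && !tb c.H g)

def St.setW (s : St) (W : Ech) : St := ⟨W, s.a0, s.L, s.co, s.ch, false, false, 0, 0⟩
def St.flt (s : St) (t : T3) : St :=
  ⟨s.W, s.a0, s.L.filter fun u => !(t.pd u s.a0).qd, s.co, s.ch, false, false, 0, 0⟩
def St.act (s : St) (nx : Bool) (A B : ℕ) : St := ⟨s.W, s.a0, s.L, s.co, s.ch, true, nx, A, B⟩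
def prods (W : Ech) (l : L3) (ls : List L3) : Bool := ls.all fun k => mem W (lmul l k)
def sos' (p : List (Z5 × ℕ)) : List (Z5 × L3) := p.map fun q => (q.1, df q.2)

def check (c : Ctx) (E : List Ent) (i : ℕ) : Cert → St → Bool
  | .nil, s => s.md
  | .cons u k r, s => check c E i k (child c s u) && check c E i r s
  | .qd, s => (cmb s.W).qd
  | .dead g, s => nf c g && mem s.W (dQ 0 g)
  | .three x y, s => memP x y s.co && third x y s.co
  | .pos p k, s => (sos' p).all (fun q => zpos q.1) && mem s.W (sos (sos' p)) &&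
      check c E i k (s.setW (insF s.W ((sos' p).map Prod.snd)))
  | .sat g l ls k, s => nf c g && mem (ins [] (lmul (df l) (df l))) (dQ 0 g) &&
      prods s.W (df l) (ls.map df) && check c E i k (s.setW (insF s.W (ls.map df)))
  | .cut l ls k d, s => prods s.W (df l) (ls.map df) &&
      check c E i k (s.setW (insF s.W [df l])) && check c E i d (s.setW (insF s.W (ls.map df)))
  | .res l1 l2 a1 a2 b1 b2 k d, s =>
      mem s.W ((lmul (df l1) (df a1)).add (lmul (df l2) (df a2))) &&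
      mem s.W ((lmul (df l1) (df b1)).add (lmul (df l2) (df b2))) &&
      check c E i k (s.setW (insF s.W [df l1, df l2])) &&
      check c E i d (s.setW (ins s.W ((lmul (df a1) (df b2)).sub (lmul (df a2) (df b1)))))
  | .filter k, s => check c E i k (s.flt (cmb s.W))
  | .step nx A B k, s => memP A B s.co &&
      cover c i k (s.act nx A B) (cmb s.W) (cx c (s.act nx A B)) && check c E i k (s.act nx A B)
  | .leaf e k T, s => match E[e]? with
      | some e => leafOk c e k T s.W s.ch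
      | none => false
  | .disc N U g, s => closedN s.co N && tb U 0 && tb c.G g && allIn U fun u =>
      !Nat.beq (c.rep u) (c.rep g) && N.all fun n => tb U (mt u n)
  | .split N x, s => closedN s.co N && s.co.any (fun p => Nat.beq p.1 x) && !memN x N

def CoOk (c : Ctx) (P : Set (Set (Sym2 E3))) (v : E3) (co : List (ℕ × ℕ)) : Prop :=
  ∀ p ∈ co, c.Rp p.1 ∧ c.Rp p.2 ∧ Co P (ac p.1 v) v (ac p.2 v)

structure Inv (c : Ctx) (P : Set (Set (Sym2 E3))) (v : E3) (s : St) : Prop where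
  W : Van s.W (mon v)
  a0 : tb c.G s.a0 = true ∧ IsEdge P s(v, ac s.a0 v)
  L : ∀ u, c.Rp u → IsEdge P s(v, ac u v) → u ∈ s.L
  co : CoOk c P v s.co
  ch : ChOk c P v s.ch

variable {c : Ctx} {P : Set (Set (Sym2 E3))} {v : E3}

theorem memN_iff {x : ℕ} {l : List ℕ} : memN x l = true ↔ x ∈ l := by
  induction l with
  | nil => simp [memN]
  | cons a r ih =>
    unfold memN
    cases e : Nat.beq a x
    · have : x ≠ a := fun h => by simp [h] at e
      simp [ih, this]
    · simp [(Nat.eq_of_beq_eq_true e).symm]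

theorem memP_mem {x y : ℕ} {l : List (ℕ × ℕ)} (h : memP x y l = true) : (x, y) ∈ l := by
  induction l with
  | nil => simp [memP] at h
  | cons a r ih =>
    unfold memP at h
    cases e : (Nat.beq a.1 x && Nat.beq a.2 y)
    · exact List.mem_cons_of_mem _ (ih (by simpa [e] using h))
    · simp only [Bool.and_eq_true, Nat.beq_eq] at e
      rw [← e.1, ← e.2]
      exact List.mem_cons_self

theorem third_spec {x y : ℕ} {l : List (ℕ × ℕ)} (h : third x y l = true) :
    ∃ a b, (x, a) ∈ l ∧ (x, b) ∈ l ∧ a ≠ y ∧ b ≠ y ∧ b ≠ a := by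
  have k : ∀ a (l : List (ℕ × ℕ)), third1 x y a l = true → ∃ b, (x, b) ∈ l ∧ b ≠ y ∧ b ≠ a := by
    intro a l h
    induction l with
    | nil => simp [third1] at h
    | cons p r ih =>
      unfold third1 at h
      cases e : (Nat.beq p.1 x && !Nat.beq p.2 y && !Nat.beq p.2 a)
      · obtain ⟨b, h1, h2⟩ := ih (by simpa [e] using h)
        exact ⟨b, List.mem_cons_of_mem _ h1, h2⟩
      · simp only [Bool.and_eq_true, Nat.beq_eq, Bool.not_eq_true', ← Bool.not_eq_true] at e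
        exact ⟨p.2, by rw [← e.1.1]; exact List.mem_cons_self, e.1.2, e.2⟩
  induction l with
  | nil => simp [third] at h
  | cons p r ih =>
    unfold third at h
    cases e : (Nat.beq p.1 x && !Nat.beq p.2 y)
    · obtain ⟨a, b, h1, h2, h3⟩ := ih (by simpa [e] using h)
      exact ⟨a, b, List.mem_cons_of_mem _ h1, List.mem_cons_of_mem _ h2, h3⟩
    · obtain ⟨b, h1, h2⟩ := k p.2 r (by simpa [e] using h)
      simp only [Bool.and_eq_true, Nat.beq_eq, Bool.not_eq_true', ← Bool.not_eq_true] at e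
      exact ⟨p.2, b, by rw [← e.1]; exact List.mem_cons_self, List.mem_cons_of_mem _ h1, e.2, h2⟩

theorem clash_spec {a b d : ℕ} {l : List (ℕ × ℕ × ℕ)} (h : clash a b d l = true) :
    ∃ w, (a, b, w) ∈ l ∧ w ≠ d := by
  induction l with
  | nil => simp [clash] at h
  | cons p r ih =>
    unfold clash at h
    cases e : (Nat.beq p.1 a && Nat.beq p.2.1 b && !Nat.beq p.2.2 d)
    · obtain ⟨w, h1, h2⟩ := ih (by simpa [e] using h)
      exact ⟨w, List.mem_cons_of_mem _ h1, h2⟩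
    · simp only [Bool.and_eq_true, Nat.beq_eq, Bool.not_eq_true', ← Bool.not_eq_true] at e
      exact ⟨p.2.2, by rw [← e.1.1, ← e.1.2]; exact List.mem_cons_self, e.2⟩

theorem back_spec {a b d : ℕ} {l : List (ℕ × ℕ × ℕ)} {p : ℕ × ℕ} (h : p ∈ back a b d l) :
    ∃ w, (b, a, w) ∈ l ∧ p = (mt (iv w) b, mt (iv a) d) := by
  induction l with
  | nil => simp [back] at h
  | cons q r ih =>
    unfold back at h
    cases e : (Nat.beq q.1 b && Nat.beq q.2.1 a)
    · obtain ⟨w, h1, h2⟩ := ih (by simpa [e] using h)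
      exact ⟨w, List.mem_cons_of_mem _ h1, h2⟩
    · simp only [e, cond_true, List.mem_singleton] at h
      simp only [Bool.and_eq_true, Nat.beq_eq] at e
      exact ⟨q.2.2, by rw [← e.1, ← e.2]; exact List.mem_cons_self, h⟩

theorem CoOk.third {co} (h : CoOk c P v co) (S : Setting c P v) (hc : c.Ok) {x y : ℕ} (hy : c.Rp y)
    (e : Co P (ac x v) v (ac y v)) : third x y co = false := by
  by_contra k
  obtain ⟨a, b, h1, h2, n1, n2, n3⟩ := third_spec (Bool.not_eq_false _ ▸ k)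
  obtain ⟨-, ra, ca⟩ := h _ h1
  obtain ⟨-, rb, cb⟩ := h _ h2
  rcases S.good.no_third e.symm ca.symm cb.symm with k | k | k
  · exact n1 (S.inj hc hy ra k).symm
  · exact n2 (S.inj hc hy rb k).symm
  · exact n3 (S.inj hc ra rb k).symm

theorem ChOk.clash {ch} (h : ChOk c P v ch) (S : Setting c P v) (hc : c.Ok) {a b d : ℕ}
    (hd : c.Rp d) (e : Ch P (ac a v) v (ac b v) (ac d v)) : clash a b d ch = false := by
  by_contra k
  obtain ⟨w, h1, h2⟩ := clash_spec (Bool.not_eq_false _ ▸ k)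
  obtain ⟨-, -, rw, cw⟩ := h _ h1
  exact h2 (S.inj hc rw hd (S.good.det (S.deg hc.grp) cw e))

theorem CoOk.newco {co} (h : CoOk c P v co) (S : Setting c P v) (hc : c.Ok) {x y : ℕ}
    (hx : tb c.G x = true) (hy : tb c.G y = true) (e : Co P (ac x v) v (ac y v)) {l : List ℕ}
    (hl : ∀ h ∈ l, tb c.G h = true ∧ tb c.H h = true) : CoOk c P v (newco c x y l co) := by
  induction l with
  | nil => exact h
  | cons k l ih =>
    obtain ⟨k1, k2⟩ := hl k List.mem_cons_self
    have e' := S.co hc.grp k1 e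
    rw [(S.stab k1).2 k2, ← S.rep_mt hc k1 hx, ← S.rep_mt hc k1 hy] at e'
    have r1 := hc.rp (hc.grp.mt k1 hx)
    have r2 := hc.rp (hc.grp.mt k1 hy)
    exact List.forall_mem_cons.2 ⟨⟨r1, r2, e'⟩, List.forall_mem_cons.2 ⟨⟨r2, r1, e'.symm⟩,
      ih fun h hh => hl h (List.mem_cons_of_mem _ hh)⟩⟩

theorem ChOk.newch {ch} (h : ChOk c P v ch) (S : Setting c P v) (hc : c.Ok) {a b d : ℕ}
    (ha : tb c.G a = true) (hb : tb c.G b = true) (hd : tb c.G d = true)
    (e : Ch P (ac a v) v (ac b v) (ac d v)) {l : List ℕ}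
    (hl : ∀ h ∈ l, tb c.G h = true ∧ tb c.H h = true) : ChOk c P v (newch c a b d l ch) := by
  induction l with
  | nil => exact h
  | cons k l ih =>
    obtain ⟨k1, k2⟩ := hl k List.mem_cons_self
    have G := hc.grp
    have e1 := S.ch G k1 e
    rw [(S.stab k1).2 k2, ← S.rep_mt hc k1 ha, ← S.rep_mt hc k1 hb, ← S.rep_mt hc k1 hd] at e1
    have m := G.mt k1 (G.iv hb)
    have e2 := S.ch G m e.rev
    rw [← S.rep_mt hc m hd, ← S.rep_mt hc m ha, ac_mt (G.big k1) (big_iv (G.big hb)) (ac b v),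
      ac_iv (G.big hb), (S.stab k1).2 k2, ← S.rep hc m] at e2
    exact List.forall_mem_cons.2 ⟨⟨hc.rp (G.mt k1 ha), hc.rp (G.mt k1 hb), hc.rp (G.mt k1 hd), e1⟩,
      List.forall_mem_cons.2 ⟨⟨hc.rp (G.mt m hd), hc.rp m, hc.rp (G.mt m ha), e2⟩,
        ih fun h hh => hl h (List.mem_cons_of_mem _ hh)⟩⟩

/-- A list of valid equations. -/
def EqOk (v : E3) (l : List (ℕ × ℕ)) : Prop :=
  ∀ p ∈ l, p.1 < 144 ∧ p.2 < 144 ∧ ⟪v, ac p.1 v⟫ = ⟪v, ac p.2 v⟫

theorem EqOk.insD {l} (h : EqOk v l) {W : Ech} (hW : Van W (mon v)) : Van (insD W l) (mon v) := by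
  induction l with
  | nil => exact hW
  | cons p l ih =>
    obtain ⟨a, b, e⟩ := h p List.mem_cons_self
    exact (ih fun q hq => h q (List.mem_cons_of_mem _ hq)).ins ((ev_dQ a b v).2 e)

theorem EqOk.pdL {l} (h : EqOk v l) {t : T3} (ht : t.Ok (mon (nw v))) :
    (pdL t l).Ok (mon (nw v)) := by
  induction l with
  | nil => exact ht
  | cons p l ih =>
    obtain ⟨a, b, e⟩ := h p List.mem_cons_self
    exact (ih fun q hq => h q (List.mem_cons_of_mem _ hq)).pd a b e

/-- The facts about the true candidate of a branching step. -/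
structure Cand (c : Ctx) (P : Set (Set (Sym2 E3))) (v : E3) (s : St) (u : ℕ) : Prop where
  ru : c.Rp u
  rx : c.Rp (cx c s)
  co : Co P (ac (cx c s) v) v (ac u v)
  eq : EqOk v (eqs1 s u (cd c s u))
  ch : ChOk c P v (chs c s (cd c s u))
  k2 : kill2 c s u (cx c s) (cd c s u) (chs c s (cd c s u)) = false

theorem Inv.cand {s : St} (h : Inv c P v s) (S : Setting c P v) (hc : c.Ok) (nx : Bool) {A B : ℕ}
    (m : (A, B) ∈ s.co) : ∃ u, Cand c P v (s.act nx A B) u := by
  obtain ⟨ra, rb, e⟩ := h.co _ m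
  have G := hc.grp
  have e0 : ∀ {u}, c.Rp u → IsEdge P s(v, ac u v) →
      u < 144 ∧ s.a0 < 144 ∧ ⟪v, ac u v⟫ = ⟪v, ac s.a0 v⟫ := fun ru e =>
    ⟨G.lt ru.1, G.lt h.a0.1, S.c_eq hc e h.a0.2⟩
  cases nx
  · obtain ⟨x, n, e'⟩ := S.good.other (S.deg G) e
    obtain ⟨u, ru, rfl⟩ := S.vert hc e'.symm.edge.right
    refine ⟨u, ru, rb, e'.symm, ?_, h.ch, ?_⟩
    · exact List.forall_mem_cons.2 ⟨e0 ru e'.symm.edge, fun _ h => nomatch h⟩
    · exact Bool.eq_false_iff.2 fun k => n (by rw [Nat.eq_of_beq_eq_true k]; rfl)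
  · obtain ⟨w, e'⟩ := e.ext
    have ib := G.iv rb.1
    have e1 := S.co G ib e'.right
    rw [ac_iv (G.big rb.1)] at e1
    obtain ⟨u, ru, hu⟩ := S.vert hc e1.edge.right
    have hw : w = ac (c.rep (mt B u)) v := by
      rw [S.rep_mt hc rb.1 ru.1, ← hu, ac_iv' (G.big rb.1)]
    have rd := hc.rp (G.mt rb.1 ru.1)
    rw [hu, ← S.rep hc ib] at e1
    rw [hw] at e'
    have ch' := h.ch.newch S hc ra.1 rb.1 rd.1 e' hc.hl
    refine ⟨u, ru, hc.rp ib, e1, ?_, ch', ?_⟩
    · refine List.forall_mem_cons.2 ⟨e0 ru e1.edge, List.forall_mem_cons.2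
        ⟨⟨G.lt (G.mt (G.iv ra.1) rb.1), G.lt rd.1, ?_⟩, fun p hp => ?_⟩⟩
      · exact (inner_ac2 (G.big ra.1) (G.big rb.1) v).symm.trans (e'.d_eq S.reg (S.norm G))
      · obtain ⟨z, hz, rfl⟩ := back_spec hp
        obtain ⟨-, -, rz, cz⟩ := h.ch _ hz
        refine ⟨G.lt (G.mt (G.iv rz.1) rb.1), G.lt (G.mt (G.iv ra.1) rd.1), ?_⟩
        exact (inner_ac2 (G.big rz.1) (G.big rb.1) v).symm.trans
          ((Ch.e_eq S.good (S.deg G) S.reg (S.norm G) cz.rev e').trans
            (inner_ac2 (G.big ra.1) (G.big rd.1) v))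
    · have e2 := S.ch G ib e'.rev
      rw [← hw, hu, ac_iv (G.big rb.1), ← S.rep_mt hc ib ra.1, ← S.rep hc ib] at e2
      exact Bool.or_eq_false_iff.2 ⟨ch'.clash S hc rd e', ch'.clash S hc (hc.rp (G.mt ib ra.1)) e2⟩

theorem CoOk.closed {co} (h : CoOk c P v co) (S : Setting c P v) {N : List ℕ}
    (k : closedN co N = true) : (∀ n ∈ N, c.Rp n) ∧
      (c.Ok → ∀ y, IsEdge P s(v, y) → ∃ n ∈ N, y = ac n v) := by
  simp only [closedN, Bool.and_eq_true, List.all_eq_true, List.any_eq_true, Bool.not_eq_true',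
    ← Bool.not_eq_true, Nat.beq_eq, List.isEmpty_iff] at k
  refine ⟨fun n hn => ?_, fun hc y hy => ?_⟩
  · obtain ⟨a, -, h1, -⟩ := k.2 n hn
    exact (h _ (memP_mem h1)).2.1
  · obtain ⟨n, hn⟩ := List.exists_mem_of_ne_nil _ k.1
    refine S.good.closed (fun y => ∃ n ∈ N, y = ac n v) ?_ ⟨n, hn, rfl⟩ hy
    rintro _ ⟨n, hn, rfl⟩
    obtain ⟨a, ha, h1, b, hb, ab, h2⟩ := k.2 n hn
    obtain ⟨ra, -, ca⟩ := h _ (memP_mem h1)
    obtain ⟨rb, -, cb⟩ := h _ (memP_mem h2)
    exact ⟨_, _, fun e => ab (S.inj hc ra rb e), ⟨a, ha, rfl⟩, ⟨b, hb, rfl⟩, ca, cb⟩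

theorem Setting.nf (S : Setting c P v) (hc : c.Ok) {g : ℕ} (h : nf c g = true) :
    (dQ 0 g).ev (mon v) ≠ 0 := by
  simp only [MP_708877_co.nf, Bool.or_eq_true, Nat.beq_eq, Bool.and_eq_true] at h
  rcases h with rfl | h
  · rw [Ne, fix_iff (by norm_num)]
    exact neg_ne_self (S.ne hc.grp)
  · rw [Ne, fix_iff (hc.grp.lt h.1), S.stab h.1]
    simpa using h.2

theorem Inv.setW {s : St} (h : Inv c P v s) {W : Ech} (hW : Van W (mon v)) :
    Inv c P v (s.setW W) := ⟨hW, h.a0, h.L, h.co, h.ch⟩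

theorem prods_spec {W : Ech} (hW : Van W (mon v)) {l : L3} {ls : List L3}
    (h : prods W l ls = true) (n : l.ev v ≠ 0) : ∀ k ∈ ls, k.ev v = 0 := fun k hk => by
  have := hW.mem (List.all_eq_true.1 h k hk)
  rw [ev_lmul] at this
  exact (mul_eq_zero.1 this).resolve_left n

theorem disc_false {s : St} (h : Inv c P v s) (S : Setting c P v) (hc : c.Ok) {N : List ℕ}
    {U g : ℕ} (k1 : closedN s.co N = true) (k2 : tb U 0 = true) (k3 : tb c.G g = true)
    (k4 : allIn U (fun u => !Nat.beq (c.rep u) (c.rep g) && N.all fun n => tb U (mt u n)) = true) :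
    False := by
  have G := hc.grp
  obtain ⟨rn, nb⟩ := h.co.closed S k1
  have m : ac g v ∈ verts P := mem_verts_of_sym (S.inv k3) S.mem
  have key : ∀ x, Relation.ReflTransGen (fun a b => IsEdge P s(a, b)) v x →
      ∃ u, tb c.G u = true ∧ tb U u = true ∧ x = ac u v := by
    intro x hx
    induction hx with
    | refl => exact ⟨0, G.zero, k2, (ac_zero v).symm⟩
    | @tail x y _ e ih =>
      obtain ⟨u, hu, hU, rfl⟩ := ih
      have e' := S.edge (G.iv hu) e
      rw [ac_iv (G.big hu)] at e'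
      obtain ⟨n, hn, e2⟩ := nb hc _ e'
      have t := allIn_spec k4 (G.lt hu) hU
      simp only [Bool.and_eq_true, List.all_eq_true] at t
      refine ⟨mt u n, G.mt hu (rn n hn).1, t.2 n hn, ?_⟩
      rw [ac_mt (G.big hu) (G.big (rn n hn).1), ← e2, ac_iv' (G.big hu)]
  obtain ⟨u, hu, hU, e⟩ := key _ (S.good.gconn v S.mem _ m)
  have t := allIn_spec k4 (G.lt hu) hU
  simp [S.rep_eq hc k3 hu e] at t

theorem check_sound {C : Set (Set (Sym2 E3)) → Prop}
    (hC : ∀ P (L : E3 ≃ₗᵢ[ℝ] E3), C (image L P) → C P) {E : List Ent} (hE : ∀ e ∈ E, e.Sound C)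
    (S : Setting c P v) (hc : c.Ok) {i : ℕ}
    (hd : ∀ a b, c.Rp a → c.Rp b → Co P (ac a v) v (ac b v) → c.cl a b < i → C P) (k : Cert) :
    ∀ s, check c E i k s = true → (s.md = false → Inv c P v s → C P) ∧
      ∀ u, k.has u = true → Inv c P v (child c s u) → C P := by
  have G := hc.grp
  have v0 := S.ne G
  induction k with
  | nil => exact fun s h => ⟨fun e => by simp [check, e] at h, fun _ h => nomatch h⟩
  | cons w k r ih1 ih2 =>
    intro s h
    simp only [check, Bool.and_eq_true] at h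
    refine ⟨(ih2 s h.2).1, fun u hu => ?_⟩
    unfold Cert.has at hu
    cases e : Nat.beq w u
    · exact (ih2 s h.2).2 u (by simpa [e] using hu)
    · rw [← Nat.eq_of_beq_eq_true e]
      exact (ih1 _ h.1).1 rfl
  | qd => exact fun s h => ⟨fun _ I => absurd (I.W.cmb.qd h) v0, fun _ h => nomatch h⟩
  | dead g =>
    refine fun s h => ⟨fun _ I => ?_, fun _ h => nomatch h⟩
    simp only [check, Bool.and_eq_true] at h
    exact absurd (I.W.mem h.2) (S.nf hc h.1)
  | three x y =>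
    refine fun s h => ⟨fun _ I => ?_, fun _ h => nomatch h⟩
    simp only [check, Bool.and_eq_true] at h
    obtain ⟨-, ry, e⟩ := I.co _ (memP_mem h.1)
    simp [I.co.third S hc ry e] at h
  | pos p k ih =>
    refine fun s h => ⟨fun _ I => ?_, fun _ h => nomatch h⟩
    simp only [check, Bool.and_eq_true, List.all_eq_true] at h
    exact (ih _ h.2).1 rfl (I.setW (I.W.insF ((sos_zero h.1.1).2 (I.W.mem h.1.2))))
  | sat g l ls k ih =>
    refine fun s h => ⟨fun _ I => ?_, fun _ h => nomatch h⟩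
    simp only [check, Bool.and_eq_true] at h
    refine (ih _ h.2).1 rfl (I.setW (I.W.insF (prods_spec I.W h.1.2 fun e => S.nf hc h.1.1.1 ?_)))
    exact ((van_nil _).ins (by simp [e])).mem h.1.1.2
  | cut l ls k d ih1 ih2 =>
    refine fun s h => ⟨fun _ I => ?_, fun _ h => nomatch h⟩
    simp only [check, Bool.and_eq_true] at h
    by_cases e : (df l).ev v = 0
    · exact (ih1 _ h.1.2).1 rfl (I.setW (I.W.insF (by simpa using e)))
    · exact (ih2 _ h.2).1 rfl (I.setW (I.W.insF (prods_spec I.W h.1.1 e)))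
  | res l1 l2 a1 a2 b1 b2 k d ih1 ih2 =>
    refine fun s h => ⟨fun _ I => ?_, fun _ h => nomatch h⟩
    simp only [check, Bool.and_eq_true] at h
    have e1 := I.W.mem h.1.1.1
    have e2 := I.W.mem h.1.1.2
    simp only [ev_add, ev_lmul] at e1 e2
    by_cases e : (df l1).ev v = 0 ∧ (df l2).ev v = 0
    · exact (ih1 _ h.1.2).1 rfl (I.setW (I.W.insF (by simpa using e)))
    · refine (ih2 _ h.2).1 rfl (I.setW (I.W.ins ?_))
      rw [ev_sub, ev_lmul, ev_lmul]
      by_contra n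
      refine e ⟨mul_right_cancel₀ n ?_, mul_right_cancel₀ n ?_⟩
      · linear_combination (df b2).ev v * e1 - (df a2).ev v * e2
      · linear_combination (df a1).ev v * e2 - (df b1).ev v * e1
  | filter k ih =>
    refine fun s h => ⟨fun _ I => ?_, fun _ h => nomatch h⟩
    refine (ih _ h).1 rfl ⟨I.W, I.a0, fun u ru e => List.mem_filter.2 ⟨I.L u ru e, ?_⟩, I.co, I.ch⟩
    rw [Bool.not_eq_true', Bool.eq_false_iff]
    exact fun q => v0 ((I.W.cmb.pd (G.lt ru.1) (G.lt I.a0.1) (S.c_eq hc e I.a0.2)).qd q)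
  | step nx A B k ih =>
    refine fun s h => ⟨fun _ I => ?_, fun _ h => nomatch h⟩
    simp only [check, Bool.and_eq_true] at h
    obtain ⟨u, cu⟩ := I.cand S hc nx (memP_mem h.1.1)
    have co' := I.co.newco S hc cu.rx.1 cu.ru.1 cu.co hc.hl
    have t := List.all_eq_true.1 h.1.2 u (I.L u cu.ru cu.co.edge)
    simp only [kill, kill1, Bool.or_eq_true, Nat.beq_eq, Nat.blt_eq] at t
    rcases t with t | (t | t) | ((t | t) | t) | t
    · exact (ih _ h.2).2 u t ⟨cu.eq.insD I.W, I.a0, I.L, co', cu.ch⟩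
    · exact absurd (by rw [t]) cu.co.ne
    · exact hd _ _ cu.rx cu.ru cu.co t
    · exact absurd t (Bool.eq_false_iff.1 (co'.third S hc cu.ru cu.co))
    · exact absurd t (Bool.eq_false_iff.1 (co'.third S hc cu.rx cu.co.symm))
    · exact absurd t (Bool.eq_false_iff.1 cu.k2)
    · exact absurd ((cu.eq.pdL I.W.cmb).qd t) v0
  | leaf e k T =>
    refine fun s h => ⟨fun _ I => ?_, fun _ h => nomatch h⟩
    simp only [check] at h
    split at h
    · next e' he => exact leaf_sound hC I.ch S hc (hE _ (List.mem_of_getElem? he)) I.W h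
    · exact nomatch h
  | disc N U g =>
    refine fun s h => ⟨fun _ I => ?_, fun _ h => nomatch h⟩
    simp only [check, Bool.and_eq_true] at h
    exact (disc_false I S hc h.1.1.1 h.1.1.2 h.1.2 h.2).elim
  | split N x =>
    refine fun s h => ⟨fun _ I => ?_, fun _ h => nomatch h⟩
    simp only [check, Bool.and_eq_true, List.any_eq_true, Nat.beq_eq, Bool.not_eq_true',
      ← Bool.not_eq_true, memN_iff] at h
    obtain ⟨⟨h1, p, hp, rfl⟩, h2⟩ := h
    obtain ⟨rn, nb⟩ := I.co.closed S h1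
    obtain ⟨r1, -, e⟩ := I.co p hp
    obtain ⟨n, hn, e2⟩ := nb hc _ e.symm.edge
    exact absurd (S.inj hc r1 (rn n hn) e2 ▸ hn) h2

end Pool.Agent.P.MP_708877_co
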