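import Pool.Agent.P.MP_708877_co.Core

/-!
Consecutive vertices on faces.
-/

namespace Pool.Agent.P.MP_708877_co

open RealInnerProductSpace

variable {X Y : Type}

/-- Three consecutive vertices of a face. -/
def Co (P : Set (Set (Sym2 X))) (x y z : X) : Prop :=
  ∃ f : ℤ → X, Seq f ∧ edges f ∈ P ∧ f 0 = x ∧ f 1 = y ∧ f 2 = z

/-- Four consecutive vertices of a face. -/
def Ch (P : Set (Set (Sym2 X))) (x y z w : X) : Prop :=
  ∃ f : ℤ → X, Seq f ∧ edges f ∈ P ∧ f 0 = x ∧ f 1 = y ∧ f 2 = z ∧ f 3 = w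

/-- Every vertex lies on three edges. -/
def Deg3 (P : Set (Set (Sym2 X))) : Prop :=
  ∀ x ∈ verts P, ∃ y₁ y₂ y₃ : X, IsEdge P s(x, y₁) ∧ IsEdge P s(x, y₂) ∧ IsEdge P s(x, y₃) ∧
    y₁ ≠ y₂ ∧ y₁ ≠ y₃ ∧ y₂ ≠ y₃

variable {P : Set (Set (Sym2 X))} {x y z w : X}

theorem seq_shift {f : ℤ → X} (hf : Seq f) (c : ℤ) : Seq fun i => f (i + c) :=
  ⟨fun i j k e => by
    have := hf.1 _ _ k e
    simpa only [add_right_comm] using this, by simpa [add_comm] using hf.ne2 c⟩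

theorem edges_shift (f : ℤ → X) (c : ℤ) : (edges fun i => f (i + c)) = edges f := by
  ext e
  simp only [mem_edges]
  constructor
  · rintro ⟨i, rfl⟩
    exact ⟨i + c, by rw [add_right_comm]⟩
  · rintro ⟨i, rfl⟩
    exact ⟨i - c, by rw [add_right_comm, sub_add_cancel]⟩

theorem seq_rev {f : ℤ → X} (hf : Seq f) (c : ℤ) : Seq fun i => f (c - i) :=
  ⟨fun i j k e => by
    have := hf.1 _ _ (-k) e
    simpa only [sub_add_eq_sub_sub, sub_eq_add_neg, neg_add, add_assoc] using this, by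
    have := hf.ne2 (c - 2)
    simpa using this.symm⟩

theorem edges_rev (f : ℤ → X) (c : ℤ) : (edges fun i => f (c - i)) = edges f := by
  ext e
  simp only [mem_edges]
  constructor
  · rintro ⟨i, rfl⟩
    refine ⟨c - (i + 1), ?_⟩
    rw [Sym2.eq_swap]
    congr 2
    abel
  · rintro ⟨i, rfl⟩
    refine ⟨c - (i + 1), ?_⟩
    rw [Sym2.eq_swap]
    congr 2 <;> abel

theorem Co.symm (h : Co P x y z) : Co P z y x := by
  obtain ⟨f, hf, hP, rfl, rfl, rfl⟩ := h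
  exact ⟨fun i => f (2 - i), seq_rev hf 2, by rwa [edges_rev], by simp, by norm_num, by simp⟩

theorem Ch.rev (h : Ch P x y z w) : Ch P w z y x := by
  obtain ⟨f, hf, hP, rfl, rfl, rfl, rfl⟩ := h
  exact ⟨fun i => f (3 - i), seq_rev hf 3, by rwa [edges_rev], by simp, by norm_num, by norm_num,
    by simp⟩

theorem Ch.left (h : Ch P x y z w) : Co P x y z := by
  obtain ⟨f, hf, hP, a, b, c, -⟩ := h
  exact ⟨f, hf, hP, a, b, c⟩

theorem Ch.right (h : Ch P x y z w) : Co P y z w := h.rev.left.symm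

theorem Co.ext (h : Co P x y z) : ∃ w, Ch P x y z w := by
  obtain ⟨f, hf, hP, a, b, c⟩ := h
  exact ⟨_, f, hf, hP, a, b, c, rfl⟩

theorem Co.ne (h : Co P x y z) : x ≠ z := by
  obtain ⟨f, hf, -, rfl, -, rfl⟩ := h
  exact hf.2.symm

theorem Co.face (h : Co P x y z) : ∃ F ∈ P, s(y, x) ∈ F ∧ s(y, z) ∈ F := by
  obtain ⟨f, -, hP, rfl, rfl, rfl⟩ := h
  exact ⟨_, hP, ⟨0, Sym2.eq_swap⟩, ⟨1, rfl⟩⟩

theorem Co.edge (h : Co P x y z) : IsEdge P s(y, z) := by
  obtain ⟨F, hF, -, a⟩ := h.face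
  exact ⟨F, hF, a⟩

theorem Co.image (h : Co P x y z) {g : X → Y} (hg : Function.Injective g) :
    Co (image g P) (g x) (g y) (g z) := by
  obtain ⟨f, hf, hP, rfl, rfl, rfl⟩ := h
  exact ⟨fun i => g (f i), ⟨fun i j k e => congrArg g (hf.1 i j k (hg e)), fun e => hf.2 (hg e)⟩,
    ⟨_, hP, image_edges g f⟩, rfl, rfl, rfl⟩

theorem Ch.image (h : Ch P x y z w) {g : X → Y} (hg : Function.Injective g) :
    Ch (image g P) (g x) (g y) (g z) (g w) := by
  obtain ⟨f, hf, hP, rfl, rfl, rfl, rfl⟩ := h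
  exact ⟨fun i => g (f i), ⟨fun i j k e => congrArg g (hf.1 i j k (hg e)), fun e => hf.2 (hg e)⟩,
    ⟨_, hP, image_edges g f⟩, rfl, rfl, rfl, rfl⟩

/-- A face through an edge can be enumerated from that edge. -/
theorem Good.enum (h : Good P) {F : Set (Sym2 X)} (hF : F ∈ P) (he : s(y, z) ∈ F) :
    ∃ f : ℤ → X, Seq f ∧ edges f = F ∧ f 1 = y ∧ f 2 = z := by
  obtain ⟨f, hf, rfl⟩ := isPolygon_iff.1 (h.poly F hF)
  obtain ⟨i, hi⟩ := he
  rcases Sym2.eq_iff.1 hi with ⟨a, b⟩ | ⟨a, b⟩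
  · refine ⟨fun j => f (j + (i - 1)), seq_shift hf _, edges_shift f _, ?_, ?_⟩
    · rw [← a]; exact congrArg f (by ring)
    · rw [← b]; exact congrArg f (by ring)
  · refine ⟨fun j => f (i + 2 - j), seq_rev hf _, edges_rev f _, ?_, ?_⟩
    · rw [← b]; exact congrArg f (by ring)
    · rw [← a]; exact congrArg f (by ring)

theorem Seq.nb {f : ℤ → X} (hf : Seq f) (h : s(f 1, x) ∈ edges f) : x = f 0 ∨ x = f 2 := by
  rcases hf.edge_at (i := 1) h (by simp) with e | e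
  · exact Or.inr (Sym2.congr_right.1 e)
  · rw [Sym2.eq_swap] at e
    exact Or.inl (Sym2.congr_left.1 e)

theorem Good.co_of_face (h : Good P) {F : Set (Sym2 X)} (hF : F ∈ P) (a : s(y, x) ∈ F)
    (b : s(y, z) ∈ F) (hne : x ≠ z) : Co P x y z := by
  obtain ⟨f, hf, rfl, rfl, rfl⟩ := h.enum hF b
  rcases hf.nb a with e | e
  · exact ⟨f, hf, hF, e.symm, rfl, rfl⟩
  · exact absurd e hne

theorem Good.co_of_edge (h : Good P) (he : IsEdge P s(y, z)) : ∃ x, Co P x y z := by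
  obtain ⟨F, hF, he⟩ := he
  obtain ⟨f, hf, rfl, a, b⟩ := h.enum hF he
  exact ⟨_, f, hf, hF, rfl, a, b⟩

theorem Good.nb (h : Good P) {F : Set (Sym2 X)} (hF : F ∈ P) (a : s(y, x) ∈ F)
    (b : s(y, z) ∈ F) (hne : x ≠ z) (c : s(y, w) ∈ F) : w = x ∨ w = z := by
  obtain ⟨f, hf, rfl, rfl, rfl⟩ := h.enum hF b
  rcases hf.nb a with e | e
  · rw [e]; exact hf.nb c
  · exact absurd e hne

/-- A set of neighbours closed under passing to the next edge of a face contains all. -/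
theorem Good.nb_induction (h : Good P) {v : X} (N : X → Prop)
    (hN : ∀ F ∈ P, ∀ a b, s(v, a) ∈ F → s(v, b) ∈ F → N a → N b) {a b : X}
    (ha : IsEdge P s(v, a)) (hb : IsEdge P s(v, b)) (h0 : N a) : N b := by
  have key : ∀ e, Relation.ReflTransGen (fun a b => v ∈ b ∧ ∃ F ∈ P, a ∈ F ∧ b ∈ F) s(v, a) e →
      ∃ c, e = s(v, c) ∧ N c := by
    intro e he
    induction he with
    | refl => exact ⟨a, rfl, h0⟩
    | tail _ hbc ih =>
      obtain ⟨c, rfl, hc⟩ := ih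
      obtain ⟨m, F, hF, p, q⟩ := hbc
      obtain ⟨d, rfl⟩ := Sym2.mem_iff_exists.1 m
      exact ⟨d, rfl, hN F hF c d p q hc⟩
  obtain ⟨c, e, hc⟩ := key _ (h.vconn v _ _ ha hb (by simp) (by simp))
  rwa [Sym2.congr_right.1 e]

theorem Good.face_unique (h : Good P) (d : Deg3 P) {F G : Set (Sym2 X)} (hF : F ∈ P) (hG : G ∈ P)
    (a : s(y, x) ∈ F) (b : s(y, z) ∈ F) (a' : s(y, x) ∈ G) (b' : s(y, z) ∈ G) (hne : x ≠ z) :
    F = G := by
  by_contra hc
  have key : ∀ w, IsEdge P s(y, w) → w = x ∨ w = z := fun w hw =>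
    h.nb_induction (fun w => w = x ∨ w = z) (fun E hE p q hp hq hp' => by
      have : E = F ∨ E = G := by
        rcases hp' with rfl | rfl
        · exact h.eq_or hF hG hc a a' hE hp
        · exact h.eq_or hF hG hc b b' hE hp
      rcases this with rfl | rfl
      · exact h.nb hE a b hne hq
      · exact h.nb hE a' b' hne hq) ⟨F, hF, a⟩ hw (Or.inl rfl)
  obtain ⟨y₁, y₂, y₃, e1, e2, e3, n1, n2, n3⟩ := d y (IsEdge.left ⟨F, hF, a⟩)
  rcases key _ e1 with rfl | rfl <;> rcases key _ e2 with k | k <;> rcases key _ e3 with l | l <;>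
    simp_all

theorem Good.other (h : Good P) (d : Deg3 P) (c : Co P x y z) : ∃ x', x' ≠ x ∧ Co P x' y z := by
  obtain ⟨F, hF, a, b⟩ := c.face
  obtain ⟨G, hG, hne, e⟩ := h.second hF b
  obtain ⟨f, hf, rfl, p, q⟩ := h.enum hG e
  refine ⟨f 0, fun k => hne ?_, f, hf, hG, rfl, p, q⟩
  refine h.face_unique d hG hF ?_ e a b c.ne
  rw [← k, ← p]
  exact ⟨0, Sym2.eq_swap⟩

theorem Good.no_third (h : Good P) {a b c : X} (h1 : Co P a y z) (h2 : Co P b y z)
    (h3 : Co P c y z) : a = b ∨ a = c ∨ b = c := by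
  obtain ⟨F, hF, p, q⟩ := h1.face
  obtain ⟨G, hG, p', q'⟩ := h2.face
  obtain ⟨E, hE, p'', q''⟩ := h3.face
  have k : ∀ {F : Set (Sym2 X)} {a b : X}, F ∈ P → s(y, a) ∈ F → s(y, b) ∈ F → s(y, z) ∈ F →
      a ≠ z → b ≠ z → a = b := fun hF p q r s t =>
    ((h.nb hF p r s q).resolve_right t).symm
  by_cases e : F = G
  · subst e
    exact Or.inl (k hF p p' q h1.ne h2.ne)
  · rcases h.eq_or hF hG e q q' hE q'' with rfl | rfl
    · exact Or.inr (Or.inl (k hF p p'' q h1.ne h3.ne))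
    · exact Or.inr (Or.inr (k hG p' p'' q' h2.ne h3.ne))

theorem Ch.face (c : Ch P x y z w) : ∃ F ∈ P, s(y, x) ∈ F ∧ s(y, z) ∈ F ∧ s(z, w) ∈ F := by
  obtain ⟨f, -, hP, rfl, rfl, rfl, rfl⟩ := c
  exact ⟨_, hP, ⟨0, Sym2.eq_swap⟩, ⟨1, rfl⟩, ⟨2, rfl⟩⟩

theorem Good.det (h : Good P) (d : Deg3 P) {w' : X} (c : Ch P x y z w) (c' : Ch P x y z w') :
    w = w' := by
  obtain ⟨F, hF, a1, a2, a3⟩ := c.face
  obtain ⟨G, hG, b1, b2, b3⟩ := c'.face
  obtain rfl := h.face_unique d hF hG a1 a2 b1 b2 c.left.ne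
  rw [Sym2.eq_swap] at a2
  exact ((h.nb hF a2 a3 c.right.ne b3).resolve_left c'.right.ne.symm).symm

theorem Good.closed (h : Good P) {v : X} (N : X → Prop)
    (hN : ∀ n, N n → ∃ a b, a ≠ b ∧ N a ∧ N b ∧ Co P a v n ∧ Co P b v n) {n : X} (h0 : N n)
    (hy : IsEdge P s(v, y)) : N y := by
  obtain ⟨_, -, -, -, -, c, -⟩ := hN n h0
  refine h.nb_induction N (fun F hF p q hp hq hp' => ?_) c.edge hy h0
  by_cases e : q = p
  · rwa [e]
  · obtain ⟨a, b, ab, ha, hb, c1, c2⟩ := hN p hp'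
    rcases h.no_third c1 c2 (h.co_of_face hF hq hp e) with k | k | k
    · exact absurd k ab
    · rwa [← k]
    · rwa [← k]

theorem Good.glue (h : Good P) (d : Deg3 P) {n : ℕ} (hn : n ≠ 0) (x : ZMod n → X)
    (hx : ∀ i, Ch P (x i) (x (i + 1)) (x (i + 2)) (x (i + 3))) : edges x ∈ P := by
  obtain ⟨f, hf, hP, a0, a1, a2, -⟩ := hx 0
  have key : ∀ k : ℕ, f k = x k ∧ f (k + 1) = x (k + 1) ∧ f (k + 2) = x (k + 2) := by
    intro k
    induction k with
    | zero => simpa using ⟨a0, by simpa using a1, by simpa using a2⟩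
    | succ k ih =>
      push_cast
      refine ⟨ih.2.1, by simpa only [add_assoc, one_add_one_eq_two] using ih.2.2, ?_⟩
      have c : Ch P (x k) (x (k + 1)) (x (k + 2)) (f (3 + k)) :=
        ⟨fun i => f (i + k), seq_shift hf _, by rwa [edges_shift], by simpa using ih.1,
          by simpa [add_comm] using ih.2.1, by simpa [add_comm] using ih.2.2, rfl⟩
      have := h.det d c (hx k)
      rw [show (k : ℤ) + 1 + 2 = 3 + k by ring, this]
      congr 1
      ring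
  have per : Function.Periodic f (n : ℤ) := fun i => by
    have e : f n = f 0 := by rw [(key n).1, a0]; simp
    have := hf.1 _ _ i e
    rwa [zero_add, add_comm] at this
  have all : ∀ i : ℤ, f i = x i := fun i => by
    have p : 0 ≤ i % n := Int.emod_nonneg _ (by exact_mod_cast hn)
    obtain ⟨k, hk⟩ := Int.eq_ofNat_of_zero_le p
    have e : i = k + (i / n) * n := by rw [← hk]; exact (Int.emod_add_ediv_mul i n).symm
    have := per.int_mul (i / n) k
    rw [Int.cast_id] at this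
    rw [e, this, (key k).1]
    simp
  have : edges x = edges f := by
    ext e
    simp only [mem_edges, all]
    constructor
    · rintro ⟨i, rfl⟩
      obtain ⟨j, rfl⟩ := ZMod.intCast_surjective i
      exact ⟨j, by simp⟩
    · rintro ⟨i, rfl⟩
      exact ⟨i, by simp⟩
  rwa [this]

section Metric

variable {P : Set (Set (Sym2 E3))} {r : ℝ} {x y z w : E3}

theorem toeplitz (reg : ∀ F ∈ P, IsRegular F) (nr : ∀ x ∈ verts P, ‖x‖ = r) {f : ℤ → E3}
    (hf : Seq f) (hP : edges f ∈ P) (i j : ℤ) : ⟪f (i + 1), f (j + 1)⟫ = ⟪f i, f j⟫ := by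
  obtain ⟨g, hg⟩ := shift_of_regular hf (reg _ hP)
  have n : ∀ i, ‖f i‖ = r := fun i => nr _ (IsEdge.left ⟨_, hP, edge_mem f i⟩)
  have e : ‖f (i + 1) - f (j + 1)‖ = ‖f i - f j‖ := by
    rw [← dist_eq_norm, ← dist_eq_norm, ← hg, ← hg, g.dist_eq]
  have e2 := congrArg (· ^ 2) e
  simp only [norm_sub_sq_real, n] at e2
  linarith

theorem Ch.d_eq (reg : ∀ F ∈ P, IsRegular F) (nr : ∀ x ∈ verts P, ‖x‖ = r) (c : Ch P x y z w) :
    ⟪x, z⟫ = ⟪y, w⟫ := by
  obtain ⟨f, hf, hP, rfl, rfl, rfl, rfl⟩ := c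
  exact (toeplitz reg nr hf hP 0 2).symm

theorem Ch.e_eq (h : Good P) (d : Deg3 P) (reg : ∀ F ∈ P, IsRegular F)
    (nr : ∀ x ∈ verts P, ‖x‖ = r) {u : E3} (c' : Ch P u x y z) (c : Ch P x y z w) :
    ⟪u, z⟫ = ⟪x, w⟫ := by
  obtain ⟨f, hf, hP, rfl, rfl, rfl, rfl⟩ := c'
  have c2 : Ch P (f 1) (f 2) (f 3) (f 4) :=
    ⟨fun i => f (i + 1), seq_shift hf _, by rwa [edges_shift], rfl, rfl, rfl, rfl⟩
  rw [h.det d c c2]
  exact (toeplitz reg nr hf hP 0 3).symm

theorem Good.c_eq (h : Good P) (reg : ∀ F ∈ P, IsRegular F) (nr : ∀ x ∈ verts P, ‖x‖ = r)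
    (e : IsEdge P s(x, y)) (e' : IsEdge P s(z, w)) : ⟪x, y⟫ = ⟪z, w⟫ := by
  have key := h.edge_induction (fun e => ∀ a b, e = s(a, b) → ⟪a, b⟫ = ⟪x, y⟫)
    (fun F hF a ha b hb hQ => by
      obtain ⟨f, hf, rfl⟩ := isPolygon_iff.1 (h.poly F hF)
      obtain ⟨i, rfl⟩ := ha
      obtain ⟨j, rfl⟩ := hb
      have k : ∀ m : ℤ, ⟪f (i + m), f (i + m + 1)⟫ = ⟪f i, f (i + 1)⟫ := by
        intro m
        induction m using Int.induction_on with
        | zero => simp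
        | succ m ih => rw [← ih, ← add_assoc, toeplitz reg nr hf hF]
        | pred m ih =>
          rw [← ih, ← toeplitz reg nr hf hF]
          congr 2 <;> ring
      have k2 := k (j - i)
      rw [add_sub_cancel, hQ _ _ rfl] at k2
      intro a b hab
      rcases Sym2.eq_iff.1 hab with ⟨rfl, rfl⟩ | ⟨rfl, rfl⟩
      · exact k2
      · rwa [real_inner_comm]) e e' (fun a b hab => by
      rcases Sym2.eq_iff.1 hab with ⟨rfl, rfl⟩ | ⟨rfl, rfl⟩
      · rfl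
      · exact real_inner_comm _ _)
  exact (key _ _ rfl).symm

end Metric

end Pool.Agent.P.MP_708877_co
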