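import Pool.Agent.P.MP_708877_co.Full.Masks
import Pool.Agent.P.MP_708877_co.Full.Corner

/-!
A polyhedron with a transitive coded group and known vertex stabiliser.
-/

namespace Pool.Agent.P.MP_708877_co

open RealInnerProductSpace

def tb (m n : ℕ) : Bool := Nat.beq (Nat.land (Nat.shiftRight m n) (nat_lit 1)) (nat_lit 1)
def byt (m n : ℕ) : ℕ := Nat.land (Nat.shiftRight m (Nat.mul (nat_lit 8) n)) (nat_lit 255)
def byt2 (m a b : ℕ) : ℕ := byt m (Nat.add (Nat.mul (nat_lit 144) a) b)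
def cj (k g : ℕ) : ℕ := mt (mt k g) (iv k)
def cj' (k g : ℕ) : ℕ := mt (mt (iv k) g) k
/-- A property of all members of a mask. -/
def allIn (m : ℕ) (f : ℕ → Bool) : Bool := allLt 144 fun g => bif tb m g then f g else true

theorem tb_eq (m n : ℕ) : tb m n = m.testBit n := by
  rw [Nat.testBit, Nat.and_comm, Nat.and_one_is_mod]
  change Nat.beq ((m >>> n) &&& 1) 1 = _
  rw [Nat.and_one_is_mod]
  rcases Nat.mod_two_eq_zero_or_one (m >>> n) with h | h <;> rw [h] <;> rfl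

theorem tb_lt {m n : ℕ} (hm : Nat.blt m (2 ^ 144) = true) (h : tb m n = true) : n < 144 := by
  by_contra k
  rw [tb_eq, Nat.testBit_lt_two_pow (lt_of_lt_of_le (Nat.blt_eq.mp hm)
    (Nat.pow_le_pow_right (by norm_num) (by omega)))] at h
  exact absurd h (by simp)

theorem allIn_spec {m : ℕ} {f : ℕ → Bool} (h : allIn m f = true) {g : ℕ} (hg : g < 144)
    (k : tb m g = true) : f g = true := by
  simpa [k] using allLt_spec h hg

/-- A mask that is a subgroup of one of the two big groups. -/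
def grpOk (o : Bool) (G : ℕ) : Bool :=
  Nat.blt G (2 ^ 144) && tb G 0 &&
    allIn G fun a => big o a && tb G (iv a) && allIn G fun b => tb G (mt a b)

structure Grp (o : Bool) (G : ℕ) : Prop where
  big : ∀ {a}, tb G a = true → big o a = true
  zero : tb G 0 = true
  iv : ∀ {a}, tb G a = true → tb G (iv a) = true
  mt : ∀ {a b}, tb G a = true → tb G b = true → tb G (mt a b) = true

theorem grp_of_ok {o : Bool} {G : ℕ} (h : grpOk o G = true) : Grp o G := by
  simp only [grpOk, Bool.and_eq_true] at h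
  have k : ∀ {a}, tb G a = true → _ := fun {a} ha => allIn_spec h.2 (tb_lt h.1.1 ha) ha
  simp only [Bool.and_eq_true] at k
  exact ⟨fun ha => (k ha).1.1, h.1.2, fun ha => (k ha).1.2,
    fun ha hb => allIn_spec (k ha).2 (tb_lt h.1.1 hb) hb⟩

theorem Grp.lt {o : Bool} {G a : ℕ} (h : Grp o G) (ha : tb G a = true) : a < 144 :=
  big_lt (h.big ha)

theorem ac_cj {o : Bool} {k g : ℕ} (hk : big o k = true) (hg : big o g = true) (x : E3) :
    ac (cj k g) (ac k x) = ac k (ac g x) := by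
  rw [cj, ac_mt (big_mt hk hg) (big_iv hk), ac_mt hk hg, ac_iv hk]

theorem ac_cj' {o : Bool} {k g : ℕ} (hk : big o k = true) (hg : big o g = true) (x : E3) :
    ac k (ac (cj' k g) x) = ac g (ac k x) := by
  rw [cj', ac_mt (big_mt (big_iv hk) hg) hk, ac_mt (big_iv hk) hg, ac_iv' hk]

/-- A polyhedron with regular faces on which the coded group acts vertex-transitively. -/
structure Weak (G : ℕ) (P : Set (Set (Sym2 E3))) (v : E3) : Prop where
  good : Good P
  reg : ∀ F ∈ P, IsRegular F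
  inv : ∀ {g}, tb G g = true → image (ac g) P = P
  tr : ∀ x ∈ verts P, ∃ g, tb G g = true ∧ x = ac g v
  mem : v ∈ verts P

section Weak

variable {o : Bool} {G : ℕ} {P : Set (Set (Sym2 E3))} {v x y z w : E3} {g : ℕ}

theorem Weak.edge (h : Weak G P v) (hg : tb G g = true) (e : IsEdge P s(x, y)) :
    IsEdge P s(ac g x, ac g y) := by
  have := e.image (ac g)
  rwa [h.inv hg] at this

theorem Weak.co (h : Weak G P v) (hG : Grp o G) (hg : tb G g = true) (e : Co P x y z) :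
    Co P (ac g x) (ac g y) (ac g z) := by
  have := e.image (ac_inj (hG.big hg))
  rwa [h.inv hg] at this

theorem Weak.ch (h : Weak G P v) (hG : Grp o G) (hg : tb G g = true) (e : Ch P x y z w) :
    Ch P (ac g x) (ac g y) (ac g z) (ac g w) := by
  have := e.image (ac_inj (hG.big hg))
  rwa [h.inv hg] at this

theorem Weak.norm (h : Weak G P v) (hG : Grp o G) : ∀ x ∈ verts P, ‖x‖ = ‖v‖ := fun x hx => by
  obtain ⟨g, hg, rfl⟩ := h.tr x hx
  obtain ⟨L, hL⟩ := ac_iso (hG.big hg)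
  rw [← hL, L.norm_map]

theorem Weak.deg (h : Weak G P v) (hG : Grp o G) : Deg3 P := fun x hx => by
  obtain ⟨x₀, y₁, y₂, y₃, e1, e2, e3, n1, n2, n3⟩ := h.good.three
  obtain ⟨g, hg, rfl⟩ := h.tr x hx
  obtain ⟨k, hk, rfl⟩ := h.tr x₀ e1.left
  have m := hG.mt hg (hG.iv hk)
  have e : ac (mt g (iv k)) (ac k v) = ac g v := by
    rw [ac_mt (hG.big hg) (big_iv (hG.big hk)), ac_iv (hG.big hk)]
  have j := ac_inj (hG.big m)
  exact ⟨_, _, _, e ▸ h.edge m e1, e ▸ h.edge m e2, e ▸ h.edge m e3, j.ne n1, j.ne n2, j.ne n3⟩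

theorem Weak.ne_of_edge (h : Weak G P v) (e : IsEdge P s(x, y)) : y ≠ x := by
  rintro rfl
  obtain ⟨F, hF, he⟩ := e
  exact (h.good.poly F hF).not_diag he

theorem Weak.ne (h : Weak G P v) (hG : Grp o G) : v ≠ 0 := by
  rintro rfl
  obtain ⟨y, -, -, e, -⟩ := h.deg hG _ h.mem
  exact h.ne_of_edge e (by simpa using h.norm hG y e.right)

theorem Weak.conj (h : Weak G P v) (hG : Grp o G) {k : ℕ} (hk : big o k = true)
    (h1 : ∀ {g}, tb G g = true → tb G (cj k g) = true ∧ tb G (cj' k g) = true) :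
    Weak G (image (ac k) P) (ac k v) := by
  obtain ⟨L, hL⟩ := ac_iso hk
  refine ⟨h.good.image (ac_inj hk).injOn, ?_, fun {g} hg => ?_, ?_, ?_⟩
  · rintro _ ⟨F, hF, rfl⟩
    have := (h.reg F hF).sim one_ne_zero L.toIsometryEquiv
    simpa [hL] using this
  · rw [image_image]
    simp only [← ac_cj' hk (hG.big hg)]
    rw [← image_image (ac k), h.inv (h1 hg).2]
  · rw [verts_image]
    rintro _ ⟨x, hx, rfl⟩
    obtain ⟨g, hg, rfl⟩ := h.tr x hx
    exact ⟨_, (h1 hg).1, (ac_cj hk (hG.big hg) v).symm⟩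
  · rw [verts_image]
    exact ⟨v, h.mem, rfl⟩

end Weak

/-- The data of a search: group, stabiliser, normaliser, coset representatives, corner classes. -/
structure Ctx where
  o : Bool
  G : ℕ
  H : ℕ
  HL : List ℕ
  N : ℕ
  h0 : ℕ
  rpT : ℕ
  clT : ℕ
  wtT : ℕ
  mxT : ℕ
  raT : ℕ
  rbT : ℕ
  n : ℕ

def Ctx.rep (c : Ctx) (g : ℕ) : ℕ := byt c.rpT g
def Ctx.cl (c : Ctx) (a b : ℕ) : ℕ := byt2 c.clT a b
def Ctx.isR (c : Ctx) (a : ℕ) : Bool := Nat.beq (c.rep a) a && !tb c.H a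

def Ctx.pair (c : Ctx) (x y i : ℕ) : Bool :=
  (Nat.beq x (byt c.raT i) && Nat.beq y (byt c.rbT i)) ||
    (Nat.beq y (byt c.raT i) && Nat.beq x (byt c.rbT i))

def Ctx.wit (c : Ctx) (a b k : ℕ) : Bool :=
  tb c.N k && c.pair (c.rep (cj k a)) (c.rep (cj k b)) (c.cl a b) && Nat.blt (c.cl a b) c.n &&
    Nat.ble (c.cl a b) (byt c.mxT a)

def Ctx.ok1 (c : Ctx) : Bool :=
  c.HL.all (fun h => tb c.G h && tb c.H h) && tb c.G c.h0 && tb c.H c.h0 &&
    allIn c.G fun a => tb c.G (c.rep a) && tb c.H (mt (iv a) (c.rep a)) &&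
      allIn c.G fun b => !tb c.H (mt (iv a) b) || Nat.beq (c.rep a) (c.rep b)
def Ctx.ok2 (c : Ctx) : Bool :=
  Nat.blt c.N (2 ^ 144) && allIn c.N fun k => big c.o k && allIn c.G fun g =>
    tb c.G (cj k g) && tb c.G (cj' k g) && (tb c.H (cj' k g) == tb c.H g)
def Ctx.ok3 (c : Ctx) : Bool :=
  allIn c.G fun a => !c.isR a || allIn c.G fun b =>
    !c.isR b || Nat.beq a b || c.wit a b (byt2 c.wtT a b)

structure Ctx.Ok (c : Ctx) : Prop where
  grp : Grp c.o c.G
  hl : ∀ h ∈ c.HL, tb c.G h = true ∧ tb c.H h = true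
  h0 : tb c.G c.h0 = true ∧ tb c.H c.h0 = true
  r1 : ∀ {a}, tb c.G a = true → tb c.G (c.rep a) = true ∧ tb c.H (mt (iv a) (c.rep a)) = true
  r2 : ∀ {a b}, tb c.G a = true → tb c.G b = true → tb c.H (mt (iv a) b) = true →
    c.rep a = c.rep b
  nm : ∀ {k}, tb c.N k = true → big c.o k = true ∧ ∀ {g}, tb c.G g = true →
    (tb c.G (cj k g) = true ∧ tb c.G (cj' k g) = true) ∧ tb c.H (cj' k g) = tb c.H g
  wt : ∀ {a b}, tb c.G a = true → tb c.G b = true → c.isR a = true → c.isR b = true → a ≠ b →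
    ∃ k, c.wit a b k = true

theorem Ctx.ok_of {c : Ctx} (h0 : grpOk c.o c.G = true) (h1 : c.ok1 = true) (h2 : c.ok2 = true)
    (h3 : c.ok3 = true) : c.Ok := by
  have G := grp_of_ok h0
  simp only [Ctx.ok1, Bool.and_eq_true, List.all_eq_true] at h1
  simp only [Ctx.ok2, Bool.and_eq_true] at h2
  have k : ∀ {a}, tb c.G a = true → _ := fun {a} ha => allIn_spec h1.2 (G.lt ha) ha
  simp only [Bool.and_eq_true] at k
  refine ⟨G, h1.1.1.1, ⟨h1.1.1.2, h1.1.2⟩, fun ha => (k ha).1, fun ha hb e => ?_, fun hk => ?_,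
    fun {a b} ha hb ra rb ab => ?_⟩
  · simpa [e] using allIn_spec (k ha).2 (G.lt hb) hb
  · have := allIn_spec h2.2 (tb_lt h2.1 hk) hk
    simp only [Bool.and_eq_true] at this
    exact ⟨this.1, fun hg => by simpa using allIn_spec this.2 (G.lt hg) hg⟩
  · have := allIn_spec h3 (G.lt ha) ha
    simp only [ra, Bool.not_true, Bool.false_or] at this
    exact ⟨_, by simpa [rb, ab] using allIn_spec this (G.lt hb) hb⟩

/-- The stabiliser of the base vertex is known. -/
structure Setting (c : Ctx) (P : Set (Set (Sym2 E3))) (v : E3) : Prop extends Weak c.G P v where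
  stab : ∀ {g}, tb c.G g = true → (ac g v = v ↔ tb c.H g = true)

/-- A coset representative. -/
def Ctx.Rp (c : Ctx) (a : ℕ) : Prop := tb c.G a = true ∧ c.rep a = a

section Setting

variable {c : Ctx} {P : Set (Set (Sym2 E3))} {v : E3} {a b k : ℕ}

theorem Ctx.Ok.rp (hc : c.Ok) (ha : tb c.G a = true) : c.Rp (c.rep a) :=
  ⟨(hc.r1 ha).1, (hc.r2 ha (hc.r1 ha).1 (hc.r1 ha).2).symm⟩

theorem Setting.eq_iff (h : Setting c P v) (hc : c.Ok) (ha : tb c.G a = true)
    (hb : tb c.G b = true) : ac a v = ac b v ↔ tb c.H (mt (iv a) b) = true := by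
  have ba := hc.grp.big ha
  rw [← h.stab (hc.grp.mt (hc.grp.iv ha) hb), ac_mt (big_iv ba) (hc.grp.big hb)]
  constructor
  · intro e
    rw [← e, ac_iv ba]
  · intro e
    rw [← ac_iv' ba (ac b v), e]

theorem Setting.rep (h : Setting c P v) (hc : c.Ok) (ha : tb c.G a = true) :
    ac (c.rep a) v = ac a v := ((h.eq_iff hc ha (hc.r1 ha).1).2 (hc.r1 ha).2).symm

theorem Setting.rep_eq (h : Setting c P v) (hc : c.Ok) (ha : tb c.G a = true)
    (hb : tb c.G b = true) (e : ac a v = ac b v) : c.rep a = c.rep b :=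
  hc.r2 ha hb ((h.eq_iff hc ha hb).1 e)

theorem Setting.inj (h : Setting c P v) (hc : c.Ok) (ha : c.Rp a) (hb : c.Rp b)
    (e : ac a v = ac b v) : a = b := by
  rw [← ha.2, ← hb.2]
  exact h.rep_eq hc ha.1 hb.1 e

theorem Setting.of_rep (h : Setting c P v) (hc : c.Ok) (ha : tb c.G a = true)
    (hb : tb c.G b = true) (e : c.rep a = c.rep b) : ac a v = ac b v := by
  rw [← h.rep hc ha, e, h.rep hc hb]

theorem Setting.rep_mt (h : Setting c P v) (hc : c.Ok) (ha : tb c.G a = true)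
    (hb : tb c.G b = true) : ac (c.rep (mt a b)) v = ac a (ac b v) := by
  rw [h.rep hc (hc.grp.mt ha hb), ac_mt (hc.grp.big ha) (hc.grp.big hb)]

theorem Setting.vert (h : Setting c P v) (hc : c.Ok) {x : E3} (hx : x ∈ verts P) :
    ∃ u, c.Rp u ∧ x = ac u v := by
  obtain ⟨g, hg, rfl⟩ := h.tr x hx
  exact ⟨_, hc.rp hg, (h.rep hc hg).symm⟩

theorem Setting.isR (h : Setting c P v) (ha : c.Rp a) (e : IsEdge P s(v, ac a v)) :
    c.isR a = true := by
  have := h.ne_of_edge e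
  rw [Ne, h.stab ha.1] at this
  simp [Ctx.isR, ha.2, this]

theorem Setting.conj (h : Setting c P v) (hc : c.Ok) (hk : tb c.N k = true) :
    Setting c (image (ac k) P) (ac k v) := by
  obtain ⟨bk, nm⟩ := hc.nm hk
  refine ⟨h.toWeak.conj hc.grp bk fun hg => (nm hg).1, fun {g} hg => ?_⟩
  rw [← (nm hg).2, ← h.stab (nm hg).1.2, ← ac_cj' bk (hc.grp.big hg), (ac_inj bk).eq_iff]

theorem Setting.c_eq (h : Setting c P v) (hc : c.Ok) (e : IsEdge P s(v, ac a v))
    (e' : IsEdge P s(v, ac b v)) : ⟪v, ac a v⟫ = ⟪v, ac b v⟫ :=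
  h.good.c_eq h.reg (h.norm hc.grp) e e'

end Setting

end Pool.Agent.P.MP_708877_co
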