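import Pool.Agent.P.MP_708877_co.Defs

/-!
Orbit polyhedra of the tetrahedral, octahedral and icosahedral groups: definitions.
-/

namespace Pool.Agent.P.MP_708877_co

open Matrix

/-- The number `a + b √5`. -/
noncomputable def num (z : ℤ × ℤ) : ℝ := z.1 + z.2 * √5

/-- The value of a polynomial with coefficients `a + b √5`, constant term first. -/
noncomputable def ev (p : List (ℤ × ℤ)) (t : ℝ) : ℝ := p.foldr (fun z y => num z + t * y) 0

/-- A rotation of order five. -/
noncomputable def rot : Matrix (Fin 3) (Fin 3) ℝ :=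
  (1 / 4 : ℝ) • !![2, -1 - √5, √5 - 1; 1 + √5, √5 - 1, -2; √5 - 1, 2, 1 + √5]

/-- The orthogonal matrix with code `n`: codes below 120 form the full icosahedral group, codes
below 24 or from 120 to 143 the full octahedral group. -/
noncomputable def el (n : ℕ) : Matrix (Fin 3) (Fin 3) ℝ :=
  rot ^ (n / 24 % 5) * !![0, 1, 0; 1, 0, 0; 0, 0, 1] ^ (n / 120) *
    !![0, 0, 1; 1, 0, 0; 0, 1, 0] ^ (n / 8 % 3) *
    !![(-1) ^ (n / 4), 0, 0; 0, (-1) ^ (n / 2), 0; 0, 0, (-1) ^ n]

/-- A matrix applied to a point. -/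
noncomputable def act (M : Matrix (Fin 3) (Fin 3) ℝ) (v : E3) : E3 := WithLp.toLp 2 (M *ᵥ v.ofLp)

/-- All images, under the group generated by the codes `gens`, of the polygons whose vertices are
the images of `v` under the listed codes. -/
def model (gens : List ℕ) (faces : List (List ℕ)) (v : E3) : Set (Set (Sym2 E3)) :=
  {F | ∃ g ∈ Submonoid.closure (el '' {n | n ∈ gens}), ∃ l ∈ faces,
    F = edges fun i : ZMod l.length => act (g * el (l.getD i.val 0)) v}

/-- A base vertex `(x t, y t, z t)` with `m t = 0` and `q t ≠ 0` for `q` in `n`, and the list of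
generator and face data of the polyhedra with this base vertex. -/
structure Site where
  x : List (ℤ × ℤ)
  y : List (ℤ × ℤ)
  z : List (ℤ × ℤ)
  m : List (ℤ × ℤ)
  n : List (List (ℤ × ℤ))
  data : List (List ℕ × List (List ℕ))

/-- The polyhedra described by a site. -/
def Site.Has (s : Site) (P : Set (Set (Sym2 E3))) : Prop :=
  ∃ t : ℝ, ev s.m t = 0 ∧ (∀ q ∈ s.n, ev q t ≠ 0) ∧
    ∃ e ∈ s.data, P = model e.1 e.2 !₂[ev s.x t, ev s.y t, ev s.z t]

end Pool.Agent.P.MP_708877_co
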