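import Pool.Agent.P.MP_708877_co.Full.Group2

/-!
Finite groups of linear isometries of 3-space that preserve no line.
-/

namespace Pool.Agent.P.MP_708877_co

open MulAction Matrix

namespace Grp

theorem arith {N n₁ n₂ n₃ m₁ m₂ m₃ : ℕ} (a1 : m₁ * n₁ = N) (a2 : m₂ * n₂ = N)
    (a3 : m₃ * n₃ = N) (b1 : 2 ≤ n₁) (b2 : n₁ ≤ n₂) (b3 : n₂ ≤ n₃) (c : 3 ≤ m₃)
    (d : m₁ + m₂ + m₃ = N + 2) : (N = 12 ∧ m₃ = 4) ∨ (N = 24 ∧ m₃ = 6) ∨ (N = 60 ∧ m₃ = 12) := by
  have e1 : n₁ = 2 := by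
    by_contra h
    have : 3 ≤ n₁ := by omega
    nlinarith [Nat.mul_le_mul_left m₁ this, Nat.mul_le_mul_left m₂ (this.trans b2),
      Nat.mul_le_mul_left m₃ ((this.trans b2).trans b3)]
  subst e1
  have e2 : n₂ = 3 := by
    by_contra h
    rcases Nat.lt_or_ge n₂ 3 with h' | h'
    · obtain rfl : n₂ = 2 := by omega
      omega
    · have : 4 ≤ n₂ := by omega
      nlinarith [Nat.mul_le_mul_left m₂ this, Nat.mul_le_mul_left m₃ (this.trans b3)]
  subst e2
  have e3 : n₃ ≤ 5 := by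
    by_contra h
    have : 6 ≤ n₃ := by omega
    nlinarith [Nat.mul_le_mul_left m₃ this]
  interval_cases n₃ <;> omega

theorem big_orbit {G X : Type} [Group G] [Finite G] [MulAction G X] [Finite X]
    (h1 : ∀ g : G, g ≠ 1 → Nat.card (fixedBy X g) = 2) (h2 : ∀ x : X, ∃ g : G, g ≠ 1 ∧ g • x = x)
    (hN : 1 < Nat.card G) (hc : ∀ x : X, 2 < Nat.card (orbit G x)) :
    ∃ x : X, (Nat.card G = 12 ∧ Nat.card (orbit G x) = 4) ∨
      (Nat.card G = 24 ∧ Nat.card (orbit G x) = 6) ∨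
      (Nat.card G = 60 ∧ Nat.card (orbit G x) = 12) := by
  classical
  have := Fintype.ofFinite G
  have := Fintype.ofFinite X
  let Ω := Quotient (orbitRel G X)
  have B := sum_card_fixedBy_eq_card_orbits_mul_card_group G X
  have B1 : ∑ g : G, Fintype.card (fixedBy X g) + 2 = Fintype.card X + 2 * Fintype.card G := by
    rw [← Finset.add_sum_erase _ _ (Finset.mem_univ (1 : G)),
      Finset.sum_congr rfl (g := fun _ => 2) fun g hg => by
        rw [← Nat.card_eq_fintype_card, h1 g (Finset.mem_erase.1 hg).1]]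
    have : 0 < Fintype.card G := Fintype.card_pos
    simp [Finset.card_erase_of_mem]
    omega
  have B2 : Fintype.card X = ∑ ω : Ω, Nat.card (orbit G ω.out) := by
    rw [Fintype.card_congr (selfEquivSigmaOrbits G X), Fintype.card_sigma]
    simp only [Nat.card_eq_fintype_card]
    rfl
  have B3 : ∀ x : X, Nat.card (orbit G x) * Nat.card (stabilizer G x) = Fintype.card G := by
    intro x
    simp only [Nat.card_eq_fintype_card]
    exact card_orbit_mul_card_stabilizer_eq_card_group G x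
  have B4 : ∀ x : X, 2 ≤ Nat.card (stabilizer G x) := by
    intro x
    obtain ⟨g, a, b⟩ := h2 x
    have : Nontrivial (stabilizer G x) := ⟨⟨g, b⟩, 1, fun e => a (congrArg Subtype.val e)⟩
    exact Finite.one_lt_card
  rw [Nat.card_eq_fintype_card (α := G)] at hN ⊢
  set N := Fintype.card G
  have B5 : ∑ ω : Ω, 2 * Nat.card (orbit G ω.out) ≤ ∑ _ω : Ω, N :=
    Finset.sum_le_sum fun ω _ => by nlinarith [B3 ω.out, B4 ω.out]
  have B6 : ∑ _ω : Ω, 3 ≤ ∑ ω : Ω, Nat.card (orbit G ω.out) :=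
    Finset.sum_le_sum fun ω _ => hc _
  rw [← Finset.mul_sum] at B5
  simp only [Finset.sum_const, Finset.card_univ, smul_eq_mul] at B5 B6
  have B' : ∑ g : G, Fintype.card (fixedBy X g) = Fintype.card Ω * N := B
  rw [B', B2] at B1
  have k3 : Fintype.card Ω = 3 := by
    have : Fintype.card Ω < 4 := by
      by_contra h
      have : 4 ≤ Fintype.card Ω := by omega
      nlinarith [Nat.mul_le_mul_right N this]
    generalize Fintype.card Ω = k at *
    interval_cases k <;> omega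
  obtain ⟨a, b, c, ab, ac, bc, hu⟩ := Finset.card_eq_three.1 (k3 : (Finset.univ : Finset Ω).card = 3)
  rw [k3, hu, Finset.sum_insert (by simp [ab, ac]), Finset.sum_pair bc] at B1
  have key : ∀ x y z : X, Nat.card (orbit G x) + Nat.card (orbit G y) + Nat.card (orbit G z) =
      N + 2 → Nat.card (stabilizer G x) ≤ Nat.card (stabilizer G y) →
      Nat.card (stabilizer G y) ≤ Nat.card (stabilizer G z) →
      ∃ x : X, (N = 12 ∧ Nat.card (orbit G x) = 4) ∨ (N = 24 ∧ Nat.card (orbit G x) = 6) ∨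
        (N = 60 ∧ Nat.card (orbit G x) = 12) := fun x y z e l1 l2 =>
    ⟨z, arith (B3 x) (B3 y) (B3 z) (B4 x) l1 l2 (hc z) e⟩
  rcases le_total (Nat.card (stabilizer G a.out)) (Nat.card (stabilizer G b.out)) with l1 | l1 <;>
    rcases le_total (Nat.card (stabilizer G b.out)) (Nat.card (stabilizer G c.out)) with l2 | l2 <;>
    rcases le_total (Nat.card (stabilizer G a.out)) (Nat.card (stabilizer G c.out)) with l3 | l3
  · exact key _ _ _ (by omega) l1 l2
  · exact key _ _ _ (by omega) l1 l2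
  · exact key _ _ _ (by omega) l3 l2
  · exact key _ _ _ (by omega) l3 l1
  · exact key _ _ _ (by omega) l1 l3
  · exact key _ _ _ (by omega) l2 l3
  · exact key _ _ _ (by omega) l2 l1
  · exact key _ _ _ (by omega) l2 l1

theorem exists_conf (R : Subgroup (E3 ≃ₗᵢ[ℝ] E3)) [Finite R] (hd : ∀ g ∈ R, (mat g).det = 1)
    (hno : ∀ u : E3, (∀ g ∈ R, g u = u ∨ g u = -u) → u = 0) :
    ∃ Y : Finset E3, (Nat.card R = 12 ∧ Y.card = 4 ∧ Conf R Y 3) ∨
      (Nat.card R = 24 ∧ Y.card = 6 ∧ Conf R Y 4) ∨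
      (Nat.card R = 60 ∧ Y.card = 12 ∧ Conf R Y 5) := by
  classical
  have fR : (R : Set (E3 ≃ₗᵢ[ℝ] E3)).Finite := Set.toFinite _
  have cR : 1 < Nat.card R := by
    rw [Finite.one_lt_card_iff_nontrivial, Subgroup.nontrivial_iff_ne_bot]
    rintro rfl
    have := hno e3 fun g hg => Or.inl (by rw [Subgroup.mem_bot.1 hg]; rfl)
    simpa [e3] using congrArg (fun v : E3 => v 2) this
  let X := {x : E3 // ‖x‖ = 1 ∧ ∃ g ∈ R, g ≠ 1 ∧ g x = x}
  let _ : MulAction R X :=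
    { smul := fun k x => ⟨k.1 x.1, by rw [k.1.norm_map, x.2.1], by
        obtain ⟨g, a, b, c⟩ := x.2.2
        refine ⟨k.1 * g * k.1⁻¹, R.mul_mem (R.mul_mem k.2 a) (R.inv_mem k.2), fun e => b ?_, ?_⟩
        · rwa [mul_inv_eq_one, mul_eq_left] at e
        · simp [c]⟩
      one_smul := fun _ => rfl
      mul_smul := fun _ _ _ => rfl }
  have sm : ∀ (k : R) (x : X), (k • x).1 = k.1 x.1 := fun _ _ => rfl
  have : Finite X := by
    have : ({x : E3 | ‖x‖ = 1 ∧ ∃ g ∈ R, g ≠ 1 ∧ g x = x}).Finite := by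
      refine (fR.biUnion (t := fun g => {x : E3 | ‖x‖ = 1 ∧ g ≠ 1 ∧ g x = x}) ?_).subset ?_
      · intro g hg
        obtain ⟨x, a, b⟩ := exists_fixed (hd g hg)
        refine (Set.toFinite {x, -x}).subset ?_
        rintro y ⟨c, d, e⟩
        exact fixed_two (hd g hg) d a c b e
      · rintro x ⟨a, g, b, c, d⟩
        exact Set.mem_biUnion b ⟨a, c, d⟩
    exact this
  obtain ⟨x, hx⟩ := big_orbit (G := R) (X := X) (fun g hg => by
      have hg' : g.1 ≠ 1 := fun e => hg (Subtype.ext e)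
      obtain ⟨x, a, b⟩ := exists_fixed (hd _ g.2)
      have e : fixedBy X g = {⟨x, a, g.1, g.2, hg', b⟩,
          ⟨-x, by simpa using a, g.1, g.2, hg', by simp [b]⟩} := by
        ext y
        simp only [mem_fixedBy, Set.mem_insert_iff, Set.mem_singleton_iff]
        constructor
        · intro e
          exact (fixed_two (hd _ g.2) hg' a y.2.1 b (congrArg Subtype.val e)).imp Subtype.ext
            Subtype.ext
        · rintro (rfl | rfl)
          · exact Subtype.ext b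
          · exact Subtype.ext (by rw [sm]; simp [b])
      rw [e]
      exact Set.ncard_pair fun e => ne_neg a (congrArg Subtype.val e))
    (fun x => by
      obtain ⟨g, a, b, c⟩ := x.2.2
      exact ⟨⟨g, a⟩, fun e => b (congrArg Subtype.val e), Subtype.ext c⟩) cR
    (fun x => by
      by_contra hx
      have x0 : x.1 ≠ 0 := fun e => by simpa [e] using x.2.1
      have hc : ¬∀ g ∈ R, g x.1 = x.1 ∨ g x.1 = -x.1 := fun h => x0 (hno _ h)
      push Not at hc
      obtain ⟨k, kR, k1, k2⟩ := hc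
      have two : ∀ g : R, g • x = x ∨ g • x = (⟨k, kR⟩ : R) • x := by
        intro g
        by_contra h
        rw [not_or] at h
        exact hx ((Set.two_lt_ncard (Set.toFinite _)).2
          ⟨x, mem_orbit_self x, _, mem_orbit x ⟨k, kR⟩, _, mem_orbit x g,
            fun e => k1 (congrArg Subtype.val e).symm, Ne.symm h.1, Ne.symm h.2⟩)
      refine k2 (eq_neg_of_add_eq_zero_right (hno _ fun g hg => Or.inl ?_))
      have a : g x.1 = x.1 ∨ g x.1 = k x.1 :=
        (two ⟨g, hg⟩).imp (congrArg Subtype.val) (congrArg Subtype.val)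
      have b : g (k x.1) = x.1 ∨ g (k x.1) = k x.1 :=
        (two (⟨g, hg⟩ * ⟨k, kR⟩)).imp (congrArg Subtype.val) (congrArg Subtype.val)
      rw [map_add]
      rcases a with a | a <;> rcases b with b | b
      · exact absurd (g.injective (b.trans a.symm)) k1
      · rw [a, b]
      · rw [a, b, add_comm]
      · exact absurd (g.injective (b.trans a.symm)) k1)
  let Y : Finset E3 := (Set.toFinite (orbit R x)).toFinset.image Subtype.val
  have mY : ∀ y, y ∈ Y ↔ ∃ g ∈ R, g x.1 = y := fun y => by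
    simp only [Y, Finset.mem_image, Set.Finite.mem_toFinset]
    constructor
    · rintro ⟨_, ⟨g, rfl⟩, rfl⟩
      exact ⟨g.1, g.2, rfl⟩
    · rintro ⟨g, a, rfl⟩
      exact ⟨_, mem_orbit x ⟨g, a⟩, rfl⟩
  have cY : Y.card = Nat.card (orbit R x) := by
    rw [Finset.card_image_of_injective _ Subtype.val_injective, ← Set.ncard_eq_toFinset_card]
    rfl
  have conf : ∀ n, Nat.card (orbit R x) * n = Nat.card R → Conf R Y n := fun n hn =>
    { det := hd
      unit := fun y hy => by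
        obtain ⟨g, -, rfl⟩ := (mY y).1 hy
        rw [g.norm_map, x.2.1]
      inv := fun k hk y hy => by
        obtain ⟨g, a, rfl⟩ := (mY y).1 hy
        exact (mY _).2 ⟨k * g, R.mul_mem hk a, rfl⟩
      trans := fun y hy z hz => by
        obtain ⟨g, a, rfl⟩ := (mY y).1 hy
        obtain ⟨k, b, rfl⟩ := (mY z).1 hz
        exact ⟨k * g⁻¹, R.mul_mem b (R.inv_mem a), by simp⟩
      stab := fun y hy => by
        obtain ⟨g, a, rfl⟩ := (mY y).1 hy
        refine ⟨(stabilizer R ((⟨g, a⟩ : R) • x)).map R.subtype, Subgroup.map_subtype_le _, ?_, ?_⟩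
        · rw [Subgroup.card_map_of_injective R.subtype_injective]
          have e := (Nat.card_congr (orbitProdStabilizerEquivGroup R ((⟨g, a⟩ : R) • x)))
          rw [Nat.card_prod, orbit_smul, ← hn] at e
          have : Nonempty (orbit R x) := ⟨⟨x, mem_orbit_self x⟩⟩
          exact Nat.eq_of_mul_eq_mul_left Nat.card_pos e
        · rintro _ ⟨k, hk, rfl⟩
          exact congrArg Subtype.val (mem_stabilizer_iff.1 hk) }
  refine ⟨Y, ?_⟩
  rcases hx with ⟨a, b⟩ | ⟨a, b⟩ | ⟨a, b⟩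
  · exact Or.inl ⟨a, cY.trans b, conf 3 (by rw [a, b])⟩
  · exact Or.inr (Or.inl ⟨a, cY.trans b, conf 4 (by rw [a, b])⟩)
  · exact Or.inr (Or.inr ⟨a, cY.trans b, conf 5 (by rw [a, b])⟩)

theorem rot_class (R : Subgroup (E3 ≃ₗᵢ[ℝ] E3)) [Finite R] (hd : ∀ g ∈ R, (mat g).det = 1)
    (hno : ∀ u : E3, (∀ g ∈ R, g u = u ∨ g u = -u) → u = 0) :
    ∃ (φ : E3 ≃ₗᵢ[ℝ] E3) (o : Bool) (r : ℕ),
      ((o = true ∧ r = gT) ∨ (o = true ∧ r = gO) ∨ (o = false ∧ r = gI)) ∧
      (∀ g ∈ R, ∃ n, r.testBit n = true ∧ big o n = true ∧ ∀ x, φ (g x) = ac n (φ x)) ∧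
      ∀ n < 144, r.testBit n = true → ∃ g ∈ R, ∀ x, φ (g x) = ac n (φ x) := by
  obtain ⟨Y, ⟨a, b, C⟩ | ⟨a, b, C⟩ | ⟨a, b, C⟩⟩ := exists_conf R hd hno
  · obtain ⟨φ, h⟩ := codes_of_fits chkT (C.tetra b fun u hu => hno u fun g hg => Or.inl (hu g hg))
      R hd C.inv (a.trans cardT.symm)
    exact ⟨φ, _, _, Or.inl ⟨rfl, rfl⟩, h⟩
  · obtain ⟨φ, h⟩ := codes_of_fits chkO (C.octa b) R hd C.inv (a.trans cardO.symm)
    exact ⟨φ, _, _, Or.inr (Or.inl ⟨rfl, rfl⟩), h⟩
  · obtain ⟨φ, h⟩ := codes_of_fits chkI (C.icosa b) R hd C.inv (a.trans cardI.symm)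
    exact ⟨φ, _, _, Or.inr (Or.inr ⟨rfl, rfl⟩), h⟩

theorem rot_tab : allLt 144 (fun n => (!gT.testBit n || big true n) &&
    (!gO.testBit n || big true n) && (!gI.testBit n || big false n)) = true := by decide +kernel

end Grp

open Grp in
theorem group_class (Γ : Subgroup (E3 ≃ₗᵢ[ℝ] E3)) [Finite Γ] :
    (∃ u : E3, u ≠ 0 ∧ ∀ g ∈ Γ, g u = u ∨ g u = -u) ∨
    ∃ (φ : E3 ≃ₗᵢ[ℝ] E3) (m : ℕ), m ∈ [gT, gTd, gTh, gO, gOh, gI, gIh] ∧
      (∀ g ∈ Γ, ∃ n, m.testBit n = true ∧ ∀ x, φ (g x) = ac n (φ x)) ∧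
      ∀ n, m.testBit n = true → ∃ g ∈ Γ, ∀ x, φ (g x) = ac n (φ x) := by
  classical
  let ν : E3 ≃ₗᵢ[ℝ] E3 := LinearIsometryEquiv.neg ℝ
  have νν : ∀ g, ν * (ν * g) = g := fun g => by ext v : 1; simp [ν]
  have νc : ∀ g k, ν * (g * k) = g * (ν * k) := fun g k => by ext v : 1; simp [ν]
  have νi : ∀ g, ν * g⁻¹ = (ν * g)⁻¹ := fun g => by
    rw [eq_inv_iff_mul_eq_one, mul_assoc, ← νc, νν, inv_mul_cancel]
  have νd : ∀ g, (mat (ν * g)).det = -(mat g).det := fun g => by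
    rw [mat_mul, mat_neg, neg_mul, one_mul, det_neg]
    norm_num
  let R : Subgroup (E3 ≃ₗᵢ[ℝ] E3) :=
    { carrier := {g | (mat g).det = 1 ∧ (g ∈ Γ ∨ ν * g ∈ Γ)}
      one_mem' := ⟨by rw [mat_one, det_one], Or.inl Γ.one_mem⟩
      mul_mem' := by
        rintro g k ⟨a1, a2⟩ ⟨b1, b2⟩
        refine ⟨by rw [mat_mul, det_mul, a1, b1, one_mul], ?_⟩
        rcases a2 with a2 | a2 <;> rcases b2 with b2 | b2
        · exact Or.inl (Γ.mul_mem a2 b2)
        · exact Or.inr (by rw [νc]; exact Γ.mul_mem a2 b2)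
        · exact Or.inr (by rw [← mul_assoc]; exact Γ.mul_mem a2 b2)
        · left
          have := Γ.mul_mem a2 b2
          rwa [mul_assoc, ← νc, νν] at this
      inv_mem' := by
        rintro g ⟨a1, a2⟩
        refine ⟨?_, a2.imp Γ.inv_mem fun a => by rw [νi]; exact Γ.inv_mem a⟩
        have := congrArg Matrix.det (mat_mul g g⁻¹)
        rwa [mul_inv_cancel, mat_one, det_one, det_mul, a1, one_mul, eq_comm] at this }
  have fΓ : (Γ : Set (E3 ≃ₗᵢ[ℝ] E3)).Finite := Set.toFinite _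
  have fR : (R : Set (E3 ≃ₗᵢ[ℝ] E3)).Finite := by
    refine (fΓ.union (fΓ.image fun g => ν * g)).subset ?_
    rintro g ⟨-, a | a⟩
    exacts [Or.inl a, Or.inr ⟨_, a, νν g⟩]
  have sub : ∀ g ∈ Γ, g ∈ R ∨ ν * g ∈ R := fun g hg =>
    (det_mat g).imp (fun a => ⟨a, Or.inl hg⟩)
      fun a => ⟨by rw [νd, a, neg_neg], Or.inr (by rwa [νν])⟩
  have : Finite R := fR
  by_cases hno : ∀ u : E3, (∀ g ∈ R, g u = u ∨ g u = -u) → u = 0
  swap
  · left
    rw [not_forall] at hno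
    obtain ⟨u, hu⟩ := hno
    rw [Classical.not_imp] at hu
    refine ⟨u, hu.2, fun g hg => ?_⟩
    rcases sub g hg with a | a
    · exact hu.1 g a
    · rcases hu.1 _ a with e | e
      · exact Or.inr (neg_eq_iff_eq_neg.1 e)
      · exact Or.inl (neg_injective e)
  right
  obtain ⟨φ, o, r, hr, h1, h2⟩ := rot_class R (fun g hg => hg.1) hno
  have rb : ∀ n < 144, r.testBit n = true → big o n = true := fun n hn e => by
    have := allLt_spec rot_tab hn
    simp only [Bool.and_eq_true, Bool.or_eq_true, Bool.not_eq_eq_eq_not, Bool.not_true] at this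
    rcases hr with ⟨rfl, rfl⟩ | ⟨rfl, rfl⟩ | ⟨rfl, rfl⟩
    · exact this.1.1.resolve_left (by simp [e])
    · exact this.1.2.resolve_left (by simp [e])
    · exact this.2.resolve_left (by simp [e])
  have ng : ∀ {g : E3 ≃ₗᵢ[ℝ] E3} {n : ℕ}, big o n = true → (∀ x, φ (g x) = ac n (φ x)) →
      ∀ x, φ ((ν * g) x) = ac (mt 7 n) (φ x) := fun {g n} hn e x => by
    rw [ac_mt (big_seven o) hn, ac_seven, ← e]
    simp [ν]
  have cl : Cl o fun n => ∃ g ∈ Γ, ∀ x, φ (g x) = ac n (φ x) :=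
    { zero := ⟨1, Γ.one_mem, fun x => by rw [ac_zero]; rfl⟩
      mul := by
        rintro a b ha hb ⟨g, g1, g2⟩ ⟨k, k1, k2⟩
        exact ⟨g * k, Γ.mul_mem g1 k1, fun x => by rw [ac_mt ha hb, ← k2, ← g2]; rfl⟩
      inv := by
        rintro a ha ⟨g, g1, g2⟩
        refine ⟨g⁻¹, Γ.inv_mem g1, fun x => ?_⟩
        rw [← ac_iv ha (φ (g⁻¹ x)), ← g2]
        simp }
  obtain ⟨m, hm, m1, m2⟩ := cl.mask hr fun n hn e => by
    obtain ⟨g, ⟨-, a | a⟩, b⟩ := h2 n hn e
    · exact Or.inl ⟨g, a, b⟩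
    · exact Or.inr ⟨_, a, ng (rb n hn e) b⟩
  refine ⟨φ, m, hm, fun g hg => ?_, fun n hn => m2 n (mask_lt hm hn) hn⟩
  rcases sub g hg with a | a
  · obtain ⟨n, n1, n2, n3⟩ := h1 g a
    exact ⟨n, (m1 n n2 n1).1 ⟨g, hg, n3⟩, n3⟩
  · obtain ⟨n, n1, n2, n3⟩ := h1 _ a
    have := ng n2 n3
    rw [νν] at this
    exact ⟨_, (m1 n n2 n1).2 ⟨g, hg, this⟩, this⟩

end Pool.Agent.P.MP_708877_co
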