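import Pool.Agent.P.MP_708877_co.Full.Masks
import Pool.Agent.P.MP_708877_co.Pole

/-!
Rotations that permute a standard configuration are coded matrices.
-/

namespace Pool.Agent.P.MP_708877_co.Grp

open Matrix RealInnerProductSpace

/-- The point with exact coordinates `l`. -/
noncomputable def vec (l : L3) : E3 := !₂[num l.x, num l.y, num l.z]

def mdet : M3 → Z5
  | ⟨⟨a, b, c⟩, ⟨d, e, f⟩, ⟨g, h, i⟩⟩ =>
    za (zs (zm a (zs (zm e i) (zm f h))) (zm b (zs (zm d i) (zm f g)))) (zm c (zs (zm d h) (zm e g)))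

theorem num_mdet (M : M3) : num (mdet M) = M.mat.det := by
  simp [mdet, M3.mat, det_fin_three]
  ring

theorem ze_of {a b : Z5} (h : num a = num b) : ze a b = true := by
  rw [ze, zz_iff]
  exact num_eq_zero (by rw [num_zs, h, sub_self])

theorem eq_of_mat {A B : M3} (h : A.mat = B.mat) : A.eq B = true := by
  have e := fun i j => congrFun (congrFun h i) j
  have e00 := e 0 0; have e01 := e 0 1; have e02 := e 0 2
  have e10 := e 1 0; have e11 := e 1 1; have e12 := e 1 2
  have e20 := e 2 0; have e21 := e 2 1; have e22 := e 2 2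
  simp only [M3.mat, of_apply, cons_val', cons_val_zero, cons_val_one, cons_val_fin_one,
    cons_val] at e00 e01 e02 e10 e11 e12 e20 e21 e22
  simp only [M3.eq, L3.eq, Bool.and_eq_true]
  exact ⟨⟨⟨⟨ze_of e00, ze_of e01⟩, ze_of e02⟩, ⟨ze_of e10, ze_of e11⟩, ze_of e12⟩,
    ⟨ze_of e20, ze_of e21⟩, ze_of e22⟩

def anyLt (n : ℕ) (f : ℕ → Bool) : Bool :=
  match n with
  | 0 => false
  | k + 1 => bif f k then true else anyLt k f

theorem anyLt_spec {n : ℕ} {f : ℕ → Bool} (h : anyLt n f = true) : ∃ k, f k = true := by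
  induction n with
  | zero => simp [anyLt] at h
  | succ n ih =>
    unfold anyLt at h
    cases e : f n
    · exact ih (by simpa [e] using h)
    · exact ⟨n, e⟩

/-- Every frame in `Y` congruent to `B` is the image of `B` under a code of `r`. -/
def chk (o : Bool) (r : ℕ) (Y : List L3) (B : M3) : Bool :=
  !zz (mdet B) && Y.all fun a => Y.all fun b => Y.all fun c =>
    bif ((M3.mk a b c).mul (M3.mk a b c).tp).eq (B.mul B.tp) && ze (mdet ⟨a, b, c⟩) (mdet B) then
      anyLt 144 fun n => bif r.testBit n && big o n then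
        (B.mul (EL n).tp).eq ((M3.mk a b c).sm (4, 0)) else false
    else true

theorem code_of_chk {o : Bool} {r : ℕ} {Y : List L3} {B : M3} (h : chk o r Y B = true)
    {g : E3 ≃ₗᵢ[ℝ] E3} (hg : (mat g).det = 1) {a b c : L3} (ha : a ∈ Y) (hb : b ∈ Y) (hc : c ∈ Y)
    (ga : g (vec B.a) = vec a) (gb : g (vec B.b) = vec b) (gc : g (vec B.c) = vec c) :
    ∃ n, r.testBit n = true ∧ big o n = true ∧ ∀ x, g x = ac n x := by
  simp only [chk, Bool.and_eq_true, List.all_eq_true, Bool.not_eq_eq_eq_not, Bool.not_true] at h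
  obtain ⟨h0, h⟩ := h
  have h1 := h a ha b hb c hc
  have key : B.mat * (mat g)ᵀ = (M3.mk a b c).mat := by
    have e1 := mat_mulVec g (vec B.a)
    have e2 := mat_mulVec g (vec B.b)
    have e3 := mat_mulVec g (vec B.c)
    rw [ga] at e1
    rw [gb] at e2
    rw [gc] at e3
    ext i j
    have f1 := congrFun e1 j
    have f2 := congrFun e2 j
    have f3 := congrFun e3 j
    simp only [vec, mulVec, dotProduct, Fin.sum_univ_three] at f1 f2 f3
    fin_cases i <;> fin_cases j <;>
      simp [M3.mat, Matrix.mul_apply, Fin.sum_univ_three] at f1 f2 f3 ⊢ <;> linarith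
  have o2 : (mat g)ᵀ * mat g = 1 := mul_eq_one_comm.1 (mat_orth g)
  have k1 : ((M3.mk a b c).mul (M3.mk a b c).tp).eq (B.mul B.tp) = true := by
    apply eq_of_mat
    rw [mat_mul', mat_mul', mat_tp, mat_tp, ← key, transpose_mul, transpose_transpose,
      Matrix.mul_assoc, ← Matrix.mul_assoc _ (mat g), o2, Matrix.one_mul]
  have k2 : ze (mdet ⟨a, b, c⟩) (mdet B) = true := by
    apply ze_of
    rw [num_mdet, num_mdet, ← key, det_mul, det_transpose, hg, mul_one]
  rw [k1, k2] at h1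
  obtain ⟨n, hn⟩ := anyLt_spec h1
  cases e : (r.testBit n && big o n)
  · simp [e] at hn
  rw [e, cond_true] at hn
  rw [Bool.and_eq_true] at e
  refine ⟨n, e.1, e.2, fun x => ?_⟩
  have k3 := mat_eq hn
  rw [mat_mul', mat_tp, mat_sm, mat_EL (big_lt e.2), ← key, num_int, transpose_smul,
    Matrix.mul_smul] at k3
  have k4 : B.mat * (el n)ᵀ = B.mat * (mat g)ᵀ :=
    smul_right_injective _ (by norm_num : (4 : ℝ) ≠ 0) (by simpa using k3)
  have dB : IsUnit B.mat.det := by
    rw [← num_mdet]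
    exact (num_ne_zero h0).isUnit
  have k5 : el n = mat g := by
    have := congrArg (fun M => B.mat⁻¹ * M) k4
    simp only [← Matrix.mul_assoc, nonsing_inv_mul _ dB, Matrix.one_mul] at this
    exact transpose_injective this
  apply WithLp.ofLp_injective 2
  rw [← mat_mulVec, ← k5]
  rfl

def yT : List L3 := [⟨(1, 0), (1, 0), (1, 0)⟩, ⟨(1, 0), (-1, 0), (-1, 0)⟩,
  ⟨(-1, 0), (1, 0), (-1, 0)⟩, ⟨(-1, 0), (-1, 0), (1, 0)⟩]
def bT : M3 := ⟨⟨(1, 0), (1, 0), (1, 0)⟩, ⟨(1, 0), (-1, 0), (-1, 0)⟩, ⟨(-1, 0), (1, 0), (-1, 0)⟩⟩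
def yO : List L3 := [⟨(1, 0), (0, 0), (0, 0)⟩, ⟨(0, 0), (1, 0), (0, 0)⟩, ⟨(0, 0), (0, 0), (1, 0)⟩,
  ⟨(-1, 0), (0, 0), (0, 0)⟩, ⟨(0, 0), (-1, 0), (0, 0)⟩, ⟨(0, 0), (0, 0), (-1, 0)⟩]
def yI : List L3 := [⟨(2, 0), (0, 0), (1, 1)⟩, ⟨(1, 1), (2, 0), (0, 0)⟩, ⟨(0, 0), (1, 1), (2, 0)⟩,
  ⟨(-2, 0), (0, 0), (1, 1)⟩, ⟨(0, 0), (-1, -1), (2, 0)⟩, ⟨(1, 1), (-2, 0), (0, 0)⟩,
  ⟨(-2, 0), (0, 0), (-1, -1)⟩, ⟨(-1, -1), (-2, 0), (0, 0)⟩, ⟨(0, 0), (-1, -1), (-2, 0)⟩,
  ⟨(2, 0), (0, 0), (-1, -1)⟩, ⟨(0, 0), (1, 1), (-2, 0)⟩, ⟨(-1, -1), (2, 0), (0, 0)⟩]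
def bI : M3 := ⟨⟨(2, 0), (0, 0), (1, 1)⟩, ⟨(1, 1), (2, 0), (0, 0)⟩, ⟨(0, 0), (1, 1), (2, 0)⟩⟩

theorem chkT : chk true gT yT bT = true := by decide +kernel
theorem chkO : chk true gO yO mI = true := by decide +kernel
theorem chkI : chk false gI yI bI = true := by decide +kernel

/-- A finite set `Y` of vectors is congruent, up to scale, to a subset of `Y0` containing `B`. -/
def Fits (Y : Finset E3) (Y0 : List L3) (B : M3) : Prop :=
  ∃ (φ : E3 ≃ₗᵢ[ℝ] E3) (σ : ℝ), (∀ y ∈ Y, ∃ l ∈ Y0, φ (σ • y) = vec l) ∧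
    (∃ y ∈ Y, φ (σ • y) = vec B.a) ∧ (∃ y ∈ Y, φ (σ • y) = vec B.b) ∧
    ∃ y ∈ Y, φ (σ • y) = vec B.c

theorem codes_of_fits {o : Bool} {r : ℕ} {Y0 : List L3} {B : M3} (h : chk o r Y0 B = true)
    {Y : Finset E3} (hY : Fits Y Y0 B) (R : Subgroup (E3 ≃ₗᵢ[ℝ] E3))
    (hd : ∀ g ∈ R, (mat g).det = 1) (hi : ∀ g ∈ R, ∀ y ∈ Y, g y ∈ Y)
    (hN : Nat.card R = ((Finset.range 144).filter fun n => r.testBit n = true).card) [Finite R] :
    ∃ φ : E3 ≃ₗᵢ[ℝ] E3,
      (∀ g ∈ R, ∃ n, r.testBit n = true ∧ big o n = true ∧ ∀ x, φ (g x) = ac n (φ x)) ∧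
      ∀ n < 144, r.testBit n = true → ∃ g ∈ R, ∀ x, φ (g x) = ac n (φ x) := by
  obtain ⟨φ, σ, h1, ⟨a, aY, ha⟩, ⟨b, bY, hb⟩, c, cY, hc⟩ := hY
  have k : ∀ g ∈ R, ∃ n, r.testBit n = true ∧ big o n = true ∧ ∀ x, φ (g x) = ac n (φ x) := by
    intro g hg
    have d : (mat (φ * g * φ⁻¹)).det = 1 := by
      have := congrArg Matrix.det (mat_mul φ φ⁻¹)
      rw [mul_inv_cancel, mat_one, det_one, det_mul] at this
      rw [mat_mul, mat_mul, det_mul, det_mul, hd g hg, mul_one, ← this]
    obtain ⟨a', aY', ha'⟩ := h1 _ (hi g hg a aY)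
    obtain ⟨b', bY', hb'⟩ := h1 _ (hi g hg b bY)
    obtain ⟨c', cY', hc'⟩ := h1 _ (hi g hg c cY)
    obtain ⟨n, n1, n2, n3⟩ := code_of_chk h d aY' bY' cY'
      (by rw [← ha, ← ha']; simp) (by rw [← hb, ← hb']; simp) (by rw [← hc, ← hc']; simp)
    exact ⟨n, n1, n2, fun x => by simpa using n3 (φ x)⟩
  refine ⟨φ, k, fun n hn rn => ?_⟩
  choose f f1 f2 f3 using k
  let F : R → ((Finset.range 144).filter fun n => r.testBit n = true) := fun g =>
    ⟨f g.1 g.2, Finset.mem_filter.2 ⟨Finset.mem_range.2 (big_lt (f2 g.1 g.2)), f1 g.1 g.2⟩⟩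
  have inj : Function.Injective F := fun g g' e => by
    have e' : f g.1 g.2 = f g'.1 g'.2 := congrArg Subtype.val e
    apply Subtype.ext
    ext x : 1
    apply φ.injective
    rw [f3 g.1 g.2, f3 g'.1 g'.2, e']
  have sur := (Function.Injective.bijective_of_nat_card_le inj (by
    rw [hN, Nat.card_eq_fintype_card, Fintype.card_coe])).2
  obtain ⟨g, hg⟩ := sur ⟨n, Finset.mem_filter.2 ⟨Finset.mem_range.2 hn, rn⟩⟩
  have e : f g.1 g.2 = n := congrArg Subtype.val hg
  exact ⟨g.1, g.2, fun x => by rw [f3 g.1 g.2, e]⟩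

theorem cardT : ((Finset.range 144).filter fun n => gT.testBit n = true).card = 12 := by
  decide +kernel
theorem cardO : ((Finset.range 144).filter fun n => gO.testBit n = true).card = 24 := by
  decide +kernel
theorem cardI : ((Finset.range 144).filter fun n => gI.testBit n = true).card = 60 := by
  decide +kernel

def pw (a : ℕ) : ℕ → ℕ
  | 0 => 0
  | k + 1 => mt (pw a k) a

section
variable {o : Bool} {P : ℕ → Prop}

/-- A set of codes closed under the group operations. -/
structure Cl (o : Bool) (P : ℕ → Prop) : Prop where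
  zero : P 0
  mul : ∀ a b, big o a = true → big o b = true → P a → P b → P (mt a b)
  inv : ∀ a, big o a = true → P a → P (iv a)

theorem big_seven (o : Bool) : big o 7 = true := by cases o <;> rfl

theorem seven_tab (o : Bool) : allLt 144 (fun n => !big o n ||
    (Nat.beq (mt 7 (mt 7 n)) n && Nat.beq (mt (mt 7 n) (iv n)) 7)) = true := by
  cases o <;> decide +kernel

theorem seven_spec {n : ℕ} (h : big o n = true) : mt 7 (mt 7 n) = n ∧ mt (mt 7 n) (iv n) = 7 := by
  simpa [h] using allLt_spec (seven_tab o) (big_lt h)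

theorem Cl.pw (h : Cl o P) {a : ℕ} (ha : big o a = true) (pa : P a) (k : ℕ) :
    big o (pw a k) = true ∧ P (pw a k) := by
  induction k with
  | zero => exact ⟨big_zero o, h.zero⟩
  | succ k ih => exact ⟨big_mt ih.1 ha, h.mul _ _ ih.1 ha ih.2 pa⟩

theorem Cl.of_neg (h : Cl o P) (p7 : P 7) {n : ℕ} (hn : big o n = true) (pn : P (mt 7 n)) :
    P n := by
  rw [← (seven_spec hn).1]
  exact h.mul _ _ (big_seven o) (big_mt (big_seven o) hn) p7 pn

theorem Cl.seven (h : Cl o P) {n : ℕ} (hn : big o n = true) (a : P n) (b : P (mt 7 n)) : P 7 := by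
  rw [← (seven_spec hn).2]
  exact h.mul _ _ (big_mt (big_seven o) hn) (big_iv hn) b (h.inv _ hn a)

/-- The code `a` lies in `r` and has odd order. -/
def odd (o : Bool) (r a : ℕ) : Bool := r.testBit a && big o a && Nat.beq (pw (mt 7 a) 15) 7

theorem Cl.odd (h : Cl o P) {r : ℕ} (h2 : ∀ n < 144, r.testBit n = true → P n ∨ P (mt 7 n))
    {a : ℕ} (ha : odd o r a = true) : P a := by
  simp only [Grp.odd, Bool.and_eq_true, Nat.beq_eq] at ha
  obtain ⟨⟨a1, a2⟩, a3⟩ := ha
  refine (h2 a (big_lt a2) a1).elim id fun e => h.of_neg ?_ a2 e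
  rw [← a3]
  exact (h.pw (big_mt (big_seven o) a2) e 15).2

/-- Every code of `m` is a product of two codes of odd order in `r`. -/
def twoOdd (o : Bool) (r m : ℕ) : Bool := allLt 144 fun n => !m.testBit n ||
  anyLt 144 fun a => bif odd o r a then odd o r (mt (iv a) n) && Nat.beq (mt a (mt (iv a) n)) n
    else false

theorem Cl.twoOdd (h : Cl o P) {r m : ℕ} (h2 : ∀ n < 144, r.testBit n = true → P n ∨ P (mt 7 n))
    (hm : twoOdd o r m = true) {n : ℕ} (hn : n < 144) (mn : m.testBit n = true) : P n := by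
  have := allLt_spec hm hn
  simp only [mn, Bool.not_true, Bool.false_or] at this
  obtain ⟨a, ha⟩ := anyLt_spec this
  cases e : Grp.odd o r a
  · simp [e] at ha
  simp only [e, cond_true, Bool.and_eq_true, Nat.beq_eq] at ha
  rw [← ha.2]
  have b : ∀ {c}, Grp.odd o r c = true → big o c = true := fun {c} hc => by
    simp only [Grp.odd, Bool.and_eq_true] at hc
    exact hc.1.2
  exact h.mul _ _ (b e) (b ha.1) (h.odd h2 e) (h.odd h2 ha.1)

theorem twoT : twoOdd true gT gT = true := by decide +kernel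
theorem twoO : twoOdd true gO gT = true := by decide +kernel
theorem twoI : twoOdd false gI gI = true := by decide +kernel

/-- Every code of `m` lies in `gT` or in `gT` times `s`. -/
def coset (m s : ℕ) : Bool := allLt 144 fun n => !m.testBit n || gT.testBit n ||
  (gT.testBit (mt n (iv s)) && big true n && Nat.beq (mt (mt n (iv s)) s) n)

theorem Cl.coset (h : Cl true P) {m s : ℕ} (hs : big true s = true) (ps : P s)
    (hT : ∀ n < 144, gT.testBit n = true → P n)
    (hm : coset m s = true) {n : ℕ} (hn : n < 144) (mn : m.testBit n = true) : P n := by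
  have := allLt_spec hm hn
  simp only [mn, Bool.not_true, Bool.false_or, Bool.or_eq_true, Bool.and_eq_true,
    Nat.beq_eq] at this
  rcases this with a | ⟨⟨a, b⟩, c⟩
  · exact hT n hn a
  · have d := big_mt b (big_iv hs)
    rw [← c]
    exact h.mul _ _ d hs (hT _ (big_lt d) a) ps

theorem cosetO : coset gO 127 = true := by decide +kernel
theorem cosetTd : coset gTd 120 = true := by decide +kernel

/-- `m` is the union of `r` and its negative. -/
def full (o : Bool) (r m : ℕ) : Bool := allLt 144 fun n =>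
  (!r.testBit n || (m.testBit n && m.testBit (mt 7 n))) &&
    (!m.testBit n || (big o n && (r.testBit n || r.testBit (mt 7 n))))

/-- `m` contains every code of `r` up to sign. -/
def half (r m : ℕ) : Bool := allLt 144 fun n => !r.testBit n || m.testBit n || m.testBit (mt 7 n)

theorem fullT : full true gT gTh = true := by decide +kernel
theorem fullO : full true gO gOh = true := by decide +kernel
theorem fullI : full false gI gIh = true := by decide +kernel
theorem halfT : half gT gT = true := by decide +kernel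
theorem halfO : half gO gO = true := by decide +kernel
theorem halfTd : half gO gTd = true := by decide +kernel
theorem halfI : half gI gI = true := by decide +kernel

theorem Cl.full (h : Cl o P) {r m : ℕ} (h2 : ∀ n < 144, r.testBit n = true → P n ∨ P (mt 7 n))
    (p7 : P 7) (hm : full o r m = true) :
    (∀ n, big o n = true → r.testBit n = true → (P n → m.testBit n = true) ∧
      (P (mt 7 n) → m.testBit (mt 7 n) = true)) ∧ ∀ n < 144, m.testBit n = true → P n := by
  constructor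
  · intro n hn rn
    have := allLt_spec hm (big_lt hn)
    simp only [rn, Bool.not_true, Bool.false_or, Bool.and_eq_true] at this
    exact ⟨fun _ => this.1.1, fun _ => this.1.2⟩
  · intro n hn mn
    have := allLt_spec hm hn
    simp only [mn, Bool.not_true, Bool.false_or, Bool.and_eq_true, Bool.or_eq_true] at this
    obtain ⟨-, b, c | c⟩ := this
    · exact (h2 n hn c).elim id (h.of_neg p7 b)
    · have d := big_mt (big_seven o) b
      rcases h2 _ (big_lt d) c with e | e
      · exact h.of_neg p7 b e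
      · rwa [(seven_spec b).1] at e

theorem Cl.half (h : Cl o P) {r m : ℕ} (p7 : ¬P 7) (hm : half r m = true)
    (hP : ∀ n < 144, m.testBit n = true → P n) :
    (∀ n, big o n = true → r.testBit n = true → (P n → m.testBit n = true) ∧
      (P (mt 7 n) → m.testBit (mt 7 n) = true)) ∧ ∀ n < 144, m.testBit n = true → P n := by
  refine ⟨fun n hn rn => ?_, hP⟩
  have := allLt_spec hm (big_lt hn)
  simp only [rn, Bool.not_true, Bool.false_or, Bool.or_eq_true] at this
  have d := big_mt (big_seven o) hn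
  rcases this with a | a
  · exact ⟨fun _ => a, fun e => absurd (h.seven hn (hP n (big_lt hn) a) e) p7⟩
  · exact ⟨fun e => absurd (h.seven hn e (hP _ (big_lt d) a)) p7, fun _ => a⟩

theorem Cl.mask (h : Cl o P) {r : ℕ} (hr : (o = true ∧ r = gT) ∨ (o = true ∧ r = gO) ∨
    (o = false ∧ r = gI)) (h2 : ∀ n < 144, r.testBit n = true → P n ∨ P (mt 7 n)) :
    ∃ m ∈ [gT, gTd, gTh, gO, gOh, gI, gIh],
      (∀ n, big o n = true → r.testBit n = true → (P n → m.testBit n = true) ∧
        (P (mt 7 n) → m.testBit (mt 7 n) = true)) ∧ ∀ n < 144, m.testBit n = true → P n := by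
  by_cases p7 : P 7
  · rcases hr with ⟨rfl, rfl⟩ | ⟨rfl, rfl⟩ | ⟨rfl, rfl⟩
    · exact ⟨gTh, by simp, h.full h2 p7 fullT⟩
    · exact ⟨gOh, by simp, h.full h2 p7 fullO⟩
    · exact ⟨gIh, by simp, h.full h2 p7 fullI⟩
  · rcases hr with ⟨rfl, rfl⟩ | ⟨rfl, rfl⟩ | ⟨rfl, rfl⟩
    · exact ⟨gT, by simp, h.half p7 halfT fun n => h.twoOdd h2 twoT⟩
    · have hT : ∀ n < 144, gT.testBit n = true → P n := fun n => h.twoOdd h2 twoO
      rcases h2 127 (by norm_num) (by decide +kernel) with a | a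
      · exact ⟨gO, by simp, h.half p7 halfO fun n => h.coset rfl a hT cosetO⟩
      · have e : mt 7 127 = 120 := by decide +kernel
        rw [e] at a
        exact ⟨gTd, by simp, h.half p7 halfTd fun n => h.coset rfl a hT cosetTd⟩
    · exact ⟨gI, by simp, h.half p7 halfI fun n => h.twoOdd h2 twoI⟩

end

theorem mask_lt {m n : ℕ} (hm : m ∈ [gT, gTd, gTh, gO, gOh, gI, gIh]) (h : m.testBit n = true) :
    n < 144 := by
  have : m < 2 ^ 144 := by
    simp only [List.mem_cons, List.not_mem_nil, or_false] at hm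
    rcases hm with rfl | rfl | rfl | rfl | rfl | rfl | rfl <;> decide +kernel
  by_contra hc
  rw [Nat.testBit_lt_two_pow (this.trans_le (Nat.pow_le_pow_right (by norm_num) (by omega)))] at h
  exact absurd h (by simp)

end Pool.Agent.P.MP_708877_co.Grp
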