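import Pool.Agent.P.MP_708877_co.Full.Group1

/-!
Orbits of poles of a finite rotation group: tetrahedron, octahedron, icosahedron.
-/

namespace Pool.Agent.P.MP_708877_co.Grp

open Matrix RealInnerProductSpace

theorem exists_orb (S : Subgroup (E3 ≃ₗᵢ[ℝ] E3)) [Finite S] {y : E3}
    (free : ∀ g ∈ S, g y = y → g = 1) :
    ∃ O : Finset E3, O.card = Nat.card S ∧ ∀ z, z ∈ O ↔ ∃ g ∈ S, g y = z := by
  classical
  have := Fintype.ofFinite S
  refine ⟨Finset.univ.image fun g : S => g.1 y, ?_, fun z => by simp⟩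
  rw [Finset.card_image_of_injective, Finset.card_univ, Nat.card_eq_fintype_card]
  intro g k e
  have := free (k.1⁻¹ * g.1) (S.mul_mem (S.inv_mem k.2) g.2) (by
    have e' : g.1 y = k.1 y := e
    simp [e'])
  exact Subtype.ext (inv_mul_eq_one.1 this).symm

theorem free_dvd (S : Subgroup (E3 ≃ₗᵢ[ℝ] E3)) [Finite S] (W : Finset E3)
    (hW : ∀ g ∈ S, ∀ y ∈ W, g y ∈ W) (free : ∀ y ∈ W, ∀ g ∈ S, g y = y → g = 1) :
    Nat.card S ∣ W.card := by
  classical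
  induction W using Finset.strongInduction with
  | H W ih =>
    rcases W.eq_empty_or_nonempty with rfl | ⟨y, hy⟩
    · simp
    obtain ⟨O, c, hO⟩ := exists_orb S (free y hy)
    have sub : O ⊆ W := fun z hz => by
      obtain ⟨g, a, rfl⟩ := (hO z).1 hz
      exact hW g a y hy
    have := ih (W \ O) (Finset.sdiff_ssubset sub ⟨y, (hO y).2 ⟨1, S.one_mem, rfl⟩⟩)
      (fun g hg z hz => by
        rw [Finset.mem_sdiff] at hz ⊢
        refine ⟨hW g hg z hz.1, fun h => hz.2 ?_⟩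
        obtain ⟨k, a, b⟩ := (hO _).1 h
        exact (hO z).2 ⟨g⁻¹ * k, S.mul_mem (S.inv_mem hg) a, by simp [b]⟩)
      (fun z hz => free z (Finset.mem_sdiff.1 hz).1)
    rw [← Finset.card_sdiff_add_card_eq_card sub, c]
    exact dvd_add this dvd_rfl

/-- An orbit of unit vectors of a rotation group, each fixed by a subgroup of order `n`. -/
structure Conf (R : Subgroup (E3 ≃ₗᵢ[ℝ] E3)) (Y : Finset E3) (n : ℕ) : Prop where
  det : ∀ g ∈ R, (mat g).det = 1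
  unit : ∀ y ∈ Y, ‖y‖ = 1
  inv : ∀ g ∈ R, ∀ y ∈ Y, g y ∈ Y
  trans : ∀ y ∈ Y, ∀ z ∈ Y, ∃ g ∈ R, g y = z
  stab : ∀ y ∈ Y, ∃ S ≤ R, Nat.card S = n ∧ ∀ g ∈ S, g y = y

theorem ne_neg {x : E3} (hx : ‖x‖ = 1) : x ≠ -x := fun e => by
  have : x = 0 := by
    have h2 : (2 : ℝ) • x = 0 := by rw [two_smul]; nth_rewrite 1 [e]; simp
    simpa using h2
  simp [this] at hx

variable {R : Subgroup (E3 ≃ₗᵢ[ℝ] E3)} {Y : Finset E3} {n : ℕ}

theorem Conf.self (C : Conf R Y n) {p : E3} (hp : p ∈ Y) : ⟪p, p⟫ = 1 := by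
  rw [real_inner_self_eq_norm_sq, C.unit p hp, one_pow]

theorem Conf.ring (C : Conf R Y n) (hn : n ≠ 0) {p : E3} (hp : p ∈ Y) :
    ∃ (S : Subgroup (E3 ≃ₗᵢ[ℝ] E3)) (W : Finset E3), S ≤ R ∧ Nat.card S = n ∧
      (∀ g ∈ S, g p = p) ∧ (∀ z, z ∈ W ↔ z ∈ Y ∧ z ≠ p ∧ z ≠ -p) ∧ n ∣ W.card ∧
      (-p ∈ Y ∧ W.card + 2 = Y.card ∨ -p ∉ Y ∧ W.card + 1 = Y.card) ∧
      ∀ y ∈ W, (∀ g ∈ S, g y = y → g = 1) ∧ ∃ O ⊆ W, O.card = n ∧
        ∀ z, z ∈ O ↔ ∃ g ∈ S, g y = z := by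
  classical
  obtain ⟨S, sR, cS, fS⟩ := C.stab p hp
  have : Finite S := Nat.finite_of_card_ne_zero (by rwa [cS])
  let W := (Y.erase p).erase (-p)
  have mW : ∀ z, z ∈ W ↔ z ∈ Y ∧ z ≠ p ∧ z ≠ -p := fun z => by
    simp only [W, Finset.mem_erase]
    tauto
  have cl : ∀ g ∈ S, ∀ y ∈ W, g y ∈ W := fun g hg y hy => by
    rw [mW] at hy ⊢
    refine ⟨C.inv g (sR hg) y hy.1, fun e => hy.2.1 (g.injective ?_),
      fun e => hy.2.2 (g.injective ?_)⟩
    · rw [e, fS g hg]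
    · rw [e, map_neg, fS g hg]
  have fr : ∀ y ∈ W, ∀ g ∈ S, g y = y → g = 1 := fun y hy g hg e => by
    by_contra h
    rw [mW] at hy
    rcases fixed_two (C.det g (sR hg)) h (C.unit p hp) (C.unit y hy.1) (fS g hg) e with a | a
    exacts [hy.2.1 a, hy.2.2 a]
  refine ⟨S, W, sR, cS, fS, mW, cS ▸ free_dvd S W cl fr, ?_, fun y hy => ⟨fr y hy, ?_⟩⟩
  · have a := Finset.card_erase_add_one hp
    by_cases h : -p ∈ Y
    · have b := Finset.card_erase_add_one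
        (Finset.mem_erase.2 ⟨(ne_neg (C.unit p hp)).symm, h⟩ : -p ∈ Y.erase p)
      exact Or.inl ⟨h, by simp only [W]; omega⟩
    · refine Or.inr ⟨h, ?_⟩
      simp only [W]
      rw [Finset.erase_eq_of_notMem fun e => h (Finset.mem_erase.1 e).2, a]
  · obtain ⟨O, c, hO⟩ := exists_orb S (fr y hy)
    refine ⟨O, fun z hz => ?_, c.trans cS, hO⟩
    obtain ⟨g, a, rfl⟩ := (hO z).1 hz
    exact cl g a y hy

theorem inner_vec (l k : L3) : ⟪vec l, vec k⟫ = num (z3 l.x k.x l.y k.y l.z k.z) := by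
  simp [vec, z3, PiLp.inner_apply, Fin.sum_univ_three]
  ring

theorem Conf.tetra (C : Conf R Y 3) (hY : Y.card = 4)
    (nofix : ∀ u : E3, (∀ g ∈ R, g u = u) → u = 0) : Fits Y yT bT := by
  classical
  have s0 : ∑ y ∈ Y, y = 0 := nofix _ fun g hg => by
    rw [map_sum]
    refine Finset.sum_bij (fun y _ => g y) (fun y hy => C.inv g hg y hy)
      (fun _ _ _ _ e => g.injective e) (fun z hz => ⟨g⁻¹ z, C.inv _ (R.inv_mem hg) z hz, by simp⟩)
      fun _ _ => rfl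
  have gram : ∀ p ∈ Y, ∀ q ∈ Y, q ≠ p → ⟪p, q⟫ = -1 / 3 := by
    intro p hp q hq ne
    obtain ⟨S, W, -, -, fS, mW, dv, cW, hO⟩ := C.ring (by norm_num) hp
    obtain ⟨np, c3⟩ : -p ∉ Y ∧ W.card = 3 := by
      rcases cW with ⟨-, a⟩ | ⟨a, b⟩
      · omega
      · exact ⟨a, by omega⟩
    have qW : q ∈ W := (mW q).2 ⟨hq, ne, fun e => np (e ▸ hq)⟩
    obtain ⟨-, O, sub, cO, mO⟩ := hO q qW
    obtain rfl : O = W := Finset.eq_of_subset_of_card_le sub (by omega)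
    have e1 : Y = insert p O := by
      ext z
      rw [Finset.mem_insert, mW]
      constructor
      · intro hz
        by_cases e : z = p
        · exact Or.inl e
        · exact Or.inr ⟨hz, e, fun e => np (e ▸ hz)⟩
      · rintro (rfl | h)
        exacts [hp, h.1]
    have e2 : ⟪p, ∑ y ∈ Y, y⟫ = 0 := by rw [s0, inner_zero_right]
    rw [e1, Finset.sum_insert fun h => ((mW p).1 h).2.1 rfl, inner_add_right, inner_sum,
      C.self hp, Finset.sum_congr rfl (g := fun _ => ⟪p, q⟫) fun z hz => by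
        obtain ⟨g, a, rfl⟩ := (mO z).1 hz
        rw [← g.inner_map_map p q, fS g a], Finset.sum_const, cO] at e2
    simp only [nsmul_eq_mul, Nat.cast_ofNat] at e2
    linarith
  obtain ⟨a, b, c, d, ab, ac, ad, bc, bd, cd, rfl⟩ := Finset.card_eq_four.1 hY
  have s3 : √3 * √3 = (3 : ℝ) := Real.mul_self_sqrt (by norm_num)
  have key : ∀ p ∈ ({a, b, c, d} : Finset E3), ∀ q ∈ ({a, b, c, d} : Finset E3),
      ⟪√3 • p, √3 • q⟫ = if q = p then 3 else -1 := fun p hp q hq => by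
    rw [real_inner_smul_left, real_inner_smul_right, ← mul_assoc, s3]
    split_ifs with e
    · rw [e, C.self hp, mul_one]
    · rw [gram p hp q hq e]; norm_num
  obtain ⟨φ, hφ⟩ := exists_iso ![√3 • a, √3 • b, √3 • c, √3 • d]
    (fun i : Fin 4 => vec (yT.get i)) fun i j => by
      rw [inner_vec]
      fin_cases i <;> fin_cases j <;>
        simp only [Fin.zero_eta, Fin.mk_one, Fin.reduceFinMk, cons_val, Fin.isValue,
          cons_val_zero, cons_val_one] <;>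
        rw [key _ (by simp) _ (by simp)] <;>
        simp [yT, z3, ab, ac, ad, bc, bd, cd, ab.symm, ac.symm, ad.symm, bc.symm, bd.symm,
          cd.symm] <;> norm_num
  refine ⟨φ, √3, ?_, ⟨a, by simp, hφ 0⟩, ⟨b, by simp, hφ 1⟩, c, by simp, hφ 2⟩
  intro y hy
  simp only [Finset.mem_insert, Finset.mem_singleton] at hy
  rcases hy with rfl | rfl | rfl | rfl
  exacts [⟨_, List.get_mem _ _, hφ 0⟩, ⟨_, List.get_mem _ _, hφ 1⟩, ⟨_, List.get_mem _ _, hφ 2⟩,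
    ⟨_, List.get_mem _ _, hφ 3⟩]

theorem vec_neg (a b c : Z5) : -vec ⟨a, b, c⟩ = vec ⟨-a, -b, -c⟩ := by
  ext i
  fin_cases i <;> simp [vec, num] <;> ring

theorem Conf.octa (C : Conf R Y 4) (hY : Y.card = 6) : Fits Y yO mI := by
  classical
  have base : ∀ p ∈ Y, -p ∈ Y ∧ ∀ q ∈ Y, q ≠ p → q ≠ -p → ∀ z ∈ Y, z ≠ p → z ≠ -p →
      ⟪p, z⟫ = ⟪p, q⟫ := by
    intro p hp
    obtain ⟨S, W, -, -, fS, mW, dv, cW, hO⟩ := C.ring (by norm_num) hp
    obtain ⟨np, c4⟩ : -p ∈ Y ∧ W.card = 4 := by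
      rcases cW with ⟨a, b⟩ | ⟨-, b⟩
      · exact ⟨a, by omega⟩
      · omega
    refine ⟨np, fun q hq q1 q2 z hz z1 z2 => ?_⟩
    obtain ⟨-, O, sub, cO, mO⟩ := hO q ((mW q).2 ⟨hq, q1, q2⟩)
    obtain rfl : O = W := Finset.eq_of_subset_of_card_le sub (by omega)
    obtain ⟨g, a, rfl⟩ := (mO z).1 ((mW z).2 ⟨hz, z1, z2⟩)
    rw [← g.inner_map_map p q, fS g a]
  have gram : ∀ p ∈ Y, ∀ q ∈ Y, q ≠ p → q ≠ -p → ⟪p, q⟫ = 0 := by
    intro p hp q hq q1 q2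
    have := (base p hp).2 q hq q1 q2 (-q) (base q hq).1 (fun e => q2 (by rw [← e, neg_neg]))
      fun e => q1 (neg_injective e)
    rw [inner_neg_right] at this
    linarith
  have pick : ∀ T : Finset E3, T.card < 6 → ∃ q ∈ Y, q ∉ T := fun T h =>
    Finset.exists_mem_notMem_of_card_lt_card (by omega)
  obtain ⟨p, hp, -⟩ := pick ∅ (by simp)
  obtain ⟨q, hq, nq⟩ := pick {p, -p} (Finset.card_le_two.trans_lt (by norm_num))
  obtain ⟨r, hr, nr⟩ := pick {p, -p, q, -q} (Finset.card_le_four.trans_lt (by norm_num))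
  simp only [Finset.mem_insert, Finset.mem_singleton, not_or] at nq nr
  have pq := gram p hp q hq nq.1 nq.2
  have pr := gram p hp r hr nr.1 nr.2.1
  have qr := gram q hq r hr nr.2.2.1 nr.2.2.2
  have qp := (real_inner_comm _ _).trans pq
  have rp := (real_inner_comm _ _).trans pr
  have rq := (real_inner_comm _ _).trans qr
  obtain ⟨φ, hφ⟩ := exists_iso ![p, q, r] ![vec mI.a, vec mI.b, vec mI.c] fun i j => by
    fin_cases i <;> fin_cases j <;>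
      simp only [Fin.zero_eta, Fin.mk_one, Fin.reduceFinMk, cons_val, Fin.isValue,
        cons_val_zero, cons_val_one, inner_vec, C.self hp, C.self hq, C.self hr, pq, pr, qr, qp,
        rp, rq] <;> simp [mI, z3]
  have h0 : φ p = vec mI.a := hφ 0
  have h1 : φ q = vec mI.b := hφ 1
  have h2 : φ r = vec mI.c := hφ 2
  refine ⟨φ, 1, fun y hy => ?_, ⟨p, hp, by simpa⟩, ⟨q, hq, by simpa⟩, r, hr, by simpa⟩
  rw [one_smul]
  by_cases a1 : y = p
  · exact ⟨_, by simp [yO, mI], a1 ▸ h0⟩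
  by_cases a2 : y = -p
  · exact ⟨⟨-(1, 0), -(0, 0), -(0, 0)⟩, by simp [yO], by rw [a2, map_neg, h0, mI, vec_neg]⟩
  by_cases a3 : y = q
  · exact ⟨_, by simp [yO, mI], a3 ▸ h1⟩
  by_cases a4 : y = -q
  · exact ⟨⟨-(0, 0), -(1, 0), -(0, 0)⟩, by simp [yO], by rw [a4, map_neg, h1, mI, vec_neg]⟩
  by_cases a5 : y = r
  · exact ⟨_, by simp [yO, mI], a5 ▸ h2⟩
  by_cases a6 : y = -r
  · exact ⟨⟨-(0, 0), -(0, 0), -(1, 0)⟩, by simp [yO], by rw [a6, map_neg, h2, mI, vec_neg]⟩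
  exfalso
  have b1 := gram p hp y hy a1 a2
  have b2 := gram q hq y hy a3 a4
  have b3 := gram r hr y hy a5 a6
  rw [← φ.inner_map_map, h0] at b1
  rw [← φ.inner_map_map, h1] at b2
  rw [← φ.inner_map_map, h2] at b3
  have z : φ y = 0 := by
    simp [vec, mI, PiLp.inner_apply, Fin.sum_univ_three] at b1 b2 b3
    ext i
    fin_cases i <;> simpa
  have := C.unit y hy
  rw [← φ.norm_map, z] at this
  simp at this

theorem gram_zero {p u v w : E3} (hp : p ≠ 0) (a : ⟪u, p⟫ = 0) (b : ⟪v, p⟫ = 0) (c : ⟪w, p⟫ = 0) :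
    ⟪u, u⟫ * (⟪v, v⟫ * ⟪w, w⟫ - ⟪v, w⟫ * ⟪v, w⟫) - ⟪u, v⟫ * (⟪u, v⟫ * ⟪w, w⟫ - ⟪v, w⟫ * ⟪u, w⟫) +
      ⟪u, w⟫ * (⟪u, v⟫ * ⟪v, w⟫ - ⟪v, v⟫ * ⟪u, w⟫) = 0 := by
  have d : (!![u 0, u 1, u 2; v 0, v 1, v 2; w 0, w 1, w 2] : Matrix (Fin 3) (Fin 3) ℝ).det = 0 := by
    refine Matrix.exists_mulVec_eq_zero_iff.1 ⟨p.ofLp, fun e => hp (WithLp.ofLp_injective 2 e), ?_⟩
    simp only [PiLp.inner_apply, Fin.sum_univ_three, RCLike.inner_apply, conj_trivial] at a b c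
    ext i
    fin_cases i <;> simp [mulVec, dotProduct, Fin.sum_univ_three] <;> linarith
  simp only [det_fin_three, of_apply, cons_val', cons_val_zero, cons_val_one, cons_val_fin_one,
    cons_val] at d
  simp only [PiLp.inner_apply, Fin.sum_univ_three, RCLike.inner_apply, conj_trivial]
  linear_combination (u 0 * v 1 * w 2 - u 0 * v 2 * w 1 - u 1 * v 0 * w 2 + u 1 * v 2 * w 0 +
    u 2 * v 0 * w 1 - u 2 * v 1 * w 0) * d

theorem pent {g : E3 ≃ₗᵢ[ℝ] E3} {p y : E3} (hp : p ≠ 0) (gp : g p = p) (hy : ⟪y, y⟫ = 1)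
    (g5 : g (g (g (g (g y)))) = y) :
    (1 - ⟪y, g y⟫ + (1 - ⟪y, g (g y)⟫)) * ((1 - ⟪y, g y⟫) ^ 2 -
      3 * (1 - ⟪y, g y⟫) * (1 - ⟪y, g (g y)⟫) + (1 - ⟪y, g (g y)⟫) ^ 2) = 0 := by
  have h : ∀ z, ⟪g z, p⟫ = ⟪z, p⟫ := fun z => by rw [← g.inner_map_map z p, gp]
  have := gram_zero (u := g y - y) (v := g (g y) - y) (w := g (g (g y)) - y) hp
    (by rw [inner_sub_left, h, sub_self]) (by rw [inner_sub_left, h, h, sub_self])
    (by rw [inner_sub_left, h, h, h, sub_self])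
  have c3 : ⟪y, g (g (g y))⟫ = ⟪y, g (g y)⟫ := by
    rw [← g.inner_map_map, ← g.inner_map_map, g5, real_inner_comm]
  simp only [inner_sub_left, inner_sub_right, g.inner_map_map, hy, real_inner_comm y (g y),
    real_inner_comm y (g (g y)), real_inner_comm y (g (g (g y))), c3] at this
  linear_combination (-1 / 2 : ℝ) * this

theorem Conf.icosa (C : Conf R Y 5) (hY : Y.card = 12) : Fits Y yI bI := by
  classical
  have ng : ∀ p ∈ Y, -p ∈ Y := fun p hp => by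
    obtain ⟨S, W, -, -, -, -, dv, cW, -⟩ := C.ring (by norm_num) hp
    rcases cW with ⟨a, -⟩ | ⟨-, b⟩
    · exact a
    · omega
  obtain ⟨p, hp⟩ : Y.Nonempty := Finset.card_pos.1 (by omega)
  obtain ⟨S, W, sR, cS, fS, mW, dv, cW, hO⟩ := C.ring (by norm_num) hp
  have c10 : W.card = 10 := by rcases cW with ⟨-, b⟩ | ⟨-, b⟩ <;> omega
  have ngW : ∀ z ∈ W, -z ∈ W := fun z hz => by
    rw [mW] at hz ⊢
    exact ⟨ng z hz.1, fun e => hz.2.2 (by rw [← e, neg_neg]), fun e => hz.2.1 (neg_injective e)⟩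
  obtain ⟨y, yW, t0⟩ : ∃ y ∈ W, 0 ≤ ⟪p, y⟫ := by
    obtain ⟨y, hy⟩ : W.Nonempty := Finset.card_pos.1 (by omega)
    rcases le_total 0 ⟪p, y⟫ with e | e
    · exact ⟨y, hy, e⟩
    · exact ⟨-y, ngW y hy, by rw [inner_neg_right]; linarith⟩
  have yY := ((mW y).1 yW).1
  obtain ⟨fr, O, sub, cO, mO⟩ := hO y yW
  have p5 : ∀ g ∈ S, g ^ 5 = 1 := fun g hg => by
    have := pow_card_eq_one' (x := (⟨g, hg⟩ : S))
    rw [cS] at this
    exact congrArg Subtype.val this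
  have sq : ∀ g ∈ S, g * g = 1 → g = 1 := fun g hg e => by
    have := p5 g hg
    rwa [show g ^ 5 = g * g * (g * g) * g by simp [pow_succ, mul_assoc], e, one_mul, one_mul] at this
  have nO : ∀ g ∈ S, g y ≠ -y := fun g hg e => by
    have := sq g hg (fr _ (S.mul_mem hg hg) (by simp [e]))
    rw [this] at e
    exact ne_neg (C.unit y yY) e
  have cover : ∀ z ∈ W, z ∈ O ∨ -z ∈ O := by
    have dj : Disjoint O (O.image fun z => -z) := by
      rw [Finset.disjoint_left]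
      intro z hz hz'
      obtain ⟨w, hw, rfl⟩ := Finset.mem_image.1 hz'
      obtain ⟨g, a, b⟩ := (mO _).1 hz
      obtain ⟨k, c, rfl⟩ := (mO _).1 hw
      exact nO (k⁻¹ * g) (S.mul_mem (S.inv_mem c) a) (by simp [b])
    have e : O ∪ O.image (fun z => -z) = W := by
      refine Finset.eq_of_subset_of_card_le (Finset.union_subset sub fun z hz => ?_) ?_
      · obtain ⟨w, hw, rfl⟩ := Finset.mem_image.1 hz
        exact ngW w (sub hw)
      · rw [Finset.card_union_of_disjoint dj, Finset.card_image_of_injective _ neg_injective]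
        omega
    intro z hz
    rw [← e, Finset.mem_union] at hz
    refine hz.imp id fun h => ?_
    obtain ⟨w, hw, rfl⟩ := Finset.mem_image.1 h
    rwa [neg_neg]
  have hgt : ∀ g ∈ S, ⟪p, g y⟫ = ⟪p, y⟫ := fun g hg => by rw [← g.inner_map_map p y, fS g hg]
  have eqa : ∀ q ∈ Y, ∀ z ∈ Y, z ≠ q → z ≠ -q → ⟪q, z⟫ = ⟪p, y⟫ ∨ ⟪q, z⟫ = -⟪p, y⟫ := by
    intro q hq z hz z1 z2
    obtain ⟨k, kR, rfl⟩ := C.trans p hp q hq
    obtain ⟨w, rfl⟩ := k.surjective z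
    have wW : w ∈ W := (mW w).2 ⟨by simpa using C.inv _ (R.inv_mem kR) _ hz,
      fun e => z1 (by rw [e]), fun e => z2 (by rw [e, map_neg])⟩
    rw [k.inner_map_map]
    refine (cover w wW).imp (fun h => ?_) fun h => ?_
    · obtain ⟨g, a, rfl⟩ := (mO _).1 h
      exact hgt g a
    · obtain ⟨g, a, b⟩ := (mO _).1 h
      rw [← hgt g a, b, inner_neg_right, neg_neg]
  have p0 : p ≠ 0 := fun e => by simpa [e] using C.unit p hp
  have g5 : ∀ g ∈ S, g (g (g (g (g y)))) = y := fun g hg => by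
    have := congrArg (fun k : E3 ≃ₗᵢ[ℝ] E3 => k y) (p5 g hg)
    simpa [pow_succ] using this
  have one : ∀ g ∈ S, g ≠ 1 → ⟪y, g y⟫ < 1 ∧ (⟪y, g y⟫ = ⟪p, y⟫ ∨ ⟪y, g y⟫ = -⟪p, y⟫) :=
    fun g hg g1 => ⟨(inner_lt_one_iff_real_of_norm_eq_one (C.unit y yY)
      (by rw [g.norm_map, C.unit y yY])).2 fun e => g1 (fr g hg e.symm),
      eqa y yY _ (C.inv g (sR hg) y yY) (fun e => g1 (fr g hg e)) (nO g hg)⟩
  have two : ∀ g ∈ S, g ≠ 1 → ⟪y, g (g y)⟫ = -⟪y, g y⟫ ∧ 5 * ⟪p, y⟫ ^ 2 = 1 := by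
    intro g hg g1
    obtain ⟨a1, a2⟩ := one g hg g1
    obtain ⟨b1, b2⟩ := one (g * g) (S.mul_mem hg hg) fun e => g1 (sq g hg e)
    have e := pent p0 (fS g hg) (C.self yY) (g5 g hg)
    change ⟪y, g (g y)⟫ < 1 at b1
    change ⟪y, g (g y)⟫ = _ ∨ ⟪y, g (g y)⟫ = _ at b2
    have e' := (mul_eq_zero.1 e).resolve_left (by linarith)
    rcases a2 with a2 | a2 <;> rcases b2 with b2 | b2 <;> rw [a2, b2] at e' <;>
      rw [a2] at a1 ⊢ <;> rw [b2]
    · nlinarith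
    · exact ⟨rfl, by linarith⟩
    · exact ⟨by ring, by linarith⟩
    · nlinarith
  obtain ⟨g, hg, g1, ga⟩ : ∃ g ∈ S, g ≠ 1 ∧ ⟪y, g y⟫ = ⟪p, y⟫ := by
    have : Finite S := Nat.finite_of_card_ne_zero (by omega)
    have : Nontrivial S := Finite.one_lt_card_iff_nontrivial.1 (by omega)
    obtain ⟨g, g1⟩ := exists_ne (1 : S)
    have g1' : g.1 ≠ 1 := fun e => g1 (Subtype.ext e)
    rcases (one g.1 g.2 g1').2 with e | e
    · exact ⟨g.1, g.2, g1', e⟩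
    · refine ⟨g.1 * g.1, S.mul_mem g.2 g.2, fun e => g1' (sq _ g.2 e), ?_⟩
      change ⟪y, g.1 (g.1 y)⟫ = _
      rw [(two g.1 g.2 g1').1, e, neg_neg]
  obtain ⟨gb, t5⟩ := two g hg g1
  have tv : ⟪p, y⟫ = √5 / 5 := by
    have : (0 : ℝ) ≤ √5 := Real.sqrt_nonneg _
    rw [← sq_eq_sq₀ t0 (by positivity)]
    linear_combination (1 / 5 : ℝ) * t5 - (1 / 25 : ℝ) * s5
  have allS : ∀ k ∈ S, k y = y ∨ k y = g y ∨ k y = g (g y) ∨ k y = g (g (g y)) ∨
      k y = g (g (g (g y))) := by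
    intro k hk
    have : Fact (Nat.Prime 5) := ⟨by norm_num⟩
    have : Finite S := Nat.finite_of_card_ne_zero (by omega)
    have := mem_powers_of_prime_card (g := (⟨g, hg⟩ : S)) (g' := ⟨k, hk⟩) cS
      fun e => g1 (congrArg Subtype.val e)
    obtain ⟨j, hj⟩ := this
    have hj' : g ^ j = k := congrArg Subtype.val hj
    rw [pow_eq_pow_mod j (p5 g hg)] at hj'
    have : j % 5 < 5 := Nat.mod_lt _ (by norm_num)
    generalize j % 5 = i at *
    interval_cases i <;> simp [← hj', pow_succ]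
  have gp := fS g hg
  have e5 := g5 g hg
  have gy : g y ∈ Y := C.inv g (sR hg) y yY
  rw [ga] at gb
  have c3 : ⟪y, g (g (g y))⟫ = -⟪p, y⟫ := by
    rw [← g.inner_map_map, ← g.inner_map_map, e5, real_inner_comm, gb]
  have c4 : ⟪y, g (g (g (g y)))⟫ = ⟪p, y⟫ := by
    rw [← g.inner_map_map, e5, real_inner_comm, ga]
  have h : ∀ z, ⟪p, g z⟫ = ⟪p, z⟫ := fun z => by rw [← g.inner_map_map p z, gp]
  have h' : ∀ z, ⟪g z, p⟫ = ⟪z, p⟫ := fun z => by rw [← g.inner_map_map z p, gp]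
  obtain ⟨σ, hσ⟩ : ∃ σ : ℝ, σ * σ = 10 + 2 * √5 := ⟨_, Real.mul_self_sqrt (by positivity)⟩
  obtain ⟨φ, hφ⟩ := exists_iso
    (fun i : Fin 6 => σ • ![p, y, g y, g (g y), g (g (g y)), g (g (g (g y)))] i)
    (fun i : Fin 6 => vec (yI.getD i bI.a)) fun i j => by
      rw [inner_vec, real_inner_smul_left, real_inner_smul_right, ← mul_assoc, hσ]
      fin_cases i <;> fin_cases j <;>
        simp only [Fin.zero_eta, Fin.mk_one, Fin.reduceFinMk, cons_val, Fin.isValue,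
          cons_val_zero, cons_val_one, g.inner_map_map, h, h', C.self hp, C.self yY,
          real_inner_comm p y, real_inner_comm y (g _), ga, gb, c3, c4, tv] <;>
        simp only [yI, z3, num_za, num_zm, List.getD_cons_succ, List.getD_cons_zero] <;>
        simp [num] <;> linarith [s5]
  refine ⟨φ, σ, fun z hz => ?_, ⟨p, hp, hφ 0⟩, ⟨y, yY, hφ 1⟩, g y, gy, hφ 2⟩
  have pos : ∀ w, w = p ∨ w ∈ O → ∃ i : Fin 6, φ (σ • w) = vec (yI.getD i bI.a) := by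
    rintro w (rfl | hw)
    · exact ⟨0, hφ 0⟩
    · obtain ⟨k, a, rfl⟩ := (mO _).1 hw
      rcases allS k a with e | e | e | e | e <;> rw [e]
      exacts [⟨1, hφ 1⟩, ⟨2, hφ 2⟩, ⟨3, hφ 3⟩, ⟨4, hφ 4⟩, ⟨5, hφ 5⟩]
  have : (z = p ∨ z ∈ O) ∨ (-z = p ∨ -z ∈ O) := by
    by_cases a1 : z = p
    · exact Or.inl (Or.inl a1)
    by_cases a2 : z = -p
    · exact Or.inr (Or.inl (by rw [a2, neg_neg]))
    exact (cover z ((mW z).2 ⟨hz, a1, a2⟩)).imp Or.inr Or.inr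
  rcases this with a | a
  · obtain ⟨i, hi⟩ := pos z a
    refine ⟨_, ?_, hi⟩
    fin_cases i <;> simp [yI]
  · obtain ⟨i, hi⟩ := pos _ a
    rw [smul_neg, map_neg, neg_eq_iff_eq_neg, vec_neg] at hi
    refine ⟨_, ?_, hi⟩
    fin_cases i <;> simp [yI]

end Pool.Agent.P.MP_708877_co.Grp
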