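import Pool.Agent.P.MP_708877_co.Full.Ctx

/-!
Recognising a table entry.
-/

namespace Pool.Agent.P.MP_708877_co

/-- The polygon with coded vertices, moved by a code. -/
def fc (g : ℕ) (l : List ℕ) (w : E3) : Set (Sym2 E3) :=
  edges fun i : ZMod l.length => ac g (ac (l.getD i.val 0) w)

/-- The orbit polyhedron with the group given as a mask. -/
def mdl (G : ℕ) (faces : List (List ℕ)) (w : E3) : Set (Set (Sym2 E3)) :=
  {F | ∃ g, tb G g = true ∧ ∃ l ∈ faces, F = fc g l w}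

structure Ent where
  o : Bool
  W : List Q6
  G : ℕ
  HL : List ℕ
  faces : List (List ℕ)
  ks : List (List ℕ)

/-- What is needed from an entry. -/
structure Ent.Sound (C : Set (Set (Sym2 E3)) → Prop) (e : Ent) : Prop where
  grp : Grp e.o e.G
  hl : ∀ h ∈ e.HL, tb e.G h = true
  fs : ∀ l ∈ e.faces, l.length ≠ 0 ∧ ∀ a ∈ l, tb e.G a = true
  main : ∀ w : E3, w ≠ 0 → (∀ q ∈ e.W, q.ev (mon w) = 0) →
    (∀ ks ∈ e.ks, ∃ g ∈ ks, ac g w ≠ w) →
    Good (mdl e.G e.faces w) ∧ C (mdl e.G e.faces w) ∧ ∀ h ∈ e.HL, ac h w = w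

def pull : M3 → Q6 → Q6
  | ⟨a, b, c⟩, ⟨X, Y, Z, U, V, T⟩ =>
    ((((((lmul a a).sm X).add ((lmul b b).sm Y)).add ((lmul c c).sm Z)).add
      ((lmul a b).sm U)).add ((lmul a c).sm V)).add ((lmul b c).sm T)

theorem ev_pull (M : M3) (q : Q6) (v : E3) : (pull M q).ev (mon v) = q.ev (mon (act M.mat v)) := by
  simp only [pull, ev_add, ev_sm, ev_lmul]
  simp [Q6.ev, mon, L3.ev, act, M3.mat, dotProduct, Fin.sum_univ_three]

theorem ev_smul (q : Q6) (c : ℝ) (v : E3) : q.ev (mon (c • v)) = c ^ 2 * q.ev (mon v) := by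
  simp [Q6.ev, mon]
  ring

def pk (G : ℕ) (HL : List ℕ) (d : ℕ) : ℕ :=
  match HL with
  | [] => 200
  | h :: r => bif tb G (mt d h) then mt d h else pk G r d

theorem pk_spec {G : ℕ} {HL : List ℕ} {d : ℕ} (h : pk G HL d < 144) :
    tb G (pk G HL d) = true ∧ ∃ k ∈ HL, pk G HL d = mt d k := by
  induction HL with
  | nil => simp [pk] at h
  | cons k r ih =>
    unfold pk at h ⊢
    cases e : tb G (mt d k)
    · simp only [e, cond_false] at h ⊢
      obtain ⟨a, k, b, c⟩ := ih h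
      exact ⟨a, k, List.mem_cons_of_mem _ b, c⟩
    · exact ⟨e, k, List.mem_cons_self, rfl⟩

def hasCh (ch : List (ℕ × ℕ × ℕ)) (a b d : ℕ) : Bool :=
  ch.any fun t => Nat.beq t.1 a && Nat.beq t.2.1 b && Nat.beq t.2.2 d

def chAt (c : Ctx) (ch : List (ℕ × ℕ × ℕ)) (x y z w : ℕ) : Bool :=
  hasCh ch (c.rep (mt (iv y) x)) (c.rep (mt (iv y) z)) (c.rep (mt (iv y) w))

def faceOk (c : Ctx) (ch : List (ℕ × ℕ × ℕ)) (l : List ℕ) (n : ℕ) : Bool :=
  l.all (fun x => Nat.blt x 144) && allLt n fun j => chAt c ch (l.getD j 0) (l.getD ((j + 1) % n) 0)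
    (l.getD ((j + 2) % n) 0) (l.getD ((j + 3) % n) 0)

def leaf2 (c : Ctx) (e : Ent) (T : List ℕ) (ch : List (ℕ × ℕ × ℕ)) : Bool :=
  T.all fun t => tb e.G t && e.faces.all fun l =>
    faceOk c ch (l.map fun a => pk c.G e.HL (mt t a)) l.length

def leafOk (c : Ctx) (e : Ent) (k : ℕ) (T : List ℕ) (W : Ech) (ch : List (ℕ × ℕ × ℕ)) : Bool :=
  tb c.N k && e.W.all (fun q => mem W (pull (EL k) q)) &&
    e.ks.all (fun ks => ks.any fun g => Nat.beq g 7 || (tb c.G g && !tb c.H g)) &&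
    allIn e.G (fun g => T.any fun t => tb c.G (mt g (iv t))) &&
    leaf2 c e T (ch.map fun t => (c.rep (cj k t.1), c.rep (cj k t.2.1), c.rep (cj k t.2.2)))

/-- The known chains. -/
def ChOk (c : Ctx) (P : Set (Set (Sym2 E3))) (v : E3) (ch : List (ℕ × ℕ × ℕ)) : Prop :=
  ∀ t ∈ ch, c.Rp t.1 ∧ c.Rp t.2.1 ∧ c.Rp t.2.2 ∧ Ch P (ac t.1 v) v (ac t.2.1 v) (ac t.2.2 v)

variable {c : Ctx} {P : Set (Set (Sym2 E3))} {v : E3} {ch : List (ℕ × ℕ × ℕ)}

theorem ChOk.has (h : ChOk c P v ch) {a b d : ℕ} (k : hasCh ch a b d = true) :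
    Ch P (ac a v) v (ac b v) (ac d v) := by
  simp only [hasCh, List.any_eq_true, Bool.and_eq_true, Nat.beq_eq] at k
  obtain ⟨t, ht, ⟨rfl, rfl⟩, rfl⟩ := k
  exact (h t ht).2.2.2

theorem ChOk.at (h : ChOk c P v ch) (S : Setting c P v) (hc : c.Ok) {x y z w : ℕ}
    (hx : tb c.G x = true) (hy : tb c.G y = true) (hz : tb c.G z = true) (hw : tb c.G w = true)
    (k : chAt c ch x y z w = true) : Ch P (ac x v) (ac y v) (ac z v) (ac w v) := by
  have := S.ch hc.grp hy (h.has k)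
  simpa only [S.rep_mt hc (hc.grp.iv hy), hx, hz, hw, ac_iv' (hc.grp.big hy)] using this

theorem ChOk.conj (h : ChOk c P v ch) (S : Setting c P v) (hc : c.Ok) {k : ℕ}
    (hk : tb c.N k = true) : ChOk c (image (ac k) P) (ac k v)
      (ch.map fun t => (c.rep (cj k t.1), c.rep (cj k t.2.1), c.rep (cj k t.2.2))) := by
  intro t' ht'
  obtain ⟨t, ht, rfl⟩ := List.mem_map.1 ht'
  obtain ⟨a, b, d, e⟩ := h t ht
  obtain ⟨bk, nm⟩ := hc.nm hk
  refine ⟨hc.rp (nm a.1).1.1, hc.rp (nm b.1).1.1, hc.rp (nm d.1).1.1, ?_⟩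
  have S' := S.conj hc hk
  simp only [S'.rep hc (nm a.1).1.1, S'.rep hc (nm b.1).1.1, S'.rep hc (nm d.1).1.1,
    ac_cj bk (hc.grp.big a.1), ac_cj bk (hc.grp.big b.1), ac_cj bk (hc.grp.big d.1)]
  exact e.image (ac_inj bk)

theorem val_add_nat {n : ℕ} [NeZero n] (i : ZMod n) (k : ℕ) :
    (i + (k : ZMod n)).val = (i.val + k) % n := by
  rw [ZMod.val_add, ZMod.val_natCast, Nat.add_mod_mod]

theorem getD_mem {l : List ℕ} {j : ℕ} (h : j < l.length) : l.getD j 0 ∈ l := by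
  rw [List.getD_eq_getElem _ _ h]
  exact List.getElem_mem h

theorem image_fc (f : E3 → E3) (g g' : ℕ) (l : List ℕ) (w : E3)
    (h : ∀ x, f (ac g x) = ac g' x) : Sym2.map f '' fc g l w = fc g' l w := by
  simp only [fc, image_edges, h]

theorem leaf_sub (h : ChOk c P v ch) (S : Setting c P v) (hc : c.Ok) {e : Ent} {T : List ℕ}
    (gr : Grp e.o e.G) (hl : ∀ h ∈ e.HL, tb e.G h = true ∧ ac h v = v)
    (fs : ∀ l ∈ e.faces, l.length ≠ 0 ∧ ∀ a ∈ l, tb e.G a = true)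
    (k2 : allIn e.G (fun g => T.any fun t => tb c.G (mt g (iv t))) = true)
    (k3 : leaf2 c e T ch = true) : mdl e.G e.faces v ⊆ P := by
  rintro _ ⟨g, hg, l, hl', rfl⟩
  obtain ⟨t, ht, m⟩ := List.any_eq_true.1 (allIn_spec k2 (gr.lt hg) hg)
  have k4 := List.all_eq_true.1 k3 t ht
  simp only [Bool.and_eq_true, List.all_eq_true] at k4
  obtain ⟨gt, k4⟩ := k4
  have k5 := k4 l hl'
  simp only [faceOk, Bool.and_eq_true, List.all_eq_true, Nat.blt_eq] at k5
  obtain ⟨n0, fl⟩ := fs l hl'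
  have : NeZero l.length := ⟨n0⟩
  have key : ∀ j, j < l.length →
      tb c.G ((l.map fun a => pk c.G e.HL (mt t a)).getD j 0) = true ∧
      ac ((l.map fun a => pk c.G e.HL (mt t a)).getD j 0) v = ac t (ac (l.getD j 0) v) := by
    intro j hj
    have hj' : j < (l.map fun a => pk c.G e.HL (mt t a)).length := by simpa using hj
    have lt := k5.1 _ (getD_mem hj')
    have e1 : (l.map fun a => pk c.G e.HL (mt t a)).getD j 0 =
        pk c.G e.HL (mt t (l.getD j 0)) := by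
      rw [List.getD_eq_getElem _ _ hj', List.getD_eq_getElem _ _ hj, List.getElem_map]
    rw [e1] at lt ⊢
    obtain ⟨a, k, hk, b⟩ := pk_spec lt
    have gj := fl _ (getD_mem hj)
    refine ⟨a, ?_⟩
    rw [b, ac_mt (gr.big (gr.mt gt gj)) (gr.big (hl k hk).1), (hl k hk).2,
      ac_mt (gr.big gt) (gr.big gj)]
  have f1 : fc t l v ∈ P := by
    refine S.good.glue (S.deg hc.grp) n0 _ fun i => ?_
    have p := Nat.pos_of_ne_zero n0
    have a0 := key _ (ZMod.val_lt i)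
    have a1 := key _ (Nat.mod_lt (i.val + 1) p)
    have a2 := key _ (Nat.mod_lt (i.val + 2) p)
    have a3 := key _ (Nat.mod_lt (i.val + 3) p)
    have := h.at S hc a0.1 a1.1 a2.1 a3.1 (allLt_spec k5.2 (ZMod.val_lt i))
    rw [a0.2, a1.2, a2.2, a3.2, ← val_add_nat, ← val_add_nat, ← val_add_nat] at this
    simpa using this
  rw [← S.inv m]
  refine ⟨_, f1, image_fc _ _ _ _ _ fun x => ?_⟩
  rw [ac_mt (gr.big hg) (big_iv (gr.big gt)), ac_iv (gr.big gt)]

theorem neg_ne_self {v : E3} (h : v ≠ 0) : ac 7 v ≠ v := by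
  rw [ac_seven]
  intro e
  apply h
  have : (2 : ℝ) • v = 0 := by rw [two_smul]; nth_rewrite 1 [← e]; simp
  simpa using this

theorem leaf_sound {C : Set (Set (Sym2 E3)) → Prop}
    (hC : ∀ P (L : E3 ≃ₗᵢ[ℝ] E3), C (image L P) → C P) (h : ChOk c P v ch) (S : Setting c P v)
    (hc : c.Ok) {e : Ent} (he : e.Sound C) {k : ℕ} {T : List ℕ} {W : Ech} (hW : Van W (mon v))
    (ok : leafOk c e k T W ch = true) : C P := by
  simp only [leafOk, Bool.and_eq_true, List.all_eq_true] at ok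
  obtain ⟨⟨⟨⟨hk, k0⟩, k1⟩, k3⟩, k4⟩ := ok
  have S' := S.conj hc hk
  have bk := (hc.nm hk).1
  obtain ⟨a, b, d⟩ := he.main (ac k v) (S'.ne hc.grp) (fun q hq => by
    have := hW.mem (k0 q hq)
    rw [ev_pull, act_EL (big_lt bk), ev_smul] at this
    simpa using this) fun ks hks => by
    obtain ⟨g, hg, e⟩ := List.any_eq_true.1 (k1 ks hks)
    refine ⟨g, hg, ?_⟩
    simp only [Bool.or_eq_true, Nat.beq_eq, Bool.and_eq_true] at e
    rcases e with rfl | e
    · exact neg_ne_self (S'.ne hc.grp)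
    · rw [Ne, S'.stab e.1]
      simpa using e.2
  have := a.eq_of_subset S'.good
    (leaf_sub (h.conj S hc hk) S' hc he.grp (fun h hh => ⟨he.hl h hh, d h hh⟩) he.fs k3 k4)
  obtain ⟨L, hL⟩ := ac_iso bk
  exact hC P L (by rwa [hL, ← this])

end Pool.Agent.P.MP_708877_co
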