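import Pool.Agent.P.MP_708877_co.Full.Site
import Pool.Agent.P.MP_708877_co.Full.Group

/-!
Reduction of the classification to the seven polyhedral groups.
-/

namespace Pool.Agent.P.MP_708877_co

open RealInnerProductSpace

theorem listed_centered {S : List Site}
    (hT : ∀ m ∈ [gT, gTd, gTh, gO, gOh, gI, gIh], ∀ P v, Weak m P v → Listed S P)
    {P : Set (Set (Sym2 E3))} (hfin : (verts P).Finite) (hG : Good P) (reg : ∀ F ∈ P, IsRegular F)
    (tr : ∀ v ∈ verts P, ∀ w ∈ verts P, ∃ L : E3 ≃ₗᵢ[ℝ] E3, image L P = P ∧ L v = w) :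
    Listed S P := by
  have ax : ∀ u, u ≠ 0 → LinAx P u → Listed S P := fun u u0 h => by
    obtain ⟨c, B, c0, hQ⟩ := core hG reg u0 h
    refine ⟨c⁻¹, B.symm.toIsometryEquiv, _, inv_pos.2 c0, Or.inl hQ, ?_⟩
    rw [image_image]
    refine (image_id P).symm.trans (image_congr fun v _ => ?_)
    simp [smul_smul, c0.ne']
  by_cases hs : Submodule.span ℝ (verts P) = ⊤
  · let Γ : Subgroup (E3 ≃ₗᵢ[ℝ] E3) :=
      { carrier := {L | image L P = P}
        one_mem' := image_id P
        mul_mem' := fun {a b} ha hb => by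
          have ha' : image a P = P := ha
          have hb' : image b P = P := hb
          change image (fun x => a (b x)) P = P
          rw [← image_image a b, hb', ha']
        inv_mem' := fun {a} ha => by
          have ha' : image a P = P := ha
          change image a.symm P = P
          nth_rewrite 1 [← ha']
          rw [image_image]
          simpa using image_id P }
    have := hfin.to_subtype
    have : Finite Γ := by
      refine Finite.of_injective
        (fun (g : Γ) (v : verts P) => (⟨g.1 v.1, mem_verts_of_sym g.2 v.2⟩ : verts P)) ?_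
      intro a b e
      apply Subtype.ext
      apply LinearIsometryEquiv.toLinearEquiv_injective
      apply LinearEquiv.toLinearMap_injective
      exact LinearMap.ext_on hs fun v hv => congrArg Subtype.val (congrFun e ⟨v, hv⟩)
    rcases group_class Γ with ⟨u, u0, hu⟩ | ⟨φ, m, hm, h1, h2⟩
    · refine ax u u0 fun v hv w hw => ?_
      obtain ⟨L, a, b⟩ := tr v hv w hw
      refine ⟨L, a, b, ?_⟩
      rcases hu L a with e | e
      · refine ⟨1, Or.inl rfl, fun x _ => ?_⟩
        rw [one_mul, ← L.inner_map_map x u, e]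
      · refine ⟨-1, Or.inr rfl, fun x _ => ?_⟩
        rw [← L.inner_map_map x u, e, inner_neg_right]
        ring
    · obtain ⟨v, y, -, -, e1, -⟩ := hG.three
      refine Listed.of_image P φ (hT m hm _ (φ v)
        ⟨hG.image φ.injective.injOn, ?_, fun {n} hn => ?_, ?_, ?_⟩)
      · rintro _ ⟨F, hF, rfl⟩
        simpa using (reg F hF).sim one_ne_zero φ.toIsometryEquiv
      · obtain ⟨g, hg, e⟩ := h2 n (tb_eq m n ▸ hn)
        have hg' : image g P = P := hg
        rw [image_image]
        simp only [← e]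
        rw [← image_image φ g, hg']
      · rw [verts_image]
        rintro _ ⟨x, hx, rfl⟩
        obtain ⟨L, a, rfl⟩ := tr v e1.left x hx
        obtain ⟨n, hn, e⟩ := h1 L a
        exact ⟨n, (tb_eq m n).symm ▸ hn, e v⟩
      · rw [verts_image]
        exact ⟨v, e1.left, rfl⟩
  · rw [← Submodule.orthogonal_eq_bot_iff] at hs
    obtain ⟨u, hu, u0⟩ := Submodule.exists_mem_ne_zero_of_ne_bot hs
    have k : ∀ x ∈ verts P, ⟪x, u⟫ = 0 := fun x hx =>
      Submodule.inner_right_of_mem_orthogonal (Submodule.subset_span hx) hu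
    refine ax u u0 fun v hv w hw => ?_
    obtain ⟨L, a, b⟩ := tr v hv w hw
    exact ⟨L, a, b, 1, Or.inl rfl, fun x hx => by rw [k x hx, k _ (mem_verts_of_sym a hx), mul_zero]⟩

theorem listed_of_uniform {S : List Site}
    (hT : ∀ m ∈ [gT, gTd, gTh, gO, gOh, gI, gIh], ∀ P v, Weak m P v → Listed S P)
    {P : Set (Set (Sym2 E3))} (hfin : (verts P).Finite) (hU : IsUniform P) : Listed S P := by
  have hG := hU.1.good
  obtain ⟨x, y, -, -, e1, -⟩ := hG.three
  obtain ⟨m, hm⟩ := exists_center hfin ⟨x, e1.left⟩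
  have inj : Function.Injective fun x : E3 => x - m := sub_left_injective
  have lin : ∀ k : E3 ≃ᵢ E3, image k P = P →
      image k.toRealLinearIsometryEquiv (image (fun x => x - m) P) = image (fun x => x - m) P ∧
      ∀ v, k.toRealLinearIsometryEquiv (v - m) = k v - m := by
    intro k hk
    have e : ∀ v, k.toRealLinearIsometryEquiv (v - m) = k v - m := fun v => by
      rw [iso_sub, hm k hk]
    refine ⟨?_, e⟩
    rw [image_image]
    simp only [e]
    rw [← image_image (fun x => x - m) k, hk]
  have reg : ∀ F ∈ image (fun x => x - m) P, IsRegular F := by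
    rintro _ ⟨F, hF, rfl⟩
    simpa using (hU.2.1 F hF).sim one_ne_zero (IsometryEquiv.subRight m)
  obtain ⟨c, g, Q, c0, hQ, e⟩ := listed_centered hT (by rw [verts_image]; exact hfin.image _)
    (hG.image inj.injOn) reg (by
      rw [verts_image]
      rintro _ ⟨v, hv, rfl⟩ _ ⟨w, hw, rfl⟩
      obtain ⟨k, a, b⟩ := hU.2.2 v hv w hw
      exact ⟨_, (lin k a).1, by rw [(lin k a).2, b]⟩)
  refine ⟨c, g.trans (IsometryEquiv.addRight (c⁻¹ • m)), Q, c0, hQ, ?_⟩
  have := congrArg (image fun x => x + m) e
  simpa [image_image, image_id, smul_smul, c0.ne'] using this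

theorem uniform_of_listed {S : List Site} (h : ∀ s ∈ S, ∀ Q, s.Has Q → IsUniform Q)
    {P : Set (Set (Sym2 E3))} (hP : Listed S P) : IsUniform P := by
  obtain ⟨c, g, Q, c0, hQ | ⟨s, hs, hQ⟩, rfl⟩ := hP
  exacts [hQ.uniform.sim c0.ne' g, (h s hs Q hQ).sim c0.ne' g]

end Pool.Agent.P.MP_708877_co
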