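import Pool.Agent.P.MP_708877_co.Full.Tab

/-!
The seven polyhedral groups as sets of codes (bit `n` is set when code `n` belongs to the group).
-/

namespace Pool.Agent.P.MP_708877_co

def gT : ℕ := nat_lit 0x696969
def gTd : ℕ := nat_lit 0x696969000000000000000000000000696969
def gTh : ℕ := nat_lit 0xffffff
def gO : ℕ := nat_lit 0x969696000000000000000000000000696969
def gOh : ℕ := nat_lit 0xffffff000000000000000000000000ffffff
def gI : ℕ := nat_lit 0x696969696969696969696969696969
def gIh : ℕ := nat_lit 0xffffffffffffffffffffffffffffff

end Pool.Agent.P.MP_708877_co
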