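import Pool.Agent.P.MP_708877_co.Full.Alg

/-!
A modular test that three ternary quadratic forms have no common zero.
-/

namespace Pool.Agent.P.MP_708877_co

/-- The reduction map. -/
def phi (a : Z5) : ZMod 1073741719 := a.1 + a.2 * 622276376

theorem phi_zm (a b : Z5) : phi (zm a b) = phi a * phi b := by
  obtain ⟨c, d⟩ := b
  obtain ⟨a, b⟩ := a
  have h : (622276376 : ZMod 1073741719) * 622276376 = 5 := by decide +kernel
  simp only [zm, phi, Int.add_def, Int.mul_def, Int.ofNat_eq_natCast]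
  push_cast
  linear_combination (-(b * d) : ZMod 1073741719) * h
theorem phi_za (a b : Z5) : phi (za a b) = phi a + phi b := by
  obtain ⟨c, d⟩ := b
  obtain ⟨a, b⟩ := a
  simp only [za, phi, Int.add_def]
  push_cast
  ring
theorem phi_zs (a b : Z5) : phi (zs a b) = phi a - phi b := by
  obtain ⟨c, d⟩ := b
  obtain ⟨a, b⟩ := a
  change phi (a - c, b - d) = _
  simp only [phi]
  push_cast
  ring

/-- The residue `c` comes from the real number `x`. -/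
def Lf (x : ℝ) (c : ℕ) : Prop := ∃ a : Z5, num a = x ∧ phi a = c

def md (a : ℕ) : ℕ := Nat.mod a (nat_lit 1073741719)
def ms (a b c d : ℕ) : ℕ :=
  md (Nat.add (Nat.mul a b) (Nat.mul (Nat.sub (nat_lit 1073741719) c) d))

theorem md_lt (a : ℕ) : md a < 1073741719 := Nat.mod_lt _ (by norm_num)

theorem Lf.md {x : ℝ} {c : ℕ} (h : Lf x c) : Lf x (md c) := by
  obtain ⟨a, h1, h2⟩ := h
  exact ⟨a, h1, h2.trans (ZMod.natCast_mod c 1073741719).symm⟩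
theorem Lf.add {x y : ℝ} {c d : ℕ} (h : Lf x c) (k : Lf y d) : Lf (x + y) (Nat.add c d) := by
  obtain ⟨a, rfl, h2⟩ := h
  obtain ⟨b, rfl, k2⟩ := k
  exact ⟨za a b, num_za a b, by rw [phi_za, h2, k2]; simp⟩
theorem Lf.mul {x y : ℝ} {c d : ℕ} (h : Lf x c) (k : Lf y d) : Lf (x * y) (Nat.mul c d) := by
  obtain ⟨a, rfl, h2⟩ := h
  obtain ⟨b, rfl, k2⟩ := k
  exact ⟨zm a b, num_zm a b, by rw [phi_zm, h2, k2]; simp⟩
theorem Lf.neg {x : ℝ} {c : ℕ} (h : Lf x c) (b : c < 1073741719) :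
    Lf (-x) (Nat.sub (nat_lit 1073741719) c) := by
  obtain ⟨a, rfl, h2⟩ := h
  refine ⟨zs (0, 0) a, by simp, ?_⟩
  rw [phi_zs, h2]
  change _ = ((1073741719 - c : ℕ) : ZMod 1073741719)
  rw [Nat.cast_sub b.le, ZMod.natCast_self]
  simp [phi]
theorem lf_nat (n : ℕ) : Lf n n := ⟨(n, 0), by simp, by simp [phi]⟩
theorem Lf.ms {x y z w : ℝ} {a b c d : ℕ} (h1 : Lf x a) (h2 : Lf y b) (h3 : Lf z c) (h4 : Lf w d)
    (k : c < 1073741719) : Lf (x * y - z * w) (ms a b c d) := by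
  have := ((h1.mul h2).add ((h3.neg k).mul h4)).md
  rwa [neg_mul, ← sub_eq_add_neg] at this
theorem Lf.ne {x : ℝ} {c : ℕ} (h : Lf x c) (b : c < 1073741719) (k : Nat.beq c 0 = false) :
    x ≠ 0 := by
  obtain ⟨a, rfl, h2⟩ := h
  intro e
  rw [num_eq_zero e] at h2
  have : ((c : ℕ) : ZMod 1073741719) = 0 := by rw [← h2]; simp [phi]
  rw [ZMod.natCast_eq_zero_iff] at this
  rw [Nat.eq_zero_of_dvd_of_lt this b] at k
  exact absurd k (by decide)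

structure V3 where
  x : ℕ
  y : ℕ
  z : ℕ
structure V6 where
  X : ℕ
  Y : ℕ
  Z : ℕ
  U : ℕ
  V : ℕ
  T : ℕ
structure R3 where
  x : ℝ
  y : ℝ
  z : ℝ

def cr : V3 → V3 → V3
  | ⟨a, b, c⟩, ⟨d, e, f⟩ => ⟨ms b f c e, ms c d a f, ms a e b d⟩
def dt : V3 → V3 → ℕ
  | ⟨a, b, c⟩, ⟨d, e, f⟩ => md (Nat.add (Nat.add (Nat.mul a d) (Nat.mul b e)) (Nat.mul c f))
def R3.cr (u v : R3) : R3 := ⟨u.y * v.z - u.z * v.y, u.z * v.x - u.x * v.z, u.x * v.y - u.y * v.x⟩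
def R3.dt (u v : R3) : ℝ := u.x * v.x + u.y * v.y + u.z * v.z
def Lf3 (u : R3) (c : V3) : Prop := Lf u.x c.x ∧ Lf u.y c.y ∧ Lf u.z c.z
def Bd3 (c : V3) : Prop := c.x < 1073741719 ∧ c.y < 1073741719 ∧ c.z < 1073741719

theorem Lf3.cr {u v : R3} {c d : V3} (h : Lf3 u c) (k : Lf3 v d) (b : Bd3 c) :
    Lf3 (u.cr v) (cr c d) :=
  ⟨h.2.1.ms k.2.2 h.2.2 k.2.1 b.2.2, h.2.2.ms k.1 h.1 k.2.2 b.1, h.1.ms k.2.1 h.2.1 k.1 b.2.1⟩
theorem Lf3.dt {u v : R3} {c d : V3} (h : Lf3 u c) (k : Lf3 v d) : Lf (u.dt v) (dt c d) :=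
  (((h.1.mul k.1).add (h.2.1.mul k.2.1)).add (h.2.2.mul k.2.2)).md

def fn3 (d : ℕ) (p q r s : V3) (a b c : ℕ) : V3 :=
  ⟨ms d a (dt s p) (nat_lit 1), ms d b (dt s q) (nat_lit 1), ms d c (dt s r) (nat_lit 1)⟩
def R3.fn (d : ℝ) (p q r s : R3) (a b c : ℝ) : R3 :=
  ⟨d * a - s.dt p * 1, d * b - s.dt q * 1, d * c - s.dt r * 1⟩
theorem Lf3.fn {d a b c : ℝ} {p q r s : R3} {d' a' b' c' : ℕ} {p' q' r' s' : V3} (hd : Lf d d')
    (hp : Lf3 p p') (hq : Lf3 q q') (hr : Lf3 r r') (hs : Lf3 s s') (ha : Lf a a') (hb : Lf b b')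
    (hc : Lf c c') : Lf3 (R3.fn d p q r s a b c) (fn3 d' p' q' r' s' a' b' c') := by
  have o : Lf 1 (nat_lit 1) := by simpa using lf_nat 1
  exact ⟨hd.ms ha (hs.dt hp) o (md_lt _), hd.ms hb (hs.dt hq) o (md_lt _),
    hd.ms hc (hs.dt hr) o (md_lt _)⟩

def q4 (d : ℕ) (p q r : V3) (xuv xtv uyt vyt utz vtz : ℕ) : ℕ :=
  dt (cr (fn3 d p q r ⟨xuv, nat_lit 0, r.y⟩ q.z (Nat.add p.y xtv) d)
    (fn3 d p q r ⟨nat_lit 0, uyt, q.x⟩ r.z d (Nat.add p.x vyt)))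
    (fn3 d p q r ⟨nat_lit 0, p.x, vtz⟩ d r.y (Nat.add utz q.x))
def R3.q4 (d : ℝ) (p q r : R3) (xuv xtv uyt vyt utz vtz : ℝ) : ℝ :=
  ((R3.fn d p q r ⟨xuv, 0, r.y⟩ q.z (p.y + xtv) d).cr
    (R3.fn d p q r ⟨0, uyt, q.x⟩ r.z d (p.x + vyt))).dt
    (R3.fn d p q r ⟨0, p.x, vtz⟩ d r.y (utz + q.x))
def q3 (d : ℕ) (p q r : V3) (xuv xtv uyt vyt utz vtz : ℕ) : Bool :=
  bif Nat.beq d 0 then false else bif Nat.beq (q4 d p q r xuv xtv uyt vyt utz vtz) 0 then false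
    else true
def q2 (Z U V T xu xy xt yt yz tz zx : V3) : Bool :=
  q3 (dt xy Z) ⟨dt yz U, dt zx U, dt xy U⟩ ⟨dt yz V, dt zx V, dt xy V⟩ ⟨dt yz T, dt zx T, dt xy T⟩
    (dt xu V) (dt xt V) (dt yt U) (dt yt V) (dt tz U) (dt tz V)
def q1 (X Y Z U V T : V3) : Bool :=
  q2 Z U V T (cr X U) (cr X Y) (cr X T) (cr Y T) (cr Y Z) (cr T Z) (cr Z X)
def qd3 : V6 → V6 → V6 → Bool
  | ⟨a1, a2, a3, a4, a5, a6⟩, ⟨b1, b2, b3, b4, b5, b6⟩, ⟨c1, c2, c3, c4, c5, c6⟩ =>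
    q1 ⟨a1, b1, c1⟩ ⟨a2, b2, c2⟩ ⟨a3, b3, c3⟩ ⟨a4, b4, c4⟩ ⟨a5, b5, c5⟩ ⟨a6, b6, c6⟩

theorem det_zero {a b c : R3} {s t u : ℝ} (h1 : s * a.x + t * b.x + u * c.x = 0)
    (h2 : s * a.y + t * b.y + u * c.y = 0) (h3 : s * a.z + t * b.z + u * c.z = 0)
    (hne : ¬(s = 0 ∧ t = 0 ∧ u = 0)) : (a.cr b).dt c = 0 := by
  by_contra k
  refine hne ⟨mul_right_cancel₀ k ?_, mul_right_cancel₀ k ?_, mul_right_cancel₀ k ?_⟩ <;>
    simp only [R3.cr, R3.dt]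
  · linear_combination (b.y * c.z - b.z * c.y) * h1 + (b.z * c.x - b.x * c.z) * h2 +
      (b.x * c.y - b.y * c.x) * h3
  · linear_combination (c.y * a.z - c.z * a.y) * h1 + (c.z * a.x - c.x * a.z) * h2 +
      (c.x * a.y - c.y * a.x) * h3
  · linear_combination (a.y * b.z - a.z * b.y) * h1 + (a.z * b.x - a.x * b.z) * h2 +
      (a.x * b.y - a.y * b.x) * h3

theorem det_zero' {a b c m : R3} (h1 : a.dt m = 0) (h2 : b.dt m = 0) (h3 : c.dt m = 0)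
    (hne : (a.cr b).dt c ≠ 0) : m.x = 0 ∧ m.y = 0 ∧ m.z = 0 := by
  by_contra k
  apply hne
  have := det_zero (a := ⟨a.x, b.x, c.x⟩) (b := ⟨a.y, b.y, c.y⟩) (c := ⟨a.z, b.z, c.z⟩)
    (by simp only [R3.dt] at h1; linear_combination h1)
    (by simp only [R3.dt] at h2; linear_combination h2)
    (by simp only [R3.dt] at h3; linear_combination h3) k
  simp only [R3.dt, R3.cr] at this ⊢
  linear_combination this

theorem qd_real {X Y Z U V T : R3} {x y z : ℝ}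
    (h1 : X.x * (x * x) + Y.x * (y * y) + Z.x * (z * z) + U.x * (x * y) + V.x * (x * z) +
      T.x * (y * z) = 0)
    (h2 : X.y * (x * x) + Y.y * (y * y) + Z.y * (z * z) + U.y * (x * y) + V.y * (x * z) +
      T.y * (y * z) = 0)
    (h3 : X.z * (x * x) + Y.z * (y * y) + Z.z * (z * z) + U.z * (x * y) + V.z * (x * z) +
      T.z * (y * z) = 0) (k1 : (X.cr Y).dt Z ≠ 0)
    (k2 : R3.q4 ((X.cr Y).dt Z) ⟨(Y.cr Z).dt U, (Z.cr X).dt U, (X.cr Y).dt U⟩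
      ⟨(Y.cr Z).dt V, (Z.cr X).dt V, (X.cr Y).dt V⟩ ⟨(Y.cr Z).dt T, (Z.cr X).dt T, (X.cr Y).dt T⟩
      ((X.cr U).dt V) ((X.cr T).dt V) ((Y.cr T).dt U) ((Y.cr T).dt V) ((T.cr Z).dt U)
      ((T.cr Z).dt V) ≠ 0) : x = 0 ∧ y = 0 ∧ z = 0 := by
  by_contra hne
  have d1 := det_zero (a := X)
    (b := ⟨U.x * x + Y.x * y + T.x * z, U.y * x + Y.y * y + T.y * z, U.z * x + Y.z * y + T.z * z⟩)
    (c := ⟨V.x * x + Z.x * z, V.y * x + Z.y * z, V.z * x + Z.z * z⟩) (s := x * x) (t := y) (u := z)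
    (by linear_combination h1) (by linear_combination h2) (by linear_combination h3)
    (by simpa using hne)
  have d2 := det_zero
    (a := ⟨X.x * x + U.x * y + V.x * z, X.y * x + U.y * y + V.y * z, X.z * x + U.z * y + V.z * z⟩)
    (b := Y) (c := ⟨T.x * y + Z.x * z, T.y * y + Z.y * z, T.z * y + Z.z * z⟩) (s := x)
    (t := y * y) (u := z)
    (by linear_combination h1) (by linear_combination h2) (by linear_combination h3)
    (by simpa using hne)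
  have d3 := det_zero
    (a := ⟨X.x * x + U.x * y + V.x * z, X.y * x + U.y * y + V.y * z, X.z * x + U.z * y + V.z * z⟩)
    (b := ⟨Y.x * y + T.x * z, Y.y * y + T.y * z, Y.z * y + T.z * z⟩) (c := Z) (s := x) (t := y)
    (u := z * z) (by linear_combination h1) (by linear_combination h2) (by linear_combination h3)
    (by simpa using hne)
  have cm : ∀ n : R3, n.dt X * (x * x) + n.dt Y * (y * y) + n.dt Z * (z * z) + n.dt U * (x * y) +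
      n.dt V * (x * z) + n.dt T * (y * z) = 0 := fun n => by
    simp only [R3.dt]
    linear_combination n.x * h1 + n.y * h2 + n.z * h3
  have c1 : (X.cr Y).dt Z * (x * x) + (Y.cr Z).dt U * (x * y) + (Y.cr Z).dt V * (x * z) +
      (Y.cr Z).dt T * (y * z) = 0 := by
    have := cm (Y.cr Z)
    simp only [R3.dt, R3.cr] at this ⊢
    linear_combination this
  have c2 : (X.cr Y).dt Z * (y * y) + (Z.cr X).dt U * (x * y) + (Z.cr X).dt V * (x * z) +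
      (Z.cr X).dt T * (y * z) = 0 := by
    have := cm (Z.cr X)
    simp only [R3.dt, R3.cr] at this ⊢
    linear_combination this
  have c3 : (X.cr Y).dt Z * (z * z) + (X.cr Y).dt U * (x * y) + (X.cr Y).dt V * (x * z) +
      (X.cr Y).dt T * (y * z) = 0 := by
    have := cm (X.cr Y)
    simp only [R3.dt, R3.cr] at this ⊢
    linear_combination this
  have e1 : (X.cr U).dt V * (x * x) + (Z.cr X).dt T * (z * z) + (X.cr Y).dt V * (x * y) +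
      ((Z.cr X).dt U + (X.cr T).dt V) * (x * z) + (X.cr Y).dt Z * (y * z) = 0 := by
    simp only [R3.dt, R3.cr] at d1 ⊢
    linear_combination d1
  have e2 : (Y.cr T).dt U * (y * y) + (Y.cr Z).dt V * (z * z) + (X.cr Y).dt T * (x * y) +
      (X.cr Y).dt Z * (x * z) + ((Y.cr Z).dt U + (Y.cr T).dt V) * (y * z) = 0 := by
    simp only [R3.dt, R3.cr] at d2 ⊢
    linear_combination d2
  have e3 : (Y.cr Z).dt U * (y * y) + (T.cr Z).dt V * (z * z) + (X.cr Y).dt Z * (x * y) +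
      (Z.cr X).dt T * (x * z) + ((T.cr Z).dt U + (Y.cr Z).dt V) * (y * z) = 0 := by
    simp only [R3.dt, R3.cr] at d3 ⊢
    linear_combination d3
  unfold R3.q4 at k2
  generalize (X.cr Y).dt Z = d at *
  generalize (Y.cr Z).dt U = p1 at *
  generalize (Z.cr X).dt U = p2 at *
  generalize (X.cr Y).dt U = p3 at *
  generalize (Y.cr Z).dt V = s1 at *
  generalize (Z.cr X).dt V = s2 at *
  generalize (X.cr Y).dt V = s3 at *
  generalize (Y.cr Z).dt T = r1 at *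
  generalize (Z.cr X).dt T = r2 at *
  generalize (X.cr Y).dt T = r3 at *
  generalize (X.cr U).dt V = a1 at *
  generalize (X.cr T).dt V = a2 at *
  generalize (Y.cr T).dt U = a3 at *
  generalize (Y.cr T).dt V = a4 at *
  generalize (T.cr Z).dt U = a5 at *
  generalize (T.cr Z).dt V = a6 at *
  obtain ⟨m1, m2, m3⟩ := det_zero' (m := ⟨x * y, x * z, y * z⟩)
    (by
      simp only [R3.fn, R3.dt]
      linear_combination d * e1 - a1 * c1 - r2 * c3)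
    (by
      simp only [R3.fn, R3.dt]
      linear_combination d * e2 - a3 * c2 - s1 * c3)
    (by
      simp only [R3.fn, R3.dt]
      linear_combination d * e3 - p1 * c2 - a6 * c3) k2
  simp only at m1 m2 m3
  rw [m1, m2, m3] at c1 c2 c3
  apply hne
  simpa [k1] using And.intro c1 (And.intro c2 c3)

noncomputable def R6.dot (q m : R6) : ℝ :=
  q.X * m.X + q.Y * m.Y + q.Z * m.Z + q.U * m.U + q.V * m.V + q.T * m.T
def Lf6 (q : R6) (c : V6) : Prop :=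
  Lf q.X c.X ∧ Lf q.Y c.Y ∧ Lf q.Z c.Z ∧ Lf q.U c.U ∧ Lf q.V c.V ∧ Lf q.T c.T
def Bd6 (c : V6) : Prop := c.X < 1073741719 ∧ c.Y < 1073741719 ∧ c.Z < 1073741719 ∧
  c.U < 1073741719 ∧ c.V < 1073741719 ∧ c.T < 1073741719

/-- The residue row comes from a form with value `r` at `m`. -/
def Val (c : V6) (m : R6) (r : ℝ) : Prop := Bd6 c ∧ ∃ q : R6, Lf6 q c ∧ q.dot m = r

theorem q3_true {d : ℕ} {p q r : V3} {a b c e f g : ℕ} (h : q3 d p q r a b c e f g = true) :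
    Nat.beq d 0 = false ∧ Nat.beq (q4 d p q r a b c e f g) 0 = false := by
  unfold q3 at h
  revert h
  cases Nat.beq d 0 <;> cases Nat.beq (q4 d p q r a b c e f g) 0 <;> simp

theorem qd3_sound {A B C : V6} {v : E3} (hA : Val A (mon v) 0) (hB : Val B (mon v) 0)
    (hC : Val C (mon v) 0) (h : qd3 A B C = true) : v = 0 := by
  obtain ⟨a0, a, a1, a2⟩ := hA
  obtain ⟨b0, b, b1, b2⟩ := hB
  obtain ⟨c0, c, c1, c2⟩ := hC
  have X : Lf3 ⟨a.X, b.X, c.X⟩ ⟨A.X, B.X, C.X⟩ := ⟨a1.1, b1.1, c1.1⟩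
  have Y : Lf3 ⟨a.Y, b.Y, c.Y⟩ ⟨A.Y, B.Y, C.Y⟩ := ⟨a1.2.1, b1.2.1, c1.2.1⟩
  have Z : Lf3 ⟨a.Z, b.Z, c.Z⟩ ⟨A.Z, B.Z, C.Z⟩ := ⟨a1.2.2.1, b1.2.2.1, c1.2.2.1⟩
  have U : Lf3 ⟨a.U, b.U, c.U⟩ ⟨A.U, B.U, C.U⟩ := ⟨a1.2.2.2.1, b1.2.2.2.1, c1.2.2.2.1⟩
  have V : Lf3 ⟨a.V, b.V, c.V⟩ ⟨A.V, B.V, C.V⟩ := ⟨a1.2.2.2.2.1, b1.2.2.2.2.1, c1.2.2.2.2.1⟩
  have T : Lf3 ⟨a.T, b.T, c.T⟩ ⟨A.T, B.T, C.T⟩ := ⟨a1.2.2.2.2.2, b1.2.2.2.2.2, c1.2.2.2.2.2⟩
  have X' : Bd3 ⟨A.X, B.X, C.X⟩ := ⟨a0.1, b0.1, c0.1⟩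
  have Y' : Bd3 ⟨A.Y, B.Y, C.Y⟩ := ⟨a0.2.1, b0.2.1, c0.2.1⟩
  have Z' : Bd3 ⟨A.Z, B.Z, C.Z⟩ := ⟨a0.2.2.1, b0.2.2.1, c0.2.2.1⟩
  have T' : Bd3 ⟨A.T, B.T, C.T⟩ := ⟨a0.2.2.2.2.2, b0.2.2.2.2.2, c0.2.2.2.2.2⟩
  have xy := X.cr Y X'
  have yz := Y.cr Z Y'
  have zx := Z.cr X Z'
  have d := xy.dt Z
  have p : Lf3 ⟨_, _, _⟩ ⟨_, _, _⟩ := ⟨yz.dt U, zx.dt U, xy.dt U⟩
  have q : Lf3 ⟨_, _, _⟩ ⟨_, _, _⟩ := ⟨yz.dt V, zx.dt V, xy.dt V⟩
  have r : Lf3 ⟨_, _, _⟩ ⟨_, _, _⟩ := ⟨yz.dt T, zx.dt T, xy.dt T⟩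
  have o : Lf 0 (nat_lit 0) := by simpa using lf_nat 0
  have k := ((Lf3.fn d p q r (s := ⟨_, _, _⟩) (s' := ⟨_, _, _⟩) ⟨(X.cr U X').dt V, o, r.2.1⟩ q.2.2
    (p.2.1.add ((X.cr T X').dt V)) d).cr
    (Lf3.fn d p q r (s := ⟨_, _, _⟩) (s' := ⟨_, _, _⟩) ⟨o, (Y.cr T Y').dt U, q.1⟩ r.2.2 d
      (p.1.add ((Y.cr T Y').dt V))) ⟨md_lt _, md_lt _, md_lt _⟩).dt
    (Lf3.fn d p q r (s := ⟨_, _, _⟩) (s' := ⟨_, _, _⟩) ⟨o, p.1, (T.cr Z T').dt V⟩ d r.2.1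
      (((T.cr Z T').dt U).add q.1))
  have h := q3_true h
  obtain ⟨e1, e2, e3⟩ := qd_real (x := v 0) (y := v 1) (z := v 2) (X := ⟨a.X, b.X, c.X⟩)
    (Y := ⟨a.Y, b.Y, c.Y⟩) (Z := ⟨a.Z, b.Z, c.Z⟩) (U := ⟨a.U, b.U, c.U⟩) (V := ⟨a.V, b.V, c.V⟩)
    (T := ⟨a.T, b.T, c.T⟩) a2 b2 c2 (d.ne (md_lt _) h.1) (k.ne (md_lt _) h.2)
  ext i
  fin_cases i
  exacts [e1, e2, e3]

/-- Reduction of a number. -/
def rz : Z5 → ℕ
  | (a, b) => md (Nat.add (Int.toNat (Int.emod a (Int.ofNat (nat_lit 1073741719))))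
      (Nat.mul (Int.toNat (Int.emod b (Int.ofNat (nat_lit 1073741719)))) (nat_lit 622276376)))

theorem lf_rz (a : Z5) : Lf (num a) (rz a) := by
  refine Lf.md ⟨a, rfl, ?_⟩
  obtain ⟨a, b⟩ := a
  have k : ∀ a : ℤ, ((Int.toNat (Int.emod a (Int.ofNat (nat_lit 1073741719))) : ℕ) :
      ZMod 1073741719) = a := fun a => by
    change ((Int.toNat (a % 1073741719) : ℕ) : ZMod 1073741719) = a
    rw [← Int.cast_natCast, Int.toNat_of_nonneg (Int.emod_nonneg _ (by decide))]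
    exact ZMod.intCast_mod a 1073741719
  simp only [phi, Nat.add_eq, Nat.mul_eq, Nat.cast_add, Nat.cast_mul, k]
  rfl

def rq : Q6 → V6
  | ⟨a, b, c, d, e, f⟩ => ⟨rz a, rz b, rz c, rz d, rz e, rz f⟩

theorem val_rq (q : Q6) (m : R6) : Val (rq q) m (q.ev m) :=
  ⟨⟨md_lt _, md_lt _, md_lt _, md_lt _, md_lt _, md_lt _⟩,
    ⟨num q.X, num q.Y, num q.Z, num q.U, num q.V, num q.T⟩,
    ⟨lf_rz _, lf_rz _, lf_rz _, lf_rz _, lf_rz _, lf_rz _⟩, rfl⟩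

def h1 (s a b : ℕ) : ℕ := md (Nat.add (Nat.mul a s) b)
def hn (s : ℕ) : V6 → V6 → V6
  | ⟨a1, a2, a3, a4, a5, a6⟩, ⟨b1, b2, b3, b4, b5, b6⟩ =>
    ⟨h1 s a1 b1, h1 s a2 b2, h1 s a3 b3, h1 s a4 b4, h1 s a5 b5, h1 s a6 b6⟩
def s1 (a b : ℕ) : ℕ := md (Nat.add a (Nat.sub (nat_lit 1073741719) b))
def V6.sub : V6 → V6 → V6
  | ⟨a1, a2, a3, a4, a5, a6⟩, ⟨b1, b2, b3, b4, b5, b6⟩ =>
    ⟨s1 a1 b1, s1 a2 b2, s1 a3 b3, s1 a4 b4, s1 a5 b5, s1 a6 b6⟩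

theorem Val.hn {A B : V6} {m : R6} (h : Val A m 0) (k : Val B m 0) (s : ℕ) :
    Val (hn s A B) m 0 := by
  obtain ⟨-, a, a1, a2⟩ := h
  obtain ⟨-, b, b1, b2⟩ := k
  have t : ∀ {x y : ℝ} {c d : ℕ}, Lf x c → Lf y d → Lf (x * s + y) (h1 s c d) := fun p q =>
    ((p.mul (lf_nat s)).add q).md
  refine ⟨⟨md_lt _, md_lt _, md_lt _, md_lt _, md_lt _, md_lt _⟩, ⟨_, _, _, _, _, _⟩,
    ⟨t a1.1 b1.1, t a1.2.1 b1.2.1, t a1.2.2.1 b1.2.2.1, t a1.2.2.2.1 b1.2.2.2.1,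
      t a1.2.2.2.2.1 b1.2.2.2.2.1, t a1.2.2.2.2.2 b1.2.2.2.2.2⟩, ?_⟩
  simp only [R6.dot] at a2 b2 ⊢
  linear_combination s * a2 + b2

theorem Val.sub {A B : V6} {m : R6} {r : ℝ} (h : Val A m r) (k : Val B m r) :
    Val (A.sub B) m 0 := by
  obtain ⟨-, a, a1, a2⟩ := h
  obtain ⟨b0, b, b1, b2⟩ := k
  have t : ∀ {x y : ℝ} {c d : ℕ}, Lf x c → Lf y d → d < 1073741719 → Lf (x + -y) (s1 c d) :=
    fun p q r => (p.add (q.neg r)).md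
  refine ⟨⟨md_lt _, md_lt _, md_lt _, md_lt _, md_lt _, md_lt _⟩, ⟨_, _, _, _, _, _⟩,
    ⟨t a1.1 b1.1 b0.1, t a1.2.1 b1.2.1 b0.2.1, t a1.2.2.1 b1.2.2.1 b0.2.2.1,
      t a1.2.2.2.1 b1.2.2.2.1 b0.2.2.2.1, t a1.2.2.2.2.1 b1.2.2.2.2.1 b0.2.2.2.2.1,
      t a1.2.2.2.2.2 b1.2.2.2.2.2 b0.2.2.2.2.2⟩, ?_⟩
  simp only [R6.dot] at a2 b2 ⊢
  linear_combination a2 - b2

/-- A change of coordinates. -/
def trf : V6 → V6
  | ⟨X, Y, Z, U, V, T⟩ =>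
    ⟨md X, md (Nat.add (Nat.add (Nat.mul X (nat_lit 152399025)) (Nat.mul U (nat_lit 12345))) Y),
      md (Nat.add (Nat.add (Nat.add (Nat.add (Nat.add (Nat.mul X (nat_lit 2950771041))
        (Nat.mul Y (nat_lit 4609187881))) Z) (Nat.mul U (nat_lit 3687907011)))
        (Nat.mul V (nat_lit 54321))) (Nat.mul T (nat_lit 67891))),
      md (Nat.add (Nat.mul X (nat_lit 24690)) U),
      md (Nat.add (Nat.add (Nat.mul X (nat_lit 108642)) (Nat.mul U (nat_lit 67891))) V),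
      md (Nat.add (Nat.add (Nat.add (Nat.add (Nat.mul X (nat_lit 1341185490))
        (Nat.mul U (nat_lit 838168716))) (Nat.mul Y (nat_lit 135782)))
        (Nat.mul V (nat_lit 12345))) T)⟩

/-- The new coordinates. -/
noncomputable def nw (v : E3) : E3 :=
  !₂[v 0 - 12345 * (v 1 - 67891 * v 2) - 54321 * v 2, v 1 - 67891 * v 2, v 2]

theorem nw_zero {v : E3} (h : nw v = 0) : v = 0 := by
  have e0 := congrArg (fun v : E3 => v 0) h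
  have e1 := congrArg (fun v : E3 => v 1) h
  have e2 := congrArg (fun v : E3 => v 2) h
  simp [nw] at e0 e1 e2
  ext i
  fin_cases i <;> simp <;> linarith

theorem lf6_mk {a b c d e f : ℝ} {a' b' c' d' e' f' : ℕ} (h1 : Lf a a') (h2 : Lf b b')
    (h3 : Lf c c') (h4 : Lf d d') (h5 : Lf e e') (h6 : Lf f f') :
    Lf6 ⟨a, b, c, d, e, f⟩ ⟨a', b', c', d', e', f'⟩ := ⟨h1, h2, h3, h4, h5, h6⟩

theorem Val.trf {A : V6} {v : E3} {r : ℝ} (h : Val A (mon v) r) : Val (trf A) (mon (nw v)) r := by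
  obtain ⟨-, a, ⟨X, Y, Z, U, V, T⟩, a2⟩ := h
  have y := (((X.mul (lf_nat 152399025)).add (U.mul (lf_nat 12345))).add Y).md
  have z := ((((((X.mul (lf_nat 2950771041)).add (Y.mul (lf_nat 4609187881))).add Z).add
    (U.mul (lf_nat 3687907011))).add (V.mul (lf_nat 54321))).add (T.mul (lf_nat 67891))).md
  have u := ((X.mul (lf_nat 24690)).add U).md
  have w := (((X.mul (lf_nat 108642)).add (U.mul (lf_nat 67891))).add V).md
  have t := (((((X.mul (lf_nat 1341185490)).add (U.mul (lf_nat 838168716))).add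
    (Y.mul (lf_nat 135782))).add (V.mul (lf_nat 12345))).add T).md
  have l := lf6_mk X.md y z u w t
  refine ⟨⟨md_lt _, md_lt _, md_lt _, md_lt _, md_lt _, md_lt _⟩, _, l, ?_⟩
  simp [R6.dot, mon, nw] at a2 ⊢
  linear_combination a2

/-- Three residue rows. -/
structure T3 where
  A : V6
  B : V6
  C : V6

def T3.Ok (t : T3) (m : R6) : Prop := Val t.A m 0 ∧ Val t.B m 0 ∧ Val t.C m 0

def T3.push : T3 → V6 → T3
  | ⟨A, B, C⟩, d => ⟨hn (nat_lit 1009) A d, hn (nat_lit 2003) B d, hn (nat_lit 3001) C d⟩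

theorem T3.Ok.push {t : T3} {m : R6} (h : t.Ok m) {d : V6} (k : Val d m 0) : (t.push d).Ok m :=
  ⟨h.1.hn k _, h.2.1.hn k _, h.2.2.hn k _⟩

def cmb0 : Ech → T3
  | [] => ⟨rq Q6.zero, rq Q6.zero, rq Q6.zero⟩
  | (_, r) :: W => (cmb0 W).push (rq r)

def T3.trf : T3 → T3
  | ⟨A, B, C⟩ => ⟨MP_708877_co.trf A, MP_708877_co.trf B, MP_708877_co.trf C⟩

def cmb (W : Ech) : T3 := (cmb0 W).trf

def T3.qd : T3 → Bool
  | ⟨A, B, C⟩ => qd3 A B C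

theorem Van.cmb {W : Ech} {v : E3} (h : Van W (mon v)) : (cmb W).Ok (mon (nw v)) := by
  have : (cmb0 W).Ok (mon v) := by
    induction W with
    | nil =>
      have := val_rq Q6.zero (mon v)
      rw [ev_zero] at this
      exact ⟨this, this, this⟩
    | cons r W ih =>
      have := val_rq r.2 (mon v)
      rw [(h r List.mem_cons_self).1] at this
      exact (ih fun r hr => h r (List.mem_cons_of_mem _ hr)).push this
  exact ⟨this.1.trf, this.2.1.trf, this.2.2.trf⟩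

theorem T3.Ok.qd {t : T3} {v : E3} (h : t.Ok (mon (nw v))) (k : t.qd = true) : v = 0 :=
  nw_zero (qd3_sound h.1 h.2.1 h.2.2 k)

end Pool.Agent.P.MP_708877_co
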