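import Pool.Agent.P.MP_708877_co.Full.Top

/-!
A local test that an orbit of coded polygons is a polyhedron.
-/

namespace Pool.Agent.P.MP_708877_co

open Relation

theorem rtg_symm {X : Type} {r : X → X → Prop} (h : ∀ a b, r a b → r b a) {a b : X}
    (k : ReflTransGen r a b) : ReflTransGen r b a := by
  induction k with
  | refl => exact .refl
  | tail _ hbc ih => exact .head (h _ _ hbc) ih

theorem good_of_local {X : Type} {P : Set (Set (Sym2 X))} {w : X} (ne : P.Nonempty)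
    (poly : ∀ F ∈ P, IsPolygon F)
    (tr : ∀ x ∈ verts P, ∃ φ ψ : X → X, image φ P = P ∧ image ψ P = P ∧ (∀ y, φ (ψ y) = y) ∧
      (∀ y, ψ (φ y) = y) ∧ φ w = x)
    (two : ∀ F ∈ P, ∀ y, s(w, y) ∈ F →
      ∃ F' ∈ P, F' ≠ F ∧ s(w, y) ∈ F' ∧ ∀ G ∈ P, s(w, y) ∈ G → G = F ∨ G = F')
    (gc : ∀ x ∈ verts P, ReflTransGen (fun a b => IsEdge P s(a, b)) w x) {y₀ : X}
    (vc : ∀ y, IsEdge P s(w, y) →
      ReflTransGen (fun a b => ∃ F ∈ P, s(w, a) ∈ F ∧ s(w, b) ∈ F) y₀ y) : Good P := by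
  have mv : ∀ {φ : X → X} {F}, image φ P = P → F ∈ P → Sym2.map φ '' F ∈ P :=
    fun {φ F} h hF => h ▸ ⟨F, hF, rfl⟩
  have cn : ∀ {φ ψ : X → X} (F : Set (Sym2 X)), (∀ y, φ (ψ y) = y) →
      Sym2.map φ '' (Sym2.map ψ '' F) = F := fun F h => by
    simp only [face_image_image, h, face_image_id]
  refine ⟨ne, poly, fun F hF e he => ?_, fun v hv x hx => ?_, fun v e e' he he' hv hv' => ?_⟩
  · induction e using Sym2.ind with
    | _ x y =>
    obtain ⟨φ, ψ, a, b, c, d, rfl⟩ := tr x (IsEdge.left ⟨F, hF, he⟩)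
    have m : ∀ {G : Set (Sym2 X)}, s(φ w, y) ∈ G → s(w, ψ y) ∈ Sym2.map ψ '' G :=
      fun h => ⟨_, h, by simp [d]⟩
    obtain ⟨F', h1, h2, h3, h4⟩ := two _ (mv b hF) _ (m he)
    refine ⟨_, mv a h1, fun k => h2 (by rw [← k, cn _ d]), ?_⟩
    ext G
    simp only [Set.mem_ofPred_eq, Set.mem_insert_iff, Set.mem_singleton_iff]
    constructor
    · rintro ⟨hG, eG⟩
      rcases h4 _ (mv b hG) (m eG) with k | k
      · exact Or.inl (by rw [← cn G c, k, cn F c])
      · exact Or.inr (by rw [← k, cn G c])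
    · rintro (rfl | rfl)
      · exact ⟨hF, he⟩
      · exact ⟨mv a h1, _, h3, by simp [c]⟩
  · refine (rtg_symm (fun a b h => ?_) (gc v hv)).trans (gc x hx)
    rwa [Sym2.eq_swap]
  · obtain ⟨y, rfl⟩ := Sym2.mem_iff_exists.1 hv
    obtain ⟨y', rfl⟩ := Sym2.mem_iff_exists.1 hv'
    obtain ⟨φ, ψ, a, b, c, d, rfl⟩ := tr v he.left
    have m : ∀ {y}, IsEdge P s(φ w, y) → IsEdge P s(w, ψ y) := fun h => by
      have := h.image ψ
      rwa [b, Sym2.map_mk, d] at this
    have k := (rtg_symm (fun a b ⟨F, p, q, r⟩ => ⟨F, p, r, q⟩) (vc _ (m he))).trans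
      (vc _ (m he'))
    have := k.lift (p := fun a b => φ w ∈ b ∧ ∃ F ∈ P, a ∈ F ∧ b ∈ F) (fun a => s(φ w, φ a))
      fun p q ⟨F, hF, r, t⟩ => ⟨by simp, _, mv a hF, ⟨_, r, rfl⟩, ⟨_, t, rfl⟩⟩
    simpa only [Function.onFun, c] using this

theorem IsPolygon.nb {X : Type} {F : Set (Sym2 X)} (h : IsPolygon F) {x y z w : X}
    (a : s(y, x) ∈ F) (b : s(y, z) ∈ F) (c : s(y, w) ∈ F) : x = z ∨ x = w ∨ z = w := by
  obtain ⟨f, hf, rfl⟩ := isPolygon_iff.1 h
  obtain ⟨i, rfl⟩ : ∃ i, y = f i := by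
    obtain ⟨i, hi⟩ := a
    rcases Sym2.eq_iff.1 hi with k | k
    exacts [⟨_, k.1.symm⟩, ⟨_, k.2.symm⟩]
  simp only [← Sym2.congr_right (a := f i)]
  rcases hf.edge_at (i := i) a (by simp) with p | p <;>
    rcases hf.edge_at (i := i) b (by simp) with q | q <;>
    rcases hf.edge_at (i := i) c (by simp) with r | r <;> simp only [p, q, r, true_or, or_true]

theorem edges_add {ι X : Type} [AddCommGroup ι] [One ι] (f : ι → X) (c : ι) :
    (edges fun i => f (c + i)) = edges f := by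
  ext e
  simp only [mem_edges]
  constructor
  · rintro ⟨i, rfl⟩
    exact ⟨c + i, by rw [add_assoc]⟩
  · rintro ⟨i, rfl⟩
    exact ⟨i - c, by rw [← add_assoc, add_sub_cancel]⟩

theorem edges_sub {ι X : Type} [AddCommGroup ι] [One ι] (f : ι → X) (c : ι) :
    (edges fun i => f (c - i)) = edges f := by
  ext e
  simp only [mem_edges]
  constructor
  · rintro ⟨i, rfl⟩
    refine ⟨c - (i + 1), ?_⟩
    rw [Sym2.eq_swap]
    congr 2
    abel
  · rintro ⟨i, rfl⟩
    refine ⟨c - (i + 1), ?_⟩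
    rw [Sym2.eq_swap]
    congr 2 <;> abel

/-- Depth-first search. -/
def grow (nx : ℕ → List ℕ) : ℕ → List ℕ → ℕ → ℕ
  | 0, _, U => U
  | _ + 1, [], U => U
  | f + 1, g :: q, U =>
    bif tb U g then grow nx f q U else grow nx f (nx g ++ q) (Nat.lor U (Nat.shiftLeft 1 g))

theorem grow_spec {nx : ℕ → List ℕ} {Q : ℕ → Prop} (h : ∀ a, Q a → ∀ b ∈ nx a, Q b) {f : ℕ}
    {q : List ℕ} {U : ℕ} (h1 : ∀ a ∈ q, Q a) (h2 : ∀ a, tb U a = true → Q a) :
    ∀ a, tb (grow nx f q U) a = true → Q a := by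
  induction f generalizing q U with
  | zero => exact h2
  | succ f ih =>
    cases q with
    | nil => exact h2
    | cons g q =>
      have hq := fun a ha => h1 a (List.mem_cons_of_mem _ ha)
      have hg := h1 g List.mem_cons_self
      unfold grow
      cases tb U g
      · refine ih (fun a ha => (List.mem_append.1 ha).elim (h g hg a) (hq a)) fun a ha => ?_
        rw [tb_eq, Nat.lor_eq, Nat.testBit_or, Nat.shiftLeft_eq', Nat.one_shiftLeft,
          Nat.testBit_two_pow, ← tb_eq] at ha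
        rcases Bool.or_eq_true_iff.1 ha with e | e
        · exact h2 a e
        · rwa [← of_decide_eq_true e]
      · exact ih hq h2

theorem grow_spec0 {nx : ℕ → List ℕ} {Q : ℕ → Prop} (h : ∀ a, Q a → ∀ b ∈ nx a, Q b) {f a₀ : ℕ}
    (h0 : Q a₀) {a : ℕ} (ha : tb (grow nx f [a₀] 0) a = true) : Q a :=
  grow_spec h (by simpa using h0) (fun a h => by simp [tb_eq] at h) a ha

/-- Group, stabiliser and coset representatives. -/
structure Stab (c : Ctx) (w : E3) : Prop where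
  grp : Grp c.o c.G
  r1 : ∀ {a}, tb c.G a = true → tb c.G (c.rep a) = true ∧ tb c.H (mt (iv a) (c.rep a)) = true
  r2 : ∀ {a b}, tb c.G a = true → tb c.G b = true → tb c.H (mt (iv a) b) = true →
    c.rep a = c.rep b
  stab : ∀ {g}, tb c.G g = true → (ac g w = w ↔ tb c.H g = true)

variable {c : Ctx} {w : E3} {a b : ℕ}

theorem Stab.eq_iff' (h : Stab c w) (ha : tb c.G a = true) (hb : tb c.G b = true) :
    ac a w = ac b w ↔ tb c.H (mt (iv a) b) = true := by
  have ba := h.grp.big ha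
  rw [← h.stab (h.grp.mt (h.grp.iv ha) hb), ac_mt (big_iv ba) (h.grp.big hb)]
  constructor
  · intro e
    rw [← e, ac_iv ba]
  · intro e
    rw [← ac_iv' ba (ac b w), e]

theorem Stab.rep (h : Stab c w) (ha : tb c.G a = true) : ac (c.rep a) w = ac a w :=
  ((h.eq_iff' ha (h.r1 ha).1).2 (h.r1 ha).2).symm

theorem Stab.eq_iff (h : Stab c w) (ha : tb c.G a = true) (hb : tb c.G b = true) :
    ac a w = ac b w ↔ c.rep a = c.rep b :=
  ⟨fun e => h.r2 ha hb ((h.eq_iff' ha hb).1 e), fun e => by rw [← h.rep ha, e, h.rep hb]⟩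

def root (c : Ctx) (g : ℕ) (l : List ℕ) (j s : ℕ) : List ℕ :=
  (List.range l.length).map fun i => c.rep (mt g (l.getD ((j + s * i) % l.length) 0))

def memL (r : List ℕ) (D : List (List ℕ)) : Bool := D.any fun q => q == r

/-- Every face through the base vertex is listed. -/
def allRoots (c : Ctx) (faces D : List (List ℕ)) : Bool :=
  faces.all fun l => allIn c.G fun g => allLt l.length fun j =>
    bif tb c.H (mt g (l.getD j 0)) then
      memL (root c g l j 1) D && memL (root c g l j (l.length - 1)) D else true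

/-- A listed face with its origin. -/
def isRoot (c : Ctx) (faces : List (List ℕ)) (r : List ℕ) (g : ℕ) : Bool :=
  tb c.G g && faces.any fun l => l.length == r.length && (List.range l.length).any fun j =>
    tb c.H (mt g (l.getD j 0)) && (root c g l j 1 == r || root c g l j (l.length - 1) == r)

def r1 (r : List ℕ) : ℕ := r.getD 1 0
def rl (r : List ℕ) : ℕ := r.getD (r.length - 1) 0

def twoOk (D : List (List ℕ)) : Bool :=
  D.all fun r => D.any fun r' => r1 r' == r1 r && rl r' != rl r && rl r != r1 r &&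
    rl r' != r1 r && D.all fun q => r1 q != r1 r || q == r || q == r'

def polyOk (c : Ctx) (faces : List (List ℕ)) : Bool :=
  !faces.isEmpty && faces.all fun l => Nat.ble 3 l.length && l.all (tb c.G) &&
    decide (l.map c.rep).Nodup

def conn2 (c : Ctx) (N : List ℕ) : Bool :=
  (fun U => allIn c.G fun g => tb U (c.rep g))
    (grow (fun g => N.map fun n => c.rep (mt g n)) 2000 [0] 0)

def conn1 (c : Ctx) (D : List (List ℕ)) (U : ℕ) : Bool :=
  D.all (fun r => tb U (r1 r)) && conn2 c ((List.range 144).filter (tb U))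

def goodOk (c : Ctx) (faces : List (List ℕ)) (D : List (List ℕ × ℕ)) : Bool :=
  polyOk c faces && D.all (fun p => isRoot c faces p.1 p.2) && c.rep 0 == 0 &&
    (fun D => allRoots c faces D && twoOk D && !D.isEmpty &&
      conn1 c D (grow (fun a => (D.filter fun r => r1 r == a).map rl) 100 [r1 (D.headD [])] 0))
    (D.map Prod.fst)

theorem getD_root {g : ℕ} {l : List ℕ} {j s i : ℕ} (hi : i < l.length) :
    (root c g l j s).getD i 0 = c.rep (mt g (l.getD ((j + s * i) % l.length) 0)) := by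
  rw [List.getD_eq_getElem _ _ (by simpa [root] using hi)]
  simp [root]

theorem fc_congr {l r : List ℕ} {g : ℕ} (e : r.length = l.length) :
    fc g r w = edges fun i : ZMod l.length => ac g (ac (r.getD i.val 0) w) := by
  unfold fc
  rw [e]

theorem fc_root (h : Stab c w) {g : ℕ} {l : List ℕ} (hg : tb c.G g = true) (n0 : l.length ≠ 0)
    (hl : ∀ a ∈ l, tb c.G a = true) (j : ℕ) :
    fc 0 (root c g l j 1) w = fc g l w ∧ fc 0 (root c g l j (l.length - 1)) w = fc g l w := by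
  have : NeZero l.length := ⟨n0⟩
  have p := Nat.pos_of_ne_zero n0
  have k : ∀ s (i : ZMod l.length), ac 0 (ac ((root c g l j s).getD i.val 0) w) =
      ac g (ac (l.getD ((j : ZMod l.length) + s * i).val 0) w) := fun s i => by
    have m := hl _ (getD_mem (Nat.mod_lt (j + s * i.val) p))
    rw [ac_zero, getD_root (ZMod.val_lt i), h.rep (h.grp.mt hg m),
      ac_mt (h.grp.big hg) (h.grp.big m), ← ZMod.val_natCast]
    simp
  constructor <;> rw [fc_congr (l := l) (by simp [root])] <;> simp only [k]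
  · simpa [fc] using edges_add (fun i : ZMod l.length => ac g (ac (l.getD i.val 0) w)) j
  · have := edges_sub (fun i : ZMod l.length => ac g (ac (l.getD i.val 0) w)) j
    simpa [fc, Nat.cast_sub p, sub_eq_add_neg] using this

theorem fc_edges {r : List ℕ} (n : 3 ≤ r.length) (e : ac (r.getD 0 0) w = w) :
    s(w, ac (r1 r) w) ∈ fc 0 r w ∧ s(w, ac (rl r) w) ∈ fc 0 r w := by
  have : NeZero r.length := ⟨by omega⟩
  have : Fact (1 < r.length) := ⟨by omega⟩
  refine ⟨⟨0, ?_⟩, ⟨-1, ?_⟩⟩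
  · simp only [ac_zero, zero_add, ZMod.val_zero, ZMod.val_one, e, r1]
  · obtain ⟨m, hm⟩ : ∃ m, r.length = m + 1 := ⟨r.length - 1, by omega⟩
    have : (-1 : ZMod r.length).val = r.length - 1 := by
      rw [hm]
      exact ZMod.val_neg_one m
    simp only [ac_zero, neg_add_cancel, ZMod.val_zero, this, e, rl, Sym2.eq_swap]

theorem mdl_inv {o : Bool} {G : ℕ} (hG : Grp o G) (faces : List (List ℕ)) (w : E3) {k : ℕ}
    (hk : tb G k = true) : image (ac k) (mdl G faces w) = mdl G faces w := by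
  ext F
  constructor
  · rintro ⟨_, ⟨g, hg, l, hl, rfl⟩, rfl⟩
    exact ⟨_, hG.mt hk hg, l, hl,
      image_fc _ _ _ _ _ fun x => (ac_mt (hG.big hk) (hG.big hg) x).symm⟩
  · rintro ⟨g, hg, l, hl, rfl⟩
    refine ⟨_, ⟨_, hG.mt (hG.iv hk) hg, l, hl, rfl⟩, image_fc _ _ _ _ _ fun x => ?_⟩
    rw [ac_mt (big_iv (hG.big hk)) (hG.big hg), ac_iv' (hG.big hk)]

theorem mdl_vert {o : Bool} {G : ℕ} (hG : Grp o G) {faces : List (List ℕ)}
    (fs : ∀ l ∈ faces, l.length ≠ 0 ∧ ∀ a ∈ l, tb G a = true) {x : E3}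
    (hx : x ∈ verts (mdl G faces w)) : ∃ a, tb G a = true ∧ x = ac a w := by
  obtain ⟨_, ⟨g, hg, l, hl, rfl⟩, _, ⟨i, rfl⟩, hx⟩ := hx
  have : NeZero l.length := ⟨(fs l hl).1⟩
  have k : ∀ i : ZMod l.length, ∃ a, tb G a = true ∧ ac g (ac (l.getD i.val 0) w) = ac a w :=
    fun i => by
      have m := (fs l hl).2 _ (getD_mem (ZMod.val_lt i))
      exact ⟨_, hG.mt hg m, (ac_mt (hG.big hg) (hG.big m) w).symm⟩
  rcases Sym2.mem_iff.1 hx with rfl | rfl <;> exact k _

theorem polyOk_spec {faces : List (List ℕ)} (h : polyOk c faces = true) : faces ≠ [] ∧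
    ∀ l ∈ faces, 3 ≤ l.length ∧ (∀ a ∈ l, tb c.G a = true) ∧ (l.map c.rep).Nodup := by
  simpa [polyOk, and_assoc] using h

theorem good_mdl (h : Stab c w) {faces : List (List ℕ)} {D : List (List ℕ × ℕ)}
    (ok : goodOk c faces D = true) : Good (mdl c.G faces w) := by
  simp only [goodOk, conn1, conn2, Bool.and_eq_true, beq_iff_eq] at ok
  obtain ⟨⟨⟨k1, k2⟩, r0⟩, ⟨⟨k3, k4⟩, k5⟩, k6, k7⟩ := ok
  obtain ⟨ne, fs⟩ := polyOk_spec k1
  have G := h.grp
  have fs' : ∀ l ∈ faces, l.length ≠ 0 ∧ ∀ a ∈ l, tb c.G a = true := fun l hl =>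
    ⟨by have := (fs l hl).1; omega, (fs l hl).2.1⟩
  have poly : ∀ F ∈ mdl c.G faces w, IsPolygon F := by
    rintro _ ⟨g, hg, l, hl, rfl⟩
    obtain ⟨a, b, d⟩ := fs l hl
    have : NeZero l.length := ⟨by omega⟩
    refine ⟨_, _, by omega, by omega, fun i j e => ?_, rfl⟩
    have e := (h.eq_iff (b _ (getD_mem (ZMod.val_lt i))) (b _ (getD_mem (ZMod.val_lt j)))).1
      (ac_inj (G.big hg) e)
    rw [List.getD_eq_getElem _ _ (ZMod.val_lt i), List.getD_eq_getElem _ _ (ZMod.val_lt j)] at e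
    exact ZMod.val_injective _ ((List.Nodup.getElem_inj_iff d
      (hi := by simpa using ZMod.val_lt i) (hj := by simpa using ZMod.val_lt j)).1 (by simpa using e))
  have dr : ∀ r ∈ D.map Prod.fst, fc 0 r w ∈ mdl c.G faces w ∧ s(w, ac (r1 r) w) ∈ fc 0 r w ∧
      s(w, ac (rl r) w) ∈ fc 0 r w ∧ (tb c.G (r1 r) = true ∧ c.rep (r1 r) = r1 r) ∧
      tb c.G (rl r) = true ∧ c.rep (rl r) = rl r := by
    intro r hr
    obtain ⟨p, hp, rfl⟩ := List.mem_map.1 hr
    have t := List.all_eq_true.1 k2 p hp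
    simp only [isRoot, Bool.and_eq_true, List.any_eq_true, beq_iff_eq, Bool.or_eq_true,
      List.mem_range] at t
    obtain ⟨hg, l, hl, n, j, hj, t1, t2⟩ := t
    have a := (fs l hl).1
    obtain ⟨s, e, e2⟩ : ∃ s, root c p.2 l j s = p.1 ∧ fc 0 (root c p.2 l j s) w = fc p.2 l w := by
      rcases t2 with t | t
      exacts [⟨_, t, (fc_root h hg (fs' l hl).1 (fs' l hl).2 j).1⟩,
        ⟨_, t, (fc_root h hg (fs' l hl).1 (fs' l hl).2 j).2⟩]
    have m : ∀ i, tb c.G (mt p.2 (l.getD (i % l.length) 0)) = true := fun i =>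
      G.mt hg ((fs' l hl).2 _ (getD_mem (Nat.mod_lt _ (by omega))))
    have q : ∀ i < l.length, tb c.G (p.1.getD i 0) = true ∧ c.rep (p.1.getD i 0) = p.1.getD i 0 :=
      fun i hi => by
        rw [← e, getD_root hi]
        exact ⟨(h.r1 (m _)).1, (h.eq_iff (h.r1 (m _)).1 (m _)).1 (h.rep (m _))⟩
    have z := fc_edges (w := w) (r := p.1) (by omega) (by
      rw [← e, getD_root (by omega), h.rep (m _), h.stab (m _)]
      simpa [Nat.mod_eq_of_lt hj] using t1)
    exact ⟨by rw [← e, e2]; exact ⟨_, hg, l, hl, rfl⟩, z.1, z.2, q 1 (by omega), q _ (by omega)⟩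
  have rd : ∀ F ∈ mdl c.G faces w, ∀ y, s(w, y) ∈ F →
      ∃ r ∈ D.map Prod.fst, F = fc 0 r w ∧ y = ac (r1 r) w := by
    rintro _ ⟨g, hg, l, hl, rfl⟩ y ⟨i, hi⟩
    obtain ⟨a, b, -⟩ := fs l hl
    have : NeZero l.length := ⟨by omega⟩
    have m : ∀ i : ZMod l.length, tb c.G (l.getD i.val 0) = true := fun i =>
      b _ (getD_mem (ZMod.val_lt i))
    have t : ∀ i : ZMod l.length, ac g (ac (l.getD i.val 0) w) = w → ∀ s, s = 1 ∨ s = l.length - 1 →
        ∃ r ∈ D.map Prod.fst, fc g l w = fc 0 r w ∧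
          ac g (ac (l.getD (i + s).val 0) w) = ac (r1 r) w := fun i e s hs => by
      have u := allLt_spec (allIn_spec (List.all_eq_true.1 k3 l hl) (G.lt hg) hg) (ZMod.val_lt i)
      rw [← ac_mt (G.big hg) (G.big (m i)), h.stab (G.mt hg (m i))] at e
      simp only [e, cond_true, memL, Bool.and_eq_true, List.any_eq_true, beq_iff_eq,
        exists_eq_right] at u
      have f := fc_root h hg (by omega) b i.val
      refine ⟨root c g l i.val s, ?_, ?_, ?_⟩
      · rcases hs with rfl | rfl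
        exacts [u.1, u.2]
      · rcases hs with rfl | rfl
        exacts [f.1.symm, f.2.symm]
      · rw [r1, getD_root (by omega), mul_one, ← val_add_nat, h.rep (G.mt hg (m _)),
          ac_mt (G.big hg) (G.big (m _))]
    rcases Sym2.eq_iff.1 hi with ⟨p, rfl⟩ | ⟨rfl, p⟩
    · simpa using t i p 1 (Or.inl rfl)
    · simpa [Nat.cast_sub (by omega : 1 ≤ l.length)] using t (i + 1) p _ (Or.inr rfl)
  have inj : ∀ {a b}, tb c.G a = true ∧ c.rep a = a → tb c.G b = true ∧ c.rep b = b →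
      ac a w = ac b w → a = b := fun p q e => by
    rw [← p.2, ← q.2]
    exact (h.eq_iff p.1 q.1).1 e
  obtain ⟨r0', hr0⟩ : ∃ r, r ∈ D.map Prod.fst ∧ (D.map Prod.fst).headD [] = r := by
    cases e : D.map Prod.fst with
    | nil => simp [e] at k5
    | cons a _ => exact ⟨a, List.mem_cons_self, rfl⟩
  rw [hr0.2] at k6 k7
  have Q1 := fun {a} => grow_spec0 (a := a) (f := 100) (a₀ := r1 r0')
    (nx := fun a => ((D.map Prod.fst).filter fun r => r1 r == a).map rl)
    (Q := fun a => tb c.G a = true ∧ IsEdge (mdl c.G faces w) s(w, ac a w) ∧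
      ReflTransGen (fun a b => ∃ F ∈ mdl c.G faces w, s(w, a) ∈ F ∧ s(w, b) ∈ F)
        (ac (r1 r0') w) (ac a w))
    (fun a ha b hb => by
      obtain ⟨r, hr, rfl⟩ := List.mem_map.1 hb
      obtain ⟨hr, e⟩ := List.mem_filter.1 hr
      obtain ⟨p, q, t, -, u, -⟩ := dr r hr
      rw [beq_iff_eq.1 e] at q
      exact ⟨u, ⟨_, p, t⟩, ha.2.2.tail ⟨_, p, q, t⟩⟩)
    ⟨(dr _ hr0.1).2.2.2.1.1, ⟨_, (dr _ hr0.1).1, (dr _ hr0.1).2.1⟩, .refl⟩
  refine good_of_local (w := w) (y₀ := ac (r1 r0') w) ⟨_, (dr _ hr0.1).1⟩ poly (fun x hx => ?_)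
    (fun F hF y e => ?_) (fun x hx => ?_) fun y ⟨F, hF, e⟩ => ?_
  · obtain ⟨a, ha, rfl⟩ := mdl_vert G fs' hx
    exact ⟨_, _, mdl_inv G _ _ ha, mdl_inv G _ _ (G.iv ha), ac_iv' (G.big ha), ac_iv (G.big ha),
      rfl⟩
  · obtain ⟨r, hr, rfl, rfl⟩ := rd F hF y e
    have t := List.all_eq_true.1 k4 r hr
    simp only [List.any_eq_true, Bool.and_eq_true, beq_iff_eq, bne_iff_ne, List.all_eq_true,
      Bool.or_eq_true] at t
    obtain ⟨r', hr', ⟨⟨⟨t1, t2⟩, t3⟩, t4⟩, t5⟩ := t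
    obtain ⟨-, -, p3, p4, p5⟩ := dr r hr
    obtain ⟨q1, q2, q3, -, q5⟩ := dr r' hr'
    refine ⟨_, q1, fun k => ?_, t1 ▸ q2, fun F' hF' e' => ?_⟩
    · rw [k] at q3
      rcases (poly _ hF).nb e p3 q3 with k | k | k
      exacts [t3 (inj p4 p5 k).symm, t4 (inj p4 q5 k).symm, t2 (inj p5 q5 k).symm]
    · obtain ⟨q, hq, rfl, k⟩ := rd F' hF' _ e'
      rcases t5 q hq with (u | rfl) | rfl
      exacts [absurd (inj p4 (dr q hq).2.2.2.1 k).symm u, Or.inl rfl, Or.inr rfl]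
  · obtain ⟨a, ha, rfl⟩ := mdl_vert G fs' hx
    rw [← h.rep ha]
    refine (grow_spec0 (Q := fun a => tb c.G a = true ∧
      ReflTransGen (fun a b => IsEdge (mdl c.G faces w) s(a, b)) w (ac a w))
      (fun g hg b hb => ?_) ⟨G.zero, by rw [ac_zero]⟩ (allIn_spec k7 (G.lt ha) ha)).2
    obtain ⟨n, hn, rfl⟩ := List.mem_map.1 hb
    obtain ⟨p, q, -⟩ := Q1 (List.mem_filter.1 hn).2
    refine ⟨(h.r1 (G.mt hg.1 p)).1, hg.2.tail ?_⟩
    have := q.image (ac g)
    rwa [mdl_inv G _ _ hg.1, Sym2.map_mk, ← ac_mt (G.big hg.1) (G.big p),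
      ← h.rep (G.mt hg.1 p)] at this
  · obtain ⟨r, hr, -, rfl⟩ := rd F hF y e
    exact (Q1 (List.all_eq_true.1 k6 r hr)).2.2

end Pool.Agent.P.MP_708877_co
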