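import Pool.Agent.P.MP_708877_co.Full.Orb
import Pool.Agent.P.MP_708877_co.Final

/-!
Checking the table of sites.
-/

namespace Pool.Agent.P.MP_708877_co

open RealInnerProductSpace

/-- Auxiliary data for a site. -/
structure Aux where
  G : ℕ
  W : List Q6
  l0 : L3
  l1 : L3
  k : Z5
  H : ℕ
  vl : ℕ
  ks : List (List ℕ)
  es : List (ℕ × List (List ℕ × ℕ))

def gz (p : List Z5) (i : ℕ) : Z5 := p.getD i (0, 0)
def co3 (p : List Z5) : L3 := ⟨gz p 0, gz p 1, gz p 2⟩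
def Site.M (s : Site) : M3 := ⟨co3 s.x, co3 s.y, co3 s.z⟩
def cn : Q6 := ⟨(0, 0), (1, 0), (0, 0), (0, 0), (-1, 0), (0, 0)⟩
def pq (m : List Z5) : Q6 := ⟨gz m 0, gz m 2, gz m 4, gz m 1, (0, 0), gz m 3⟩
def pq' (m : List Z5) : Q6 := bif Nat.ble m.length 4 then pq ((0, 0) :: m) else Q6.zero
def L3.add : L3 → L3 → L3
  | ⟨a, b, c⟩, ⟨d, e, f⟩ => ⟨za a d, za b e, za c f⟩
def Aux.lam (a : Aux) (q : List Z5) : L3 := (a.l0.sm (gz q 0)).add (a.l1.sm (gz q 1))
def Site.ns (s : Site) : List (List Z5) := [(1, 0)] :: s.n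
def Aux.hom (a : Aux) (r e : L3) : Q6 :=
  ((((lmul a.l0 a.l0).sm r.x).add ((lmul a.l0 a.l1).sm r.y)).add ((lmul a.l1 a.l1).sm r.z)).sub
    ((lmul a.l0 e).sm a.k)

def site1 (s : Site) (a : Aux) : Bool :=
  Nat.ble s.x.length 3 && Nat.ble s.y.length 3 && Nat.ble s.z.length 3 && Nat.ble s.m.length 5 &&
    !zz a.k && s.ns.all (fun q => Nat.ble q.length 2 &&
      ((a.lam q).mulM s.M).eq ((co3 q).sm a.k)) &&
    a.W.all (fun q => mem (insL [] [cn, pq s.m, pq' s.m]) (pull s.M q)) &&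
    mem (insL [] (cn :: a.W.map (pull s.M))) (pq s.m)

def site2 (s : Site) (a : Aux) (W : Ech) : Bool :=
  mem W (a.hom s.M.a mI.a) && mem W (a.hom s.M.b mI.b) && mem W (a.hom s.M.c mI.c) &&
    s.ns.all (fun q => (cmb (insF W [a.lam q])).qd || a.ks.any fun ks => ks.all fun g =>
      Nat.blt g 144 && mem (insF W [a.lam q]) (dQ 0 g)) &&
    allIn a.G fun g => Nat.blt (byt a.vl g) 144 && mem W (dQ g (byt a.vl g)) &&
      bif tb a.H g then mem W (dQ 0 g) else ((cmb W).pd 0 g).qd ||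
        s.ns.any fun q => mem (fixW W g) (lmul (a.lam q) (a.lam q))

noncomputable def pt3 (t : ℝ) : E3 := !₂[1, t, t * t]
noncomputable def Site.V (s : Site) (t : ℝ) : E3 := !₂[ev s.x t, ev s.y t, ev s.z t]

/-- The equations and inequations of a site. -/
def Nice (s : Site) (a : Aux) (w : E3) : Prop :=
  (∀ q ∈ a.W, q.ev (mon w) = 0) ∧ ∀ q ∈ s.ns, (a.lam q).ev w ≠ 0

theorem ev_five {m : List Z5} (h : m.length ≤ 5) (t : ℝ) : ev m t =
    num (gz m 0) + num (gz m 1) * t + num (gz m 2) * t ^ 2 + num (gz m 3) * t ^ 3 +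
      num (gz m 4) * t ^ 4 := by
  rcases m with _ | ⟨a, _ | ⟨b, _ | ⟨c, _ | ⟨d, _ | ⟨e, _ | ⟨f, m⟩⟩⟩⟩⟩⟩ <;>
    first
    | (simp only [List.length_cons] at h; omega)
    | (simp [ev, gz]; done)
    | (simp [ev, gz]; ring)

theorem gz_zero {m : List Z5} {i : ℕ} (h : m.length ≤ i) : num (gz m i) = 0 := by
  rw [gz, List.getD_eq_default _ _ h, num_zero]

theorem ev_pq {m : List Z5} (h : m.length ≤ 5) (t : ℝ) : (pq m).ev (mon (pt3 t)) = ev m t := by
  rw [ev_five h]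
  simp [pq, Q6.ev, mon, pt3]
  ring

theorem ev_co3 {m : List Z5} (h : m.length ≤ 3) (t : ℝ) : (co3 m).ev (pt3 t) = ev m t := by
  rw [ev_five (by omega), gz_zero h, gz_zero (by omega : m.length ≤ 4)]
  simp only [co3, L3.ev, pt3, Matrix.cons_val]
  ring

theorem ev_cn (t : ℝ) : cn.ev (mon (pt3 t)) = 0 := by simp [cn, Q6.ev, mon, pt3]

theorem ev_pq' {m : List Z5} {t : ℝ} (h : ev m t = 0) : (pq' m).ev (mon (pt3 t)) = 0 := by
  unfold pq'
  cases e : Nat.ble m.length 4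
  · simp
  · rw [cond_true, ev_pq (m := (0, 0) :: m) (Nat.succ_le_succ (Nat.le_of_ble_eq_true e))]
    change num (0, 0) + t * ev m t = 0
    simp [h]

theorem L3.ev_sm (l : L3) (z : Z5) (v : E3) : (l.sm z).ev v = num z * l.ev v := by
  simp [L3.sm, L3.ev]; ring
theorem L3.ev_add (l k : L3) (v : E3) : (l.add k).ev v = l.ev v + k.ev v := by
  simp [L3.add, L3.ev]; ring
theorem L3.ev_smul (l : L3) (c : ℝ) (v : E3) : l.ev (c • v) = c * l.ev v := by
  simp [L3.ev]; ring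
theorem L3.ev_eq {l k : L3} (h : l.eq k = true) (v : E3) : l.ev v = k.ev v := by
  simp only [L3.eq, Bool.and_eq_true] at h
  simp only [L3.ev, ze_spec h.1.1, ze_spec h.1.2, ze_spec h.2]

variable {s : Site} {a : Aux} {w : E3}

theorem ev_lam (q : List Z5) : (a.lam q).ev w = num (gz q 0) * a.l0.ev w + num (gz q 1) * a.l1.ev w := by
  rw [Aux.lam, L3.ev_add, L3.ev_sm, L3.ev_sm]

theorem act_M (h : site1 s a = true) (t : ℝ) : act s.M.mat (pt3 t) = s.V t := by
  simp only [site1, Bool.and_eq_true, Nat.ble_eq] at h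
  obtain ⟨⟨⟨⟨⟨⟨⟨x, y⟩, z⟩, -⟩, -⟩, -⟩, -⟩, -⟩ := h
  rw [Site.V, ← ev_co3 x, ← ev_co3 y, ← ev_co3 z]
  ext i
  fin_cases i <;> simp [act, M3.mat, Site.M, L3.ev, dotProduct, Fin.sum_univ_three]

theorem nice_V (h : site1 s a = true) {t : ℝ} (hm : ev s.m t = 0) (hn : ∀ q ∈ s.n, ev q t ≠ 0) :
    Nice s a (s.V t) := by
  rw [← act_M h]
  simp only [site1, Bool.and_eq_true, Nat.ble_eq, List.all_eq_true, Bool.not_eq_true'] at h
  obtain ⟨⟨⟨⟨⟨-, m⟩, k⟩, n⟩, W⟩, -⟩ := h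
  refine ⟨fun q hq => ?_, fun q hq => ?_⟩
  · rw [← ev_pull]
    refine ((van_nil _).insL ?_).mem (W q hq)
    simp [ev_cn, ev_pq m, hm, ev_pq' hm]
  · rw [← ev_mulM, L3.ev_eq (n q hq).2, L3.ev_sm, ev_co3 (by have := (n q hq).1; omega)]
    refine mul_ne_zero (num_ne_zero k) ?_
    rcases List.mem_cons.1 hq with rfl | hq
    · simp [ev]
    · exact hn q hq

theorem Nice.l0 (h : Nice s a w) : a.l0.ev w ≠ 0 := by
  simpa [ev_lam, gz] using h.2 _ List.mem_cons_self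

theorem Nice.ne (h : Nice s a w) : w ≠ 0 := by
  rintro rfl
  exact h.l0 (by simp [L3.ev])

theorem Nice.van (h : Nice s a w) : Van (insL [] a.W) (mon w) := (van_nil _).insL h.1

theorem Nice.param (h : Nice s a w) (h1 : site1 s a = true) (h2 : site2 s a (insL [] a.W) = true) :
    ∃ t c : ℝ, c ≠ 0 ∧ ev s.m t = 0 ∧ (∀ q ∈ s.n, ev q t ≠ 0) ∧ w = c • s.V t := by
  have hM := act_M h1
  simp only [site1, Bool.and_eq_true, Nat.ble_eq, List.all_eq_true, Bool.not_eq_true'] at h1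
  obtain ⟨⟨⟨⟨⟨-, m⟩, k⟩, n⟩, -⟩, W⟩ := h1
  simp only [site2, Bool.and_eq_true] at h2
  obtain ⟨⟨⟨⟨x, y⟩, z⟩, -⟩, -⟩ := h2
  have l0 := h.l0
  have k0 := num_ne_zero k
  have e : w = (a.l0.ev w / num a.k) • s.V (a.l1.ev w / a.l0.ev w) := by
    have key : ∀ r e : L3, mem (insL [] a.W) (a.hom r e) = true →
        e.ev w = a.l0.ev w / num a.k * r.ev (pt3 (a.l1.ev w / a.l0.ev w)) := fun r e q => by
      have := h.van.mem q
      simp only [Aux.hom, ev_sub, ev_add, ev_sm, ev_lmul] at this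
      generalize a.l0.ev w = A at *
      generalize a.l1.ev w = B at *
      generalize e.ev w = X at *
      simp only [L3.ev, pt3, Matrix.cons_val]
      field_simp
      linear_combination -this
    have x := key _ _ x
    have y := key _ _ y
    have z := key _ _ z
    rw [← hM]
    generalize a.l0.ev w / num a.k = A at *
    generalize pt3 _ = B at *
    ext i
    fin_cases i
    · simpa [mI, L3.ev, act, M3.mat, dotProduct, Fin.sum_univ_three] using x
    · simpa [mI, L3.ev, act, M3.mat, dotProduct, Fin.sum_univ_three] using y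
    · simpa [mI, L3.ev, act, M3.mat, dotProduct, Fin.sum_univ_three] using z
  refine ⟨_, _, div_ne_zero l0 k0, ?_, fun q hq => ?_, e⟩
  · rw [← ev_pq m]
    refine ((van_nil _).insL fun q hq => ?_).mem W
    rcases List.mem_cons.1 hq with rfl | hq
    · exact ev_cn _
    · obtain ⟨q, hq', rfl⟩ := List.mem_map.1 hq
      have := h.1 q hq'
      rw [e, ev_smul] at this
      rw [ev_pull, hM]
      exact (mul_eq_zero.1 this).resolve_left (pow_ne_zero _ (div_ne_zero l0 k0))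
  · have hq' := List.mem_cons_of_mem [((1 : ℤ), (0 : ℤ))] hq
    have := h.2 q hq'
    have l := (n q hq').1
    rw [ev_five (by omega), gz_zero l, gz_zero (by omega : q.length ≤ 3),
      gz_zero (by omega : q.length ≤ 4)]
    rw [ev_lam] at this
    intro e
    apply this
    simp only [zero_mul, add_zero] at e
    field_simp at e
    linear_combination e

theorem nice_of (h2 : site2 s a (insL [] a.W) = true) (w0 : w ≠ 0)
    (hW : ∀ q ∈ a.W, q.ev (mon w) = 0) (hk : ∀ ks ∈ a.ks, ∃ g ∈ ks, ac g w ≠ w) : Nice s a w := by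
  simp only [site2, Bool.and_eq_true, List.all_eq_true, Bool.or_eq_true, List.any_eq_true,
    Nat.blt_eq] at h2
  refine ⟨hW, fun q hq e => ?_⟩
  have W := ((van_nil _).insL hW).insF (l := [a.lam q]) (by simpa using e)
  rcases h2.1.2 q hq with t | ⟨ks, m, t⟩
  · exact w0 (W.cmb.qd t)
  · obtain ⟨g, hg, n⟩ := hk ks m
    exact n ((fix_iff (t g hg).1 w).1 (W.mem (t g hg).2))

theorem cond_split {b x y : Bool} (h : (bif b then x else y) = true) :
    (b = true ∧ x = true) ∨ (b = false ∧ y = true) := by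
  cases b <;> simpa using h

theorem Nice.tab (h : Nice s a w) (h2 : site2 s a (insL [] a.W) = true) {g : ℕ}
    (l : g < 144) (hg : tb a.G g = true) :
    ⟪w, ac g w⟫ = ⟪w, ac (byt a.vl g) w⟫ ∧ (ac g w = w ↔ tb a.H g = true) := by
  simp only [site2, Bool.and_eq_true] at h2
  have t := allIn_spec h2.2 l hg
  simp only [Bool.and_eq_true, Nat.blt_eq] at t
  refine ⟨(ev_dQ l t.1.1 w).1 (h.van.mem t.1.2), ?_⟩
  rcases cond_split t.2 with ⟨e, t⟩ | ⟨e, t⟩ <;> rw [e]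
  · exact ⟨fun _ => rfl, fun _ => (fix_iff l w).1 (h.van.mem t)⟩
  · refine ⟨fun f => ?_, fun f => nomatch f⟩
    rcases Bool.or_eq_true_iff.1 t with t | t
    · exact absurd ((h.van.cmb.pd (by norm_num) l (by rw [f, ac_zero])).qd t) h.ne
    · obtain ⟨q, hq, t⟩ := List.any_eq_true.1 t
      have := (h.van.fixW l f).mem t
      rw [ev_lmul] at this
      exact absurd (mul_self_eq_zero.1 this) (h.2 q hq)

def toep (vl : ℕ) (l : List ℕ) (n : ℕ) : Bool :=
  allLt n fun i => allLt n fun j => Nat.beq (byt vl (mt (iv (l.getD i 0)) (l.getD j 0)))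
    (byt vl (mt (iv (l.getD ((i + (n - 1) * j) % n) 0)) (l.getD 0 0)))

def genOk (G : ℕ) (gens : List ℕ) : Bool :=
  gens.all (tb G) && allIn G (tb (grow (fun g => gens.map (mt g)) 2000 [0] 0))

def entOk (a : Aux) (c : Ctx) (e : List ℕ × List (List ℕ)) (D : List (List ℕ × ℕ)) : Bool :=
  allIn c.G (fun g => tb a.G g && tb c.H g == tb a.H g) && genOk c.G e.1 && goodOk c e.2 D &&
    e.2.all fun l => toep a.vl l l.length

theorem model_eq {o : Bool} {G : ℕ} (hG : Grp o G) {gens : List ℕ} (h : genOk G gens = true)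
    (faces : List (List ℕ)) (v : E3) : model gens faces v = mdl G faces v := by
  simp only [genOk, Bool.and_eq_true, List.all_eq_true] at h
  have key : ∀ g, g ∈ Submonoid.closure (el '' {n | n ∈ gens}) ↔ ∃ n, tb G n = true ∧ g = el n := by
    refine fun g => ⟨fun hg => ?_, ?_⟩
    · induction hg using Submonoid.closure_induction with
      | mem x hx =>
        obtain ⟨n, hn, rfl⟩ := hx
        exact ⟨n, h.1 n hn, rfl⟩
      | one => exact ⟨0, hG.zero, el_zero.symm⟩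
      | mul x y _ _ p q =>
        obtain ⟨n, hn, rfl⟩ := p
        obtain ⟨m, hm, rfl⟩ := q
        exact ⟨_, hG.mt hn hm, (el_mt (hG.big hn) (hG.big hm)).symm⟩
    · rintro ⟨n, hn, rfl⟩
      refine (grow_spec0 (Q := fun n => tb G n = true ∧
        el n ∈ Submonoid.closure (el '' {n | n ∈ gens})) (fun a ha b hb => ?_)
        ⟨hG.zero, el_zero ▸ one_mem _⟩ (allIn_spec h.2 (hG.lt hn) hn)).2
      obtain ⟨k, hk, rfl⟩ := List.mem_map.1 hb
      refine ⟨hG.mt ha.1 (h.1 k hk), ?_⟩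
      rw [el_mt (hG.big ha.1) (hG.big (h.1 k hk))]
      exact mul_mem ha.2 (Submonoid.subset_closure ⟨k, hk, rfl⟩)
  ext F
  simp only [model, mdl, key, Set.mem_ofPred_eq, act_mul]
  constructor
  · rintro ⟨_, ⟨n, hn, rfl⟩, l, hl, rfl⟩
    exact ⟨n, hn, l, hl, rfl⟩
  · rintro ⟨n, hn, l, hl, rfl⟩
    exact ⟨_, ⟨n, hn, rfl⟩, l, hl, rfl⟩

theorem ac_smul (g : ℕ) (c : ℝ) (v : E3) : ac g (c • v) = c • ac g v := by
  ext i
  simp [ac, act, Matrix.mulVec_smul]

theorem mdl_smul (G : ℕ) (faces : List (List ℕ)) (c : ℝ) (v : E3) :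
    mdl G faces (c • v) = image (fun x => c • x) (mdl G faces v) := by
  have k : ∀ g l, Sym2.map (fun x => c • x) '' fc g l v = fc g l (c • v) := fun g l => by
    simp only [fc, image_edges, ac_smul]
  ext F
  constructor
  · rintro ⟨g, hg, l, hl, rfl⟩
    exact ⟨_, ⟨g, hg, l, hl, rfl⟩, k g l⟩
  · rintro ⟨_, ⟨g, hg, l, hl, rfl⟩, rfl⟩
    exact ⟨g, hg, l, hl, k g l⟩

/-- The checked part of a coset table. -/
def Ctx.okc (c : Ctx) : Bool := grpOk c.o c.G && c.ok1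

theorem stab_of {c : Ctx} (hc : c.okc = true)
    (h : ∀ {g}, tb c.G g = true → (ac g w = w ↔ tb c.H g = true)) :
    Stab c w ∧ ∀ h ∈ c.HL, tb c.G h = true ∧ tb c.H h = true := by
  simp only [Ctx.okc, Ctx.ok1, Bool.and_eq_true, List.all_eq_true] at hc
  obtain ⟨h0, h1⟩ := hc
  have G := grp_of_ok h0
  have k : ∀ {a}, tb c.G a = true → _ := fun {a} ha => allIn_spec h1.2 (G.lt ha) ha
  simp only [Bool.and_eq_true] at k
  exact ⟨⟨G, fun ha => (k ha).1, fun ha hb e => by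
    simpa [e] using allIn_spec (k ha).2 (G.lt hb) hb, h⟩, h1.1.1.1⟩

theorem Nice.unif (h : Nice s a w) (h2 : site2 s a (insL [] a.W) = true) {c : Ctx}
    (hc : c.okc = true) {e : List ℕ × List (List ℕ)} {D : List (List ℕ × ℕ)}
    (he : entOk a c e D = true) : IsUniform (mdl c.G e.2 w) ∧ ∀ h ∈ c.HL, ac h w = w := by
  simp only [entOk, Bool.and_eq_true, List.all_eq_true] at he
  obtain ⟨⟨⟨k1, -⟩, k2⟩, k3⟩ := he
  have G := grp_of_ok (Bool.and_eq_true_iff.1 hc).1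
  have k : ∀ {g}, tb c.G g = true → tb a.G g = true ∧ tb c.H g = tb a.H g := fun hg => by
    simpa using allIn_spec k1 (G.lt hg) hg
  obtain ⟨S, hl⟩ := stab_of (w := w) hc fun hg => (k hg).2 ▸ (h.tab h2 (G.lt hg) (k hg).1).2
  have fs := (polyOk_spec (c := c) (faces := e.2) (by
    simp only [goodOk, Bool.and_eq_true] at k2
    exact k2.1.1.1)).2
  have fs' : ∀ l ∈ e.2, l.length ≠ 0 ∧ ∀ a ∈ l, tb c.G a = true := fun l hl =>
    ⟨by have := (fs l hl).1; omega, (fs l hl).2.1⟩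
  refine ⟨⟨(good_mdl S k2).isPolyhedron, ?_, fun x hx y hy => ?_⟩,
    fun g hg => (S.stab (hl g hg).1).2 (hl g hg).2⟩
  · rintro _ ⟨g, hg, l, hl, rfl⟩
    obtain ⟨n0, b⟩ := fs' l hl
    have : NeZero l.length := ⟨n0⟩
    have m : ∀ i : ZMod l.length, tb c.G (l.getD i.val 0) = true := fun i =>
      b _ (getD_mem (ZMod.val_lt i))
    have v : ∀ i j : ZMod l.length, ⟪ac g (ac (l.getD i.val 0) w), ac g (ac (l.getD j.val 0) w)⟫ =
        ⟪w, ac (byt a.vl (mt (iv (l.getD i.val 0)) (l.getD j.val 0))) w⟫ := fun i j => by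
      rw [inner_ac (G.big hg), inner_ac2 (G.big (m i)) (G.big (m j)),
        (h.tab h2 (G.lt (G.mt (G.iv (m i)) (m j))) (k (G.mt (G.iv (m i)) (m j))).1).1]
    refine regular_of _ (fun i => ⟪ac g (ac (l.getD i.val 0) w),
      ac g (ac (l.getD (0 : ZMod l.length).val 0) w)⟫) fun i j => ?_
    have t := allLt_spec (allLt_spec (k3 l hl) (ZMod.val_lt i)) (ZMod.val_lt j)
    have u : (i - j).val = (i.val + (l.length - 1) * j.val) % l.length := by
      rw [← ZMod.val_natCast]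
      simp [Nat.cast_sub (Nat.pos_of_ne_zero n0), sub_eq_add_neg]
    rw [v, v, Nat.eq_of_beq_eq_true t, u, ZMod.val_zero]
  · obtain ⟨p, hp, rfl⟩ := mdl_vert G fs' hx
    obtain ⟨q, hq, rfl⟩ := mdl_vert G fs' hy
    have m := G.mt hq (G.iv hp)
    obtain ⟨L, hL⟩ := ac_iso (G.big m)
    refine ⟨L.toIsometryEquiv, ?_, ?_⟩ <;> rw [LinearIsometryEquiv.coe_toIsometryEquiv, hL]
    · exact mdl_inv G _ _ m
    · rw [ac_mt (G.big hq) (big_iv (G.big hp)), ac_iv (G.big hp)]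

/-- Similar to a member of the list. -/
def Listed (S : List Site) (P : Set (Set (Sym2 E3))) : Prop :=
  ∃ (c : ℝ) (g : E3 ≃ᵢ E3) (Q : Set (Set (Sym2 E3))),
    0 < c ∧ (IsModel Q ∨ ∃ s ∈ S, s.Has Q) ∧ P = image (fun x => c • g x) Q

theorem Listed.of_image {S : List Site} (P : Set (Set (Sym2 E3))) (L : E3 ≃ₗᵢ[ℝ] E3)
    (h : Listed S (image L P)) : Listed S P := by
  obtain ⟨c, g, Q, c0, hQ, e⟩ := h
  refine ⟨c, g.trans L.symm.toIsometryEquiv, Q, c0, hQ, ?_⟩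
  have := congrArg (image L.symm) e
  simpa [image_image, image_id] using this

def c00 : Ctx := ⟨false, 0, 0, [], 0, 0, 0, 0, 0, 0, 0, 0, 0⟩
def mkE (a : Aux) (c : Ctx) (faces : List (List ℕ)) : Ent := ⟨c.o, a.W, c.G, c.HL, faces, a.ks⟩
def ents (cs : List Ctx) (s : Site) (a : Aux) : List Ent :=
  (s.data.zip a.es).map fun p => mkE a (cs.getD p.2.1 c00) p.1.2
def allE (cs : List Ctx) (S : List Site) (A : List Aux) : List Ent :=
  (S.zip A).flatMap fun p => ents cs p.1 p.2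
def fullOk (cs : List Ctx) (s : Site) (a : Aux) : Bool :=
  site1 s a && site2 s a (insL [] a.W) && Nat.beq s.data.length a.es.length &&
    (s.data.zip a.es).all fun p => Nat.blt p.2.1 cs.length && entOk a (cs.getD p.2.1 c00) p.1 p.2.2

theorem full_spec {cs : List Ctx} (hcs : cs.all Ctx.okc = true) (h : fullOk cs s a = true) :
    site1 s a = true ∧ site2 s a (insL [] a.W) = true ∧ s.data.length = a.es.length ∧
      ∀ p ∈ s.data.zip a.es, (cs.getD p.2.1 c00).okc = true ∧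
        entOk a (cs.getD p.2.1 c00) p.1 p.2.2 = true := by
  simp only [fullOk, Bool.and_eq_true, List.all_eq_true, Nat.beq_eq, Nat.blt_eq] at h
  refine ⟨h.1.1.1, h.1.1.2, h.1.2, fun p hp => ⟨List.all_eq_true.1 hcs _ ?_, (h.2 p hp).2⟩⟩
  rw [List.getD_eq_getElem _ _ (h.2 p hp).1]
  exact List.getElem_mem _

theorem has_unif {cs : List Ctx} (hcs : cs.all Ctx.okc = true) (h : fullOk cs s a = true)
    {Q : Set (Set (Sym2 E3))} (hQ : s.Has Q) : IsUniform Q := by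
  obtain ⟨h1, h2, h3, h4⟩ := full_spec hcs h
  obtain ⟨t, hm, hn, e, he, rfl⟩ := hQ
  obtain ⟨i, hi, rfl⟩ := List.getElem_of_mem he
  obtain ⟨p, q⟩ := h4 (s.data[i], a.es[i]'(h3 ▸ hi))
    (List.mem_iff_getElem.2 ⟨i, by simp [← h3, hi], by simp⟩)
  have g := q
  simp only [entOk, Bool.and_eq_true] at g
  rw [model_eq (grp_of_ok (Bool.and_eq_true_iff.1 p).1) g.1.1.2]
  exact ((nice_V h1 hm hn).unif h2 p q).1

theorem ents_sound {S : List Site} {cs : List Ctx} (hcs : cs.all Ctx.okc = true)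
    (h : fullOk cs s a = true) (hs : s ∈ S) : ∀ e ∈ ents cs s a, e.Sound (Listed S) := by
  obtain ⟨h1, h2, -, h4⟩ := full_spec hcs h
  intro e he
  obtain ⟨p, hp, rfl⟩ := List.mem_map.1 he
  obtain ⟨q, r⟩ := h4 p hp
  have g := r
  simp only [entOk, goodOk, Bool.and_eq_true] at g
  have G := grp_of_ok (Bool.and_eq_true_iff.1 q).1
  have fs := (polyOk_spec g.1.2.1.1.1).2
  have hl := (Bool.and_eq_true_iff.1 q).2
  simp only [Ctx.ok1, Bool.and_eq_true, List.all_eq_true] at hl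
  refine ⟨G, fun h hh => (hl.1.1.1 h hh).1, fun l hl =>
    ⟨by have := (fs l hl).1; omega, (fs l hl).2.1⟩, fun w w0 hW hk => ?_⟩
  have N := nice_of h2 w0 hW hk
  obtain ⟨u, v⟩ := N.unif h2 q r
  refine ⟨u.1.good, ?_, v⟩
  obtain ⟨t, c, c0, hm, hn, rfl⟩ := N.param h1 h2
  have H : s.Has (mdl (cs.getD p.2.1 c00).G p.1.2 (s.V t)) :=
    ⟨t, hm, hn, p.1, (List.of_mem_zip hp).1, (model_eq G g.1.1.2 _ _).symm⟩
  rcases lt_or_gt_of_ne c0 with c1 | c1
  · exact ⟨-c, IsometryEquiv.neg E3, _, neg_pos.2 c1, Or.inr ⟨s, hs, H⟩,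
      (mdl_smul _ _ _ _).trans (by simp [mkE])⟩
  · exact ⟨c, .refl _, _, c1, Or.inr ⟨s, hs, H⟩, mdl_smul _ _ _ _⟩

theorem table_spec {S : List Site} {A : List Aux} {cs : List Ctx} (hcs : cs.all Ctx.okc = true)
    (h : List.Forall₂ (fun s a => fullOk cs s a = true) S A) :
    (∀ e ∈ allE cs S A, e.Sound (Listed S)) ∧ ∀ s ∈ S, ∀ Q, s.Has Q → IsUniform Q := by
  have h' := List.forall₂_iff_zip.1 h
  refine ⟨fun e he => ?_, fun s hs Q hQ => ?_⟩
  · obtain ⟨p, hp, he⟩ := List.mem_flatMap.1 he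
    exact ents_sound hcs (h'.2 hp) (List.of_mem_zip hp).1 e he
  · obtain ⟨i, hi, rfl⟩ := List.getElem_of_mem hs
    have m : (S[i], A[i]'(h'.1 ▸ hi)) ∈ S.zip A :=
      List.mem_iff_getElem.2 ⟨i, by simp [← h'.1, hi], by simp⟩
    exact has_unif hcs (h'.2 m) hQ

end Pool.Agent.P.MP_708877_co
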