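import Pool.Agent.P.MP_708877_co.Full.Defs

/-!
The table of base vertices, groups and faces.
-/

namespace Pool.Agent.P.MP_708877_co

/-- Generators of the full group of the tetrahedron. -/
def genTd : List ℕ := [6, 8, 120]
/-- Generators of the pyritohedral group. -/
def genTh : List ℕ := [1, 8]
/-- Generators of the rotation group of the cube. -/
def genO : List ℕ := [6, 8, 127]
/-- Generators of the full group of the cube. -/
def genOh : List ℕ := [1, 8, 120]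
/-- Generators of the rotation group of the icosahedron. -/
def genI : List ℕ := [6, 24]
/-- Generators of the full group of the icosahedron. -/
def genIh : List ℕ := [1, 24]

def row1 : Site where
  x := [(0, 0), (1, 0)]
  y := [(1, 0)]
  z := [(1, 0)]
  m := []
  n := [[(1, 0), (1, 0)], [(-1, 0), (1, 0)]]
  data := [
    (genTd, [[0, 11, 21], [0, 11, 6, 14]])]

def row2 : Site where
  x := [(0, 0), (1, 0)]
  y := [(1, 0)]
  z := []
  m := []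
  n := [[(0, 0), (1, 0)]]
  data := [
    (genTh, [[0, 8, 16], [0, 8, 18, 6, 14, 20]])]

def row3 : Site where
  x := [(0, 0), (1, 0)]
  y := [(1, 0)]
  z := [(1, 0)]
  m := []
  n := [[(0, 0), (1, 0)], [(1, 0), (1, 0)], [(-1, 0), (1, 0)]]
  data := [
    (genOh, [[0, 9, 6, 12], [0, 9, 19, 7, 14, 20]])]

def row4 : Site where
  x := [(0, 0), (1, 0)]
  y := [(1, 0)]
  z := []
  m := []
  n := [[(0, 0), (1, 0)], [(-1, 1), (1, 1)], [(1, -1), (1, 1)], [(2, 0), (-1, 1)], [(-2, 0), (-1,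
    1)]]
  data := [
    (genIh, [[0, 30, 86], [0, 30, 48, 78, 96, 6, 24, 54, 72, 102]]),
    (genIh, [[0, 36, 106], [0, 36, 54, 116, 94, 6, 34, 48, 114, 88]]),
    (genIh, [[0, 24, 48, 72, 96], [0, 24, 86, 6, 30, 80]]),
    (genIh, [[0, 34, 54, 114, 94], [0, 34, 106, 6, 36, 108]]),
    (genIh, [[0, 40, 108, 68, 78], [0, 40, 80, 56, 116, 6, 46, 86, 62, 114]]),
    (genIh, [[0, 46, 80, 62, 116], [0, 46, 108, 66, 78, 6, 40, 106, 68, 72]])]

def row5 : Site where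
  x := []
  y := [(1, 0)]
  z := [(1, 0)]
  m := []
  n := []
  data := [
    (genOh, [[0, 8, 16], [0, 8, 2, 9]]),
    (genOh, [[0, 8, 2, 9], [0, 8, 17, 3, 11, 18]]),
    (genOh, [[0, 10, 2, 11], [0, 10, 18, 3, 9, 17]])]

def row6 : Site where
  x := [(1, 0)]
  y := [(1, 0)]
  z := [(3, 0)]
  m := []
  n := []
  data := [
    (genTd, [[0, 8, 16], [0, 6, 13, 11, 22, 16]]),
    (genOh, [[0, 1, 13, 12, 22, 23], [0, 15, 16, 7, 8, 23]])]

def row7 : Site where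
  x := []
  y := [(1, 0)]
  z := [(2, 0)]
  m := []
  n := []
  data := [
    (genOh, [[0, 120, 2, 122], [0, 120, 8, 136, 16, 128]]),
    (genOh, [[0, 121, 2, 123], [0, 121, 9, 138, 18, 131]])]

def row8 : Site where
  x := [(-1, 1)]
  y := []
  z := [(2, 0)]
  m := []
  n := []
  data := [
    (genTh, [[0, 1, 9], [0, 9, 17, 5, 12, 20]]),
    (genTh, [[0, 4, 16], [0, 8, 20, 5, 13, 17]]),
    (genTh, [[0, 8, 16], [0, 4, 9, 5, 1, 12]]),
    (genTh, [[0, 9, 21], [0, 1, 16, 5, 4, 21]]),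
    (genIh, [[0, 1, 9]]),
    (genIh, [[0, 4, 16]]),
    (genIh, [[0, 1, 16, 12, 20]]),
    (genIh, [[0, 4, 9, 20, 8]]),
    (genIh, [[0, 1, 16, 5, 4, 21]]),
    (genIh, [[0, 4, 9, 5, 1, 12]]),
    (genIh, [[0, 1, 9, 17, 8, 5, 4, 12, 20, 13]]),
    (genIh, [[0, 4, 16, 9, 20, 5, 1, 21, 12, 17]])]

def row9 : Site where
  x := [(1, 0)]
  y := [(1, 0)]
  z := [(1, 0)]
  m := []
  n := []
  data := [
    (genTd, [[0, 3, 5]]),
    (genTd, [[0, 3, 5, 6]]),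
    (genOh, [[0, 1, 3, 2]]),
    (genOh, [[0, 1, 3, 7, 6, 4]]),
    (genIh, [[0, 24, 4, 25, 78]]),
    (genIh, [[0, 29, 2, 25, 73]]),
    (genIh, [[0, 24, 4, 49, 29, 7, 31, 3, 54, 26]]),
    (genIh, [[0, 29, 2, 55, 24, 7, 26, 5, 48, 31]]),
    (genIh, [[0, 1, 25], [0, 1, 26, 78, 54]]),
    (genIh, [[0, 1, 25], [0, 1, 31, 73, 48]]),
    (genIh, [[0, 1, 26, 78, 54], [0, 1, 31, 73, 48]]),
    (genIh, [[0, 3, 48, 7, 4, 55], [0, 3, 29, 24, 54, 7, 4, 26, 31, 49]]),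
    (genIh, [[0, 3, 48, 7, 4, 55], [0, 3, 78, 31, 25, 7, 4, 73, 24, 30]]),
    (genIh, [[0, 3, 29, 24, 54, 7, 4, 26, 31, 49], [0, 3, 78, 31, 25, 7, 4, 73, 24, 30]])]

def row10 : Site where
  x := []
  y := []
  z := [(1, 0)]
  m := []
  n := []
  data := [
    (genTd, [[0, 8, 16], [0, 8, 3, 11]]),
    (genOh, [[0, 8, 16]]),
    (genOh, [[0, 8, 16, 1, 9, 17]]),
    (genIh, [[0, 24, 80], [0, 24, 48, 72, 96]]),
    (genIh, [[0, 33, 105], [0, 33, 48, 113, 88]]),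
    (genIh, [[0, 24, 80], [0, 24, 104, 88, 57, 1, 25, 105, 89, 56]]),
    (genIh, [[0, 33, 105], [0, 33, 81, 96, 64, 1, 32, 80, 97, 65]]),
    (genIh, [[0, 41, 49], [0, 41, 80, 57, 113, 1, 40, 81, 56, 112]]),
    (genIh, [[0, 41, 49], [0, 41, 105, 64, 72, 1, 40, 104, 65, 73]]),
    (genIh, [[0, 40, 80, 56, 113], [0, 40, 105, 65, 72]]),
    (genIh, [[0, 25, 104, 89, 57], [0, 25, 80, 1, 24, 81]]),
    (genIh, [[0, 32, 81, 97, 64], [0, 32, 105, 1, 33, 104]]),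
    (genIh, [[0, 40, 80, 56, 113], [0, 40, 49, 1, 41, 48]]),
    (genIh, [[0, 40, 105, 65, 72], [0, 40, 49, 1, 41, 48]]),
    (genIh, [[0, 24, 48, 72, 96], [0, 24, 104, 88, 57, 1, 25, 105, 89, 56]]),
    (genIh, [[0, 25, 104, 89, 57], [0, 25, 48, 73, 96, 1, 24, 49, 72, 97]]),
    (genIh, [[0, 32, 81, 97, 64], [0, 32, 48, 112, 88, 1, 33, 49, 113, 89]]),
    (genIh, [[0, 33, 48, 113, 88], [0, 33, 81, 96, 64, 1, 32, 80, 97, 65]]),
    (genIh, [[0, 25, 80, 1, 24, 81], [0, 25, 48, 73, 96, 1, 24, 49, 72, 97]]),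
    (genIh, [[0, 32, 105, 1, 33, 104], [0, 32, 48, 112, 88, 1, 33, 49, 113, 89]]),
    (genIh, [[0, 41, 80, 57, 113, 1, 40, 81, 56, 112], [0, 41, 105, 64, 72, 1, 40, 104, 65, 73]])]

def row11 : Site where
  x := [(-1, 1)]
  y := []
  z := [(0, 2)]
  m := []
  n := []
  data := [
    (genI, [[0, 32, 93, 115], [0, 40, 109, 69, 78], [0, 40, 51, 5, 45, 54]]),
    (genI, [[0, 43, 101, 93], [0, 70, 88, 5, 67, 93], [0, 43, 69, 77, 40, 110, 78, 3, 109, 70]]),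
    (genI, [[0, 43, 101, 93], [0, 43, 80, 59, 117, 5, 46, 85, 62, 112], [0, 93, 35, 3, 54, 32, 115,
      53, 94, 112]]),
    (genI, [[0, 37, 107], [0, 45, 51], [0, 37, 93, 118], [0, 45, 109, 64, 78, 5, 40, 104, 69, 75]]),
    (genIh, [[0, 45, 49], [0, 37, 93, 116]]),
    (genIh, [[0, 32, 93, 113], [0, 40, 49, 5, 45, 52]]),
    (genIh, [[0, 41, 101, 93], [0, 41, 69, 77, 40, 108, 76, 1, 109, 68]]),
    (genIh, [[0, 44, 101, 88], [0, 44, 69, 72, 40, 105, 76, 4, 109, 65]]),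
    (genIh, [[0, 48, 96, 24, 72], [0, 4, 40, 44, 109, 105, 69, 65, 76, 72]]),
    (genIh, [[0, 1, 40, 41, 109, 108, 69, 68, 76, 77], [0, 53, 96, 29, 72, 5, 48, 101, 24, 77]]),
    (genIh, [[0, 65, 88], [0, 44, 101, 88], [0, 44, 80, 60, 117]]),
    (genIh, [[0, 65, 88], [0, 44, 80, 60, 117], [0, 44, 69, 72, 40, 105, 76, 4, 109, 65]]),
    (genIh, [[0, 41, 101, 93], [0, 68, 88, 5, 65, 93], [0, 41, 80, 57, 117, 5, 44, 85, 60, 112]]),
    (genIh, [[0, 68, 88, 5, 65, 93], [0, 41, 69, 77, 40, 108, 76, 1, 109, 68], [0, 41, 80, 57, 117,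
      5, 44, 85, 60, 112]])]

def row12 : Site where
  x := []
  y := [(1, 1)]
  z := [(0, 2)]
  m := []
  n := []
  data := [
    (genI, [[0, 29, 77, 48], [0, 46, 80, 62, 117], [0, 46, 51, 3, 45, 48]]),
    (genI, [[0, 43, 93, 101], [0, 59, 102, 3, 56, 101], [0, 43, 62, 112, 46, 85, 117, 5, 80, 59]]),
    (genI, [[0, 43, 93, 101], [0, 43, 109, 70, 78, 3, 40, 110, 69, 77], [0, 77, 96, 53, 72, 29, 48,
      5, 24, 101]]),
    (genI, [[0, 30, 86], [0, 45, 51], [0, 30, 101, 75], [0, 45, 80, 61, 117, 3, 46, 83, 62, 118]]),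
    (genIh, [[0, 41, 51], [0, 26, 73, 51]]),
    (genIh, [[0, 25, 73, 48], [0, 42, 51, 3, 41, 48]]),
    (genIh, [[0, 40, 89, 98], [0, 40, 58, 115, 42, 82, 113, 2, 80, 56]]),
    (genIh, [[0, 43, 89, 97], [0, 43, 58, 112, 42, 81, 113, 1, 80, 59]]),
    (genIh, [[0, 50, 90, 35, 115], [0, 2, 42, 40, 80, 82, 58, 56, 113, 115]]),
    (genIh, [[0, 1, 42, 43, 80, 81, 58, 59, 113, 112], [0, 49, 90, 32, 115, 3, 50, 89, 35, 112]]),
    (genIh, [[0, 56, 98], [0, 40, 89, 98], [0, 40, 105, 65, 74]]),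
    (genIh, [[0, 56, 98], [0, 40, 105, 65, 74], [0, 40, 58, 115, 42, 82, 113, 2, 80, 56]]),
    (genIh, [[0, 43, 89, 97], [0, 59, 98, 3, 56, 97], [0, 43, 105, 66, 74, 3, 40, 106, 65, 73]]),
    (genIh, [[0, 59, 98, 3, 56, 97], [0, 43, 58, 112, 42, 81, 113, 1, 80, 59], [0, 43, 105, 66, 74,
      3, 40, 106, 65, 73]])]

def row13 : Site where
  x := []
  y := [(2, 0)]
  z := [(-3, 3)]
  m := []
  n := []
  data := [
    (genIh, [[0, 65, 40, 74, 105], [0, 2, 33, 35, 107, 105]]),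
    (genIh, [[0, 1, 33, 32, 107, 106], [0, 66, 40, 73, 105, 3, 65, 43, 74, 106]])]

def row14 : Site where
  x := [(-1, 1)]
  y := [(4, 0)]
  z := [(0, 2)]
  m := []
  n := []
  data := [
    (genIh, [[0, 4, 44, 69, 65], [0, 4, 89, 24, 56, 32]]),
    (genIh, [[0, 3, 89, 31, 56, 39], [0, 3, 44, 66, 65, 7, 4, 43, 69, 70]])]

def row15 : Site where
  x := [(1, 0)]
  y := [(1, 0)]
  z := [(0, 1)]
  m := []
  n := []
  data := [
    (genI, [[0, 30, 86], [0, 67, 5, 93], [0, 30, 13, 77, 22, 67]]),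
    (genI, [[0, 3, 6, 5], [0, 3, 86, 85, 30, 29], [0, 5, 96, 101, 72, 77, 48, 53, 24, 29]]),
    (genI, [[0, 3, 6, 5], [0, 5, 88, 93, 67, 70], [0, 3, 109, 110, 78, 77, 40, 43, 69, 70]]),
    (genI, [[0, 13, 22], [0, 14, 19], [0, 14, 70, 51], [0, 13, 88, 77, 67, 51]]),
    (genIh, [[0, 13, 22], [0, 13, 5, 14]]),
    (genIh, [[0, 2, 6, 4], [0, 2, 52, 14, 10, 65]]),
    (genIh, [[0, 3, 6, 5], [0, 3, 42, 20, 17, 29]]),
    (genIh, [[0, 9, 5, 10], [0, 10, 22, 7, 13, 17]]),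
    (genIh, [[0, 2, 6, 4], [0, 2, 50, 24, 26], [0, 4, 44, 69, 65]]),
    (genIh, [[0, 3, 6, 5], [0, 3, 44, 66, 65, 7, 4, 43, 69, 70], [0, 5, 50, 31, 26, 7, 2, 53, 24,
      29]]),
    (genIh, [[0, 2, 50, 24, 26], [0, 4, 44, 69, 65], [0, 2, 52, 14, 10, 65]]),
    (genIh, [[0, 3, 42, 20, 17, 29], [0, 3, 44, 66, 65, 7, 4, 43, 69, 70], [0, 5, 50, 31, 26, 7, 2,
      53, 24, 29]])]

def row16 : Site where
  x := []
  y := [(3, -1)]
  z := [(0, 2)]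
  m := []
  n := []
  data := [
    (genI, [[0, 29, 21, 32, 11, 43], [0, 29, 86, 3, 30, 85], [0, 43, 117, 5, 62, 112, 80, 59, 46,
      85]]),
    (genI, [[0, 29, 21, 32, 11, 43], [0, 29, 72, 101, 24, 53, 96, 5, 48, 77], [0, 43, 109, 70, 78,
      3, 40, 110, 69, 77]]),
    (genIh, [[0, 56, 98], [0, 2, 24, 26, 48, 50, 72, 74, 96, 98]]),
    (genIh, [[0, 25, 17, 32, 11, 43], [0, 25, 72, 97, 24, 49, 96, 1, 48, 73]]),
    (genIh, [[0, 26, 17, 35, 11, 40], [0, 26, 72, 98, 24, 50, 96, 2, 48, 74]]),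
    (genIh, [[0, 59, 98, 3, 56, 97], [0, 1, 24, 25, 48, 49, 72, 73, 96, 97]]),
    (genIh, [[0, 26, 82], [0, 40, 105, 65, 74], [0, 26, 17, 35, 11, 40]]),
    (genIh, [[0, 26, 82], [0, 40, 105, 65, 74], [0, 26, 72, 98, 24, 50, 96, 2, 48, 74]]),
    (genIh, [[0, 25, 17, 32, 11, 43], [0, 25, 82, 3, 26, 81], [0, 43, 105, 66, 74, 3, 40, 106, 65,
      73]]),
    (genIh, [[0, 25, 82, 3, 26, 81], [0, 25, 72, 97, 24, 49, 96, 1, 48, 73], [0, 43, 105, 66, 74, 3,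
      40, 106, 65, 73]])]

def row17 : Site where
  x := []
  y := [(0, 2)]
  z := [(3, 1)]
  m := []
  n := []
  data := [
    (genI, [[0, 59, 8, 53, 16, 70], [0, 59, 102, 3, 56, 101], [0, 70, 38, 6, 83, 32, 99, 85, 64,
      101]]),
    (genI, [[0, 59, 8, 53, 16, 70], [0, 59, 104, 29, 61, 93, 27, 6, 91, 110], [0, 70, 40, 77, 109,
      3, 69, 43, 78, 110]]),
    (genIh, [[0, 26, 82], [0, 1, 57, 56, 91, 90, 104, 105, 27, 26]]),
    (genIh, [[0, 25, 82, 3, 26, 81], [0, 2, 57, 59, 91, 89, 104, 106, 27, 25]]),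
    (genIh, [[0, 56, 8, 50, 16, 65], [0, 56, 104, 26, 57, 90, 27, 1, 91, 105]]),
    (genIh, [[0, 59, 8, 49, 16, 66], [0, 59, 104, 25, 57, 89, 27, 2, 91, 106]]),
    (genIh, [[0, 56, 98], [0, 65, 40, 74, 105], [0, 56, 8, 50, 16, 65]]),
    (genIh, [[0, 56, 98], [0, 65, 40, 74, 105], [0, 56, 104, 26, 57, 90, 27, 1, 91, 105]]),
    (genIh, [[0, 59, 8, 49, 16, 66], [0, 59, 98, 3, 56, 97], [0, 66, 40, 73, 105, 3, 65, 43, 74,
      106]]),
    (genIh, [[0, 59, 98, 3, 56, 97], [0, 59, 104, 25, 57, 89, 27, 2, 91, 106], [0, 66, 40, 73, 105,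
      3, 65, 43, 74, 106]])]

def row18 : Site where
  x := [(1, 0)]
  y := [(1, 0)]
  z := [(3, 2)]
  m := []
  n := []
  data := [
    (genI, [[0, 3, 6, 5], [0, 3, 56, 59, 102, 101], [0, 5, 24, 29, 48, 53, 72, 77, 96, 101]]),
    (genIh, [[0, 2, 6, 4], [0, 4, 56, 60, 102, 98], [0, 2, 24, 26, 48, 50, 72, 74, 96, 98]])]

def row19 : Site where
  x := [(1, 0)]
  y := [(1, 0)]
  z := [(-3, 2)]
  m := []
  n := []
  data := [
    (genI, [[0, 3, 6, 5], [0, 5, 37, 32, 107, 110], [0, 3, 69, 70, 40, 43, 78, 77, 109, 110]]),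
    (genIh, [[0, 2, 6, 4], [0, 2, 37, 39, 107, 105], [0, 4, 69, 65, 40, 44, 78, 74, 109, 105]])]

def row20 : Site where
  x := [(-1, 1)]
  y := [(1, 1)]
  z := [(2, 0)]
  m := []
  n := []
  data := [
    (genI, [[0, 43, 51, 6, 45, 53], [0, 43, 109, 70, 78, 3, 40, 110, 69, 77], [0, 53, 96, 29, 72, 5,
      48, 101, 24, 77]]),
    (genIh, [[0, 44, 51, 1, 45, 50], [0, 44, 109, 65, 78, 4, 40, 105, 69, 74], [0, 50, 96, 26, 72,
      2, 48, 98, 24, 74]])]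

def row21 : Site where
  x := [(1, 0)]
  y := [(0, 1)]
  z := [(0, 1)]
  m := []
  n := []
  data := [
    (genI, [[0, 53, 85, 110], [0, 3, 69, 70, 40, 43, 78, 77, 109, 110], [0, 3, 115, 112, 35, 32, 94,
      93, 54, 53]]),
    (genIh, [[0, 50, 85, 105], [0, 4, 69, 65, 40, 44, 78, 74, 109, 105], [0, 4, 115, 119, 35, 39,
      94, 90, 54, 50]])]

def row22 : Site where
  x := [(0, 0), (1, 0)]
  y := [(1, 0)]
  z := [(1, 0)]
  m := [(-1, 0), (-2, 0), (1, 0)]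
  n := []
  data := [
    (genO, [[0, 5, 138, 143], [0, 127, 16, 135, 8, 143], [0, 5, 124, 121, 6, 3, 122, 127]]),
    (genOh, [[0, 13, 22], [0, 4, 12, 8, 6, 2, 9, 13]]),
    (genOh, [[0, 1, 10, 8], [0, 1, 20, 22, 5, 4, 18, 16]]),
    (genOh, [[0, 5, 17, 23], [0, 5, 12, 10, 6, 3, 9, 15]]),
    (genOh, [[0, 10, 22, 7, 13, 17], [0, 3, 12, 15, 6, 5, 9, 10]]),
    (genOh, [[0, 8, 16], [0, 1, 3, 2], [0, 1, 10, 8]]),
    (genOh, [[0, 8, 16], [0, 1, 3, 2], [0, 1, 20, 22, 5, 4, 18, 16]]),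
    (genOh, [[0, 5, 3, 6], [0, 5, 17, 23], [0, 15, 16, 7, 8, 23]]),
    (genOh, [[0, 5, 3, 6], [0, 15, 16, 7, 8, 23], [0, 5, 12, 10, 6, 3, 9, 15]])]

def row23 : Site where
  x := [(0, 0), (1, 0)]
  y := [(2, 0), (1, 0)]
  z := [(1, 0)]
  m := [(-1, 0), (-2, 0), (1, 0)]
  n := []
  data := [
    (genO, [[0, 3, 132, 135], [0, 135, 13, 121, 22, 138], [0, 3, 140, 143, 5, 6, 137, 138]]),
    (genOh, [[0, 4, 132, 128], [0, 128, 13, 126, 22, 141], [0, 4, 140, 136, 5, 1, 137, 141]])]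

def row24 : Site where
  x := [(0, 0), (1, 0)]
  y := [(1, 0), (2, 0)]
  z := [(1, 0)]
  m := [(-1, 0), (-2, 0), (1, 0)]
  n := []
  data := [
    (genO, [[0, 127, 21, 132, 11, 138], [0, 3, 122, 121, 6, 5, 124, 127], [0, 3, 140, 143, 5, 6,
      137, 138]]),
    (genOh, [[0, 120, 21, 131, 11, 141], [0, 4, 122, 126, 6, 2, 124, 120], [0, 4, 140, 136, 5, 1,
      137, 141]])]

def row25 : Site where
  x := [(0, 0), (-1, 1)]
  y := [(1, 1)]
  z := []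
  m := [(-1, 0), (-1, -1), (-2, 1)]
  n := []
  data := [
    (genIh, [[0, 26, 88], [0, 36, 106], [0, 26, 104, 90, 60]]),
    (genIh, [[0, 26, 88], [0, 26, 104, 90, 60], [0, 36, 54, 116, 94, 6, 34, 48, 114, 88]]),
    (genIh, [[0, 34, 54, 114, 94], [0, 28, 88, 6, 26, 94], [0, 28, 104, 92, 60, 6, 26, 110, 90,
      58]]),
    (genIh, [[0, 28, 88, 6, 26, 94], [0, 34, 106, 6, 36, 108], [0, 28, 104, 92, 60, 6, 26, 110, 90,
      58]])]

def row26 : Site where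
  x := [(0, 0), (1, 0)]
  y := [(1, 0)]
  z := []
  m := [(1, -1), (0, 0), (2, 0)]
  n := []
  data := [
    (genI, [[0, 35, 107], [0, 37, 107], [0, 35, 54, 115, 94], [0, 69, 40, 78, 109]]),
    (genI, [[0, 35, 107], [0, 67, 88], [0, 35, 54, 115, 94], [0, 69, 40, 78, 109], [0, 37, 54, 117,
      94, 6, 35, 48, 115, 88]]),
    (genIh, [[0, 34, 106], [0, 36, 54, 116, 94, 6, 34, 48, 114, 88]]),
    (genIh, [[0, 34, 54, 114, 94], [0, 34, 108, 6, 36, 106]]),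
    (genIh, [[0, 36, 106], [0, 34, 6, 36], [0, 34, 54, 114, 94]]),
    (genIh, [[0, 34, 6, 36], [0, 34, 106, 6, 36, 108], [0, 36, 54, 116, 94, 6, 34, 48, 114, 88]])]

def row27 : Site where
  x := [(0, 0), (-1, 1)]
  y := [(-1, 1)]
  z := [(1, 1)]
  m := [(-2, -2), (0, 0), (1, 0)]
  n := []
  data := [
    (genI, [[0, 35, 78, 59], [0, 35, 54, 115, 94], [0, 59, 102, 3, 56, 101]]),
    (genIh, [[0, 36, 78, 60], [0, 60, 102, 4, 56, 98], [0, 36, 54, 116, 94, 7, 35, 49, 115, 89]])]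

def row28 : Site where
  x := [(0, 0), (-2, 2)]
  y := [(2, 0)]
  z := [(-1, 1)]
  m := [(-1, 0), (0, 0), (0, 1)]
  n := []
  data := [
    (genI, [[0, 35, 56, 77], [0, 35, 54, 115, 94], [0, 43, 109, 70, 78, 3, 40, 110, 69, 77]]),
    (genIh, [[0, 36, 56, 74], [0, 36, 54, 116, 94, 7, 35, 49, 115, 89], [0, 44, 109, 65, 78, 4, 40,
      105, 69, 74]])]

def row29 : Site where
  x := [(0, 0), (-1, 1)]
  y := [(2, 0)]
  z := [(-1, 1)]
  m := [(-2, -2), (0, 0), (1, 0)]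
  n := []
  data := [
    (genI, [[0, 56, 102], [0, 43, 94, 102], [0, 43, 109, 70, 78, 3, 40, 110, 69, 77]]),
    (genIh, [[0, 44, 94, 97], [0, 63, 102, 7, 56, 97], [0, 44, 109, 65, 78, 4, 40, 105, 69, 74]])]

def row30 : Site where
  x := [(0, 0), (0, 0), (1, 0)]
  y := [(0, 0), (1, 0)]
  z := [(1, 0)]
  m := [(-1, 0), (1, 0), (1, 0), (1, 0)]
  n := []
  data := [
    (genO, [[0, 8, 16], [0, 8, 124], [0, 122, 6, 124]]),
    (genOh, [[0, 123, 6, 125], [0, 15, 16, 7, 8, 23], [0, 15, 124, 7, 8, 123]])]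

def row31 : Site where
  x := [(0, -2), (3, 1), (4, 0)]
  y := [(0, 0), (1, 1)]
  z := [(1, 1)]
  m := [(1, 0), (-1, -1), (1, 0), (1, 0)]
  n := []
  data := [
    (genI, [[0, 3, 45], [0, 45, 51], [0, 48, 96, 24, 72]]),
    (genIh, [[0, 4, 45, 7, 3, 42], [0, 42, 51, 7, 45, 52], [0, 55, 96, 31, 72, 7, 48, 103, 24, 79]])]

def row32 : Site where
  x := [(0, 0), (-1, 1)]
  y := [(0, 2), (3, -1), (4, 0)]
  z := [(-1, 1)]
  m := [(1, 0), (-1, 1), (1, 0), (1, 0)]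
  n := []
  data := [
    (genI, [[0, 5, 40], [0, 75, 118], [0, 40, 109, 69, 78]]),
    (genIh, [[0, 2, 40, 7, 5, 47], [0, 76, 118, 7, 75, 113], [0, 47, 109, 66, 78, 7, 40, 106, 69,
      73]])]

def row33 : Site where
  x := [(-1, 1), (1, 1), (-2, 2)]
  y := [(0, 0), (2, 0)]
  z := [(2, 0)]
  m := [(1, 0), (1, 0), (2, 0), (1, 0)]
  n := []
  data := [
    (genI, [[0, 24, 99], [0, 75, 118], [0, 24, 48, 72, 96], [0, 83, 64, 38, 99]]),
    (genIh, [[0, 31, 99, 7, 24, 100], [0, 76, 118, 7, 75, 113], [0, 31, 48, 79, 96, 7, 24, 55, 72,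
      103], [0, 84, 64, 33, 99, 7, 83, 71, 38, 100]])]

def row34 : Site where
  x := [(2, 0), (-2, 2), (4, 0)]
  y := [(0, 0), (1, 1)]
  z := [(1, 1), (2, 0)]
  m := [(-3, -1), (-4, -4), (-6, 2), (4, -2), (2, 2)]
  n := []
  data := [
    (genI, [[0, 43, 48], [0, 48, 96, 24, 72], [0, 54, 94, 35, 115]]),
    (genIh, [[0, 44, 48, 7, 43, 55], [0, 49, 94, 36, 115, 7, 54, 89, 35, 116], [0, 55, 96, 31, 72,
      7, 48, 103, 24, 79]])]

/-- The table. -/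
def sites : List Site := [row1, row2, row3, row4, row5, row6, row7, row8, row9, row10, row11, row12,
    row13, row14, row15, row16, row17, row18, row19, row20, row21, row22, row23, row24, row25,
    row26, row27, row28, row29, row30, row31, row32, row33, row34]

end Pool.Agent.P.MP_708877_co
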