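import Pool.Agent.P.MP_708877_co.Full.ModP
import Pool.Agent.P.MP_708877_co.Full.TabData
import Pool.Agent.P.MP_708877_co.Model

/-!
The multiplication table of the coded matrices.
-/

namespace Pool.Agent.P.MP_708877_co

open Matrix RealInnerProductSpace

def allLt (n : ℕ) (f : ℕ → Bool) : Bool :=
  match n with
  | 0 => true
  | k + 1 => bif f k then allLt k f else false

theorem allLt_spec {n : ℕ} {f : ℕ → Bool} (h : allLt n f = true) {k : ℕ} (hk : k < n) :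
    f k = true := by
  induction n with
  | zero => omega
  | succ n ih =>
    unfold allLt at h
    cases e : f n
    · simp [e] at h
    · rcases Nat.lt_succ_iff_lt_or_eq.1 hk with a | rfl
      · exact ih (by simpa [e] using h) a
      · exact e

structure M3 where
  a : L3
  b : L3
  c : L3

def z3 (a x b y c z : Z5) : Z5 := za (za (zm a x) (zm b y)) (zm c z)
def L3.mulM : L3 → M3 → L3
  | ⟨a, b, c⟩, ⟨⟨x1, x2, x3⟩, ⟨y1, y2, y3⟩, ⟨w1, w2, w3⟩⟩ =>
    ⟨z3 a x1 b y1 c w1, z3 a x2 b y2 c w2, z3 a x3 b y3 c w3⟩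
def M3.mul : M3 → M3 → M3
  | ⟨a, b, c⟩, M => ⟨a.mulM M, b.mulM M, c.mulM M⟩
def L3.sm (s : Z5) : L3 → L3
  | ⟨a, b, c⟩ => ⟨zm s a, zm s b, zm s c⟩
def M3.sm (s : Z5) : M3 → M3
  | ⟨a, b, c⟩ => ⟨a.sm s, b.sm s, c.sm s⟩
def M3.tp : M3 → M3
  | ⟨⟨x1, x2, x3⟩, ⟨y1, y2, y3⟩, ⟨w1, w2, w3⟩⟩ => ⟨⟨x1, y1, w1⟩, ⟨x2, y2, w2⟩, ⟨x3, y3, w3⟩⟩
def ze (a b : Z5) : Bool := zz (zs a b)
def L3.eq : L3 → L3 → Bool
  | ⟨a, b, c⟩, ⟨d, e, f⟩ => ze a d && ze b e && ze c f
def M3.eq : M3 → M3 → Bool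
  | ⟨a, b, c⟩, ⟨d, e, f⟩ => a.eq d && b.eq e && c.eq f
noncomputable def M3.mat (M : M3) : Matrix (Fin 3) (Fin 3) ℝ :=
  !![num M.a.x, num M.a.y, num M.a.z; num M.b.x, num M.b.y, num M.b.z;
    num M.c.x, num M.c.y, num M.c.z]

theorem ze_spec {a b : Z5} (h : ze a b = true) : num a = num b := by
  have := num_of_zz h
  rwa [num_zs, sub_eq_zero] at this

theorem mat_eq {A B : M3} (h : A.eq B = true) : A.mat = B.mat := by
  simp only [M3.eq, L3.eq, Bool.and_eq_true] at h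
  obtain ⟨⟨⟨⟨a, b⟩, c⟩, ⟨d, e⟩, f⟩, ⟨g, i⟩, j⟩ := h
  simp only [M3.mat, ze_spec a, ze_spec b, ze_spec c, ze_spec d, ze_spec e, ze_spec f, ze_spec g,
    ze_spec i, ze_spec j]

theorem mat_mul' (A B : M3) : (A.mul B).mat = A.mat * B.mat := by
  ext i j
  fin_cases i <;> fin_cases j <;>
    simp [M3.mul, L3.mulM, z3, M3.mat, Matrix.mul_apply, Fin.sum_univ_three]

theorem mat_sm (s : Z5) (A : M3) : (A.sm s).mat = num s • A.mat := by
  ext i j
  fin_cases i <;> fin_cases j <;> simp [M3.sm, L3.sm, M3.mat]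

theorem mat_tp (A : M3) : A.tp.mat = A.matᵀ := by
  ext i j
  fin_cases i <;> fin_cases j <;> simp [M3.tp, M3.mat]

def rp : ℕ → M3
  | 0 => ⟨⟨(4, 0), (0, 0), (0, 0)⟩, ⟨(0, 0), (4, 0), (0, 0)⟩, ⟨(0, 0), (0, 0), (4, 0)⟩⟩
  | 1 => ⟨⟨(2, 0), (-1, -1), (-1, 1)⟩, ⟨(1, 1), (-1, 1), (-2, 0)⟩, ⟨(-1, 1), (2, 0), (1, 1)⟩⟩
  | 2 => ⟨⟨(1, -1), (-2, 0), (1, 1)⟩, ⟨(2, 0), (-1, -1), (1, -1)⟩, ⟨(1, 1), (-1, 1), (2, 0)⟩⟩
  | 3 => ⟨⟨(1, -1), (2, 0), (1, 1)⟩, ⟨(-2, 0), (-1, -1), (-1, 1)⟩, ⟨(1, 1), (1, -1), (2, 0)⟩⟩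
  | _ => ⟨⟨(2, 0), (1, 1), (-1, 1)⟩, ⟨(-1, -1), (-1, 1), (2, 0)⟩, ⟨(-1, 1), (-2, 0), (1, 1)⟩⟩
def mI : M3 := ⟨⟨(1, 0), (0, 0), (0, 0)⟩, ⟨(0, 0), (1, 0), (0, 0)⟩, ⟨(0, 0), (0, 0), (1, 0)⟩⟩
def mS : M3 := ⟨⟨(0, 0), (1, 0), (0, 0)⟩, ⟨(1, 0), (0, 0), (0, 0)⟩, ⟨(0, 0), (0, 0), (1, 0)⟩⟩
def mA : M3 := ⟨⟨(0, 0), (0, 0), (1, 0)⟩, ⟨(1, 0), (0, 0), (0, 0)⟩, ⟨(0, 0), (1, 0), (0, 0)⟩⟩
def M3.pw (M : M3) : ℕ → M3
  | 0 => mI
  | n + 1 => (M.pw n).mul M
def sgn (n : ℕ) : Z5 := if n % 2 = 0 then (1, 0) else (-1, 0)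
def el0 (n : ℕ) : M3 :=
  (((rp (n / 24 % 5)).mul (mS.pw (n / 120))).mul (mA.pw (n / 8 % 3))).mul
    ⟨⟨sgn (n / 4), (0, 0), (0, 0)⟩, ⟨(0, 0), sgn (n / 2), (0, 0)⟩, ⟨(0, 0), (0, 0), sgn n⟩⟩

theorem mat_pw (M : M3) (n : ℕ) : (M.pw n).mat = M.mat ^ n := by
  induction n with
  | zero =>
    ext i j
    fin_cases i <;> fin_cases j <;> simp [M3.pw, mI, M3.mat]
  | succ n ih => rw [M3.pw, mat_mul', ih, pow_succ]

theorem num_sgn (n : ℕ) : num (sgn n) = (-1) ^ n := by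
  unfold sgn
  split_ifs with h
  · rw [(Nat.even_iff.2 h).neg_one_pow, num_one]
  · rw [(Nat.odd_iff.2 (by omega)).neg_one_pow]; simp

theorem mat_rp {i : ℕ} (h : i < 5) : (rp i).mat = (4 : ℝ) • rot ^ i := by
  have h1 : (rp 1).mat = (4 : ℝ) • rot := by
    ext i j
    fin_cases i <;> fin_cases j <;> simp [rp, M3.mat, rot, num] <;> ring
  have h2 : allLt 4 (fun i => ((rp i).mul (rp 1)).eq ((rp (i + 1)).sm (4, 0))) = true := by
    decide +kernel
  induction i with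
  | zero =>
    ext i j
    fin_cases i <;> fin_cases j <;> simp [rp, M3.mat]
  | succ i ih =>
    have := mat_eq (allLt_spec h2 (k := i) (by omega))
    rw [mat_mul', mat_sm, ih (by omega), h1, num_int, smul_mul_smul_comm, ← pow_succ,
      mul_smul] at this
    exact (smul_right_injective _ (by norm_num : (4 : ℝ) ≠ 0) (by simpa using this)).symm

theorem mat_el0 (n : ℕ) : (el0 n).mat = (4 : ℝ) • el n := by
  have a : mS.mat = !![0, 1, 0; 1, 0, 0; 0, 0, 1] := by simp [mS, M3.mat]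
  have b : mA.mat = !![0, 0, 1; 1, 0, 0; 0, 1, 0] := by simp [mA, M3.mat]
  simp only [el0, mat_mul', mat_pw, mat_rp (Nat.mod_lt _ (by norm_num : 0 < 5)), el, a, b,
    smul_mul_assoc]
  simp only [M3.mat, num_sgn, num_zero]

def nib (r k : ℕ) : ℤ := Int.subNatNat (Nat.land (Nat.shiftRight r k) (nat_lit 15)) (nat_lit 8)
def nz (r k : ℕ) : Z5 := (nib r k, nib r (Nat.add k (nat_lit 4)))
def dec (r : ℕ) : M3 :=
  ⟨⟨nz r (nat_lit 0), nz r (nat_lit 8), nz r (nat_lit 16)⟩,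
    ⟨nz r (nat_lit 24), nz r (nat_lit 32), nz r (nat_lit 40)⟩,
    ⟨nz r (nat_lit 48), nz r (nat_lit 56), nz r (nat_lit 64)⟩⟩
/-- Four times the coded matrix. -/
def EL (n : ℕ) : M3 :=
  dec (Nat.mod (Nat.shiftRight elT (Nat.mul (nat_lit 72) n)) (nat_lit 0x1000000000000000000))
def mt (a b : ℕ) : ℕ :=
  Nat.land (Nat.shiftRight mtT (Nat.mul (nat_lit 8) (Nat.add (Nat.mul (nat_lit 144) a) b)))
    (nat_lit 255)
def iv (a : ℕ) : ℕ := Nat.land (Nat.shiftRight ivT (Nat.mul (nat_lit 8) a)) (nat_lit 255)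
def big (o : Bool) (n : ℕ) : Bool :=
  bif o then Nat.blt n 24 || (Nat.ble 120 n && Nat.blt n 144) else Nat.blt n 120

theorem big_lt {o : Bool} {n : ℕ} (h : big o n = true) : n < 144 := by
  cases o <;> simp [big, Nat.blt_eq, Nat.ble_eq] at h <;> omega

theorem big_zero (o : Bool) : big o 0 = true := by cases o <;> rfl

theorem mat_EL {n : ℕ} (h : n < 144) : (EL n).mat = (4 : ℝ) • el n := by
  have : allLt 144 (fun n => (EL n).eq (el0 n)) = true := by decide +kernel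
  rw [mat_eq (allLt_spec this h), mat_el0]

theorem el_of_check {a b c : ℕ} (ha : a < 144) (hb : b < 144) (hc : c < 144)
    (h : ((EL a).mul (EL b)).eq ((EL c).sm (4, 0)) = true) : el c = el a * el b := by
  have := mat_eq h
  rw [mat_mul', mat_sm, mat_EL ha, mat_EL hb, mat_EL hc, num_int, smul_mul_smul_comm,
    mul_smul] at this
  exact (smul_right_injective _ (by norm_num : (4 : ℝ) ≠ 0)
    (smul_right_injective _ (by norm_num : (4 : ℝ) ≠ 0) (by simpa using this))).symm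

def gn (b : ℕ) : ℕ := bif Nat.beq (b % 2) 1 then 1 else bif Nat.ble 2 (b % 4) then 2 else
  bif Nat.ble 4 (b % 8) then 4 else bif Nat.ble 8 (b % 24) then 8 else
  bif Nat.beq b 120 then 120 else 24

def gens (o : Bool) : List ℕ := bif o then [1, 2, 4, 8, 120] else [1, 2, 4, 8, 24]

theorem tab1 (o : Bool) : allLt 144 (fun a => !big o a || (Nat.beq (mt a 0) a &&
    (gens o).all fun s => ((EL a).mul (EL s)).eq ((EL (mt a s)).sm (4, 0)))) = true := by
  cases o <;> decide +kernel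

theorem tab2 (o : Bool) : allLt 144 (fun b => !big o b || Nat.beq b 0 ||
    ((gens o).contains (gn b) && big o (b - gn b) && big o (gn b) && Nat.blt (b - gn b) b &&
    Nat.beq (mt (b - gn b) (gn b)) b &&
    allLt 144 fun a => !big o a || Nat.beq (mt a b) (mt (mt a (b - gn b)) (gn b)))) = true := by
  cases o <;> decide +kernel

theorem tab3 (o : Bool) : allLt 144 (fun a => !big o a || (big o (iv a) &&
    Nat.beq (mt a (iv a)) 0 && Nat.beq (mt (iv a) a) 0 && (EL (iv a)).eq (EL a).tp &&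
    allLt 144 fun b => !big o b || big o (mt a b))) = true := by
  cases o <;> decide +kernel

variable {o : Bool} {a b : ℕ}

theorem big_mt (ha : big o a = true) (hb : big o b = true) : big o (mt a b) = true := by
  have := allLt_spec (tab3 o) (big_lt ha)
  simp only [ha, Bool.not_true, Bool.false_or, Bool.and_eq_true] at this
  simpa [hb] using allLt_spec this.2 (big_lt hb)

theorem big_iv (ha : big o a = true) : big o (iv a) = true := by
  have := allLt_spec (tab3 o) (big_lt ha)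
  simp only [ha, Bool.not_true, Bool.false_or, Bool.and_eq_true] at this
  exact this.1.1.1.1

theorem el_zero : el 0 = 1 := by
  ext i j
  fin_cases i <;> fin_cases j <;> simp [el]

theorem el_mt (ha : big o a = true) (hb : big o b = true) : el (mt a b) = el a * el b := by
  have base : ∀ a s, big o a = true → big o s = true → s ∈ gens o →
      el (mt a s) = el a * el s := fun a s ha hs hm => by
    have := allLt_spec (tab1 o) (big_lt ha)
    simp only [ha, Bool.not_true, Bool.false_or, Bool.and_eq_true, List.all_eq_true] at this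
    exact el_of_check (big_lt ha) (big_lt hs) (big_lt (big_mt ha hs)) (this.2 s hm)
  induction b using Nat.strong_induction_on generalizing a with
  | _ b ih =>
    have t := allLt_spec (tab2 o) (big_lt hb)
    rcases Nat.eq_zero_or_pos b with rfl | hp
    · have := allLt_spec (tab1 o) (big_lt ha)
      simp only [ha, Bool.not_true, Bool.false_or, Bool.and_eq_true, Nat.beq_eq] at this
      rw [this.1, el_zero, mul_one]
    · simp only [hb, Bool.not_true, Bool.false_or, Bool.and_eq_true, Bool.or_eq_true, Nat.beq_eq,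
        hp.ne', false_or, List.contains_iff_mem, Nat.blt_eq] at t
      obtain ⟨⟨⟨⟨⟨t1, t2⟩, t3⟩, t4⟩, t5⟩, t6⟩ := t
      have t7 := allLt_spec t6 (big_lt ha)
      simp only [ha, Bool.not_true, Bool.false_or, Nat.beq_eq] at t7
      rw [t7, base _ _ (big_mt ha t2) t3 t1, ih _ t4 ha t2, mul_assoc, ← base _ _ t2 t3 t1, t5]

theorem iv_spec (ha : big o a = true) :
    mt a (iv a) = 0 ∧ mt (iv a) a = 0 ∧ el (iv a) = (el a)ᵀ := by
  have := allLt_spec (tab3 o) (big_lt ha)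
  simp only [ha, Bool.not_true, Bool.false_or, Bool.and_eq_true, Nat.beq_eq] at this
  refine ⟨this.1.1.1.2, this.1.1.2, ?_⟩
  have e := mat_eq this.1.2
  rw [mat_tp, mat_EL (big_lt ha), mat_EL (big_lt (big_iv ha)), transpose_smul] at e
  exact smul_right_injective _ (by norm_num : (4 : ℝ) ≠ 0) e

/-- The action of a code. -/
noncomputable def ac (n : ℕ) (v : E3) : E3 := act (el n) v

theorem act_mul (A B : Matrix (Fin 3) (Fin 3) ℝ) (v : E3) : act (A * B) v = act A (act B v) := by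
  simp [act]

theorem ac_zero (v : E3) : ac 0 v = v := by simp [ac, act, el_zero]

theorem ac_mt (ha : big o a = true) (hb : big o b = true) (v : E3) :
    ac (mt a b) v = ac a (ac b v) := by rw [ac, el_mt ha hb, act_mul]; rfl

theorem ac_iv (ha : big o a = true) (v : E3) : ac (iv a) (ac a v) = v := by
  rw [← ac_mt (big_iv ha) ha, (iv_spec ha).2.1, ac_zero]

theorem ac_iv' (ha : big o a = true) (v : E3) : ac a (ac (iv a) v) = v := by
  rw [← ac_mt ha (big_iv ha), (iv_spec ha).1, ac_zero]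

theorem inner_ac_left (ha : big o a = true) (x y : E3) : ⟪ac a x, y⟫ = ⟪x, ac (iv a) y⟫ := by
  simp only [ac, act, (iv_spec ha).2.2, PiLp.inner_apply, Fin.sum_univ_three, mulVec, dotProduct,
    transpose_apply, RCLike.inner_apply, conj_trivial]
  ring

theorem inner_ac (ha : big o a = true) (x y : E3) : ⟪ac a x, ac a y⟫ = ⟪x, y⟫ := by
  rw [inner_ac_left ha, ac_iv ha]

theorem inner_ac2 (ha : big o a = true) (hb : big o b = true) (v : E3) :
    ⟪ac a v, ac b v⟫ = ⟪v, ac (mt (iv a) b) v⟫ := by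
  rw [inner_ac_left ha, ac_mt (big_iv ha) hb]

theorem ac_iso (ha : big o a = true) : ∃ L : E3 ≃ₗᵢ[ℝ] E3, ⇑L = ac a := by
  obtain ⟨L, hL⟩ := exists_iso (fun x : E3 => x) (ac a) fun x y => (inner_ac ha x y).symm
  exact ⟨L, funext hL⟩

theorem ac_inj (ha : big o a = true) : Function.Injective (ac a) := by
  obtain ⟨L, hL⟩ := ac_iso ha
  exact hL ▸ L.injective

theorem ac_seven (v : E3) : ac 7 v = -v := by
  have : el 7 = -1 := by
    ext i j
    fin_cases i <;> fin_cases j <;> simp [el] <;> norm_num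
  ext i
  simp [ac, act, this, neg_mulVec]

theorem exists_big (h : a < 144) : ∃ o, big o a = true := by
  by_cases e : a < 120
  · exact ⟨false, by simpa [big, Nat.blt_eq]⟩
  · exact ⟨true, by simp [big, Nat.blt_eq, Nat.ble_eq]; omega⟩

theorem ev_mulM (l : L3) (M : M3) (v : E3) : (l.mulM M).ev v = l.ev (act M.mat v) := by
  simp [L3.mulM, L3.ev, z3, act, M3.mat, dotProduct, Fin.sum_univ_three]
  ring

theorem act_EL (h : a < 144) (v : E3) : act (EL a).mat v = (4 : ℝ) • ac a v := by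
  rw [mat_EL h]
  ext i
  simp [ac, act, smul_mulVec]

def form : M3 → Q6
  | ⟨⟨x1, x2, x3⟩, ⟨y1, y2, y3⟩, ⟨w1, w2, w3⟩⟩ => ⟨x1, y2, w3, za x2 y1, za x3 w1, za y3 w2⟩

/-- The quadratic form of a code. -/
def SQ (n : ℕ) : Q6 := form (EL n)

theorem ev_SQ (h : a < 144) (v : E3) : (SQ a).ev (mon v) = 4 * ⟪v, ac a v⟫ := by
  have : ∀ M : M3, (form M).ev (mon v) = ⟪v, act M.mat v⟫ := fun M => by
    simp [form, Q6.ev, mon, act, M3.mat, PiLp.inner_apply, dotProduct, Fin.sum_univ_three]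
    ring
  rw [SQ, this, act_EL h, real_inner_smul_right]

def dQ (g h : ℕ) : Q6 := (SQ g).sub (SQ h)

theorem ev_dQ (ha : a < 144) (hb : b < 144) (v : E3) :
    (dQ a b).ev (mon v) = 0 ↔ ⟪v, ac a v⟫ = ⟪v, ac b v⟫ := by
  rw [dQ, ev_sub, ev_SQ ha, ev_SQ hb]
  constructor <;> intro h <;> linarith

theorem fix_iff (ha : a < 144) (v : E3) : (dQ 0 a).ev (mon v) = 0 ↔ ac a v = v := by
  rw [ev_dQ (by norm_num) ha, ac_zero]
  refine ⟨fun h => ?_, fun h => by rw [h]⟩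
  obtain ⟨o, ho⟩ := exists_big ha
  rw [← sub_eq_zero, ← inner_self_eq_zero (𝕜 := ℝ), inner_sub_left, inner_sub_right,
    inner_sub_right, inner_ac ho, real_inner_comm v (ac a v), ← h]
  ring

def lim (r k : ℕ) : ℕ := Nat.land (Nat.shiftRight r k) (nat_lit 1073741823)
def decP (r : ℕ) : V6 :=
  ⟨lim r (nat_lit 0), lim r (nat_lit 30), lim r (nat_lit 60), lim r (nat_lit 90),
    lim r (nat_lit 120), lim r (nat_lit 150)⟩
def SP (n : ℕ) : V6 := decP (Nat.mod (Nat.shiftRight spT (Nat.mul (nat_lit 180) n))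
  (nat_lit 0x1000000000000000000000000000000000000000000000))
def V6.eq : V6 → V6 → Bool
  | ⟨a1, a2, a3, a4, a5, a6⟩, ⟨b1, b2, b3, b4, b5, b6⟩ =>
    Nat.beq a1 b1 && Nat.beq a2 b2 && Nat.beq a3 b3 && Nat.beq a4 b4 && Nat.beq a5 b5 &&
      Nat.beq a6 b6

theorem val_SP (h : a < 144) (v : E3) : Val (SP a) (mon (nw v)) (4 * ⟪v, ac a v⟫) := by
  have t : allLt 144 (fun n => (SP n).eq (trf (rq (SQ n)))) = true := by decide +kernel
  have e : ∀ A B : V6, A.eq B = true → A = B := by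
    rintro ⟨⟩ ⟨⟩ h
    simp only [V6.eq, Bool.and_eq_true, Nat.beq_eq] at h
    simp [h]
  rw [e _ _ (allLt_spec t h), ← ev_SQ h]
  exact (val_rq _ _).trf

/-- Adding the equation that two codes have the same value. -/
def T3.pd (t : T3) (g h : ℕ) : T3 := t.push ((SP g).sub (SP h))

theorem T3.Ok.pd {t : T3} {v : E3} (h : t.Ok (mon (nw v))) (ha : a < 144) (hb : b < 144)
    (e : ⟪v, ac a v⟫ = ⟪v, ac b v⟫) : (t.pd a b).Ok (mon (nw v)) :=
  h.push ((val_SP ha v).sub (e ▸ val_SP hb v))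

end Pool.Agent.P.MP_708877_co
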