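import Pool.Agent.P.MP_708877_co.Full.Check

/-!
From the certificates of all corner classes to the classification for one group.
-/

namespace Pool.Agent.P.MP_708877_co

open RealInnerProductSpace

/-- The linear equations of the fixed space of a code. -/
def fixR1 : M3 → List L3
  | ⟨⟨a, b, c⟩, ⟨d, e, f⟩, ⟨g, h, i⟩⟩ =>
    [⟨zs a (4, 0), b, c⟩, ⟨d, zs e (4, 0), f⟩, ⟨g, h, zs i (4, 0)⟩]
def fixW (W : Ech) (h : ℕ) : Ech := insF W (fixR1 (EL h))

theorem Van.fixW {W : Ech} {v : E3} (hW : Van W (mon v)) {h : ℕ} (hh : h < 144)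
    (e : ac h v = v) : Van (fixW W h) (mon v) := by
  refine hW.insF ?_
  have k := act_EL hh v
  rw [e] at k
  have k0 := congrArg (fun x : E3 => x 0) k
  have k1 := congrArg (fun x : E3 => x 1) k
  have k2 := congrArg (fun x : E3 => x 2) k
  simp [act, M3.mat, dotProduct, Fin.sum_univ_three] at k0 k1 k2
  simp only [fixR1, List.mem_cons, List.not_mem_nil, or_false, forall_eq_or_imp, forall_eq, L3.ev,
    num_zs, num_int]
  exact ⟨by push_cast; linear_combination k0, by push_cast; linear_combination k1,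
    by push_cast; linear_combination k2⟩

def top1 (c : Ctx) (i A B : ℕ) : St :=
  ⟨ins (fixW [] c.h0) (dQ A B), A,
    (List.range 144).filter fun u => tb c.G u && c.isR u && Nat.ble i (byt c.mxT u),
    newco c A B c.HL [], [], false, false, 0, 0⟩
def top (c : Ctx) (i : ℕ) : St := top1 c i (byt c.raT i) (byt c.rbT i)

def Done (c : Ctx) (E : List Ent) (i : ℕ) : Prop := ∃ k, check c E i k (top c i) = true

def chk (c : Ctx) (E : List Ent) : ℕ → List Cert → Bool
  | _, [] => true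
  | i, k :: r => check c E i k (top c i) && chk c E (Nat.succ i) r

/-- All classes in an interval are done. -/
def Seg (c : Ctx) (E : List Ent) (n m : ℕ) : Prop := ∀ i, n ≤ i → i < m → Done c E i

theorem Seg.trans {c : Ctx} {E : List Ent} {n m k : ℕ} (h : Seg c E n m) (h' : Seg c E m k) :
    Seg c E n k := fun i a b => (lt_or_ge i m).elim (h i a) fun e => h' i e b

theorem seg_of {c : Ctx} {E : List Ent} {n m : ℕ} (l : List Cert)
    (k : (chk c E n l && Nat.beq (n + l.length) m) = true) : Seg c E n m := by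
  simp only [Bool.and_eq_true, Nat.beq_eq] at k
  obtain ⟨k, rfl⟩ := k
  induction l generalizing n with
  | nil => exact fun i a b => absurd b (not_lt.2 a)
  | cons a r ih =>
    simp only [MP_708877_co.chk, Bool.and_eq_true] at k
    intro i p q
    rcases Nat.eq_or_lt_of_le p with rfl | p
    · exact ⟨a, k.1⟩
    · exact ih k.2 i p (by simp only [List.length_cons] at q; omega)

variable {c : Ctx} {C : Set (Set (Sym2 E3)) → Prop} {E : List Ent}

theorem inv_mk {P : Set (Set (Sym2 E3))} {v : E3} {W a0 L co ch} (h1 : Van W (mon v))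
    (h2 : tb c.G a0 = true ∧ IsEdge P s(v, ac a0 v))
    (h3 : ∀ u, c.Rp u → IsEdge P s(v, ac u v) → u ∈ L) (h4 : CoOk c P v co) (h5 : ChOk c P v ch) :
    Inv c P v ⟨W, a0, L, co, ch, false, false, 0, 0⟩ := ⟨h1, h2, h3, h4, h5⟩

theorem class_sound (hC : ∀ P (L : E3 ≃ₗᵢ[ℝ] E3), C (image L P) → C P)
    (hE : ∀ e ∈ E, e.Sound C) (hc : c.Ok) {P : Set (Set (Sym2 E3))} {v : E3} (S : Setting c P v)
    {i : ℕ} (hd : ∀ a b, c.Rp a → c.Rp b → Co P (ac a v) v (ac b v) → c.cl a b < i → C P)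
    (D : Done c E i) (ra : c.Rp (byt c.raT i)) (rb : c.Rp (byt c.rbT i))
    (e : Co P (ac (byt c.raT i) v) v (ac (byt c.rbT i) v)) : C P := by
  obtain ⟨k, hk⟩ := D
  have G := hc.grp
  by_cases hL : ∀ u, c.Rp u → IsEdge P s(v, ac u v) → i ≤ byt c.mxT u
  · have n0 : CoOk c P v [] := fun _ h => absurd h List.not_mem_nil
    have n1 : ChOk c P v [] := fun _ h => absurd h List.not_mem_nil
    have w := ((van_nil _).fixW (G.lt hc.h0.1) ((S.stab hc.h0.1).2 hc.h0.2)).ins
        ((ev_dQ (G.lt ra.1) (G.lt rb.1) v).2 (S.c_eq hc e.symm.edge e.edge))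
    have I : Inv c P v (top1 c i (byt c.raT i) (byt c.rbT i)) := by
      unfold top1
      refine inv_mk w ⟨ra.1, e.symm.edge⟩ (fun u ru eu => ?_) (n0.newco S hc ra.1 rb.1 e hc.hl) n1
      refine List.mem_filter.2 ⟨List.mem_range.2 (G.lt ru.1), ?_⟩
      simp [ru.1, S.isR ru eu, hL u ru eu]
    exact (check_sound hC hE S hc hd k (top1 c i (byt c.raT i) (byt c.rbT i)) hk).1 rfl I
  · push Not at hL
    obtain ⟨u, ru, eu, lt⟩ := hL
    obtain ⟨x, hx⟩ := S.good.co_of_edge eu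
    obtain ⟨a, r, rfl⟩ := S.vert hc hx.symm.edge.right
    obtain ⟨k, w⟩ := hc.wt ru.1 r.1 (S.isR ru eu) (S.isR r hx.symm.edge)
      fun e => hx.ne (by rw [e])
    simp only [Ctx.wit, Bool.and_eq_true, Nat.ble_eq] at w
    exact hd u a ru r hx.symm (lt_of_le_of_lt w.2 lt)

theorem ctx_sound (hC : ∀ P (L : E3 ≃ₗᵢ[ℝ] E3), C (image L P) → C P)
    (hE : ∀ e ∈ E, e.Sound C) (hc : c.Ok) (D : Seg c E 0 c.n) {P : Set (Set (Sym2 E3))} {v : E3}
    (S : Setting c P v) : C P := by
  have G := hc.grp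
  have key : ∀ i ≤ c.n, ∀ P v, Setting c P v →
      ∀ a b, c.Rp a → c.Rp b → Co P (ac a v) v (ac b v) → c.cl a b < i → C P := by
    intro i
    induction i with
    | zero => exact fun _ _ _ _ _ _ _ _ _ h => nomatch h
    | succ i ih =>
      intro hi P v S a b ra rb e lt
      rcases Nat.lt_succ_iff_lt_or_eq.1 lt with lt | rfl
      · exact ih (by omega) P v S a b ra rb e lt
      obtain ⟨k, w⟩ := hc.wt ra.1 rb.1 (S.isR ra e.symm.edge) (S.isR rb e.edge)
        fun h => e.ne (by rw [h])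
      simp only [Ctx.wit, Ctx.pair, Bool.and_eq_true, Bool.or_eq_true, Nat.beq_eq] at w
      obtain ⟨⟨⟨hk, w⟩, -⟩, -⟩ := w
      obtain ⟨bk, nm⟩ := hc.nm hk
      have S' := S.conj hc hk
      have e' := e.image (ac_inj bk)
      rw [← ac_cj bk (G.big ra.1), ← ac_cj bk (G.big rb.1), ← S'.rep hc (nm ra.1).1.1,
        ← S'.rep hc (nm rb.1).1.1] at e'
      have r1 := hc.rp (nm ra.1).1.1
      have r2 := hc.rp (nm rb.1).1.1
      obtain ⟨L, hL⟩ := ac_iso bk
      refine hC P L ?_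
      rw [hL]
      refine class_sound hC hE hc S' (ih (by omega) _ _ S') (D _ (Nat.zero_le _) (by omega)) ?_ ?_ ?_
      · rcases w with w | w
        exacts [w.1 ▸ r1, w.1 ▸ r2]
      · rcases w with w | w
        exacts [w.2 ▸ r2, w.2 ▸ r1]
      · rcases w with w | w
        · rwa [← w.1, ← w.2]
        · rw [← w.1, ← w.2]
          exact e'.symm
  obtain ⟨y, -, -, e, -⟩ := S.deg G v S.mem
  obtain ⟨x, hx⟩ := S.good.co_of_edge e
  obtain ⟨a, ra, rfl⟩ := S.vert hc hx.symm.edge.right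
  obtain ⟨b, rb, rfl⟩ := S.vert hc e.right
  obtain ⟨k, w⟩ := hc.wt ra.1 rb.1 (S.isR ra hx.symm.edge) (S.isR rb e) fun h => hx.ne (by rw [h])
  simp only [Ctx.wit, Bool.and_eq_true, Nat.blt_eq] at w
  exact key _ le_rfl P v S a b ra rb hx w.1.2

/-- A subgroup of index at most two. -/
def idx2 (G S : ℕ) : Bool :=
  allIn S (tb G) && Nat.blt S (2 ^ 144) &&
    allIn G fun a => tb S a || allIn G fun b => tb S b || tb S (mt a b)

/-- Every non-trivial member of the stabiliser determines it. -/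
def stabOk (c : Ctx) : Bool :=
  allIn c.H fun h => Nat.beq h 0 || allIn c.G fun g =>
    bif tb c.H g then mem (fixW [] h) (dQ 0 g) else mem (ins (fixW [] h) (dQ 0 g)) (dQ 0 7)

def stageOk (G : ℕ) (subs : List ℕ) (cs : List Ctx) (T : ℕ) : Bool :=
  subs.all (idx2 G) && cs.all (fun c => Nat.beq c.G G && stabOk c) &&
    cs.any (fun c => Nat.beq c.H 1) && allIn G fun g => Nat.beq g 0 || (tb G (byt T g) &&
      ((subs.any (fun S => !tb S (byt T g)) && mem (fixW [] g) (dQ 0 (byt T g))) ||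
        cs.any fun c => tb c.H (cj (byt T g) g) && !Nat.beq (cj (byt T g) g) 0))

theorem stage {o : Bool} {G : ℕ} (hG : Grp o G) {subs : List ℕ}
    (hs : ∀ S ∈ subs, ∀ P v, Weak S P v → C P) {cs : List Ctx}
    (hcs : ∀ c ∈ cs, ∀ P v, Setting c P v → C P) {T : ℕ} (ok : stageOk G subs cs T = true)
    (P : Set (Set (Sym2 E3))) (v : E3) (h : Weak G P v) : C P := by
  simp only [stageOk, Bool.and_eq_true, List.all_eq_true, List.any_eq_true, Nat.beq_eq] at ok
  obtain ⟨⟨⟨k1, k2⟩, c0, m0, k3⟩, k4⟩ := ok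
  by_cases t : ∀ g, tb G g = true → ac g v = v → g = 0
  · obtain rfl := (k2 c0 m0).1
    refine hcs c0 m0 P v ⟨h, fun {g} hg => ⟨fun e => ?_, fun e => ?_⟩⟩
    · rw [t g hg e, k3]; rfl
    · rw [k3, tb_eq, Nat.testBit_one_eq_true_iff_self_eq_zero] at e
      rw [e, ac_zero]
  push Not at t
  obtain ⟨g, hg, e, g0⟩ := t
  have k := allIn_spec k4 (hG.lt hg) hg
  simp only [Bool.and_eq_true, Bool.or_eq_true, Nat.beq_eq, g0, false_or, List.any_eq_true,
    Bool.not_eq_true', ← Bool.not_eq_true] at k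
  obtain ⟨hk, ⟨⟨S, mS, nS⟩, k⟩ | ⟨c, mc, k, n0⟩⟩ := k
  · have f := (fix_iff (hG.lt hk) v).1 (((van_nil _).fixW (hG.lt hg) e).mem k)
    have i := k1 S mS
    simp only [idx2, Bool.and_eq_true] at i
    refine hs S mS P v ⟨h.good, h.reg, fun {a} ha => h.inv (allIn_spec i.1.1 (tb_lt i.1.2 ha) ha),
      fun x hx => ?_, h.mem⟩
    obtain ⟨a, ha, rfl⟩ := h.tr x hx
    have j := allIn_spec i.2 (hG.lt ha) ha
    rcases Bool.or_eq_true_iff.1 j with j | j
    · exact ⟨a, j, rfl⟩
    · have j := allIn_spec j (hG.lt hk) hk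
      exact ⟨_, (Bool.or_eq_true_iff.1 j).resolve_left nS, by rw [ac_mt (hG.big ha) (hG.big hk), f]⟩
  · obtain ⟨rfl, st⟩ := k2 c mc
    have w := h.conj hG (hG.big hk) fun {a} ha =>
      ⟨hG.mt (hG.mt hk ha) (hG.iv hk), hG.mt (hG.mt (hG.iv hk) ha) hk⟩
    rw [h.inv hk] at w
    have lt := hG.lt (hG.mt (hG.mt hk hg) (hG.iv hk))
    have W := (van_nil (mon (ac (byt T g) v))).fixW lt
      (by rw [← cj, ac_cj (hG.big hk) (hG.big hg), e])
    have s := allIn_spec st lt k
    simp only [← cj.eq_1, Bool.or_eq_true, Nat.beq_eq, n0, false_or] at s W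
    refine hcs c mc P _ ⟨w, fun {a} ha => ?_⟩
    have s := allIn_spec s (hG.lt ha) ha
    cases e : tb c.H a
    · simp only [e, cond_false] at s
      refine ⟨fun f => ?_, fun f => nomatch f⟩
      exact absurd ((fix_iff (by norm_num) _).1 ((W.ins ((fix_iff (hG.lt ha) _).2 f)).mem s))
        (neg_ne_self (w.ne hG))
    · simp only [e, cond_true] at s
      exact ⟨fun _ => rfl, fun _ => (fix_iff (hG.lt ha) _).1 (W.mem s)⟩

end Pool.Agent.P.MP_708877_co
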